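import Mathlib
open Set

namespace H11ST
set_option linter.unusedSectionVars false
variable {α : Type*} [DecidableEq α]

/-- the abstract branch structure on a finite set of points -/
structure Branches (Y : Finset α) (W : α → Fin 3 → Set α) : Prop where
  h1 : ∀ y ∈ Y, ∀ i j, i ≠ j → ∀ z, z ∈ W y i → z ∈ W y j → False
  h2 : ∀ y ∈ Y, ∀ i, y ∉ W y i
  h3 : ∀ y ∈ Y, ∀ y' ∈ Y, y' ≠ y → ∃ i, y' ∈ W y i
  h4 : ∀ y ∈ Y, ∀ y' ∈ Y, y ≠ y' → ∀ i', y ∉ W y' i' → ∀ l, y' ∈ W y l → W y' i' ⊆ W y l

open Classical in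
/-- pairs whose branch contains no point of `Y` -/
noncomputable def leaves (Y : Finset α) (W : α → Fin 3 → Set α) : Finset (α × Fin 3) :=
  (Y ×ˢ Finset.univ).filter (fun q => ∀ z ∈ Y, z ∉ W q.1 q.2)

theorem mem_leaves {Y : Finset α} {W : α → Fin 3 → Set α} {q : α × Fin 3} :
    q ∈ leaves Y W ↔ q.1 ∈ Y ∧ ∀ z ∈ Y, z ∉ W q.1 q.2 := by
  classical
  simp [leaves]

theorem Branches.sub {Y Y' : Finset α} {W : α → Fin 3 → Set α} (B : Branches Y W) (h : Y' ⊆ Y) :
    Branches Y' W :=
  ⟨fun y hy => B.h1 y (h hy), fun y hy => B.h2 y (h hy),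
    fun y hy y' hy' => B.h3 y (h hy) y' (h hy'), fun y hy y' hy' => B.h4 y (h hy) y' (h hy')⟩

theorem Branches.disj {Y : Finset α} {W : α → Fin 3 → Set α} (B : Branches Y W) :
    ∀ q ∈ leaves Y W, ∀ q' ∈ leaves Y W, q ≠ q' → ∀ z, z ∈ W q.1 q.2 → z ∈ W q'.1 q'.2 → False := by
  rintro ⟨y, i⟩ hq ⟨y', i'⟩ hq' hne z hz hz'
  rw [mem_leaves] at hq hq'
  simp only at hq hq' hz hz'
  by_cases hy : y = y'
  · subst hy
    exact B.h1 y hq.1 i i' (fun h => hne (by rw [h])) z hz hz'
  · obtain ⟨l, hl⟩ := B.h3 y' hq'.1 y hq.1 hy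
    have hsub := B.h4 y' hq'.1 y hq.1 (Ne.symm hy) i (hq.2 y' hq'.1) l hl
    have hli : l ≠ i' := by
      rintro rfl
      exact hq'.2 y hq.1 hl
    exact B.h1 y' hq'.1 l i' hli z (hsub hz) hz'

theorem Branches.count (W : α → Fin 3 → Set α) : ∀ n : ℕ, ∀ Y : Finset α, Branches Y W →
    Y.card = n + 1 → n + 3 ≤ (leaves Y W).card := by
  classical
  intro n
  induction n with
  | zero =>
    intro Y B hY
    obtain ⟨y, rfl⟩ := Finset.card_eq_one.1 hY
    have : leaves {y} W = ({y} : Finset α) ×ˢ Finset.univ := by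
      rw [leaves, Finset.filter_true_of_mem]
      rintro ⟨a, i⟩ ha z hz
      simp only [Finset.mem_product, Finset.mem_singleton, Finset.mem_univ, and_true] at ha hz
      subst ha; subst hz
      exact B.h2 _ (Finset.mem_singleton_self _) i
    rw [this, Finset.card_product]
    simp
  | succ n ih =>
    intro Y B hY
    -- the non-leaf pairs
    set NL := (Y ×ˢ (Finset.univ : Finset (Fin 3))).filter (fun q => ∃ z ∈ Y, z ∈ W q.1 q.2) with hNL
    have hne : NL.Nonempty := by
      obtain ⟨a, ha, b, hb, hab⟩ := Finset.one_lt_card.1 (by omega : 1 < Y.card)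
      obtain ⟨i, hi⟩ := B.h3 a ha b hb (Ne.symm hab)
      refine ⟨(a, i), ?_⟩
      rw [hNL, Finset.mem_filter, Finset.mem_product]
      exact ⟨⟨ha, Finset.mem_univ _⟩, b, hb, hi⟩
    obtain ⟨⟨y, i⟩, hq, hmin⟩ := Finset.exists_min_image NL
      (fun q => (Y.filter (fun z => z ∈ W q.1 q.2)).card) hne
    simp only [hNL, Finset.mem_filter, Finset.mem_product, Finset.mem_univ, and_true] at hq
    obtain ⟨hyY, y0, hy0Y, hy0⟩ := hq
    have hyy0 : y ≠ y0 := by
      rintro rfl
      exact B.h2 y hyY i hy0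
    obtain ⟨l0, hl0⟩ := B.h3 y0 hy0Y y hyY hyy0
    -- the other two pairs at y0 are leaves
    have hleaf : ∀ l, l ≠ l0 → (y0, l) ∈ leaves Y W := by
      intro l hl
      rw [mem_leaves]
      refine ⟨hy0Y, fun z hz hzW => ?_⟩
      have hyl : y ∉ W y0 l := fun h => B.h1 y0 hy0Y l l0 hl y h hl0
      have hsub := B.h4 y hyY y0 hy0Y hyy0 l hyl i hy0
      have hmem : (y0, l) ∈ NL := by
        simp only [hNL, Finset.mem_filter, Finset.mem_product, Finset.mem_univ, and_true]
        exact ⟨hy0Y, z, hz, hzW⟩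
      have hle := hmin _ hmem
      simp only at hle
      have hlt : (Y.filter (fun z => z ∈ W y0 l)).card < (Y.filter (fun z => z ∈ W y i)).card := by
        apply Finset.card_lt_card
        refine ⟨fun a ha => ?_, fun h => ?_⟩
        · rw [Finset.mem_filter] at ha ⊢
          exact ⟨ha.1, hsub ha.2⟩
        · have : y0 ∈ Y.filter (fun z => z ∈ W y0 l) := h (Finset.mem_filter.2 ⟨hy0Y, hy0⟩)
          exact B.h2 y0 hy0Y l (Finset.mem_filter.1 this).2
      omega
    -- remove y0
    have hcard : (Y.erase y0).card = n + 1 := by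
      rw [Finset.card_erase_of_mem hy0Y]; omega
    have hB' : Branches (Y.erase y0) W := B.sub (Finset.erase_subset _ _)
    have hih := ih (Y.erase y0) hB' hcard
    -- pairs that become leaves
    set Wn := (leaves (Y.erase y0) W).filter (fun q => y0 ∈ W q.1 q.2) with hWn
    have hWn1 : Wn.card ≤ 1 := by
      rw [Finset.card_le_one]
      rintro ⟨a, p⟩ ha ⟨b, q⟩ hb
      rw [hWn, Finset.mem_filter, mem_leaves] at ha hb
      simp only at ha hb
      by_cases hab : a = b
      · subst hab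
        by_contra hpq
        exact hB'.h1 a ha.1.1 p q (fun h => hpq (by rw [h])) y0 ha.2 hb.2
      · exfalso
        obtain ⟨l, hl⟩ := hB'.h3 b hb.1.1 a ha.1.1 hab
        have hsub := hB'.h4 b hb.1.1 a ha.1.1 (Ne.symm hab) p (ha.1.2 b hb.1.1) l hl
        have hlq : l = q := by
          by_contra hlq
          exact hB'.h1 b hb.1.1 l q hlq y0 (hsub ha.2) hb.2
        subst hlq
        exact hb.1.2 a ha.1.1 hl
    -- old leaves away from y0
    set Lo := (leaves Y W).filter (fun q => q.1 ≠ y0) with hLo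
    set Ln := (leaves Y W).filter (fun q => q.1 = y0) with hLn
    have hsplit : (leaves Y W).card = Ln.card + Lo.card := by
      rw [hLn, hLo]
      exact (Finset.card_filter_add_card_filter_not (s := leaves Y W) (fun q => q.1 = y0)).symm
    have hLn2 : 2 ≤ Ln.card := by
      have : ((Finset.univ.erase l0).image (fun l : Fin 3 => (y0, l))) ⊆ Ln := by
        intro q hq
        rw [Finset.mem_image] at hq
        obtain ⟨l, hl, rfl⟩ := hq
        rw [hLn, Finset.mem_filter]
        exact ⟨hleaf l (Finset.ne_of_mem_erase hl), rfl⟩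
      refine le_trans ?_ (Finset.card_le_card this)
      rw [Finset.card_image_of_injective _ (fun a b h => (Prod.mk.inj h).2),
        Finset.card_erase_of_mem (Finset.mem_univ _)]
      simp
    have hsub : leaves (Y.erase y0) W ⊆ Lo ∪ Wn := by
      rintro ⟨a, p⟩ ha
      rw [Finset.mem_union]
      by_cases h : y0 ∈ W a p
      · right
        rw [hWn, Finset.mem_filter]
        exact ⟨ha, h⟩
      · left
        rw [mem_leaves] at ha
        simp only at ha
        rw [hLo, Finset.mem_filter, mem_leaves]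
        refine ⟨⟨Finset.mem_of_mem_erase ha.1, fun z hz => ?_⟩, Finset.ne_of_mem_erase ha.1⟩
        by_cases hz0 : z = y0
        · subst hz0; exact h
        · exact ha.2 z (Finset.mem_erase.2 ⟨hz0, hz⟩)
    have h5 := (Finset.card_le_card hsub).trans (Finset.card_union_le _ _)
    omega

end H11ST
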