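import Mathlib
open MeasureTheory Metric Set Filter Topology
open scoped ENNReal NNReal

namespace H11ST
set_option linter.unusedSectionVars false
variable {V : Type*} [NormedAddCommGroup V] [InnerProductSpace ℝ V] [MeasurableSpace V] [BorelSpace V]

/-- countable covers with small diameters and almost optimal sum of the diameters -/
theorem exists_cover {W : Set V} (hW : μH[1] W ≠ ∞) {η : ℝ≥0∞} (hη : 0 < η) :
    ∃ t : ℕ → Set V, W ⊆ ⋃ n, t n ∧ (∀ n, ediam (t n) ≤ η) ∧
      ∑' n, (⨆ _ : (t n).Nonempty, ediam (t n)) ≤ μH[1] W + η := by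
  have h1 : (⨅ (t : ℕ → Set V) (_ : W ⊆ ⋃ n, t n) (_ : ∀ n, ediam (t n) ≤ η),
      ∑' n, ⨆ _ : (t n).Nonempty, ediam (t n) ^ (1 : ℝ)) ≤ μH[1] W := by
    rw [Measure.hausdorffMeasure_apply]
    exact le_iSup₂ (f := fun (r : ℝ≥0∞) (_ : 0 < r) => (⨅ (t : ℕ → Set V) (_ : W ⊆ ⋃ n, t n)
      (_ : ∀ n, ediam (t n) ≤ r), ∑' n, ⨆ _ : (t n).Nonempty, ediam (t n) ^ (1 : ℝ))) η hη
  have h2 := lt_of_le_of_lt h1 (ENNReal.lt_add_right hW hη.ne')
  simp only [iInf_lt_iff] at h2
  obtain ⟨t, ht1, ht2, ht3⟩ := h2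
  refine ⟨t, ht1, ht2, ?_⟩
  simpa using ht3.le

/-- **Eilenberg's inequality** for the distance to a point, with a constant lower bound. -/
theorem eilenberg (S : Set V) (x : V) (a b : ℝ) (m : ℕ)
    (h : ∀ ρ ∈ Ioo a b, (m : ℕ∞) ≤ (S ∩ sphere x ρ).encard) :
    (m : ℝ≥0∞) * ENNReal.ofReal (b - a) ≤ μH[1] (S ∩ (ball x b \ closedBall x a)) := by
  classical
  set W := S ∩ (ball x b \ closedBall x a) with hWdef
  by_cases hW : μH[1] W = ∞
  · rw [hW]; exact le_top
  have hk : ∀ k : ℕ, (0 : ℝ≥0∞) < ((k : ℝ≥0∞) + 1)⁻¹ := by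
    intro k
    rw [ENNReal.inv_pos]
    exact ENNReal.add_ne_top.2 ⟨ENNReal.natCast_ne_top _, ENNReal.one_ne_top⟩
  choose t ht1 ht2 ht3 using fun k : ℕ => exists_cover hW (hk k)
  set f : V → ℝ := fun z => dist z x with hf
  set J : ℕ → ℕ → Set ℝ := fun k n => toMeasurable volume (f '' (t k n)) with hJ
  set g : ℕ → ℝ → ℝ≥0∞ := fun k ρ => ∑' n, (J k n).indicator (fun _ => (1 : ℝ≥0∞)) ρ with hg
  have hgm : ∀ k, Measurable (g k) := by
    intro k
    exact Measurable.tsum fun n => measurable_const.indicator (measurableSet_toMeasurable _ _)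
  have hlim : Tendsto (fun k : ℕ => ((k : ℝ≥0∞) + 1)⁻¹) atTop (𝓝 0) := by
    have := ENNReal.tendsto_inv_nat_nhds_zero
    have h2 := (tendsto_add_atTop_iff_nat (f := fun k : ℕ => ((k : ℝ≥0∞))⁻¹) 1).2 this
    simpa using h2
  have hint : ∀ k, ∫⁻ ρ in Ioo a b, g k ρ ≤ μH[1] W + ((k : ℝ≥0∞) + 1)⁻¹ := by
    intro k
    calc ∫⁻ ρ in Ioo a b, g k ρ ≤ ∫⁻ ρ, g k ρ := setLIntegral_le_lintegral _ _
      _ = ∑' n, ∫⁻ ρ, (J k n).indicator (fun _ => (1 : ℝ≥0∞)) ρ := by
          rw [hg]
          exact lintegral_tsum fun n =>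
            (measurable_const.indicator (measurableSet_toMeasurable _ _)).aemeasurable
      _ ≤ ∑' n, (⨆ _ : (t k n).Nonempty, ediam (t k n)) := by
          refine ENNReal.tsum_le_tsum fun n => ?_
          rw [lintegral_indicator_const (measurableSet_toMeasurable _ _), one_mul,
            measure_toMeasurable]
          rcases (t k n).eq_empty_or_nonempty with he | hne
          · rw [he]; simp
          · refine le_trans ?_ (le_iSup (fun _ : (t k n).Nonempty => ediam (t k n)) hne)
            refine (Real.volume_le_diam _).trans ?_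
            have hL : LipschitzWith 1 f := LipschitzWith.dist_left x
            simpa using hL.ediam_image_le (t k n)
      _ ≤ _ := ht3 k
  have hlow : ∀ ρ ∈ Ioo a b, (m : ℝ≥0∞) ≤ liminf (fun k => g k ρ) atTop := by
    intro ρ hρ
    obtain ⟨F0, hF0, hF0c⟩ := Set.exists_subset_encard_eq (h ρ hρ)
    have hF0fin : F0.Finite := Set.finite_of_encard_eq_coe hF0c
    set F := hF0fin.toFinset with hF
    have hFc : F.card = m := by
      have := hF0fin.encard_eq_coe_toFinset_card
      rw [hF0c] at this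
      exact_mod_cast this.symm
    have hev : ∀ᶠ k : ℕ in atTop, ∀ p ∈ F, ∀ q ∈ F, p ≠ q → ((k : ℝ≥0∞) + 1)⁻¹ < edist p q := by
      rw [Filter.eventually_all_finset]
      intro p _
      rw [Filter.eventually_all_finset]
      intro q _
      by_cases hpq : p = q
      · exact Eventually.of_forall fun k hne => absurd hpq hne
      · filter_upwards [hlim.eventually_lt_const (edist_pos.2 hpq)] with k hk' _
        exact hk'
    refine le_liminf_of_le ?_ ?_
    · isBoundedDefault
    · filter_upwards [hev] with k hk'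
      have hFW : ∀ p ∈ F, p ∈ W := by
        intro p hp
        have hp' : p ∈ F0 := by simpa [hF] using hp
        have hps := hF0 hp'
        refine ⟨hps.1, ?_, ?_⟩
        · rw [mem_ball, mem_sphere.1 hps.2]; exact hρ.2
        · rw [mem_closedBall, mem_sphere.1 hps.2, not_le]; exact hρ.1
      have hex : ∀ p ∈ F, ∃ n, p ∈ t k n := by
        intro p hp
        exact mem_iUnion.1 (ht1 k (hFW p hp))
      choose! N hN using hex
      have hinj : ∀ p ∈ F, ∀ q ∈ F, N p = N q → p = q := by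
        intro p hp q hq hpq
        by_contra hne
        have h1 := hk' p hp q hq hne
        have h2 : edist p q ≤ ediam (t k (N p)) :=
          edist_le_ediam_of_mem (hN p hp) (by rw [hpq]; exact hN q hq)
        exact absurd (h2.trans (ht2 k _)) (not_le.2 h1)
      calc (m : ℝ≥0∞) = ∑ n ∈ F.image N, (1 : ℝ≥0∞) := by
            rw [Finset.sum_const, Finset.card_image_of_injOn (fun p hp q hq => hinj p hp q hq), hFc]
            simp
        _ ≤ ∑ n ∈ F.image N, (J k n).indicator (fun _ => (1 : ℝ≥0∞)) ρ := by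
            refine Finset.sum_le_sum fun n hn => ?_
            obtain ⟨p, hp, rfl⟩ := Finset.mem_image.1 hn
            have hmem : ρ ∈ J k (N p) := by
              refine subset_toMeasurable _ _ ⟨p, hN p hp, ?_⟩
              have hp' : p ∈ F0 := by simpa [hF] using hp
              exact mem_sphere.1 (hF0 hp').2
            rw [indicator_of_mem hmem]
        _ ≤ g k ρ := ENNReal.sum_le_tsum _
  calc (m : ℝ≥0∞) * ENNReal.ofReal (b - a) = ∫⁻ _ρ in Ioo a b, (m : ℝ≥0∞) := by
        rw [setLIntegral_const, Real.volume_Ioo]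
    _ ≤ ∫⁻ ρ in Ioo a b, liminf (fun k => g k ρ) atTop := by
        refine setLIntegral_mono' measurableSet_Ioo hlow
    _ ≤ liminf (fun k => ∫⁻ ρ in Ioo a b, g k ρ) atTop := lintegral_liminf_le hgm
    _ ≤ liminf (fun k : ℕ => μH[1] W + ((k : ℝ≥0∞) + 1)⁻¹) atTop := by
        refine liminf_le_liminf (Eventually.of_forall hint) ?_ ?_ <;> isBoundedDefault
    _ = μH[1] W := by
        have : Tendsto (fun k : ℕ => μH[1] W + ((k : ℝ≥0∞) + 1)⁻¹) atTop (𝓝 (μH[1] W + 0)) :=
          tendsto_const_nhds.add hlim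
        rw [add_zero] at this
        exact this.liminf_eq

end H11ST
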