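import Pool.Agent.H11ST.Cut
import Pool.Agent.H11ST.Count
import Pool.Agent.H11ST.Meas
open MeasureTheory Metric Set Filter Topology
open scoped ENNReal NNReal

namespace H11ST
set_option linter.unusedSectionVars false
variable {V : Type*} [NormedAddCommGroup V] [InnerProductSpace ℝ V] [MeasurableSpace V] [BorelSpace V]

/-- `S` is closed, `S ∪ A` is connected, `A` does not meet the ball `ball x r`, the set `S` has finite
length in this ball, and no change of `S` inside the ball which keeps `S ∪ A` connected makes `S`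
shorter. -/
structure LocAdm (A S : Set V) (x : V) (r : ℝ) : Prop where
  rpos : 0 < r
  hS : IsClosed S
  conn : IsConnected (S ∪ A)
  far : ∀ z ∈ A, z ∉ ball x r
  fin : μH[1] (S ∩ ball x r) ≠ ∞
  minim : ∀ T : Set V, IsClosed T → IsConnected (T ∪ A) → T \ ball x r = S \ ball x r →
    μH[1] (S ∩ ball x r) ≤ μH[1] (T ∩ ball x r)

theorem seg_sub_arm (y v : V) {a b : ℝ} (h : a ≤ b) :
    segment ℝ (y + a • v) (y + b • v) ⊆ arm y v a b := by
  rw [segment_eq_image]
  rintro z ⟨θ, ⟨h0, h1⟩, rfl⟩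
  refine ⟨(1 - θ) * a + θ * b, ⟨by nlinarith, by nlinarith⟩, ?_⟩
  simp only [smul_add, add_smul, mul_smul]
  have : (1 - θ) • y + θ • y = y := by rw [← add_smul]; simp
  rw [← sub_eq_zero]
  have e : y + ((1 - θ) • a • v + θ • b • v) - ((1 - θ) • y + (1 - θ) • a • v + (θ • y + θ • b • v))
      = y - ((1 - θ) • y + θ • y) := by abel
  rw [e, this, sub_self]

theorem rb_pos {S : Set V} {y : V} {u : Fin 3 → V} {ε : ℝ} (T : Tri S y u ε) (i : Fin 3) :
    0 < μH[1] (S ∩ rb y u ε i) := by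
  have hε := T.pos
  have h1 : segment ℝ (y + (3 * ε / 8) • u i) (y + (5 * ε / 8) • u i) ⊆ S ∩ rb y u ε i := by
    refine (seg_sub_arm y (u i) (by linarith)).trans ?_
    rintro z ⟨s, ⟨h1, h2⟩, rfl⟩
    exact ⟨T.mem (by linarith) (by linarith), T.mid_rb (by linarith) (by linarith)⟩
  refine lt_of_lt_of_le ?_ (measure_mono h1)
  rw [hausdorffMeasure_segment, edist_pos]
  intro h
  have h2 : dist (y + (3 * ε / 8) • u i) (y + (5 * ε / 8) • u i) = |3 * ε / 8 - 5 * ε / 8| :=
    T.dist_same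
  rw [h, dist_self] at h2
  have h3 : |3 * ε / 8 - 5 * ε / 8| ≠ 0 := by
    rw [abs_ne_zero]; intro h4; linarith
  exact h3 h2.symm

namespace LocAdm
variable {A S : Set V} {x : V} {r : ℝ}

theorem strict (L : LocAdm A S x r) {T b : Set V} (hT : IsClosed T) (hc : IsConnected (T ∪ A))
    (heq : T \ ball x r = S \ ball x r) (hsub : T ⊆ S) (hb : b ⊆ ball x r)
    (hTb : ∀ z ∈ T, z ∉ b) (hpos : 0 < μH[1] (S ∩ b)) : False := by
  have h1 := L.minim T hT hc heq
  have hfin : μH[1] (T ∩ ball x r) ≠ ∞ :=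
    ne_top_of_le_ne_top L.fin (measure_mono (inter_subset_inter_left _ hsub))
  have h2 : μH[1] (T ∩ ball x r) + μH[1] (S ∩ b) ≤ μH[1] (S ∩ ball x r) := by
    rw [← measure_union' (μ := μH[1]) _ (hT.measurableSet.inter measurableSet_ball)]
    · refine measure_mono ?_
      rintro z (h | h)
      · exact ⟨hsub h.1, h.2⟩
      · exact ⟨h.1, hb h.2⟩
    · rw [disjoint_left]
      rintro z h h'
      exact hTb z h.1 h'.2
  have h3 := h2.trans h1
  have h4 : μH[1] (S ∩ b) ≤ 0 := by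
    have : μH[1] (T ∩ ball x r) + μH[1] (S ∩ b) ≤ μH[1] (T ∩ ball x r) + 0 := by simpa using h3
    exact (ENNReal.add_le_add_iff_left hfin).1 this
  exact absurd hpos (not_lt.2 h4)

theorem triX (L : LocAdm A S x r) {y : V} {u : Fin 3 → V} {ε : ℝ} (T : Tri S y u ε)
    (hb : ball y ε ⊆ ball x r) : Tri (S ∪ A) y u ε := by
  refine ⟨T.pos, T.norm, T.ang, ?_⟩
  rw [← T.eq]
  ext z
  constructor
  · rintro ⟨h | h, hz⟩
    · exact ⟨h, hz⟩
    · exact absurd (hb hz) (L.far z h)
  · rintro ⟨h, hz⟩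
    exact ⟨Or.inl h, hz⟩

variable {y : V} {u : Fin 3 → V} {ε : ℝ} {i : Fin 3}

theorem rb_sub (T : Tri S y u ε) (hb : ball y ε ⊆ ball x r) : rb y u ε i ⊆ ball x r :=
  ((T.rb_subset i).trans (ball_subset_ball (by linarith [T.pos]))).trans hb

theorem not_preconn (L : LocAdm A S x r) (T : Tri S y u ε) (hb : ball y ε ⊆ ball x r) :
    ¬ IsPreconnected ((S ∪ A) \ rb y u ε i) := by
  intro hp
  have hrb : rb y u ε i ⊆ ball x r := rb_sub T hb
  have hε := T.pos
  have hTA : (S \ rb y u ε i) ∪ A = (S ∪ A) \ rb y u ε i := by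
    ext z
    constructor
    · rintro (h | h)
      · exact ⟨Or.inl h.1, h.2⟩
      · exact ⟨Or.inr h, fun h' => L.far z h (hrb h')⟩
    · rintro ⟨h | h, h'⟩
      · exact Or.inl ⟨h, h'⟩
      · exact Or.inr h
  refine L.strict (T := S \ rb y u ε i) (b := rb y u ε i) (L.hS.sdiff isOpen_ball) ?_ ?_
    sdiff_subset hrb (fun z hz => hz.2) (rb_pos T i)
  · rw [hTA]
    refine ⟨⟨y + (ε / 4) • u i, Or.inl (T.mem (by linarith) (by linarith)), T.low_not_rb le_rfl⟩, hp⟩
  · ext z
    constructor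
    · rintro ⟨h, h'⟩
      exact ⟨h.1, h'⟩
    · rintro ⟨h, h'⟩
      exact ⟨⟨h, fun hh => h' (hrb hh)⟩, h'⟩

/-- the far side of an arm reaches every sphere around the ball -/
theorem reach (L : LocAdm A S x r) (T : Tri S y u ε) {ρ : ℝ} (hb : ball y ε ⊆ ball x ρ)
    (hρ : ρ < r) {U W : Set V} (C : Cut (S ∪ A) y u ε i U W) :
    ∃ z ∈ W, z ∈ S ∩ sphere x ρ := by
  have hbr : ball y ε ⊆ ball x r := hb.trans (ball_subset_ball hρ.le)
  have hrb : rb y u ε i ⊆ ball x r := rb_sub T hbr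
  have TX := L.triX T hbr
  have hsr : sphere x ρ ⊆ ball x r := fun z hz => by
    rw [mem_ball, mem_sphere.1 hz]; exact hρ
  suffices h : ∃ z ∈ W, z ∈ sphere x ρ by
    obtain ⟨z, hz, hzs⟩ := h
    refine ⟨z, hz, ?_, hzs⟩
    rcases (C.W_sub hz).1 with h | h
    · exact h
    · exact absurd (hsr hzs) (L.far z h)
  by_contra hcon
  push Not at hcon
  have hWb : W ⊆ ball x ρ := W_in_ball L.conn.isPreconnected TX C hb hcon
  have hWr : W ⊆ ball x r := hWb.trans (ball_subset_ball hρ.le)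
  have hAU : ∀ z ∈ A, z ∈ U := by
    intro z hz
    rcases C.cases (Or.inr hz : z ∈ S ∪ A) (fun h => L.far z hz (hrb h)) with h | h
    · exact h
    · exact absurd (hWr h) (L.far z hz)
  have hTA : (S ∩ U) ∪ A = U := by
    ext z
    constructor
    · rintro (h | h)
      · exact h.2
      · exact hAU z h
    · intro h
      rcases (C.U_sub h).1 with h' | h'
      · exact Or.inl ⟨h', h⟩
      · exact Or.inr h'
  refine L.strict (T := S ∩ U) (b := rb y u ε i) (L.hS.inter C.hU) ?_ ?_ inter_subset_left hrb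
    (fun z hz => (C.U_sub hz.2).2) (rb_pos T i)
  · rw [hTA]
    exact ⟨⟨_, C.a_mem⟩, U_preconn L.conn.isPreconnected TX C⟩
  · ext z
    constructor
    · rintro ⟨h, h'⟩
      exact ⟨h.1, h'⟩
    · rintro ⟨h, h'⟩
      refine ⟨⟨h, ?_⟩, h'⟩
      rcases C.cases (Or.inl h : z ∈ S ∪ A) (fun hh => h' (hrb hh)) with h2 | h2
      · exact h2
      · exact absurd (hWr h2) h'

/-- **Counting.** If `Y` is a nonempty finite set of branching points in `ball x ρ₀` then every sphere
`sphere x ρ` with `ρ₀ ≤ ρ < r` contains at least `|Y| + 2` points of `S`. -/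
theorem sphere_count (L : LocAdm A S x r) (hA : IsClosed A) (Y : Finset V) (hY : Y.Nonempty) {ρ₀ : ℝ}
    (hb : ∀ y ∈ Y, y ∈ ball x ρ₀) (hT : ∀ y ∈ Y, ∃ u ε, Tri S y u ε) {ρ : ℝ} (h1 : ρ₀ ≤ ρ)
    (h2 : ρ < r) : ((Y.card + 2 : ℕ) : ℕ∞) ≤ (S ∩ sphere x ρ).encard := by
  classical
  choose! u ε' hu using hT
  have e1 : ∀ᶠ ε : ℝ in 𝓝[>] 0, ∀ y ∈ Y, Tri S y (u y) ε ∧ ball y ε ⊆ ball x ρ := by
    rw [Filter.eventually_all_finset]
    intro y hy
    have hyb := hb y hy
    rw [mem_ball] at hyb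
    have hm : 0 < min (ε' y) (ρ - dist y x) := lt_min (hu y hy).pos (by linarith)
    filter_upwards [Ioo_mem_nhdsGT hm] with ε hε
    refine ⟨(hu y hy).mono hε.1 (hε.2.le.trans (min_le_left _ _)), ?_⟩
    refine ball_subset_ball' ?_
    have := hε.2.le.trans (min_le_right _ _)
    linarith
  have e2 : ∀ᶠ ε : ℝ in 𝓝[>] 0, ∀ y ∈ Y, ∀ y' ∈ Y, y ≠ y' → Disjoint (ball y ε) (ball y' ε) := by
    rw [Filter.eventually_all_finset]
    intro y hy
    rw [Filter.eventually_all_finset]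
    intro y' hy'
    by_cases hyy : y = y'
    · exact Eventually.of_forall fun _ h => absurd hyy h
    · have hm : 0 < dist y y' / 2 := half_pos (dist_pos.2 hyy)
      filter_upwards [Ioo_mem_nhdsGT hm] with ε hε _
      exact ball_disjoint_ball (by linarith [hε.2])
  obtain ⟨ε, hε1, hε2⟩ := (e1.and e2).exists
  have hX : IsClosed (S ∪ A) := L.hS.union hA
  have hXc := L.conn.isPreconnected
  have hcut : ∀ y i, y ∈ Y → ∃ U W, Cut (S ∪ A) y (u y) ε i U W := by
    intro y i hy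
    have hbr : ball y ε ⊆ ball x r := (hε1 y hy).2.trans (ball_subset_ball h2.le)
    exact cut_exists hX hXc (L.triX (hε1 y hy).1 hbr) (L.not_preconn (hε1 y hy).1 hbr)
  choose! U W hC using hcut
  have TX : ∀ y ∈ Y, Tri (S ∪ A) y (u y) ε := fun y hy =>
    L.triX (hε1 y hy).1 ((hε1 y hy).2.trans (ball_subset_ball h2.le))
  have hB : Branches Y W := by
    refine ⟨?_, ?_, ?_, ?_⟩
    · intro y hy i j hij
      exact disj_same hXc (TX y hy) hij (hC y i hy) (hC y j hy)
    · intro y hy i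
      exact (hC y i hy).y_not (TX y hy)
    · intro y hy y' hy' hne
      refine exists_side hX hXc (TX y hy) (fun i => hC y i hy) (TX y' hy').y_mem ?_
      intro hmem
      exact disjoint_left.1 (hε2 y hy y' hy' (Ne.symm hne)) hmem (mem_ball_self (TX y hy).pos)
    · intro y hy y' hy' hne i' hi' l hl
      exact nest hXc (TX y hy) (TX y' hy') (hε2 y hy y' hy' hne) (hC y l hy) (hC y' i' hy') hi' hl
  have hcard : Y.card + 2 ≤ (leaves Y W).card := by
    have hpos := hY.card_pos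
    have := Branches.count W (Y.card - 1) Y hB (by omega)
    omega
  have hpt : ∀ q ∈ leaves Y W, ∃ z ∈ W q.1 q.2, z ∈ S ∩ sphere x ρ := by
    intro q hq
    rw [mem_leaves] at hq
    exact L.reach (hε1 q.1 hq.1).1 (hε1 q.1 hq.1).2 h2 (hC q.1 q.2 hq.1)
  choose! f hf1 hf2 using hpt
  have hinj : Set.InjOn f (leaves Y W : Set (V × Fin 3)) := by
    intro q hq q' hq' hqq
    by_contra hne
    exact hB.disj q hq q' hq' hne (f q) (hf1 q hq) (by rw [hqq]; exact hf1 q' hq')
  calc ((Y.card + 2 : ℕ) : ℕ∞) ≤ ((leaves Y W).card : ℕ∞) := by exact_mod_cast hcard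
    _ = (leaves Y W : Set (V × Fin 3)).encard := (Set.encard_coe_eq_coe_finsetCard _).symm
    _ = (f '' (leaves Y W : Set (V × Fin 3))).encard := hinj.encard_image.symm
    _ ≤ (S ∩ sphere x ρ).encard := by
        refine Set.encard_le_encard ?_
        rintro z ⟨q, hq, rfl⟩
        exact hf2 q hq

end LocAdm
end H11ST
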