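import Pool.Agent.H11ST.Comp
open MeasureTheory Metric Set Filter Topology
open scoped ENNReal NNReal

namespace H11ST
set_option linter.unusedSectionVars false
variable {V : Type*} [NormedAddCommGroup V] [InnerProductSpace ℝ V] [MeasurableSpace V] [BorelSpace V]

/-- a closed connected subset of the closed ball which contains the centre and has length at most `c` -/
structure Star (x : V) (ρ : ℝ) (D : Set V) (c : ℝ) : Prop where
  closed : IsClosed D
  conn : IsPreconnected D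
  ctr : x ∈ D
  sub : D ⊆ closedBall x ρ
  nonneg : 0 ≤ c
  len : μH[1] D ≤ ENNReal.ofReal c

namespace Star
variable {x : V} {ρ : ℝ} {D D' : Set V} {c c' : ℝ}

theorem single (h : 0 ≤ ρ) : Star x ρ {x} 0 where
  closed := isClosed_singleton
  conn := isPreconnected_singleton
  ctr := rfl
  sub := by rw [singleton_subset_iff]; exact mem_closedBall_self h
  nonneg := le_rfl
  len := by
    have h1 := hausdorffMeasure_segment x x
    rw [segment_same, edist_self] at h1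
    rw [h1]; exact bot_le

theorem union (h : Star x ρ D c) (h' : Star x ρ D' c') : Star x ρ (D ∪ D') (c + c') where
  closed := h.closed.union h'.closed
  conn := IsPreconnected.union x h.ctr h'.ctr h.conn h'.conn
  ctr := Or.inl h.ctr
  sub := union_subset h.sub h'.sub
  nonneg := add_nonneg h.nonneg h'.nonneg
  len := by
    rw [ENNReal.ofReal_add h.nonneg h'.nonneg]
    exact (measure_union_le _ _).trans (add_le_add h.len h'.len)

theorem mono (h : Star x ρ D c) (hc : c ≤ c') : Star x ρ D c' where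
  closed := h.closed
  conn := h.conn
  ctr := h.ctr
  sub := h.sub
  nonneg := h.nonneg.trans hc
  len := h.len.trans (ENNReal.ofReal_le_ofReal hc)

theorem extend (h : Star x ρ D c) {q p : V} (hq : q ∈ D) (hp : p ∈ closedBall x ρ) :
    Star x ρ (D ∪ segment ℝ q p) (c + dist q p) where
  closed := h.closed.union (by
    rw [segment_eq_image]
    exact (isCompact_Icc.image (by fun_prop)).isClosed)
  conn := IsPreconnected.union q hq (left_mem_segment ℝ q p) h.conn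
    (convex_segment q p).isPreconnected
  ctr := Or.inl h.ctr
  sub := union_subset h.sub ((convex_closedBall x ρ).segment_subset (h.sub hq) hp)
  nonneg := add_nonneg h.nonneg dist_nonneg
  len := by
    rw [ENNReal.ofReal_add h.nonneg dist_nonneg]
    refine (measure_union_le _ _).trans (add_le_add h.len ?_)
    rw [hausdorffMeasure_segment, edist_dist]

/-- the spokes -/
theorem spokes (h : 0 ≤ ρ) (P : Finset V) (hP : ∀ p ∈ P, p ∈ closedBall x ρ) :
    ∃ D, Star x ρ D (P.card * ρ) ∧ ∀ p ∈ P, p ∈ D := by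
  classical
  induction P using Finset.induction_on with
  | empty =>
    refine ⟨{x}, ?_, by simp⟩
    simpa using Star.single (x := x) h
  | insert a P ha ih =>
    obtain ⟨D, hD, hPD⟩ := ih fun p hp => hP p (Finset.mem_insert_of_mem hp)
    have hap : a ∈ closedBall x ρ := hP a (Finset.mem_insert_self _ _)
    refine ⟨D ∪ segment ℝ x a, (hD.extend hD.ctr hap).mono ?_, ?_⟩
    · rw [Finset.card_insert_of_notMem ha]
      push_cast
      have : dist x a ≤ ρ := by rw [dist_comm]; exact mem_closedBall.1 hap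
      linarith
    · intro p hp
      rcases Finset.mem_insert.1 hp with rfl | hp
      · exact Or.inr (right_mem_segment ℝ _ _)
      · exact Or.inl (hPD p hp)

/-- a tripod through `x`, `p`, `q` with centre `z` -/
theorem tripod {z p q : V} (h : 0 ≤ ρ) (hz : z ∈ closedBall x ρ) (hp : p ∈ closedBall x ρ)
    (hq : q ∈ closedBall x ρ) :
    ∃ D, Star x ρ D (dist x z + dist z p + dist z q) ∧ p ∈ D ∧ q ∈ D := by
  have h1 := (Star.single (x := x) h).extend (mem_singleton x) hz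
  have hz1 : z ∈ {x} ∪ segment ℝ x z := Or.inr (right_mem_segment ℝ _ _)
  have h2 := h1.extend hz1 hp
  have h3 := h2.extend (Or.inl hz1) hq
  refine ⟨_, h3.mono (by linarith), Or.inl (Or.inr (right_mem_segment ℝ _ _)),
    Or.inr (right_mem_segment ℝ _ _)⟩

end Star

/-- the sum of the inner products over one of the three pairings of four unit vectors is at least
`-2/3` -/
theorem pairing (a b c d : V) (ha : ‖a‖ = 1) (hb : ‖b‖ = 1) (hc : ‖c‖ = 1) (hd : ‖d‖ = 1) :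
    -(2 / 3 : ℝ) ≤ inner ℝ a b + inner ℝ c d ∨ -(2 / 3 : ℝ) ≤ inner ℝ a c + inner ℝ b d ∨
      -(2 / 3 : ℝ) ≤ inner ℝ a d + inner ℝ b c := by
  have h0 : 0 ≤ ‖a + b + c + d‖ ^ 2 := sq_nonneg _
  have h1 : ‖a + b + c + d‖ ^ 2 = 4 + 2 * (inner ℝ a b + inner ℝ c d) +
      2 * (inner ℝ a c + inner ℝ b d) + 2 * (inner ℝ a d + inner ℝ b c) := by
    rw [norm_add_sq_real, norm_add_sq_real, norm_add_sq_real, ha, hb, hc, hd]
    simp only [inner_add_left]
    ring
  rw [h1] at h0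
  by_contra hcon
  push Not at hcon
  obtain ⟨h2, h3, h4⟩ := hcon
  linarith

/-- `√u ≤ (u/c + c)/2` in the form used for norms -/
theorem norm_le_of_sq {v : V} {u c : ℝ} (hc : 0 < c) (h : ‖v‖ ^ 2 = u) : ‖v‖ ≤ (u / c + c) / 2 := by
  have h1 : 0 ≤ (‖v‖ - c) ^ 2 := sq_nonneg _
  have h2 : 2 * ‖v‖ * c ≤ u + c ^ 2 := by rw [← h]; nlinarith
  have h3 : (u / c + c) / 2 = (u + c ^ 2) / (2 * c) := by field_simp
  rw [h3, le_div_iff₀ (by positivity)]
  linarith

/-- the cost of the tripod with centre `λ (p + q)`, linearised -/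
theorem pair_cost {x : V} {ρ : ℝ} (hρ : 0 < ρ) {a b : V} (ha : ‖a‖ = 1) (hb : ‖b‖ = 1) {l c c' : ℝ}
    (hl0 : 0 ≤ l) (hl1 : l ≤ 1 / 2) (hc : 0 < c) (hc' : 0 < c') :
    ∃ D, Star x ρ D (ρ * (l * ((2 + 2 * inner ℝ a b) / c + c) / 2 +
      ((1 - 2 * l * (1 - l) * (1 + inner ℝ a b)) / c' + c'))) ∧
      x + ρ • a ∈ D ∧ x + ρ • b ∈ D := by
  set w : ℝ := inner ℝ a b with hw
  have hwb : inner ℝ b a = w := by rw [real_inner_comm]
  have hab : ‖a + b‖ ^ 2 = 2 + 2 * w := by rw [norm_add_sq_real, ha, hb]; ring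
  have hza : ‖l • (a + b) - a‖ ^ 2 = 1 - 2 * l * (1 - l) * (1 + w) := by
    rw [norm_sub_sq_real, norm_smul, mul_pow, hab, ha, inner_smul_left, inner_add_left,
      real_inner_self_eq_norm_sq, ha, hwb]
    simp only [Real.norm_eq_abs, sq_abs, conj_trivial]
    ring
  have hzb : ‖l • (a + b) - b‖ ^ 2 = 1 - 2 * l * (1 - l) * (1 + w) := by
    rw [norm_sub_sq_real, norm_smul, mul_pow, hab, hb, inner_smul_left, inner_add_left,
      real_inner_self_eq_norm_sq, hb, ← hw]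
    simp only [Real.norm_eq_abs, sq_abs, conj_trivial]
    ring
  have hn0 := norm_le_of_sq hc hab
  have hna := norm_le_of_sq hc' hza
  have hnb := norm_le_of_sq hc' hzb
  have hnorm : ‖l • (a + b)‖ ≤ 1 := by
    rw [norm_smul, Real.norm_eq_abs, abs_of_nonneg hl0]
    have := norm_add_le a b
    rw [ha, hb] at this
    nlinarith [norm_nonneg (a + b)]
  have mem : ∀ v : V, ‖v‖ ≤ 1 → x + ρ • v ∈ closedBall x ρ := by
    intro v hv
    rw [mem_closedBall, dist_eq_norm, add_sub_cancel_left, norm_smul, Real.norm_eq_abs,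
      abs_of_pos hρ]
    nlinarith
  obtain ⟨D, hD, h1, h2⟩ := Star.tripod (x := x) (z := x + ρ • (l • (a + b))) hρ.le (mem _ hnorm)
    (mem a ha.le) (mem b hb.le)
  refine ⟨D, hD.mono ?_, h1, h2⟩
  have e0 : dist x (x + ρ • (l • (a + b))) = ρ * (l * ‖a + b‖) := by
    rw [dist_comm, dist_eq_norm, add_sub_cancel_left, norm_smul, norm_smul, Real.norm_eq_abs,
      Real.norm_eq_abs, abs_of_pos hρ, abs_of_nonneg hl0]
  have e1 : dist (x + ρ • (l • (a + b))) (x + ρ • a) = ρ * ‖l • (a + b) - a‖ := by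
    rw [dist_eq_norm, add_sub_add_left_eq_sub, ← smul_sub, norm_smul, Real.norm_eq_abs,
      abs_of_pos hρ]
  have e2 : dist (x + ρ • (l • (a + b))) (x + ρ • b) = ρ * ‖l • (a + b) - b‖ := by
    rw [dist_eq_norm, add_sub_add_left_eq_sub, ← smul_sub, norm_smul, Real.norm_eq_abs,
      abs_of_pos hρ]
  rw [e0, e1, e2]
  have h3 : l * ‖a + b‖ ≤ l * (((2 + 2 * w) / c + c) / 2) := mul_le_mul_of_nonneg_left hn0 hl0
  have h4 : ρ * (l * ‖a + b‖) + ρ * ‖l • (a + b) - a‖ + ρ * ‖l • (a + b) - b‖ =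
      ρ * (l * ‖a + b‖ + ‖l • (a + b) - a‖ + ‖l • (a + b) - b‖) := by ring
  rw [h4]
  refine mul_le_mul_of_nonneg_left ?_ hρ.le
  linarith

/-- unit direction of a point of the sphere -/
theorem exists_dir {x z : V} {ρ : ℝ} (hρ : 0 < ρ) (hz : z ∈ sphere x ρ) :
    ∃ a : V, ‖a‖ = 1 ∧ z = x + ρ • a := by
  refine ⟨ρ⁻¹ • (z - x), ?_, ?_⟩
  · rw [norm_smul, norm_inv, Real.norm_eq_abs, abs_of_pos hρ, ← dist_eq_norm, mem_sphere.1 hz]
    field_simp
  · rw [smul_smul, mul_inv_cancel₀ hρ.ne', one_smul]; abel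

/-- two pairs with sum of inner products at least `-2/3` cost at most `4 - 1/60` -/
theorem two_pairs {x : V} {ρ : ℝ} (hρ : 0 < ρ) {a b c d : V} (ha : ‖a‖ = 1) (hb : ‖b‖ = 1)
    (hc : ‖c‖ = 1) (hd : ‖d‖ = 1) (h : -(2 / 3 : ℝ) ≤ inner ℝ a b + inner ℝ c d) :
    ∃ D, Star x ρ D (ρ * (4 - 1 / 60)) ∧ x + ρ • a ∈ D ∧ x + ρ • b ∈ D ∧ x + ρ • c ∈ D ∧
      x + ρ • d ∈ D := by
  obtain ⟨D, hD, h1, h2⟩ := pair_cost (x := x) hρ ha hb (l := 1 / 10) (c := 7 / 6) (c' := 47 / 50)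
    (by norm_num) (by norm_num) (by norm_num) (by norm_num)
  obtain ⟨D', hD', h3, h4⟩ := pair_cost (x := x) hρ hc hd (l := 1 / 10) (c := 7 / 6) (c' := 47 / 50)
    (by norm_num) (by norm_num) (by norm_num) (by norm_num)
  refine ⟨D ∪ D', (hD.union hD').mono ?_, Or.inl h1, Or.inl h2, Or.inr h3, Or.inr h4⟩
  rw [← mul_add]
  refine mul_le_mul_of_nonneg_left ?_ hρ.le
  linarith

theorem four_points {x : V} {ρ : ℝ} (hρ : 0 < ρ) {p q s t : V} (hp : p ∈ sphere x ρ)
    (hq : q ∈ sphere x ρ) (hs : s ∈ sphere x ρ) (ht : t ∈ sphere x ρ) :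
    ∃ D, Star x ρ D (ρ * (4 - 1 / 60)) ∧ p ∈ D ∧ q ∈ D ∧ s ∈ D ∧ t ∈ D := by
  obtain ⟨a, ha, rfl⟩ := exists_dir hρ hp
  obtain ⟨b, hb, rfl⟩ := exists_dir hρ hq
  obtain ⟨c, hc, rfl⟩ := exists_dir hρ hs
  obtain ⟨d, hd, rfl⟩ := exists_dir hρ ht
  rcases pairing a b c d ha hb hc hd with h | h | h
  · obtain ⟨D, hD, h1, h2, h3, h4⟩ := two_pairs (x := x) hρ ha hb hc hd h
    exact ⟨D, hD, h1, h2, h3, h4⟩
  · obtain ⟨D, hD, h1, h2, h3, h4⟩ := two_pairs (x := x) hρ ha hc hb hd h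
    exact ⟨D, hD, h1, h3, h2, h4⟩
  · obtain ⟨D, hD, h1, h2, h3, h4⟩ := two_pairs (x := x) hρ ha hd hb hc h
    exact ⟨D, hD, h1, h3, h4, h2⟩

/-- a general statement: if four-point subsets can be served at cost `(4 - σ) ρ` then `n ≥ 4` points
of the sphere can be served at cost `(n - σ) ρ` -/
theorem LocAdm.len_save {A S : Set V} {x : V} {r : ℝ} (L : LocAdm A S x r) (hA : IsClosed A) {ρ : ℝ}
    (h0 : 0 < ρ) (hρ : ρ < r) {σ : ℝ}
    (h4 : ∀ p q s t : V, p ∈ sphere x ρ → q ∈ sphere x ρ → s ∈ sphere x ρ → t ∈ sphere x ρ →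
      ∃ D, Star x ρ D (ρ * (4 - σ)) ∧ p ∈ D ∧ q ∈ D ∧ s ∈ D ∧ t ∈ D) {n : ℕ} (hn : 4 ≤ n)
    (hcard : (S ∩ sphere x ρ).encard = n) : len S x ρ ≤ (n - σ) * ρ := by
  classical
  have hfin : (S ∩ sphere x ρ).Finite := Set.finite_of_encard_eq_coe hcard
  set P := hfin.toFinset with hP
  have hPc : P.card = n := by
    have := hfin.encard_eq_coe_toFinset_card
    rw [hcard] at this
    exact_mod_cast this.symm
  have hPmem : ∀ p, p ∈ P ↔ p ∈ S ∩ sphere x ρ := fun p => by simp [hP]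
  obtain ⟨Q, hQP, hQ4⟩ := Finset.exists_subset_card_eq (s := P) (n := 4) (by omega)
  obtain ⟨p, q, s, t, -, -, -, -, -, -, hQ⟩ := Finset.card_eq_four.1 hQ4
  have hsph : ∀ z ∈ Q, z ∈ sphere x ρ := fun z hz => ((hPmem z).1 (hQP hz)).2
  obtain ⟨D, hD, h1, h2, h3, h5⟩ := h4 p q s t (hsph p (by simp [hQ])) (hsph q (by simp [hQ]))
    (hsph s (by simp [hQ])) (hsph t (by simp [hQ]))
  obtain ⟨D', hD', h6⟩ := Star.spokes (x := x) h0.le (P \ Q) (fun z hz =>
    sphere_subset_closedBall ((hPmem z).1 (Finset.mem_sdiff.1 hz).1).2)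
  have hU := hD.union hD'
  have hc : ρ * (4 - σ) + ((P \ Q).card : ℝ) * ρ = (n - σ) * ρ := by
    rw [Finset.card_sdiff_of_subset hQP, hPc, hQ4, Nat.cast_sub hn]
    push_cast; ring
  rw [hc] at hU
  refine L.len_comp hA hρ hU.closed hU.conn hU.sub ?_ ?_ hU.nonneg hU.len
  · intro z hz
    have hzP : z ∈ P := (hPmem z).2 hz
    by_cases hzQ : z ∈ Q
    · left
      rw [hQ] at hzQ
      simp only [Finset.mem_insert, Finset.mem_singleton] at hzQ
      rcases hzQ with rfl | rfl | rfl | rfl <;> assumption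
    · right
      exact h6 z (Finset.mem_sdiff.2 ⟨hzP, hzQ⟩)
  · obtain ⟨z, hz⟩ := Finset.card_pos.1 (by rw [hPc]; omega : 0 < P.card)
    exact ⟨z, (hPmem z).1 hz⟩

end H11ST
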