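import Pool.Agent.H11ST.Plane
import Pool.Agent.H11ST.Star
open MeasureTheory Metric Set Filter Topology Real
open scoped ENNReal NNReal

namespace H11ST
set_option linter.unusedSectionVars false

theorem ev_add_period (a : ℝ) (k : ℕ) : ev (a + 2 * π * k) = ev a := by
  have h : a + 2 * π * k = a + k * (2 * π) := by ring
  simp only [ev, h, Real.cos_add_nat_mul_two_pi, Real.sin_add_nat_mul_two_pi]

/-- the points of a finite subset of a circle in cyclic order -/
theorem sorted_angles {x : E2} {ρ : ℝ} (hρ : 0 < ρ) (P : Finset E2) (hP : ∀ p ∈ P, p ∈ sphere x ρ)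
    {n : ℕ} (hn : P.card = n) (h1 : 1 ≤ n) : ∃ b : ℕ → ℝ, (∀ i, b i ≤ b (i + 1)) ∧
      (∀ i, b (i + n) = b i + 2 * π) ∧
      (∀ j, ∀ p ∈ P, ∃ i, j ≤ i ∧ i < j + n ∧ p = x + ρ • ev (b i)) := by
  classical
  have hang : ∀ p ∈ P, ∃ θ, θ ∈ Ioc (-π) π ∧ p = x + ρ • ev θ := by
    intro p hp
    obtain ⟨θ, h1, h2⟩ := exists_angle hρ (hP p hp)
    exact ⟨θ, h1, h2⟩
  choose! θ hθ1 hθ2 using hang
  set Θ := P.image θ with hΘ
  have hinj : Set.InjOn θ (P : Set E2) := by
    intro p hp q hq hpq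
    rw [hθ2 p hp, hθ2 q hq, hpq]
  have hΘc : Θ.card = n := by rw [hΘ, Finset.card_image_of_injOn hinj, hn]
  set a := Θ.orderEmbOfFin hΘc with ha
  have harange : ∀ p ∈ P, ∃ k : Fin n, a k = θ p := by
    intro p hp
    have : θ p ∈ Set.range a := by
      rw [ha, Finset.range_orderEmbOfFin]
      exact Finset.mem_coe.2 (Finset.mem_image_of_mem θ hp)
    exact this
  have hamem : ∀ k, a k ∈ Ioc (-π) π := by
    intro k
    have : a k ∈ Θ := Finset.orderEmbOfFin_mem Θ hΘc k
    obtain ⟨p, hp, hpk⟩ := Finset.mem_image.1 this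
    rw [← hpk]; exact hθ1 p hp
  have hn0 : 0 < n := h1
  set b : ℕ → ℝ := fun i => a ⟨i % n, Nat.mod_lt _ hn0⟩ + 2 * π * (i / n : ℕ) with hb
  refine ⟨b, ?_, ?_, ?_⟩
  · intro i
    have hi := Nat.div_add_mod i n
    have hr := Nat.mod_lt i hn0
    by_cases hlast : i % n + 1 < n
    · have hm : (i + 1) % n = i % n + 1 := by
        rw [Nat.add_mod, Nat.mod_eq_of_lt (by omega : 1 < n), Nat.mod_eq_of_lt hlast]
      have hd : (i + 1) / n = i / n := by
        have h3 := Nat.div_add_mod (i + 1) n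
        rw [hm] at h3
        have h4 : n * ((i + 1) / n) = n * (i / n) := by omega
        exact Nat.eq_of_mul_eq_mul_left hn0 h4
      simp only [hb, hd]
      have : a ⟨i % n, Nat.mod_lt _ hn0⟩ ≤ a ⟨(i + 1) % n, Nat.mod_lt _ hn0⟩ := by
        apply a.monotone
        rw [Fin.mk_le_mk, hm]; omega
      linarith
    · have hr1 : i % n + 1 = n := by omega
      have hm : (i + 1) % n = 0 := by
        rw [Nat.add_mod, ← Nat.add_mod]
        have : i + 1 = n * (i / n + 1) := by rw [mul_add, mul_one]; omega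
        rw [this, Nat.mul_mod_right]
      have hd : (i + 1) / n = i / n + 1 := by
        have : i + 1 = n * (i / n + 1) := by rw [mul_add, mul_one]; omega
        rw [this, Nat.mul_div_cancel_left _ hn0]
      simp only [hb, hd]
      have h3 := (hamem ⟨i % n, Nat.mod_lt _ hn0⟩).2
      have h4 := (hamem ⟨(i + 1) % n, Nat.mod_lt _ hn0⟩).1
      push_cast
      linarith
  · intro i
    have hm : (i + n) % n = i % n := Nat.add_mod_right i n
    have hd : (i + n) / n = i / n + 1 := Nat.add_div_right i hn0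
    simp only [hb, hm, hd]
    push_cast; ring
  · intro j p hp
    obtain ⟨k, hk⟩ := harange p hp
    refine ⟨j + (k + (n - j % n)) % n, by omega, by have := Nat.mod_lt (k + (n - j % n)) hn0; omega, ?_⟩
    have hm : (j + (k + (n - j % n)) % n) % n = k := by
      have hj := Nat.mod_lt j hn0
      rw [Nat.add_mod, Nat.mod_mod, ← Nat.add_mod]
      have e : j + (k + (n - j % n)) = (k + n) + n * (j / n) := by
        have := Nat.div_add_mod j n
        omega
      rw [e, Nat.add_mul_mod_self_left, Nat.add_mod_right]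
      exact Nat.mod_eq_of_lt k.2
    have hfin : (⟨(j + (k + (n - j % n)) % n) % n, Nat.mod_lt _ hn0⟩ : Fin n) = k := by
      ext; exact hm
    simp only [hb]
    rw [ev_add_period, hfin, hk]
    exact hθ2 p hp

theorem mem_cb {x : E2} {ρ τ : ℝ} (hρ : 0 < ρ) (h0 : 0 ≤ τ) (h1 : τ ≤ 1) (a : ℝ) :
    x + ρ • (τ • ev a) ∈ closedBall x ρ := by
  rw [mem_closedBall, dist_eq_norm, add_sub_cancel_left, norm_smul, norm_smul, norm_ev,
    Real.norm_eq_abs, Real.norm_eq_abs, abs_of_pos hρ, abs_of_nonneg h0]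
  nlinarith

theorem mem_cb' {x : E2} {ρ : ℝ} (hρ : 0 < ρ) (a : ℝ) : x + ρ • ev a ∈ closedBall x ρ := by
  have := mem_cb (x := x) hρ zero_le_one le_rfl a
  simpa using this

/-- exact cost of the tripod through the centre and two points of the circle -/
theorem pair_star {x : E2} {ρ : ℝ} (hρ : 0 < ρ) {α β : ℝ} (hαβ : α ≤ β) :
    ∃ D, Star x ρ D (ρ * (2 * Real.cos (max 0 (π / 3 - (β - α) / 2)))) ∧ x + ρ • ev α ∈ D ∧
      x + ρ • ev β ∈ D := by
  by_cases hg : π / 3 - (β - α) / 2 ≤ 0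
  · -- two spokes
    obtain ⟨D, hD, hPD⟩ := Star.spokes (x := x) hρ.le {x + ρ • ev α, x + ρ • ev β} (by
      intro p hp
      rw [Finset.mem_insert, Finset.mem_singleton] at hp
      rcases hp with rfl | rfl <;> exact mem_cb' hρ _)
    refine ⟨D, hD.mono ?_, hPD _ (by simp), hPD _ (by simp)⟩
    rw [max_eq_left hg, Real.cos_zero]
    have : (({x + ρ • ev α, x + ρ • ev β} : Finset E2).card : ℝ) ≤ 2 := by
      exact_mod_cast Finset.card_le_two
    nlinarith
  · push Not at hg
    rw [max_eq_right hg.le]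
    set g := (β - α) / 2 with hgdef
    have hg0 : 0 ≤ g := by rw [hgdef]; linarith
    have hg1 : g < π / 3 := by linarith
    have hpi := Real.pi_pos
    set c := Real.cos g with hc
    set s := Real.sin g with hs
    have hs0 : 0 ≤ s := Real.sin_nonneg_of_nonneg_of_le_pi hg0 (by linarith)
    have hc1 : c ≤ 1 := Real.cos_le_one _
    have hc2 : 1 / 2 ≤ c := by
      rw [← Real.cos_pi_div_three]
      exact Real.cos_le_cos_of_nonneg_of_le_pi hg0 (by linarith) hg1.le
    have hs2 : s ≤ √3 / 2 := by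
      rw [← Real.sin_pi_div_three]
      exact Real.sin_le_sin_of_le_of_le_pi_div_two (by linarith) (by linarith) hg1.le
    have hcs : c ^ 2 + s ^ 2 = 1 := by rw [add_comm]; exact Real.sin_sq_add_cos_sq g
    have h3 : √3 * √3 = 3 := Real.mul_self_sqrt (by norm_num)
    have h3pos : 0 < √3 := Real.sqrt_pos.2 (by norm_num)
    set τ := c - s * (√3 / 3) with hτ
    have hτ0 : 0 ≤ τ := by rw [hτ]; nlinarith
    have hτ1 : τ ≤ 1 := by rw [hτ]; nlinarith
    set μ := (α + β) / 2 with hμ
    have hdist : ∀ γ : ℝ, Real.cos (μ - γ) = c →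
        dist (x + ρ • (τ • ev μ)) (x + ρ • ev γ) = ρ * (2 * s * (√3 / 3)) := by
      intro γ hγ
      rw [dist_eq_norm, add_sub_add_left_eq_sub, ← smul_sub, norm_smul, Real.norm_eq_abs,
        abs_of_pos hρ]
      congr 1
      have h4 : ‖τ • ev μ - ev γ‖ ^ 2 = (2 * s * (√3 / 3)) ^ 2 := by
        rw [norm_sub_sq_real, norm_smul, norm_ev, norm_ev, inner_smul_left, inner_ev, hγ]
        simp only [Real.norm_eq_abs, mul_one, sq_abs, conj_trivial, one_pow]
        rw [hτ]
        nlinarith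
      exact (sq_eq_sq₀ (norm_nonneg _) (by positivity)).1 h4
    have d1 := hdist α (by rw [hc, hμ, hgdef]; congr 1; ring)
    have d2 := hdist β (by
      rw [hc, hμ, hgdef, ← Real.cos_neg]; congr 1; ring)
    have d0 : dist x (x + ρ • (τ • ev μ)) = ρ * τ := by
      rw [dist_comm, dist_eq_norm, add_sub_cancel_left, norm_smul, norm_smul, norm_ev,
        Real.norm_eq_abs, Real.norm_eq_abs, abs_of_pos hρ, abs_of_nonneg hτ0, mul_one]
    obtain ⟨D, hD, h5, h6⟩ := Star.tripod (x := x) (z := x + ρ • (τ • ev μ)) hρ.le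
      (mem_cb hρ hτ0 hτ1 μ) (mem_cb' hρ α) (mem_cb' hρ β)
    refine ⟨D, hD.mono (le_of_eq ?_), h5, h6⟩
    rw [d0, d1, d2, Real.cos_sub, Real.cos_pi_div_three, Real.sin_pi_div_three, hτ]
    nlinarith

/-- two pairs: the concavity of the cost -/
theorem cos_pair {g g' : ℝ} (h : (g + g') / 4 ≤ π / 3) :
    2 * Real.cos (max 0 (π / 3 - g / 2)) + 2 * Real.cos (max 0 (π / 3 - g' / 2)) ≤
      4 * Real.cos (π / 3 - (g + g') / 4) ∨ (g < 0 ∨ g' < 0) := by
  by_cases hg : g < 0
  · exact Or.inr (Or.inl hg)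
  by_cases hg' : g' < 0
  · exact Or.inr (Or.inr hg')
  left
  push Not at hg hg'
  have hpi := Real.pi_pos
  set u := max 0 (π / 3 - g / 2) with hu
  set v := max 0 (π / 3 - g' / 2) with hv
  have hu0 : 0 ≤ u := le_max_left _ _
  have hv0 : 0 ≤ v := le_max_left _ _
  have hu1 : π / 3 - g / 2 ≤ u := le_max_right _ _
  have hv1 : π / 3 - g' / 2 ≤ v := le_max_right _ _
  have hu2 : u ≤ π / 3 := max_le (by linarith) (by linarith)
  have hv2 : v ≤ π / 3 := max_le (by linarith) (by linarith)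
  have h1 : Real.cos u + Real.cos v = 2 * Real.cos ((u + v) / 2) * Real.cos ((u - v) / 2) :=
    Real.cos_add_cos u v
  have h2 : 0 ≤ Real.cos ((u + v) / 2) :=
    Real.cos_nonneg_of_neg_pi_div_two_le_of_le (by linarith) (by linarith)
  have h3 : Real.cos ((u - v) / 2) ≤ 1 := Real.cos_le_one _
  have h4 : Real.cos ((u + v) / 2) ≤ Real.cos (π / 3 - (g + g') / 4) :=
    Real.cos_le_cos_of_nonneg_of_le_pi (by linarith) (by linarith) (by linarith)
  nlinarith

variable {A S : Set E2} {x : E2} {r : ℝ}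

theorem len_four (L : LocAdm A S x r) (hA : IsClosed A) {ρ : ℝ} (h0 : 0 < ρ) (hρ : ρ < r)
    (hcard : (S ∩ sphere x ρ).encard = 4) : len S x ρ ≤ 4 * Real.cos (π / 12) * ρ := by
  classical
  have hfin : (S ∩ sphere x ρ).Finite := Set.finite_of_encard_eq_coe (k := 4) (by exact_mod_cast hcard)
  set P := hfin.toFinset with hP
  have hPc : P.card = 4 := by
    have := hfin.encard_eq_coe_toFinset_card
    rw [hcard] at this
    exact_mod_cast this.symm
  have hPmem : ∀ p, p ∈ P ↔ p ∈ S ∩ sphere x ρ := fun p => by simp [hP]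
  obtain ⟨b, hb1, hb2, hb3⟩ := sorted_angles h0 P (fun p hp => ((hPmem p).1 hp).2) hPc (by norm_num)
  have hpi := Real.pi_pos
  have hne : (S ∩ sphere x ρ).Nonempty := by
    obtain ⟨z, hz⟩ := Finset.card_pos.1 (by rw [hPc]; norm_num : 0 < P.card)
    exact ⟨z, (hPmem z).1 hz⟩
  have main : ∀ j, (b (j + 1) - b j) + (b (j + 3) - b (j + 2)) ≤ π →
      len S x ρ ≤ 4 * Real.cos (π / 12) * ρ := by
    intro j hj
    obtain ⟨D, hD, h1, h2⟩ := pair_star (x := x) h0 (hb1 j)
    obtain ⟨D', hD', h3, h4⟩ := pair_star (x := x) h0 (hb1 (j + 2))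
    have hU := hD.union hD'
    have hcp := (cos_pair (g := b (j + 1) - b j) (g' := b (j + 3) - b (j + 2)) (by linarith)).resolve_right
      (by
        rintro (h | h)
        · linarith [hb1 j]
        · have := hb1 (j + 2)
          rw [show j + 2 + 1 = j + 3 by ring] at this
          linarith)
    have hcc : Real.cos (π / 3 - ((b (j + 1) - b j) + (b (j + 3) - b (j + 2))) / 4) ≤
        Real.cos (π / 12) :=
      Real.cos_le_cos_of_nonneg_of_le_pi (by linarith) (by
        have := hb1 j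
        have h7 := hb1 (j + 2)
        rw [show j + 2 + 1 = j + 3 by ring] at h7
        linarith) (by linarith)
    have hU2 := hU.mono (c' := 4 * Real.cos (π / 12) * ρ) (by
      rw [← mul_add]
      have : ρ * (2 * Real.cos (max 0 (π / 3 - (b (j + 1) - b j) / 2)) +
          2 * Real.cos (max 0 (π / 3 - (b (j + 2 + 1) - b (j + 2)) / 2))) ≤
          ρ * (4 * Real.cos (π / 12)) := by
        refine mul_le_mul_of_nonneg_left ?_ h0.le
        rw [show j + 2 + 1 = j + 3 by ring]
        linarith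
      linarith)
    refine L.len_comp hA hρ hU2.closed hU2.conn hU2.sub ?_ hne hU2.nonneg hU2.len
    intro z hz
    obtain ⟨i, hi1, hi2, rfl⟩ := hb3 j z ((hPmem z).2 hz)
    obtain ⟨k, rfl⟩ := Nat.exists_eq_add_of_le hi1
    have hk : k < 4 := by omega
    interval_cases k
    · exact Or.inl h1
    · exact Or.inl h2
    · exact Or.inr h3
    · exact Or.inr h4
  have hsum := hb2 0
  simp only [zero_add] at hsum
  by_cases h : (b 1 - b 0) + (b 3 - b 2) ≤ π
  · exact main 0 h
  · refine main 1 ?_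
    simp only [Nat.reduceAdd]
    linarith

theorem len_five (L : LocAdm A S x r) (hA : IsClosed A) {ρ : ℝ} (h0 : 0 < ρ) (hρ : ρ < r)
    (hcard : (S ∩ sphere x ρ).encard = 5) : len S x ρ ≤ (1 + 4 * Real.cos (2 * π / 15)) * ρ := by
  classical
  have hfin : (S ∩ sphere x ρ).Finite := Set.finite_of_encard_eq_coe (k := 5) (by exact_mod_cast hcard)
  set P := hfin.toFinset with hP
  have hPc : P.card = 5 := by
    have := hfin.encard_eq_coe_toFinset_card
    rw [hcard] at this
    exact_mod_cast this.symm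
  have hPmem : ∀ p, p ∈ P ↔ p ∈ S ∩ sphere x ρ := fun p => by simp [hP]
  obtain ⟨b, hb1, hb2, hb3⟩ := sorted_angles h0 P (fun p hp => ((hPmem p).1 hp).2) hPc (by norm_num)
  have hpi := Real.pi_pos
  have hne : (S ∩ sphere x ρ).Nonempty := by
    obtain ⟨z, hz⟩ := Finset.card_pos.1 (by rw [hPc]; norm_num : 0 < P.card)
    exact ⟨z, (hPmem z).1 hz⟩
  have main : ∀ j, (b (j + 1) - b j) + (b (j + 3) - b (j + 2)) ≤ 4 * π / 5 →
      len S x ρ ≤ (1 + 4 * Real.cos (2 * π / 15)) * ρ := by
    intro j hj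
    obtain ⟨D, hD, h1, h2⟩ := pair_star (x := x) h0 (hb1 j)
    obtain ⟨D', hD', h3, h4⟩ := pair_star (x := x) h0 (hb1 (j + 2))
    obtain ⟨D'', hD'', h5⟩ := Star.spokes (x := x) h0.le {x + ρ • ev (b (j + 4))} (by
      intro p hp
      rw [Finset.mem_singleton] at hp
      subst hp; exact mem_cb' h0 _)
    have hU := (hD.union hD').union hD''
    have hcp := (cos_pair (g := b (j + 1) - b j) (g' := b (j + 3) - b (j + 2)) (by linarith)).resolve_right
      (by
        rintro (h | h)
        · linarith [hb1 j]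
        · have := hb1 (j + 2)
          rw [show j + 2 + 1 = j + 3 by ring] at this
          linarith)
    have hcc : Real.cos (π / 3 - ((b (j + 1) - b j) + (b (j + 3) - b (j + 2))) / 4) ≤
        Real.cos (2 * π / 15) :=
      Real.cos_le_cos_of_nonneg_of_le_pi (by linarith) (by
        have := hb1 j
        have h7 := hb1 (j + 2)
        rw [show j + 2 + 1 = j + 3 by ring] at h7
        linarith) (by linarith)
    have hU2 := hU.mono (c' := (1 + 4 * Real.cos (2 * π / 15)) * ρ) (by
      rw [← mul_add, Finset.card_singleton, Nat.cast_one, one_mul]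
      have : ρ * (2 * Real.cos (max 0 (π / 3 - (b (j + 1) - b j) / 2)) +
          2 * Real.cos (max 0 (π / 3 - (b (j + 2 + 1) - b (j + 2)) / 2))) ≤
          ρ * (4 * Real.cos (2 * π / 15)) := by
        refine mul_le_mul_of_nonneg_left ?_ h0.le
        rw [show j + 2 + 1 = j + 3 by ring]
        linarith
      linarith)
    refine L.len_comp hA hρ hU2.closed hU2.conn hU2.sub ?_ hne hU2.nonneg hU2.len
    intro z hz
    obtain ⟨i, hi1, hi2, rfl⟩ := hb3 j z ((hPmem z).2 hz)
    obtain ⟨k, rfl⟩ := Nat.exists_eq_add_of_le hi1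
    have hk : k < 5 := by omega
    interval_cases k
    · exact Or.inl (Or.inl h1)
    · exact Or.inl (Or.inl h2)
    · exact Or.inl (Or.inr h3)
    · exact Or.inl (Or.inr h4)
    · exact Or.inr (h5 _ (by simp))
  have h50 := hb2 0
  have h61 := hb2 1
  have h72 := hb2 2
  simp only [Nat.reduceAdd] at h50 h61 h72
  by_contra hcon
  have n0 : 4 * π / 5 < b 1 - b 0 + (b 3 - b 2) := not_le.1 fun h => hcon (main 0 h)
  have n1 : 4 * π / 5 < b 2 - b 1 + (b 4 - b 3) := not_le.1 fun h => hcon (main 1 h)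
  have n2 : 4 * π / 5 < b 3 - b 2 + (b 5 - b 4) := not_le.1 fun h => hcon (main 2 h)
  have n3 : 4 * π / 5 < b 4 - b 3 + (b 6 - b 5) := not_le.1 fun h => hcon (main 3 h)
  have n4 : 4 * π / 5 < b 5 - b 4 + (b 7 - b 6) := not_le.1 fun h => hcon (main 4 h)
  linarith

/-- connected sets of controlled length in the ball (without the centre) -/
structure Net (x : E2) (ρ : ℝ) (D : Set E2) (c : ℝ) : Prop where
  closed : IsClosed D
  conn : IsPreconnected D
  sub : D ⊆ closedBall x ρ
  nonneg : 0 ≤ c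
  len : μH[1] D ≤ ENNReal.ofReal c

theorem Net.extend {ρ : ℝ} {D : Set E2} {c : ℝ} (h : Net x ρ D c) {q p : E2} (hq : q ∈ D)
    (hp : p ∈ closedBall x ρ) : Net x ρ (D ∪ segment ℝ q p) (c + dist q p) where
  closed := h.closed.union (by
    rw [segment_eq_image]
    exact (isCompact_Icc.image (by fun_prop)).isClosed)
  conn := IsPreconnected.union q hq (left_mem_segment ℝ q p) h.conn
    (convex_segment q p).isPreconnected
  sub := union_subset h.sub ((convex_closedBall x ρ).segment_subset (h.sub hq) hp)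
  nonneg := add_nonneg h.nonneg dist_nonneg
  len := by
    rw [ENNReal.ofReal_add h.nonneg dist_nonneg]
    refine (measure_union_le _ _).trans (add_le_add h.len ?_)
    rw [hausdorffMeasure_segment, edist_dist]

theorem dist_chord {ρ : ℝ} (hρ : 0 < ρ) {α β : ℝ} (h1 : α ≤ β) (h2 : β ≤ α + 2 * π) :
    dist (x + ρ • ev α) (x + ρ • ev β) = ρ * (2 * Real.sin ((β - α) / 2)) := by
  rw [dist_eq_norm, add_sub_add_left_eq_sub, ← smul_sub, norm_smul, Real.norm_eq_abs, abs_of_pos hρ]
  congr 1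
  have hs : 0 ≤ Real.sin ((β - α) / 2) :=
    Real.sin_nonneg_of_nonneg_of_le_pi (by linarith) (by linarith)
  have h3 : ‖ev α - ev β‖ ^ 2 = (2 * Real.sin ((β - α) / 2)) ^ 2 := by
    rw [norm_ev_sub_sq, mul_pow, Real.sin_sq_eq_half_sub]
    have e : 2 * ((β - α) / 2) = -(α - β) := by ring
    rw [e, Real.cos_neg]; ring
  exact (sq_eq_sq₀ (norm_nonneg _) (by positivity)).1 h3

theorem chord_path {ρ : ℝ} (hρ : 0 < ρ) (b : ℕ → ℝ) (hb : ∀ i, b i ≤ b (i + 1))
    (hb2 : ∀ i, b (i + 1) ≤ b i + 2 * π) (j m : ℕ) :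
    ∃ D, Net x ρ D (∑ i ∈ Finset.range m, ρ * (2 * Real.sin ((b (j + i + 1) - b (j + i)) / 2))) ∧
      ∀ i ≤ m, x + ρ • ev (b (j + i)) ∈ D := by
  induction m with
  | zero =>
    refine ⟨{x + ρ • ev (b j)}, ⟨isClosed_singleton, isPreconnected_singleton, ?_, by simp, ?_⟩, ?_⟩
    · rw [singleton_subset_iff]; exact mem_cb' hρ _
    · have h1 := hausdorffMeasure_segment (x + ρ • ev (b j)) (x + ρ • ev (b j))
      rw [segment_same, edist_self] at h1
      rw [h1]; exact bot_le
    · intro i hi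
      have : i = 0 := by omega
      subst this; rfl
  | succ m ih =>
    obtain ⟨D, hD, hmem⟩ := ih
    refine ⟨_, by
      have := hD.extend (hmem m le_rfl) (mem_cb' hρ (b (j + m + 1)))
      rw [dist_chord hρ (hb _) (hb2 _)] at this
      rw [Finset.sum_range_succ]
      exact this, ?_⟩
    intro i hi
    rcases Nat.lt_or_ge i (m + 1) with h | h
    · exact Or.inl (hmem i (by omega))
    · have : i = m + 1 := by omega
      subst this
      exact Or.inr (right_mem_segment ℝ _ _)

theorem len_polygon (L : LocAdm A S x r) (hA : IsClosed A) {ρ : ℝ} (h0 : 0 < ρ) (hρ : ρ < r) {n : ℕ}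
    (hn : 2 ≤ n) (hcard : (S ∩ sphere x ρ).encard = n) :
    len S x ρ ≤ (2 * (n - 1) * Real.sin (π / n)) * ρ := by
  classical
  have hfin : (S ∩ sphere x ρ).Finite := Set.finite_of_encard_eq_coe hcard
  set P := hfin.toFinset with hP
  have hPc : P.card = n := by
    have := hfin.encard_eq_coe_toFinset_card
    rw [hcard] at this
    exact_mod_cast this.symm
  have hPmem : ∀ p, p ∈ P ↔ p ∈ S ∩ sphere x ρ := fun p => by simp [hP]
  obtain ⟨b, hb1, hb2, hb3⟩ := sorted_angles h0 P (fun p hp => ((hPmem p).1 hp).2) hPc (by omega)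
  have hpi := Real.pi_pos
  have hn0 : (0 : ℝ) < n := by exact_mod_cast (by omega : 0 < n)
  have hn1 : (0 : ℝ) < (n : ℝ) - 1 := by
    have : (2 : ℝ) ≤ n := by exact_mod_cast hn
    linarith
  have hne : (S ∩ sphere x ρ).Nonempty := by
    obtain ⟨z, hz⟩ := Finset.card_pos.1 (by rw [hPc]; omega : 0 < P.card)
    exact ⟨z, (hPmem z).1 hz⟩
  have hmono : Monotone b := monotone_nat_of_le_succ hb1
  have hb1' : ∀ i, b (i + 1) ≤ b i + 2 * π := by
    intro i
    rw [← hb2 i]
    exact hmono (by omega)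
  -- the largest gap
  have htel : ∀ j m, ∑ i ∈ Finset.range m, (b (j + i + 1) - b (j + i)) = b (j + m) - b j := by
    intro j m
    induction m with
    | zero => simp
    | succ m ih => rw [Finset.sum_range_succ, ih]; ring_nf
  have hgap : ∃ j, 2 * π / n ≤ b (j + 1) - b j := by
    by_contra hcon
    push Not at hcon
    have h1 := htel 0 n
    have h2 := hb2 0
    simp only [zero_add] at h1 h2
    have h3 : ∑ i ∈ Finset.range n, (b (i + 1) - b i) < ∑ _i ∈ Finset.range n, 2 * π / n :=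
      Finset.sum_lt_sum_of_nonempty ⟨0, Finset.mem_range.2 (by omega)⟩ fun i _ => hcon i
    rw [h1, h2, Finset.sum_const, Finset.card_range, nsmul_eq_mul] at h3
    have h4 : (n : ℝ) * (2 * π / n) = 2 * π := by field_simp
    linarith
  obtain ⟨j, hj⟩ := hgap
  obtain ⟨D, hD, hmem⟩ := chord_path (x := x) h0 b hb1 hb1' (j + 1) (n - 1)
  have hbound : ∑ i ∈ Finset.range (n - 1), ρ * (2 * Real.sin ((b (j + 1 + i + 1) - b (j + 1 + i)) / 2)) ≤
      (2 * (n - 1) * Real.sin (π / n)) * ρ := by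
    have hcast : ((n - 1 : ℕ) : ℝ) = (n : ℝ) - 1 := by rw [Nat.cast_sub (by omega)]; simp
    have hJ := strictConcaveOn_sin_Icc.concaveOn.le_map_sum (t := Finset.range (n - 1))
      (w := fun _ => 1 / ((n : ℝ) - 1)) (p := fun i => (b (j + 1 + i + 1) - b (j + 1 + i)) / 2)
      (fun i _ => by positivity)
      (by rw [Finset.sum_const, Finset.card_range, nsmul_eq_mul, hcast]; field_simp)
      (fun i _ => ⟨by linarith [hb1 (j + 1 + i)], by linarith [hb1' (j + 1 + i)]⟩)
    simp only [smul_eq_mul] at hJ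
    rw [← Finset.mul_sum, ← Finset.mul_sum, ← Finset.sum_div, htel] at hJ
    have h5 : b (j + 1 + (n - 1)) = b j + 2 * π := by
      rw [← hb2 j]; congr 1; omega
    rw [h5] at hJ
    have h6 : 1 / ((n : ℝ) - 1) * ((b j + 2 * π - b (j + 1)) / 2) ≤ π / n := by
      rw [div_mul_eq_mul_div, one_mul, div_le_div_iff₀ hn1 hn0]
      rw [div_le_iff₀ hn0] at hj
      nlinarith
    have h7 : 0 ≤ 1 / ((n : ℝ) - 1) * ((b j + 2 * π - b (j + 1)) / 2) := by
      have := hb1' j
      have : 0 ≤ (b j + 2 * π - b (j + 1)) / 2 := by linarith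
      positivity
    have h8 : π / n ≤ π / 2 := by
      apply div_le_div_of_nonneg_left hpi.le (by norm_num)
      exact_mod_cast hn
    have h9 : Real.sin (1 / ((n : ℝ) - 1) * ((b j + 2 * π - b (j + 1)) / 2)) ≤ Real.sin (π / n) :=
      Real.sin_le_sin_of_le_of_le_pi_div_two (by linarith) h8 h6
    have h10 := hJ.trans h9
    rw [div_mul_eq_mul_div, one_mul, div_le_iff₀ hn1] at h10
    rw [← Finset.mul_sum, ← Finset.mul_sum]
    nlinarith
  refine L.len_comp hA hρ hD.closed hD.conn hD.sub ?_ hne (hD.nonneg.trans hbound)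
    (hD.len.trans (ENNReal.ofReal_le_ofReal hbound))
  intro z hz
  obtain ⟨i, hi1, hi2, rfl⟩ := hb3 (j + 1) z ((hPmem z).2 hz)
  obtain ⟨k, rfl⟩ := Nat.exists_eq_add_of_le hi1
  exact hmem k (by omega)

end H11ST
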