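import Pool.Agent.H11ST.Main
import Pool.Agent.H11ST.Angles
open MeasureTheory Metric Set Filter Topology Real
open scoped ENNReal NNReal

namespace H11ST
set_option linter.unusedSectionVars false

/-- savings -/
noncomputable def sg : ℕ → ℝ
  | 4 => 17 / 125
  | 5 => 861 / 2500
  | 6 => 1
  | 7 => 8849 / 5000
  | 8 => 26261 / 10000
  | 9 => 35159 / 10000
  | 10 => 4429 / 1000
  | 11 => 53587 / 10000
  | 12 => 3938 / 625
  | 13 => 72523 / 10000
  | 14 => 82111 / 10000
  | 15 => 91757 / 10000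
  | 16 => 2029 / 200
  | _ => 1

theorem sin_upper {x u : ℝ} (h0 : 0 ≤ x) (hxu : x ≤ u) (hu : u ≤ 1) :
    Real.sin x ≤ u - u ^ 3 / 6 + u ^ 4 * (5 / 96) := by
  have hpi := Real.pi_gt_three
  have h1 : Real.sin x ≤ Real.sin u :=
    Real.sin_le_sin_of_le_of_le_pi_div_two (by linarith) (by linarith) hxu
  have hu0 : 0 ≤ u := h0.trans hxu
  have h2 := Real.sin_bound (x := u) (by rw [abs_of_nonneg hu0]; exact hu)
  rw [abs_of_nonneg hu0] at h2
  have h3 := (abs_le.1 h2).2
  have h4 : u ^ 5 ≤ u ^ 4 := pow_le_pow_of_le_one hu0 hu (by norm_num)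
  have h5 : 0 ≤ u ^ 4 := by positivity
  linarith

theorem cos_upper {x l : ℝ} (hl : 0 ≤ l) (hlx : l ≤ x) (hx : x ≤ 1) :
    Real.cos x ≤ 1 - l ^ 2 / 2 + l ^ 4 * (5 / 96) := by
  have hpi := Real.pi_gt_three
  have h1 : Real.cos x ≤ Real.cos l :=
    Real.cos_le_cos_of_nonneg_of_le_pi hl (by linarith) hlx
  have h2 := Real.cos_bound (x := l) (by rw [abs_of_nonneg hl]; linarith)
  rw [abs_of_nonneg hl] at h2
  have h3 := (abs_le.1 h2).2
  linarith

theorem poly_num {m : ℕ} (hm : 4 ≤ m) :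
    Real.sin (π / m) ≤ (3.1416 / m) - (3.1416 / m) ^ 3 / 6 + (3.1416 / m) ^ 4 * (5 / 96) := by
  have hm' : (4 : ℝ) ≤ m := by exact_mod_cast hm
  have hpi := Real.pi_lt_d4
  have hpi0 := Real.pi_pos
  refine sin_upper (by positivity) ?_ ?_
  · gcongr
  · rw [div_le_one (by linarith)]; linarith

variable {A S : Set E2} {x : E2} {r : ℝ}

theorem plane_save (L : LocAdm A S x r) (hA : IsClosed A) (m : ℕ) (hm : 4 ≤ m) (hM : m ≤ 16)
    (ρ : ℝ) (h0 : 0 < ρ) (hρ : ρ < r) (hcard : (S ∩ sphere x ρ).encard = m) :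
    len S x ρ ≤ (m - sg m) * ρ := by
  have hpi := Real.pi_gt_d4
  have hpi2 := Real.pi_lt_d4
  rcases Nat.lt_or_ge m 6 with h6 | h6
  · rcases Nat.lt_or_ge m 5 with h5 | h5
    · have : m = 4 := by omega
      subst this
      refine (len_four L hA h0 hρ (by exact_mod_cast hcard)).trans ?_
      refine mul_le_mul_of_nonneg_right ?_ h0.le
      have := cos_upper (x := π / 12) (l := 3.1415 / 12) (by norm_num) (by linarith) (by linarith)
      have h2 : (3.1415 / 12 : ℝ) ^ 2 / 2 ≥ 0 := by positivity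
      norm_num [sg] at this ⊢
      linarith
    · have : m = 5 := by omega
      subst this
      refine (len_five L hA h0 hρ (by exact_mod_cast hcard)).trans ?_
      refine mul_le_mul_of_nonneg_right ?_ h0.le
      have := cos_upper (x := 2 * π / 15) (l := 2 * 3.1415 / 15) (by norm_num) (by linarith)
        (by linarith)
      norm_num [sg] at this ⊢
      linarith
  · refine (len_polygon L hA h0 hρ (by omega) hcard).trans ?_
    refine mul_le_mul_of_nonneg_right ?_ h0.le
    have h1 := poly_num (m := m) (by omega)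
    rcases Nat.lt_or_ge m 7 with h7 | h7
    · have : m = 6 := by omega
      subst this
      have h2 : Real.sin (π / (6 : ℕ)) = 1 / 2 := by
        push_cast; exact Real.sin_pi_div_six
      rw [h2]
      norm_num [sg]
    · interval_cases m <;> norm_num [sg] at h1 ⊢ <;> linarith

theorem sg_facts : (∀ m, 4 ≤ m → m ≤ 16 → 0 < sg m) ∧
    (∀ m, 4 ≤ m → m < 16 → sg (m + 1) < 1 + sg m) ∧ sg 4 < 1 := by
  refine ⟨?_, ?_, ?_⟩
  · intro m h1 h2
    interval_cases m <;> norm_num [sg]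
  · intro m h1 h2
    interval_cases m <;> norm_num [sg]
  · norm_num [sg]

theorem rad_sg (D : ℝ) : rad sg D 12 ≤ |D| * 42.5673 ∧ (0 ≤ D → D ≤ rad sg D 12) := by
  have h : rad sg D 12 = D * (rad sg 1 12) := by
    simp only [rad, sg]; ring
  have h2 : rad sg 1 12 ≤ 42.5673 ∧ 1 ≤ rad sg 1 12 := by
    simp only [rad, sg]
    norm_num
  constructor
  · rw [h]
    have h3 := le_abs_self D
    have h4 : 0 ≤ |D| := abs_nonneg D
    nlinarith [h2.1, h2.2]
  · intro hD
    rw [h]; nlinarith [h2.2]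

/-- in the plane there is at most one branching point for `t ≤ 1/90` -/
theorem small_plane {t : ℝ} (ht0 : 0 < t) (ht : t ≤ 1 / 90) : Nloc 2 t ≤ (1 : ℕ) := by
  have ht1 : t < 1 := by linarith
  refine Nloc_le fun A S x r hL Y hY hb hT => ?_
  by_contra hcon
  push Not at hcon
  obtain ⟨y, hy, y', hy', hne⟩ := Finset.one_lt_card.1 hcon
  have hA := hL.compact.isClosed
  have hr := hL.rpos
  obtain ⟨L, D, hD, hDt, h3, h4, hne'⟩ := two_points hL.adm hA ht1 hne (hb y hy) (hb y' hy')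
    (hT y hy) (hT y' hy')
  set R := (1 - t) * r with hR
  obtain ⟨hs1, hs2, hs3⟩ := sg_facts
  have hrad := (rad_sg D).1
  rw [abs_of_pos hD] at hrad
  have hpi := Real.pi_lt_d4
  have hpi0 := Real.pi_gt_three
  set a := rad sg D 12 with ha
  have ha0 : D ≤ a := (rad_sg D).2 hD.le
  have hDr : D < r / 45 := by nlinarith
  have hRr : 89 / 90 * r ≤ R := by rw [hR]; nlinarith
  have ha1 : a < 0.94595 * r := by nlinarith
  have haR : a < R := by linarith
  have hDR : D < R := by linarith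
  have hs16 : sg 16 = 2029 / 200 := rfl
  obtain ⟨h5, h6⟩ := phases L (σ := sg) (M := 16) hs1 hs2 hs3 hD hDR
    (fun ρ hρ => h3 ρ hρ (hρ.2.trans hDR)) h4
    (fun m hm hM ρ h0 h1 hc => plane_save L hA m hm hM ρ h0 h1 hc) 12 le_rfl haR
  rw [← ha] at h5 h6
  -- the final radius
  have hap : 0 < a := hD.trans_le ha0
  set q := (1 + sg 16) * a / (17 - 2 * π) with hq
  have hden : 0 < 17 - 2 * π := by linarith
  have hqR : q < R := by
    rw [hq, div_lt_iff₀ hden, hs16]
    nlinarith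
  have haq : a < q := by
    rw [hq, lt_div_iff₀ hden, hs16]
    nlinarith
  set ρ := (q + R) / 2 with hρ
  have hρ1 : q < ρ := by rw [hρ]; linarith
  have hρ2 : ρ < R := by rw [hρ]; linarith
  have hρ0 : 0 < ρ := hap.trans (haq.trans hρ1)
  have h7 := L.len_growth (haq.trans hρ1).le hρ2.le 17 (fun s hs => by
    have := h6 s ⟨hs.1, hs.2.trans hρ2⟩
    exact_mod_cast this)
  have h8 := len_circle L hA hρ0 hρ2 (hne' ρ hρ0 hρ2)
  push_cast at h7 h5
  rw [hs16] at h5
  have h9 : (1 + sg 16) * a < (17 - 2 * π) * ρ := by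
    have := hρ1
    rw [hq, div_lt_iff₀ hden] at this
    linarith
  rw [hs16] at h9
  norm_num at h5 h9
  nlinarith

end H11ST
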