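import Pool.Agent.H11ST.St
import Pool.Agent.H11ST.PlaneSmall
open MeasureTheory Metric Set Filter Topology Real
open scoped ENNReal NNReal

namespace H11ST

/-- FLUX: the planar flux inequality for tripod points whose outward arms leave the ball. -/
def ST_FLUX : Prop :=
  ∀ (A S : Set E2) (x : E2) (r : ℝ), LocAdm A S x r → IsClosed A →
    (∀ z ∈ S ∩ ball x r, (∃ u ε, Lin S z u ε) ∨ ∃ u ε, Tri S z u ε) →
    ∀ a : ℝ, 0 < a → a < r →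
    ∀ Y : Finset E2, (∀ y ∈ Y, y ∈ closedBall x a ∧ ∃ u ε, Tri S y u ε) →
    (∀ y ∈ Y, ∀ z ∈ closedBall x a, (∃ u ε, Tri S z u ε) → z ≠ y →
      a ^ 2 < dist y x ^ 2 + dist y z ^ 2) →
    √3 / 2 * ∑ y ∈ Y, dist y x ≤ len S x a

/-- PH: the phase argument in the plane, for the starting radius `a` and `k` branching points. -/
def ST_PH (k : ℕ) (lam τ : ℝ) : Prop :=
  ∀ (A S : Set E2) (x : E2) (r : ℝ), LocAdm A S x r → IsClosed A →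
    (∀ (a b : ℝ), 0 ≤ a → a ≤ b → b < r → ∀ m : ℕ,
      (∀ ρ ∈ Ioo a b, (m : ℕ∞) ≤ (S ∩ sphere x ρ).encard) →
      len S x a ^ 2 + (m : ℝ) ^ 2 * (b ^ 2 - a ^ 2) ≤ len S x b ^ 2) →
    ∀ a : ℝ, 0 < a → a < r → lam * a ^ 2 ≤ len S x a ^ 2 →
    (∀ ρ ∈ Ioo a r, ((k + 2 : ℕ) : ℕ∞) ≤ (S ∩ sphere x ρ).encard) →
    τ * r < a

end H11ST
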