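import Pool.Agent.H11ST.Reg
import Pool.Agent.H11ST.St2
open MeasureTheory Metric Set Filter Topology Real
open scoped ENNReal NNReal

namespace H11ST
set_option linter.unusedSectionVars false

/-- the inequality for the square of the length, for one configuration -/
def GIat {d : ℕ} (S : Set (E d)) (x : E d) (r : ℝ) : Prop :=
  ∀ (a b : ℝ), 0 ≤ a → a ≤ b → b < r → ∀ m : ℕ,
    (∀ ρ ∈ Ioo a b, (m : ℕ∞) ≤ (S ∩ sphere x ρ).encard) →
    len S x a ^ 2 + (m : ℝ) ^ 2 * (b ^ 2 - a ^ 2) ≤ len S x b ^ 2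

theorem reg_at {d : ℕ} (hd : 1 ≤ d) {A S : Set (E d)} {x y : E d} {r : ℝ} (L : LocAdm A S x r)
    (hA : IsClosed A) (hT : ∃ u ε, Tri S y u ε) :
    ∀ z ∈ S ∩ ball x r, (∃ u ε, Lin S z u ε) ∨ ∃ u ε, Tri S z u ε := by
  intro z hz
  refine reg hd A S x r L hA z hz ?_
  obtain ⟨u, ε, T⟩ := hT
  by_cases h : y = z
  · refine ⟨y + (ε / 2) • u 0, Or.inl (T.mem (by linarith [T.pos]) (by linarith [T.pos])), ?_⟩
    rw [← h]
    intro h1
    have h2 : dist (y + (ε / 2) • u 0) y = |ε / 2| := T.dist_arm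
    rw [h1, dist_self, abs_of_pos (by linarith [T.pos])] at h2
    linarith [T.pos]
  · exact ⟨y, Or.inl T.y_mem, h⟩

theorem gi_at {d : ℕ} (hd : 1 ≤ d) (hgi : ST_GI d) {A S : Set (E d)} {x y : E d} {r : ℝ}
    (L : LocAdm A S x r) (hA : IsClosed A) (hT : ∃ u ε, Tri S y u ε) : GIat S x r :=
  hgi A S x r L hA (reg_at hd L hA hT)

section plane
variable {A S : Set E2} {x : E2} {r : ℝ}

/-- the bound for all `t` -/
theorem planar_bound2 (hgi : ST_GI 2) (L : LocAdm A S x r) (hA : IsClosed A) (Y : Finset E2)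
    (hY : Y.Nonempty) {t : ℝ} (ht0 : 0 < t) (ht1 : t < 1) (hb : ∀ y ∈ Y, y ∈ ball x (t * r))
    (hT : ∀ y ∈ Y, ∃ u ε, Tri S y u ε) : ((Y.card : ℝ) + 2) ^ 2 * (1 - t ^ 2) ≤ (2 * π) ^ 2 := by
  have hr := L.rpos
  have htr : t * r < r := by nlinarith
  have htr0 : 0 < t * r := mul_pos ht0 hr
  obtain ⟨y, hy⟩ := hY
  have G := gi_at (by norm_num) hgi L hA (hT y hy)
  have hcount : ∀ ρ, t * r ≤ ρ → ρ < r → ((Y.card + 2 : ℕ) : ℕ∞) ≤ (S ∩ sphere x ρ).encard :=
    fun ρ h1 h2 => L.sphere_count hA Y ⟨y, hy⟩ hb hT h1 h2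
  have key : ∀ ρ, t * r < ρ → ρ < r →
      ((Y.card : ℝ) + 2) ^ 2 * (ρ ^ 2 - (t * r) ^ 2) ≤ (2 * π * ρ) ^ 2 := by
    intro ρ h1 h2
    have h3 := G (t * r) ρ htr0.le h1.le h2 (Y.card + 2) (fun s hs =>
      hcount s hs.1.le (hs.2.trans h2))
    have hne : (S ∩ sphere x ρ).Nonempty := by
      rw [← Set.encard_pos]
      refine lt_of_lt_of_le ?_ (hcount ρ h1.le h2)
      exact_mod_cast Nat.succ_pos _
    have h4 := len_circle L hA (htr0.trans h1) h2 hne
    have h5 := len_nonneg S x ρ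
    have h6 : len S x ρ ^ 2 ≤ (2 * π * ρ) ^ 2 := by
      exact pow_le_pow_left₀ h5 h4 2
    have h7 := sq_nonneg (len S x (t * r))
    push_cast at h3
    linarith
  have h6 : ((Y.card : ℝ) + 2) ^ 2 * (r ^ 2 - (t * r) ^ 2) ≤ (2 * π * r) ^ 2 := by
    have hc1 : Tendsto (fun ρ : ℝ => ((Y.card : ℝ) + 2) ^ 2 * (ρ ^ 2 - (t * r) ^ 2)) (𝓝[<] r)
        (𝓝 (((Y.card : ℝ) + 2) ^ 2 * (r ^ 2 - (t * r) ^ 2))) :=
      (Continuous.tendsto (by fun_prop) r).mono_left nhdsWithin_le_nhds
    have hc2 : Tendsto (fun ρ : ℝ => (2 * π * ρ) ^ 2) (𝓝[<] r) (𝓝 ((2 * π * r) ^ 2)) :=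
      (Continuous.tendsto (by fun_prop) r).mono_left nhdsWithin_le_nhds
    refine le_of_tendsto_of_tendsto hc1 hc2 ?_
    filter_upwards [Ioo_mem_nhdsLT htr] with ρ hρ
    exact key ρ hρ.1 hρ.2
  have h7 : (((Y.card : ℝ) + 2) ^ 2 * (1 - t ^ 2)) * r ^ 2 ≤ (2 * π) ^ 2 * r ^ 2 := by nlinarith
  exact le_of_mul_le_mul_right h7 (by positivity)

theorem Nloc_plane2 (hgi : ST_GI 2) {t : ℝ} (ht0 : 0 < t) (ht1 : t < 1) :
    Nloc 2 t ≤ ((⌊2 * π / √(1 - t ^ 2)⌋₊ - 2 : ℕ) : ℕ∞) := by
  refine Nloc_le fun A S x r hL Y hY hb hT => ?_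
  have h := planar_bound2 hgi hL.adm hL.compact.isClosed Y hY ht0 ht1 hb hT
  have hs : 0 < 1 - t ^ 2 := by nlinarith
  have hs' : 0 < √(1 - t ^ 2) := Real.sqrt_pos.2 hs
  have h1 : ((Y.card + 2 : ℕ) : ℝ) ≤ 2 * π / √(1 - t ^ 2) := by
    rw [le_div_iff₀ hs']
    push_cast
    refine le_of_sq_le_sq ?_ (by positivity)
    rw [mul_pow, Real.sq_sqrt hs.le]; exact h
  have h2 := Nat.le_floor h1
  omega

/-- the flux bound from one branching point -/
theorem flux_one (hgi : ST_GI 2) (hfl : ST_FLUX) (L : LocAdm A S x r) (hA : IsClosed A) {y : E2}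
    (hT : ∃ u ε, Tri S y u ε) {a : ℝ} (har : a < r) (hya : dist y x ≤ a) :
    9 * a ^ 2 - 33 / 4 * dist y x ^ 2 ≤ len S x a ^ 2 := by
  classical
  have G := gi_at (by norm_num) hgi L hA hT
  set D := dist y x with hD
  have hD0 : 0 ≤ D := dist_nonneg
  have hcount : ∀ ρ ∈ Ioo D a, ((3 : ℕ) : ℕ∞) ≤ (S ∩ sphere x ρ).encard := by
    intro ρ hρ
    have := L.sphere_count hA {y} (Finset.singleton_nonempty y) (ρ₀ := ρ) (by
      intro z hz; rw [Finset.mem_singleton] at hz; subst hz; exact mem_ball.2 hρ.1) (by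
      intro z hz; rw [Finset.mem_singleton] at hz; subst hz; exact hT) le_rfl (hρ.2.trans har)
    simpa using this
  have h1 := G D a hD0 hya har 3 hcount
  have h2 : 3 / 4 * D ^ 2 ≤ len S x D ^ 2 := by
    rcases eq_or_lt_of_le hD0 with h0 | h0
    · rw [← h0]; simp; positivity
    · have h3 := hfl A S x r L hA (reg_at (by norm_num) L hA hT) D h0 (hya.trans_lt har) {y} (by
        intro z hz; rw [Finset.mem_singleton] at hz; subst hz
        exact ⟨mem_closedBall.2 le_rfl, hT⟩) (by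
        intro z hz w hw hTw hwz
        rw [Finset.mem_singleton] at hz; subst hz
        have : 0 < dist z w := dist_pos.2 (Ne.symm hwz)
        have : 0 < dist z w ^ 2 := by positivity
        rw [← hD]; linarith)
      rw [Finset.sum_singleton, ← hD] at h3
      have h4 : (√3 / 2 * D) ^ 2 ≤ len S x D ^ 2 := pow_le_pow_left₀ (by positivity) h3 2
      have h5 : (√3 / 2 * D) ^ 2 = 3 / 4 * D ^ 2 := by
        rw [mul_pow, div_pow, Real.sq_sqrt (by norm_num)]; ring
      linarith
  push_cast at h1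
  linarith

/-- two branching points are not too close to each other -/
theorem sep (hgi : ST_GI 2) (hfl : ST_FLUX) {τ : ℝ} (hτ1 : τ < 1)
    (hph : ST_PH 2 3 τ) (L : LocAdm A S x r) (hA : IsClosed A) {y y' : E2} (hne : y ≠ y')
    (hyb : y ∈ ball x r) (hyb' : y' ∈ ball x r)
    (hT : ∃ u ε, Tri S y u ε) (hT' : ∃ u ε, Tri S y' u ε) :
    τ * (r - dist (midpoint ℝ y y') x) < dist y y' / 2 := by
  classical
  set m := midpoint ℝ y y' with hm
  have hmb : m ∈ ball x r := (convex_ball x r).segment_subset hyb hyb' (midpoint_mem_segment _ _)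
  have hR : 0 < r - dist m x := by rw [mem_ball] at hmb; linarith
  set R := r - dist m x with hRdef
  set D := dist y y' / 2 with hD
  have hd0 : 0 < dist y y' := dist_pos.2 hne
  have hD0 : 0 < D := by positivity
  rcases le_or_gt R D with hRD | hDR
  · nlinarith
  · have L' : LocAdm A S m R := L.restrict hR (by
      intro v hv
      rw [mem_ball] at hv ⊢
      have := dist_triangle v m x
      linarith)
    have hym : dist y m = D := by
      rw [hm, dist_left_midpoint, hD, Real.norm_of_nonneg (by norm_num)]; ring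
    have hym' : dist y' m = D := by
      rw [hm, dist_right_midpoint, hD, Real.norm_of_nonneg (by norm_num)]; ring
    have hcard : ({y, y'} : Finset E2).card = 2 := Finset.card_pair hne
    have hcount : ∀ ρ ∈ Ioo D R, ((2 + 2 : ℕ) : ℕ∞) ≤ (S ∩ sphere m ρ).encard := by
      intro ρ hρ
      have := L'.sphere_count hA {y, y'} (Finset.insert_nonempty _ _) (ρ₀ := ρ) (by
        intro z hz
        rw [Finset.mem_insert, Finset.mem_singleton] at hz
        rcases hz with rfl | rfl
        · rw [mem_ball, hym]; exact hρ.1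
        · rw [mem_ball, hym']; exact hρ.1) (by
        intro z hz
        rw [Finset.mem_insert, Finset.mem_singleton] at hz
        rcases hz with rfl | rfl
        · exact hT
        · exact hT') le_rfl hρ.2
      rw [hcard] at this
      exact this
    have hf := hfl A S m R L' hA (reg_at (by norm_num) L' hA hT) D hD0 hDR {y, y'} (by
        intro z hz
        rw [Finset.mem_insert, Finset.mem_singleton] at hz
        rcases hz with rfl | rfl
        · exact ⟨by rw [mem_closedBall, hym], hT⟩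
        · exact ⟨by rw [mem_closedBall, hym'], hT'⟩) (by
        intro z hz w hw hTw hwz
        have : 0 < dist z w := dist_pos.2 (Ne.symm hwz)
        have : 0 < dist z w ^ 2 := by positivity
        rw [Finset.mem_insert, Finset.mem_singleton] at hz
        rcases hz with rfl | rfl
        · rw [hym]; linarith
        · rw [hym']; linarith)
    rw [Finset.sum_pair hne, hym, hym'] at hf
    have h4 : (√3 / 2 * (D + D)) ^ 2 ≤ len S m D ^ 2 := pow_le_pow_left₀ (by positivity) hf 2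
    have h5 : (√3 / 2 * (D + D)) ^ 2 = 3 * D ^ 2 := by
      rw [mul_pow, div_pow, Real.sq_sqrt (by norm_num)]; ring
    exact hph A S m R L' hA (gi_at (by norm_num) hgi L' hA hT) D hD0 hDR (by linarith) hcount

/-- the table from the phase argument -/
theorem Nloc_of_PH (hgi : ST_GI 2) (hfl : ST_FLUX) {k : ℕ} (hk : 1 ≤ k) {τ t : ℝ}
    (hph : ST_PH k (3 / 4) τ) (ht0 : 0 < t) (ht1 : t < 1) (ht : t ≤ τ) :
    Nloc 2 t ≤ ((k - 1 : ℕ) : ℕ∞) := by
  refine Nloc_le fun A S x r hL Y hY hb hT => ?_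
  by_contra hcon
  have hcard : k ≤ Y.card := by omega
  have hr := hL.rpos
  have htr : t * r < r := by nlinarith
  have htr0 : 0 < t * r := mul_pos ht0 hr
  have hA := hL.compact.isClosed
  obtain ⟨y, hy⟩ := hY
  have h1 := flux_one hgi hfl hL.adm hA (hT y hy) htr (mem_ball.1 (hb y hy)).le
  have hDy : dist y x ^ 2 ≤ (t * r) ^ 2 :=
    pow_le_pow_left₀ dist_nonneg (mem_ball.1 (hb y hy)).le 2
  have h2 := hph A S x r hL.adm hA (gi_at (by norm_num) hgi hL.adm hA (hT y hy)) (t * r) htr0 htr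
    (by linarith) (fun ρ hρ => by
      refine le_trans ?_ (hL.adm.sphere_count hA Y ⟨y, hy⟩ hb hT hρ.1.le hρ.2)
      exact_mod_cast Nat.add_le_add_right hcard 2)
  nlinarith

/-- at most one branching point -/
theorem Nloc_one (hgi : ST_GI 2) (hfl : ST_FLUX) (hph : ST_PH 2 3 (1301 / 10000)) {t : ℝ}
    (ht0 : 0 < t) (ht : t ≤ 129 / 1000) : Nloc 2 t ≤ (1 : ℕ) := by
  refine Nloc_le fun A S x r hL Y hY hb hT => ?_
  by_contra hcon
  push Not at hcon
  obtain ⟨y, hy, y', hy', hne⟩ := Finset.one_lt_card.1 hcon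
  have hr := hL.rpos
  have hA := hL.compact.isClosed
  have hyb := mem_ball.1 (hb y hy)
  have hyb' := mem_ball.1 (hb y' hy')
  have htr : t * r ≤ 129 / 1000 * r := by nlinarith
  have h1 := sep hgi hfl (by norm_num) hph hL.adm hA hne (mem_ball.2 (by linarith))
    (mem_ball.2 (by linarith)) (hT y hy) (hT y' hy')
  -- parallelogram
  have h2 : dist (midpoint ℝ y y') x ^ 2 + (dist y y' / 2) ^ 2 =
      (dist y x ^ 2 + dist y' x ^ 2) / 2 := by
    have e1 : midpoint ℝ y y' - x = (1 / 2 : ℝ) • ((y - x) + (y' - x)) := by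
      rw [midpoint_eq_smul_add]
      have : x = (1 / 2 : ℝ) • (x + x) := by
        rw [← two_smul ℝ x, smul_smul]; norm_num
      rw [show (⅟2 : ℝ) = 1 / 2 by norm_num]
      conv_lhs => rw [this]
      rw [← smul_sub]; congr 1; abel
    have e2 : dist y y' = ‖(y - x) - (y' - x)‖ := by rw [dist_eq_norm]; congr 1; abel
    have e3 := parallelogram_law_with_norm ℝ (y - x) (y' - x)
    rw [dist_eq_norm (midpoint ℝ y y') x, e1, norm_smul, e2, dist_eq_norm y x, dist_eq_norm y' x,
      Real.norm_of_nonneg (by norm_num)]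
    nlinarith
  set δ := dist (midpoint ℝ y y') x with hδ
  set D := dist y y' / 2 with hD
  have hδ0 : 0 ≤ δ := dist_nonneg
  have h3 : dist y x ^ 2 < (129 / 1000 * r) ^ 2 :=
    pow_lt_pow_left₀ (by linarith) dist_nonneg two_ne_zero
  have h4 : dist y' x ^ 2 < (129 / 1000 * r) ^ 2 :=
    pow_lt_pow_left₀ (by linarith) dist_nonneg two_ne_zero
  have h5 : δ < r := by nlinarith [sq_nonneg D]
  have h6 : (1301 / 10000 * (r - δ)) ^ 2 < D ^ 2 :=
    pow_lt_pow_left₀ h1 (by nlinarith) two_ne_zero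
  nlinarith [sq_nonneg (r * (1301 / 10000) ^ 2 - δ * (1 + (1301 / 10000) ^ 2)), sq_nonneg r,
    mul_pos hr hr]

/-- at most two branching points -/
theorem Nloc_two (hgi : ST_GI 2) (hfl : ST_FLUX) (hph2 : ST_PH 2 3 (1301 / 10000))
    (hph3 : ST_PH 3 (7 / 2) (31 / 100)) (hph4 : ST_PH 4 (3 / 4) (5032 / 10000)) {t : ℝ}
    (ht0 : 0 < t) (ht : t ≤ 31 / 100) : Nloc 2 t ≤ (2 : ℕ) := by
  classical
  refine Nloc_le fun A S x r hL Y hY hb hT => ?_
  by_contra hcon
  push Not at hcon
  have hr := hL.rpos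
  have hA := hL.compact.isClosed
  set a := t * r with ha
  have ha0 : 0 < a := mul_pos ht0 hr
  have har' : a ≤ 31 / 100 * r := by rw [ha]; nlinarith
  have har : a < r := by linarith
  obtain ⟨y0, hy0⟩ := hY
  have G := gi_at (by norm_num) hgi hL.adm hA (hT y0 hy0)
  have hD : ∀ y ∈ Y, dist y x < a := fun y hy => mem_ball.1 (hb y hy)
  -- all tripod points are in Y
  have hall : ∀ z ∈ closedBall x a, (∃ u ε, Tri S z u ε) → z ∈ Y := by
    intro z hz hTz
    by_contra hzY
    have hc : (insert z Y).card = Y.card + 1 := Finset.card_insert_of_notMem hzY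
    have h1 := flux_one hgi hfl hL.adm hA hTz har (mem_closedBall.1 hz)
    have hDz : dist z x ^ 2 ≤ a ^ 2 := pow_le_pow_left₀ dist_nonneg (mem_closedBall.1 hz) 2
    have h2 := hph4 A S x r hL.adm hA G a ha0 har (by linarith) (fun ρ hρ => by
      refine le_trans ?_ (hL.adm.sphere_count hA (insert z Y) (Finset.insert_nonempty _ _)
        (ρ₀ := ρ) ?_ ?_ le_rfl hρ.2)
      · rw [hc]; exact_mod_cast (by omega : 4 + 2 ≤ Y.card + 1 + 2)
      · intro w hw
        rcases Finset.mem_insert.1 hw with rfl | hw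
        · exact mem_ball.2 (lt_of_le_of_lt (mem_closedBall.1 hz) hρ.1)
        · exact mem_ball.2 ((hD w hw).trans hρ.1)
      · intro w hw
        rcases Finset.mem_insert.1 hw with rfl | hw
        · exact hTz
        · exact hT w hw)
    linarith
  -- the starting value
  have hstart : 7 / 2 * a ^ 2 ≤ len S x a ^ 2 := by
    by_cases hcase : ∀ y ∈ Y, ∀ z ∈ Y, z ≠ y → a ^ 2 < dist y x ^ 2 + dist y z ^ 2
    · by_cases hsmall : ∃ y ∈ Y, dist y x ^ 2 ≤ 3 / 5 * a ^ 2
      · obtain ⟨y, hy, hyD⟩ := hsmall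
        have h1 := flux_one hgi hfl hL.adm hA (hT y hy) har (hD y hy).le
        nlinarith
      · push Not at hsmall
        have h1 := hfl A S x r hL.adm hA (reg_at (by norm_num) hL.adm hA (hT y0 hy0)) a ha0 har Y
          (fun y hy => ⟨ball_subset_closedBall (hb y hy), hT y hy⟩)
          (fun y hy z hz hTz hzy => hcase y hy z (hall z hz hTz) hzy)
        have h2 : ∀ y ∈ Y, 77 / 100 * a ≤ dist y x := by
          intro y hy
          have := hsmall y hy
          refine le_of_sq_le_sq ?_ dist_nonneg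
          nlinarith
        have h3 : (Y.card : ℝ) * (77 / 100 * a) ≤ ∑ y ∈ Y, dist y x := by
          rw [← nsmul_eq_mul]
          exact Finset.card_nsmul_le_sum _ _ _ h2
        have h4 : (3 : ℝ) ≤ Y.card := by exact_mod_cast hcon
        have h5 : 3 * (77 / 100 * a) ≤ ∑ y ∈ Y, dist y x := by
          refine le_trans ?_ h3
          exact mul_le_mul_of_nonneg_right h4 (by positivity)
        have h6 : √3 / 2 * (3 * (77 / 100 * a)) ≤ len S x a :=
          le_trans (mul_le_mul_of_nonneg_left h5 (by positivity)) h1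
        have h7 : (√3 / 2 * (3 * (77 / 100 * a))) ^ 2 ≤ len S x a ^ 2 :=
          pow_le_pow_left₀ (by positivity) h6 2
        have h8 : (√3 / 2 * (3 * (77 / 100 * a))) ^ 2 = 3 / 4 * (3 * (77 / 100 * a)) ^ 2 := by
          rw [mul_pow, div_pow, Real.sq_sqrt (by norm_num)]; ring
        nlinarith
    · push Not at hcase
      obtain ⟨y, hy, z, hz, hzy, hle⟩ := hcase
      have h1 := flux_one hgi hfl hL.adm hA (hT y hy) har (hD y hy).le
      have h2 := sep hgi hfl (by norm_num) hph2 hL.adm hA hzy.symm (mem_ball.2 ((hD y hy).trans har))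
        (mem_ball.2 ((hD z hz).trans har)) (hT y hy) (hT z hz)
      have h3 : dist (midpoint ℝ y z) x ≤ a := by
        have := (convex_closedBall x a).segment_subset (ball_subset_closedBall (hb y hy))
          (ball_subset_closedBall (hb z hz)) (midpoint_mem_segment y z)
        exact mem_closedBall.1 this
      have h4 : 2602 / 10000 * (r - a) < dist y z := by linarith
      have h5 : 2602 / 10000 * (69 / 31 * a) < dist y z := by nlinarith
      have h6 : (2602 / 10000 * (69 / 31 * a)) ^ 2 < dist y z ^ 2 :=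
        pow_lt_pow_left₀ h5 (by positivity) two_ne_zero
      nlinarith
  have h2 := hph3 A S x r hL.adm hA G a ha0 har hstart (fun ρ hρ => by
    refine le_trans ?_ (hL.adm.sphere_count hA Y ⟨y0, hy0⟩ hb hT hρ.1.le hρ.2)
    exact_mod_cast Nat.add_le_add_right hcon 2)
  linarith

end plane
end H11ST
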