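import Pool.Agent.H11ST.Growth
open MeasureTheory Metric Set Filter Topology
open scoped ENNReal NNReal

namespace H11ST
set_option linter.unusedSectionVars false

section
variable {V : Type*} [NormedAddCommGroup V] [InnerProductSpace ℝ V] [MeasurableSpace V] [BorelSpace V]

theorem Star.extend_many {x : V} {ρ : ℝ} {D : Set V} {c δ : ℝ} (h : Star x ρ D c) (hδ : 0 ≤ δ)
    (P : Finset V) (hP : ∀ p ∈ P, p ∈ closedBall x ρ) (hq : ∀ p ∈ P, ∃ q ∈ D, dist q p ≤ δ) :
    ∃ D', D ⊆ D' ∧ Star x ρ D' (c + P.card * δ) ∧ ∀ p ∈ P, p ∈ D' := by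
  classical
  induction P using Finset.induction_on with
  | empty => exact ⟨D, Subset.rfl, by simpa using h, by simp⟩
  | insert a P ha ih =>
    obtain ⟨D', hDD', hD', hPD⟩ := ih (fun p hp => hP p (Finset.mem_insert_of_mem hp))
      (fun p hp => hq p (Finset.mem_insert_of_mem hp))
    obtain ⟨q, hqD, hqa⟩ := hq a (Finset.mem_insert_self _ _)
    refine ⟨D' ∪ segment ℝ q a, hDD'.trans subset_union_left,
      (hD'.extend (hDD' hqD) (hP a (Finset.mem_insert_self _ _))).mono ?_, ?_⟩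
    · rw [Finset.card_insert_of_notMem ha]
      push_cast
      linarith
    · intro p hp
      rcases Finset.mem_insert.1 hp with rfl | hp
      · exact Or.inr (right_mem_segment ℝ _ _)
      · exact Or.inl (hPD p hp)
end

/-- Euclidean space of dimension `d` -/
abbrev E (d : ℕ) := EuclideanSpace ℝ (Fin d)

theorem norm_le_sqrt {d : ℕ} (v : E d) {δ : ℝ} (hδ : 0 ≤ δ) (h : ∀ i, |v i| ≤ δ) :
    ‖v‖ ≤ √d * δ := by
  have h1 : ‖v‖ ^ 2 ≤ (√d * δ) ^ 2 := by
    rw [EuclideanSpace.norm_sq_eq, mul_pow, Real.sq_sqrt (Nat.cast_nonneg d)]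
    calc ∑ i, ‖v i‖ ^ 2 ≤ ∑ _i : Fin d, δ ^ 2 := by
          refine Finset.sum_le_sum fun i _ => ?_
          rw [Real.norm_eq_abs]
          exact pow_le_pow_left₀ (abs_nonneg _) (h i) 2
      _ = d * δ ^ 2 := by simp
  exact le_of_sq_le_sq h1 (by positivity) |> fun h => h

theorem abs_coord_le {d : ℕ} (v : E d) (i : Fin d) : |v i| ≤ ‖v‖ := by
  have h1 : |v i| ^ 2 ≤ ‖v‖ ^ 2 := by
    rw [EuclideanSpace.norm_sq_eq]
    have := Finset.single_le_sum (f := fun i => ‖v i‖ ^ 2) (s := Finset.univ)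
      (fun _ _ => by positivity) (Finset.mem_univ i)
    simpa using this
  exact (sq_le_sq₀ (abs_nonneg _) (norm_nonneg _)).1 h1

/-- `n` points of a ball can be connected with length at most `ρ ((2K+1)^d + √d n / K)` -/
theorem cells {d : ℕ} {x : E d} {ρ : ℝ} (hρ : 0 < ρ) {K : ℕ} (hK : 1 ≤ K) (P : Finset (E d))
    (hP : ∀ p ∈ P, p ∈ closedBall x ρ) :
    ∃ D, Star x ρ D (((2 * K + 1 : ℕ) : ℝ) ^ d * ρ + P.card * (√d * (ρ / K))) ∧ ∀ p ∈ P, p ∈ D := by
  classical
  have hK0 : (0 : ℝ) < K := by exact_mod_cast hK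
  set c : E d → (Fin d → ℤ) := fun p i => ⌊(K : ℝ) / ρ * (p - x) i⌋ with hc
  have hrep : ∀ v ∈ P.image c, ∃ p ∈ P, c p = v := fun v hv => Finset.mem_image.1 hv
  choose! rep hrep1 hrep2 using hrep
  set F := (P.image c).image rep with hF
  have hFP : ∀ p ∈ F, p ∈ P := by
    intro p hp
    obtain ⟨v, hv, rfl⟩ := Finset.mem_image.1 hp
    exact hrep1 v hv
  have hFcard : F.card ≤ (2 * K + 1) ^ d := by
    refine Finset.card_image_le.trans ?_
    have hsub : P.image c ⊆ Fintype.piFinset (fun _ : Fin d => Finset.Icc (-(K : ℤ)) K) := by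
      intro v hv
      obtain ⟨p, hp, rfl⟩ := Finset.mem_image.1 hv
      rw [Fintype.mem_piFinset]
      intro i
      have h1 : |(p - x) i| ≤ ρ := by
        refine (abs_coord_le _ i).trans ?_
        rw [← dist_eq_norm]; exact mem_closedBall.1 (hP p hp)
      rw [abs_le] at h1
      have h2 : (K : ℝ) / ρ * (p - x) i ≤ K := by
        rw [div_mul_eq_mul_div, div_le_iff₀ hρ]
        exact mul_le_mul_of_nonneg_left h1.2 hK0.le
      have h3 : -(K : ℝ) ≤ (K : ℝ) / ρ * (p - x) i := by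
        rw [div_mul_eq_mul_div, le_div_iff₀ hρ]
        nlinarith [h1.1]
      rw [Finset.mem_Icc]
      constructor
      · rw [hc]; simp only
        rw [Int.le_floor]; push_cast; exact h3
      · rw [hc]; simp only
        have := Int.floor_le ((K : ℝ) / ρ * (p - x) i)
        have h4 : ((⌊(K : ℝ) / ρ * (p - x) i⌋ : ℤ) : ℝ) ≤ (K : ℤ) := by
          push_cast; linarith
        exact_mod_cast h4
    refine (Finset.card_le_card hsub).trans ?_
    rw [Fintype.card_piFinset]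
    simp only [Int.card_Icc, Finset.prod_const, Finset.card_univ, Fintype.card_fin]
    have : ((K : ℤ) + 1 - -(K : ℤ)).toNat = 2 * K + 1 := by omega
    rw [this]
  obtain ⟨D, hD, hFD⟩ := Star.spokes (x := x) hρ.le F (fun p hp => hP p (hFP p hp))
  have hδ : 0 ≤ √d * (ρ / K) := by positivity
  obtain ⟨D', -, hD', hPD'⟩ := hD.extend_many hδ P hP (by
    intro p hp
    have hv : c p ∈ P.image c := Finset.mem_image_of_mem c hp
    refine ⟨rep (c p), hFD _ (Finset.mem_image_of_mem rep hv), ?_⟩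
    rw [dist_eq_norm]
    refine norm_le_sqrt _ (by positivity) fun i => ?_
    have h1 : c (rep (c p)) i = c p i := by rw [hrep2 _ hv]
    simp only [hc] at h1
    have h2 := Int.abs_sub_lt_one_of_floor_eq_floor h1
    have h3 : (K : ℝ) / ρ * (rep (c p) - x) i - (K : ℝ) / ρ * (p - x) i =
        (K : ℝ) / ρ * ((rep (c p) - p) i) := by
      simp only [PiLp.sub_apply]; ring
    have h2' : |(K : ℝ) / ρ * (rep (c p) - x) i - (K : ℝ) / ρ * (p - x) i| < 1 := h2
    rw [h3, abs_mul, abs_of_pos (by positivity : (0 : ℝ) < (K : ℝ) / ρ)] at h2'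
    rw [le_div_iff₀ hK0]
    have h4 : (K : ℝ) / ρ * |(rep (c p) - p) i| = (|(rep (c p) - p) i| * K) / ρ := by ring
    rw [h4, div_lt_one hρ] at h2'
    exact h2'.le)
  refine ⟨D', hD'.mono ?_, hPD'⟩
  have : (F.card : ℝ) ≤ ((2 * K + 1 : ℕ) : ℝ) ^ d := by exact_mod_cast hFcard
  nlinarith

theorem LocAdm.len_cells {d : ℕ} {A S : Set (E d)} {x : E d} {r : ℝ} (L : LocAdm A S x r)
    (hA : IsClosed A) {ρ : ℝ} (h0 : 0 < ρ) (hρ : ρ < r) {K : ℕ} (hK : 1 ≤ K) {n : ℕ} (hn : 1 ≤ n)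
    (hcard : (S ∩ sphere x ρ).encard = n) :
    len S x ρ ≤ ((2 * K + 1 : ℕ) : ℝ) ^ d * ρ + n * (√d * (ρ / K)) := by
  classical
  have hfin : (S ∩ sphere x ρ).Finite := Set.finite_of_encard_eq_coe hcard
  set P := hfin.toFinset with hP
  have hPc : P.card = n := by
    have := hfin.encard_eq_coe_toFinset_card
    rw [hcard] at this
    exact_mod_cast this.symm
  have hPmem : ∀ p, p ∈ P ↔ p ∈ S ∩ sphere x ρ := fun p => by simp [hP]
  obtain ⟨D, hD, hPD⟩ := cells (x := x) h0 hK P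
    (fun p hp => sphere_subset_closedBall ((hPmem p).1 hp).2)
  rw [hPc] at hD
  refine L.len_comp hA hρ hD.closed hD.conn hD.sub (fun z hz => hPD z ((hPmem z).2 hz)) ?_
    hD.nonneg hD.len
  obtain ⟨z, hz⟩ := Finset.card_pos.1 (by rw [hPc]; omega : 0 < P.card)
  exact ⟨z, (hPmem z).1 hz⟩

/-- the constant -/
noncomputable def Cd (d : ℕ) : ℝ := 2 * (3 * (2 ^ (d + 2) * √d + 1)) ^ d

theorem blowup {d : ℕ} {A S : Set (E d)} {x : E d} {r : ℝ} (L : LocAdm A S x r)
    (hA : IsClosed A) {ρ₀ : ℝ} (h0 : 0 < ρ₀) (K₀ : ℕ) (hK₀ : 1 ≤ K₀)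
    (hstep : ρ₀ + 2 ^ (d + 2) * √d * r / K₀ < r)
    (hne : ∀ ρ, ρ₀ ≤ ρ → ρ < r → (S ∩ sphere x ρ).Nonempty) (hd : 1 ≤ d) :
    len S x ρ₀ < 2 * (3 * K₀) ^ d * r := by
  by_contra hcon
  push Not at hcon
  have hr := L.rpos
  have hK₀' : (0 : ℝ) < K₀ := by exact_mod_cast hK₀
  have hdpos : (0 : ℝ) < √d := Real.sqrt_pos.2 (by exact_mod_cast hd)
  set B : ℝ := 2 ^ (d + 2) * √d * r / K₀ with hB
  have hBpos : 0 < B := by positivity
  have hr0r : ρ₀ < r := by linarith
  -- radii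
  have key : ∀ j : ℕ, 2 * (3 * (2 ^ j * K₀)) ^ d * r ≤ len S x (ρ₀ + B * (1 - 1 / 2 ^ j)) := by
    intro j
    induction j with
    | zero => simpa using hcon
    | succ j ih =>
      have h2j : (0 : ℝ) < 2 ^ j := by positivity
      have hfrac : (0 : ℝ) < 1 / 2 ^ j := by positivity
      have hfrac1 : (1 : ℝ) / 2 ^ j ≤ 1 := by
        rw [div_le_one h2j]; exact one_le_pow₀ (by norm_num)
      have hhalf : (1 : ℝ) / 2 ^ (j + 1) = (1 / 2 ^ j) / 2 := by rw [pow_succ]; field_simp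
      set a := ρ₀ + B * (1 - 1 / 2 ^ j) with ha
      set b := ρ₀ + B * (1 - 1 / 2 ^ (j + 1)) with hb
      have hab : b - a = B * (1 / 2 ^ j) / 2 := by rw [ha, hb, hhalf]; ring
      have hab' : a ≤ b := by
        have : 0 ≤ B * (1 / 2 ^ j) / 2 := by positivity
        linarith
      have ha0 : ρ₀ ≤ a := by
        have : 0 ≤ B * (1 - 1 / 2 ^ j) := mul_nonneg hBpos.le (by linarith)
        linarith
      have hbr : b < r := by
        have : B * (1 - 1 / 2 ^ (j + 1)) ≤ B := by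
          rw [hhalf]; nlinarith
        linarith
      set K : ℕ := 2 ^ j * K₀ with hK
      have hK1 : 1 ≤ K := Nat.one_le_iff_ne_zero.2 (by positivity)
      have hKr : (K : ℝ) = 2 ^ j * K₀ := by rw [hK]; push_cast; ring
      have hKpos : (0 : ℝ) < K := by exact_mod_cast hK1
      set M : ℝ := K * (3 * K) ^ d / √d with hM
      have hMpos : 0 < M := by positivity
      -- number of points
      have hcount : ∀ ρ ∈ Ioo a b, ((⌈M⌉₊ : ℕ) : ℕ∞) ≤ (S ∩ sphere x ρ).encard := by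
        intro ρ hρ
        have hρ0 : 0 < ρ := by linarith [hρ.1]
        have hρr : ρ < r := hρ.2.trans hbr
        by_cases htop : (S ∩ sphere x ρ).encard = ⊤
        · rw [htop]; exact le_top
        obtain ⟨n, hn⟩ := ENat.ne_top_iff_exists.1 htop
        rw [← hn]
        have hn1 : 1 ≤ n := by
          have := hne ρ (ha0.trans hρ.1.le) hρr
          rw [← Set.encard_pos, ← hn] at this
          exact_mod_cast this
        have h1 := L.len_cells hA hρ0 hρr hK1 hn1 hn.symm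
        have h2 : len S x a ≤ len S x ρ := by
          have := L.len_growth hρ.1.le hρr.le 0 (fun _ _ => by simp)
          simpa using this
        have h3 : (((2 * K + 1 : ℕ) : ℝ)) ^ d ≤ (3 * K) ^ d := by
          refine pow_le_pow_left₀ (by positivity) ?_ d
          push_cast
          have : (1 : ℝ) ≤ K := by exact_mod_cast hK1
          linarith
        have h4 : 2 * (3 * (K : ℝ)) ^ d * r ≤ len S x a := by rw [hKr]; exact ih
        have h5 : ((2 * K + 1 : ℕ) : ℝ) ^ d * ρ ≤ (3 * K) ^ d * r :=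
          mul_le_mul h3 hρr.le hρ0.le (by positivity)
        have h6 : (n : ℝ) * (√d * (ρ / K)) ≤ n * (√d * (r / K)) := by gcongr
        have h7 : (3 * (K : ℝ)) ^ d * r ≤ n * (√d * (r / K)) := by linarith
        have h8 : M ≤ n := by
          rw [hM, div_le_iff₀ hdpos]
          have h9 : (n : ℝ) * (√d * (r / K)) = (n * √d / K) * r := by ring
          rw [h9] at h7
          have h10 := le_of_mul_le_mul_right h7 hr
          rw [le_div_iff₀ hKpos] at h10
          linarith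
        exact_mod_cast Nat.ceil_le.2 h8
      have h1 := L.len_growth hab' hbr.le _ hcount
      have h2 : M ≤ (⌈M⌉₊ : ℝ) := Nat.le_ceil M
      have h3 : 0 ≤ len S x a := len_nonneg _ _ _
      have h4 : M * (b - a) ≤ len S x b := by
        have : M * (b - a) ≤ (⌈M⌉₊ : ℝ) * (b - a) :=
          mul_le_mul_of_nonneg_right h2 (by linarith)
        linarith
      refine le_trans (le_of_eq ?_) h4
      rw [hab, hM, hB, hKr]
      have h5 : (3 * (2 ^ (j + 1) * (K₀ : ℝ))) ^ d = 2 ^ d * (3 * (2 ^ j * K₀)) ^ d := by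
        rw [← mul_pow]; congr 1; rw [pow_succ]; ring
      rw [h5]
      field_simp
      ring
  -- contradiction
  have hfin := L.len_fin (ρ := ρ₀ + B) hstep.le
  have hle : ∀ j : ℕ, 2 * (3 * (2 ^ j * (K₀ : ℝ))) ^ d * r ≤ len S x (ρ₀ + B) := by
    intro j
    refine (key j).trans ?_
    have h2j : (0 : ℝ) < 1 / 2 ^ j := by positivity
    have := L.len_growth (a := ρ₀ + B * (1 - 1 / 2 ^ j)) (b := ρ₀ + B)
      (by nlinarith) hstep.le 0 (fun _ _ => by simp)
    simpa using this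
  have htend : Tendsto (fun j : ℕ => (2 : ℝ) ^ j) atTop atTop :=
    tendsto_pow_atTop_atTop_of_one_lt (by norm_num)
  obtain ⟨j, hj⟩ := (htend.eventually_gt_atTop (len S x (ρ₀ + B) / r)).exists
  have h1 := hle j
  have h2 : (2 : ℝ) ^ j ≤ 2 * (3 * (2 ^ j * (K₀ : ℝ))) ^ d := by
    have hK1 : (1 : ℝ) ≤ K₀ := by exact_mod_cast hK₀
    have h2j : (1 : ℝ) ≤ 2 ^ j := one_le_pow₀ (by norm_num)
    have h3 : (2 : ℝ) ^ j ≤ 3 * (2 ^ j * K₀) := by nlinarith
    have h4 : (1 : ℝ) ≤ 3 * (2 ^ j * K₀) := h2j.trans h3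
    have h5 : 3 * (2 ^ j * (K₀ : ℝ)) ≤ (3 * (2 ^ j * K₀)) ^ d := le_self_pow₀ h4 (by omega)
    linarith
  rw [div_lt_iff₀ hr] at hj
  have h3 : (2 : ℝ) ^ j * r ≤ 2 * (3 * (2 ^ j * (K₀ : ℝ))) ^ d * r :=
    mul_le_mul_of_nonneg_right h2 hr.le
  linarith

/-- uniform bound for the length in concentric balls -/
theorem len_bound {d : ℕ} (hd : 1 ≤ d) {A S : Set (E d)} {x : E d} {r : ℝ} (L : LocAdm A S x r)
    (hA : IsClosed A) {ρ₀ : ℝ} (h0 : 0 < ρ₀) (hρ : ρ₀ < r)
    (hne : ∀ ρ, ρ₀ ≤ ρ → ρ < r → (S ∩ sphere x ρ).Nonempty) :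
    len S x ρ₀ ≤ Cd d / (1 - ρ₀ / r) ^ d * r := by
  have hr := L.rpos
  have hdpos : (0 : ℝ) < √d := Real.sqrt_pos.2 (by exact_mod_cast hd)
  set q := 1 - ρ₀ / r with hq
  have hq0 : 0 < q := by rw [hq, sub_pos, div_lt_one hr]; exact hρ
  have hq1 : q < 1 := by rw [hq]; have : 0 < ρ₀ / r := by positivity
                         linarith
  set a : ℝ := 2 ^ (d + 2) * √d with ha
  have hapos : 0 < a := by positivity
  set K₀ : ℕ := ⌊a / q⌋₊ + 1 with hK
  have h1 : a / q < K₀ := by rw [hK]; push_cast; exact Nat.lt_floor_add_one _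
  have h2 : (K₀ : ℝ) ≤ (a + 1) / q := by
    rw [hK]; push_cast
    have h3 := Nat.floor_le (a := a / q) (by positivity)
    have h4 : (1 : ℝ) ≤ 1 / q := by rw [le_div_iff₀ hq0]; linarith
    rw [add_div]; linarith
  have hK0 : (0 : ℝ) < K₀ := lt_trans (by positivity) h1
  have hstep : ρ₀ + 2 ^ (d + 2) * √d * r / K₀ < r := by
    rw [← ha]
    rw [div_lt_iff₀ hq0] at h1
    have h3 : a * r / K₀ < q * r := by
      rw [div_lt_iff₀ hK0]; nlinarith
    have h4 : q * r = r - ρ₀ := by rw [hq]; field_simp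
    linarith
  have h5 := blowup L hA h0 K₀ (by omega) hstep hne hd
  refine h5.le.trans ?_
  refine mul_le_mul_of_nonneg_right ?_ hr.le
  rw [Cd, ← ha]
  have h6 : (3 * (K₀ : ℝ)) ^ d ≤ (3 * ((a + 1) / q)) ^ d := by gcongr
  have h7 : (3 * ((a + 1) / q)) ^ d = (3 * (a + 1)) ^ d / q ^ d := by
    rw [← div_pow]; congr 1; ring
  rw [h7] at h6
  have h8 : 2 * (3 * (a + 1)) ^ d / q ^ d = 2 * ((3 * (a + 1)) ^ d / q ^ d) := by ring
  rw [h8]; linarith

end H11ST
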