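import Pool.Agent.H11ST.Lower
open MeasureTheory Metric Set Filter Topology
open scoped ENNReal NNReal

namespace H11ST
set_option linter.unusedSectionVars false
variable {V : Type*} [NormedAddCommGroup V] [InnerProductSpace ℝ V] [MeasurableSpace V] [BorelSpace V]

namespace Chain
variable {η : ℝ} {U : Set V} {s : ℝ}

/-- three points can be joined through a point of `U` -/
def J3U (U : Set V) (a b c : V) (T : ℝ) : Prop := ∃ z ∈ U, dist a z + dist b z + dist c z ≤ T

theorem J3U.swap12 {a b c : V} {T : ℝ} (h : J3U U a b c T) : J3U U b a c T := by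
  obtain ⟨z, hzU, hz⟩ := h; exact ⟨z, hzU, by linarith⟩

theorem J3U.swap23 {a b c : V} {T : ℝ} (h : J3U U a b c T) : J3U U a c b T := by
  obtain ⟨z, hzU, hz⟩ := h; exact ⟨z, hzU, by linarith⟩

theorem threeU (h : Chain η U s) : ∀ a ∈ U, ∀ b ∈ U, ∀ c ∈ U, J3U U a b c (s + η) := by
  induction h with
  | base O c hc0 hc hη =>
    intro a ha b hb d hd
    exact ⟨a, ha, by linarith [hc b hb a ha, hc d hd a ha, dist_self a]⟩
  | step U s O e hU w hwU hwO hc0 hc hη ih =>
    have hs := hU.nonneg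
    have two := hU.two
    have k1 : ∀ a ∈ U, ∀ b ∈ U, ∀ c ∈ O, J3U (U ∪ O) a b c (s + e + η) := by
      intro a ha b hb c hcO
      obtain ⟨z, hzU, hz⟩ := ih a ha b hb w hwU
      exact ⟨z, Or.inl hzU, by linarith [hc c hcO w hwO, dist_triangle c w z]⟩
    have k2 : ∀ a ∈ U, ∀ b ∈ O, ∀ c ∈ O, J3U (U ∪ O) a b c (s + e + η) := by
      intro a ha b hb c hcO
      exact ⟨w, Or.inl hwU, by linarith [hc b hb w hwO, hc c hcO w hwO, two a ha w hwU]⟩
    have k3 : ∀ a ∈ O, ∀ b ∈ O, ∀ c ∈ O, J3U (U ∪ O) a b c (s + e + η) := by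
      intro a ha b hb c hcO
      exact ⟨a, Or.inr ha, by linarith [hc b hb a ha, hc c hcO a ha, dist_self a]⟩
    have k0 : ∀ a ∈ U, ∀ b ∈ U, ∀ c ∈ U, J3U (U ∪ O) a b c (s + e + η) := by
      intro a ha b hb c hcO
      obtain ⟨z, hzU, hz⟩ := ih a ha b hb c hcO
      exact ⟨z, Or.inl hzU, by linarith⟩
    rintro a (ha | ha) b (hb | hb) c (hc' | hc')
    · exact k0 a ha b hb c hc'
    · exact k1 a ha b hb c hc'
    · exact (k1 a ha c hc' b hb).swap23
    · exact k2 a ha b hb c hc'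
    · exact (k1 b hb c hc' a ha).swap23.swap12
    · exact (k2 b hb a ha c hc').swap12
    · exact (k2 c hc' a ha b hb).swap12.swap23
    · exact k3 a ha b hb c hc'

/-- the tree of type `ab | cd` through points of `U` -/
def QU (U : Set V) (a b c d : V) (T : ℝ) : Prop :=
  ∃ z ∈ U, ∃ z' ∈ U, dist a z + dist b z + dist z z' + dist c z' + dist d z' ≤ T

/-- four points can be joined -/
def J4U (U : Set V) (a b c d : V) (T : ℝ) : Prop :=
  QU U a b c d T ∨ QU U a c b d T ∨ QU U a d b c T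

theorem QU.swap {a b c d : V} {T : ℝ} (h : QU U a b c d T) : QU U b a c d T := by
  obtain ⟨z, hz1, z', hz2, hz⟩ := h; exact ⟨z, hz1, z', hz2, by linarith⟩

theorem QU.swap' {a b c d : V} {T : ℝ} (h : QU U a b c d T) : QU U a b d c T := by
  obtain ⟨z, hz1, z', hz2, hz⟩ := h; exact ⟨z, hz1, z', hz2, by linarith⟩

theorem QU.flip {a b c d : V} {T : ℝ} (h : QU U a b c d T) : QU U c d a b T := by
  obtain ⟨z, hz1, z', hz2, hz⟩ := h; exact ⟨z', hz2, z, hz1, by rw [dist_comm z' z]; linarith⟩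

theorem J4U.s12 {a b c d : V} {T : ℝ} (h : J4U U a b c d T) : J4U U b a c d T := by
  rcases h with h | h | h
  · exact Or.inl h.swap
  · exact Or.inr (Or.inr h.flip)
  · exact Or.inr (Or.inl h.flip)

theorem J4U.s23 {a b c d : V} {T : ℝ} (h : J4U U a b c d T) : J4U U a c b d T := by
  rcases h with h | h | h
  · exact Or.inr (Or.inl h)
  · exact Or.inl h
  · exact Or.inr (Or.inr h.swap')

theorem J4U.s34 {a b c d : V} {T : ℝ} (h : J4U U a b c d T) : J4U U a b d c T := by
  rcases h with h | h | h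
  · exact Or.inl h.swap'
  · exact Or.inr (Or.inr h)
  · exact Or.inr (Or.inl h)

theorem fourU (h : Chain η U s) : ∀ a ∈ U, ∀ b ∈ U, ∀ c ∈ U, ∀ d ∈ U,
    J4U U a b c d (s + 2 * η) := by
  induction h with
  | base O e hc0 hc hη =>
    intro a ha b hb c hcO d hd
    have e1 := hc b hb a ha
    have e2 := hc c hcO a ha
    have e3 := hc d hd a ha
    have e4 := dist_self a
    exact Or.inl ⟨a, ha, a, ha, by linarith⟩
  | step U s O e hU w hwU hwO hc0 hc hη ih =>
    have hs := hU.nonneg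
    have two := hU.two
    have three := hU.threeU
    have k0 : ∀ a ∈ U, ∀ b ∈ U, ∀ c ∈ U, ∀ d ∈ U, J4U (U ∪ O) a b c d (s + e + 2 * η) := by
      intro a ha b hb c hcU d hd
      rcases ih a ha b hb c hcU d hd with ⟨z, h1, z', h2, h⟩ | ⟨z, h1, z', h2, h⟩ | ⟨z, h1, z', h2, h⟩
      · exact Or.inl ⟨z, Or.inl h1, z', Or.inl h2, by linarith⟩
      · exact Or.inr (Or.inl ⟨z, Or.inl h1, z', Or.inl h2, by linarith⟩)
      · exact Or.inr (Or.inr ⟨z, Or.inl h1, z', Or.inl h2, by linarith⟩)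
    have k1 : ∀ a ∈ U, ∀ b ∈ U, ∀ c ∈ U, ∀ d ∈ O, J4U (U ∪ O) a b c d (s + e + 2 * η) := by
      intro a ha b hb c hcU d hd
      have hdw := hc d hd w hwO
      rcases ih a ha b hb c hcU w hwU with ⟨z, h1, z', h2, h⟩ | ⟨z, h1, z', h2, h⟩ | ⟨z, h1, z', h2, h⟩
      · exact Or.inl ⟨z, Or.inl h1, z', Or.inl h2, by linarith [dist_triangle d w z']⟩
      · exact Or.inr (Or.inl ⟨z, Or.inl h1, z', Or.inl h2, by linarith [dist_triangle d w z']⟩)
      · exact Or.inr (Or.inr ⟨z, Or.inl h1, z', Or.inl h2, by linarith [dist_triangle d w z]⟩)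
    have k2 : ∀ a ∈ U, ∀ b ∈ U, ∀ c ∈ O, ∀ d ∈ O, J4U (U ∪ O) a b c d (s + e + 2 * η) := by
      intro a ha b hb c hcO d hd
      have hcw := hc c hcO w hwO
      have hdw := hc d hd w hwO
      obtain ⟨z, hzU, hz⟩ := three a ha b hb w hwU
      exact Or.inl ⟨z, Or.inl hzU, w, Or.inl hwU, by rw [dist_comm z w]; linarith⟩
    have k3 : ∀ a ∈ U, ∀ b ∈ O, ∀ c ∈ O, ∀ d ∈ O, J4U (U ∪ O) a b c d (s + e + 2 * η) := by
      intro a ha b hb c hcO d hd
      have e1 := hc c hcO w hwO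
      have e2 := hc d hd w hwO
      have e3 := hc b hb w hwO
      have e4 := two a ha w hwU
      have e5 := dist_self w
      exact Or.inl ⟨w, Or.inl hwU, w, Or.inl hwU, by linarith⟩
    have k4 : ∀ a ∈ O, ∀ b ∈ O, ∀ c ∈ O, ∀ d ∈ O, J4U (U ∪ O) a b c d (s + e + 2 * η) := by
      intro a ha b hb c hcO d hd
      have e1 := hc b hb a ha
      have e2 := hc c hcO a ha
      have e3 := hc d hd a ha
      have e4 := dist_self a
      exact Or.inl ⟨a, Or.inr ha, a, Or.inr ha, by linarith⟩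
    rintro a (ha | ha) b (hb | hb) c (hc' | hc') d (hd | hd)
    · exact k0 a ha b hb c hc' d hd
    · exact k1 a ha b hb c hc' d hd
    · exact (k1 a ha b hb d hd c hc').s34
    · exact k2 a ha b hb c hc' d hd
    · exact (k1 a ha c hc' d hd b hb).s34.s23
    · exact (k2 a ha c hc' b hb d hd).s23
    · exact (k2 a ha d hd b hb c hc').s23.s34
    · exact k3 a ha b hb c hc' d hd
    · exact (k1 b hb c hc' d hd a ha).s34.s23.s12
    · exact (k2 b hb c hc' a ha d hd).s23.s12
    · exact (k2 b hb d hd a ha c hc').s23.s34.s12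
    · exact (k3 b hb a ha c hc' d hd).s12
    · exact (k2 c hc' d hd a ha b hb).s23.s12.s34.s23
    · exact (k3 c hc' a ha b hb d hd).s12.s23
    · exact (k3 d hd a ha b hb c hc').s12.s23.s34
    · exact k4 a ha b hb c hc' d hd

end Chain

theorem exists_chainU {X : Set V} (hXc : IsCompact X) (hX : IsPreconnected X) (hne : X.Nonempty)
    (hfin : μH[1] X ≠ ∞) {η : ℝ} (hη : 0 < η) :
    ∃ U s, Chain η U s ∧ X ⊆ U ∧ s ≤ (μH[1] X).toReal + η ∧ ∀ p ∈ U, ∃ q ∈ X, dist p q ≤ η := by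
  classical
  obtain ⟨t, ht1, ht2, ht3⟩ := exists_cover hfin (η := ENNReal.ofReal (η / 2))
    (ENNReal.ofReal_pos.2 (by linarith))
  set δ : ℕ → ℝ := fun n => (η / 8) * (1 / 2) ^ n with hδ
  have hδpos : ∀ n, 0 < δ n := fun n => by rw [hδ]; positivity
  have hδle : ∀ n, δ n ≤ η / 8 := by
    intro n
    rw [hδ]
    have : ((1 : ℝ) / 2) ^ n ≤ 1 := pow_le_one₀ (by norm_num) (by norm_num)
    nlinarith
  have hδsum : ∀ F : Finset ℕ, ∑ n ∈ F, δ n ≤ η / 4 := by
    intro F
    have hs : HasSum δ ((η / 8) * 2) := hasSum_geometric_two.mul_left _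
    have := sum_le_hasSum F (fun n _ => (hδpos n).le) hs
    linarith
  set O : ℕ → Set V := fun n => thickening (δ n) (t n) with hO
  have hdt : ∀ n, ediam (t n) ≠ ∞ := fun n => ne_top_of_le_ne_top ENNReal.ofReal_ne_top (ht2 n)
  set c : ℕ → ℝ := fun n => (ediam (t n)).toReal + 2 * δ n with hc
  have hcd : ∀ n, ∀ p ∈ O n, ∀ q ∈ O n, dist p q ≤ c n := by
    intro n p hp q hq
    rw [hO, mem_thickening_iff] at hp hq
    obtain ⟨p', hp', hpd⟩ := hp
    obtain ⟨q', hq', hqd⟩ := hq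
    have h1 : dist p' q' ≤ (ediam (t n)).toReal := by
      have := edist_le_ediam_of_mem hp' hq'
      rw [edist_dist] at this
      exact (ENNReal.ofReal_le_iff_le_toReal (hdt n)).1 this
    have h2 := dist_triangle4 p p' q' q
    rw [dist_comm q' q] at h2
    rw [hc]; simp only; linarith
  have hcη : ∀ n, c n ≤ η := by
    intro n
    have h1 : (ediam (t n)).toReal ≤ η / 2 :=
      ENNReal.toReal_le_of_le_ofReal (by linarith) (ht2 n)
    have := hδle n
    rw [hc]; simp only; linarith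
  have hc0 : ∀ n, 0 ≤ c n := fun n => by
    have := (hδpos n).le
    rw [hc]; simp only
    have : 0 ≤ (ediam (t n)).toReal := ENNReal.toReal_nonneg
    linarith
  obtain ⟨F0, hF0⟩ := hXc.elim_finite_subcover O (fun n => isOpen_thickening) (by
    intro z hz
    obtain ⟨n, hn⟩ := mem_iUnion.1 (ht1 hz)
    exact mem_iUnion.2 ⟨n, self_subset_thickening (hδpos n) _ hn⟩)
  set F := F0.filter (fun n => (X ∩ O n).Nonempty) with hF
  have hcov : X ⊆ ⋃ i ∈ F, O i := by
    intro z hz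
    obtain ⟨n, hn⟩ := mem_iUnion.1 (hF0 hz)
    obtain ⟨hnF, hzn⟩ := mem_iUnion.1 hn
    exact mem_iUnion.2 ⟨n, mem_iUnion.2 ⟨Finset.mem_filter.2 ⟨hnF, z, hz, hzn⟩, hzn⟩⟩
  have hFne : 0 < F.card := by
    rw [Finset.card_pos]
    obtain ⟨z, hz⟩ := hne
    obtain ⟨n, hn⟩ := mem_iUnion.1 (hcov hz)
    obtain ⟨hnF, _⟩ := mem_iUnion.1 hn
    exact ⟨n, hnF⟩
  obtain ⟨G, hGF, hGc, hG⟩ := chain_of_cover hX F O c (fun i _ => isOpen_thickening)
    (fun i _ => hc0 i) (fun i _ => hcd i) (fun i _ => hcη i)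
    (fun i hi => (Finset.mem_filter.1 hi).2) hcov (F.card - 1) (by omega)
  have hGF' : G = F := Finset.eq_of_subset_of_card_le hGF (by omega)
  rw [hGF'] at hG
  refine ⟨_, _, hG, hcov, ?_, ?_⟩
  · have h1 : ∑ i ∈ F, (ediam (t i)).toReal ≤ (μH[1] X).toReal + η / 2 := by
      rw [← ENNReal.toReal_sum (fun i _ => hdt i)]
      have h2 : ∑ i ∈ F, ediam (t i) ≤ μH[1] X + ENNReal.ofReal (η / 2) := by
        refine le_trans ?_ ht3
        refine le_trans (Finset.sum_le_sum fun i _ => ?_) (ENNReal.sum_le_tsum F)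
        rcases (t i).eq_empty_or_nonempty with h | h
        · rw [h]; simp
        · exact le_iSup (fun _ : (t i).Nonempty => ediam (t i)) h
      have h3 : μH[1] X + ENNReal.ofReal (η / 2) ≠ ∞ := ENNReal.add_ne_top.2 ⟨hfin, ENNReal.ofReal_ne_top⟩
      have h4 := (ENNReal.toReal_le_toReal (ne_top_of_le_ne_top h3 h2) h3).2 h2
      rw [ENNReal.toReal_add hfin ENNReal.ofReal_ne_top, ENNReal.toReal_ofReal (by linarith)] at h4
      exact h4
    have h2 := hδsum F
    rw [hc, Finset.sum_add_distrib, ← Finset.mul_sum]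
    linarith
  · intro p hp
    obtain ⟨n, hn⟩ := mem_iUnion.1 hp
    obtain ⟨hnF, hpn⟩ := mem_iUnion.1 hn
    obtain ⟨q, hqX, hqO⟩ := (Finset.mem_filter.1 hnF).2
    exact ⟨q, hqX, (hcd n p hpn q hqO).trans (hcη n)⟩

/-- a connected compact set contains a point joining three of its points optimally -/
theorem three_in {K : Set V} (hK : IsCompact K) (hKc : IsPreconnected K) (hfin : μH[1] K ≠ ∞)
    {a b c : V} (ha : a ∈ K) (hb : b ∈ K) (hc : c ∈ K) :
    ∃ z ∈ K, dist a z + dist b z + dist c z ≤ (μH[1] K).toReal := by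
  obtain ⟨z0, hz0, hmin⟩ := hK.exists_isMinOn ⟨a, ha⟩
    (f := fun z => dist a z + dist b z + dist c z) (by fun_prop)
  refine ⟨z0, hz0, ?_⟩
  refine le_of_forall_pos_le_add fun η hη => ?_
  obtain ⟨U, s, hU, hKU, hs, hnear⟩ := exists_chainU hK hKc ⟨a, ha⟩ hfin
    (show 0 < η / 5 by linarith)
  obtain ⟨z, hzU, hz⟩ := hU.threeU a (hKU ha) b (hKU hb) c (hKU hc)
  obtain ⟨q, hqK, hq⟩ := hnear z hzU
  have h1 := hmin hqK
  have h2 := dist_triangle a z q
  have h3 := dist_triangle b z q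
  have h4 := dist_triangle c z q
  have h5 : dist a z0 + dist b z0 + dist c z0 ≤ dist a q + dist b q + dist c q := h1
  linarith

theorem four_in {K : Set V} (hK : IsCompact K) (hKc : IsPreconnected K) (hfin : μH[1] K ≠ ∞)
    {a b c d : V} (ha : a ∈ K) (hb : b ∈ K) (hc : c ∈ K) (hd : d ∈ K) :
    Chain.J4U K a b c d (μH[1] K).toReal := by
  have hKK : IsCompact (K ×ˢ K) := hK.prod hK
  have mini : ∀ a b c d : V, a ∈ K → ∃ z ∈ K, ∃ z' ∈ K, ∀ w ∈ K, ∀ w' ∈ K,
      dist a z + dist b z + dist z z' + dist c z' + dist d z' ≤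
      dist a w + dist b w + dist w w' + dist c w' + dist d w' := by
    intro a b c d ha
    obtain ⟨q, hq, hmin⟩ := hKK.exists_isMinOn ⟨(a, a), ha, ha⟩
      (f := fun q : V × V => dist a q.1 + dist b q.1 + dist q.1 q.2 + dist c q.2 + dist d q.2)
      (by fun_prop)
    exact ⟨q.1, hq.1, q.2, hq.2, fun w hw w' hw' => hmin (show (w, w') ∈ K ×ˢ K from ⟨hw, hw'⟩)⟩
  obtain ⟨z1, hz1, z1', hz1', h1⟩ := mini a b c d ha
  obtain ⟨z2, hz2, z2', hz2', h2⟩ := mini a c b d ha
  obtain ⟨z3, hz3, z3', hz3', h3⟩ := mini a d b c ha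
  by_contra hcon
  rw [Chain.J4U, not_or, not_or] at hcon
  obtain ⟨n1, n2, n3⟩ := hcon
  set M := (μH[1] K).toReal with hM
  have g1 : M < dist a z1 + dist b z1 + dist z1 z1' + dist c z1' + dist d z1' := by
    by_contra h; exact n1 ⟨z1, hz1, z1', hz1', not_lt.1 h⟩
  have g2 : M < dist a z2 + dist c z2 + dist z2 z2' + dist b z2' + dist d z2' := by
    by_contra h; exact n2 ⟨z2, hz2, z2', hz2', not_lt.1 h⟩
  have g3 : M < dist a z3 + dist d z3 + dist z3 z3' + dist b z3' + dist c z3' := by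
    by_contra h; exact n3 ⟨z3, hz3, z3', hz3', not_lt.1 h⟩
  obtain ⟨η, hη, hη1, hη2, hη3⟩ : ∃ η : ℝ, 0 < η ∧
      M + 10 * η < dist a z1 + dist b z1 + dist z1 z1' + dist c z1' + dist d z1' ∧
      M + 10 * η < dist a z2 + dist c z2 + dist z2 z2' + dist b z2' + dist d z2' ∧
      M + 10 * η < dist a z3 + dist d z3 + dist z3 z3' + dist b z3' + dist c z3' := by
    set g := min (dist a z1 + dist b z1 + dist z1 z1' + dist c z1' + dist d z1')
      (min (dist a z2 + dist c z2 + dist z2 z2' + dist b z2' + dist d z2')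
      (dist a z3 + dist d z3 + dist z3 z3' + dist b z3' + dist c z3')) with hg
    have hgM : M < g := lt_min g1 (lt_min g2 g3)
    refine ⟨(g - M) / 20, by linarith, ?_, ?_, ?_⟩
    · have := min_le_left (dist a z1 + dist b z1 + dist z1 z1' + dist c z1' + dist d z1')
        (min (dist a z2 + dist c z2 + dist z2 z2' + dist b z2' + dist d z2')
        (dist a z3 + dist d z3 + dist z3 z3' + dist b z3' + dist c z3'))
      rw [← hg] at this
      linarith
    · have := (min_le_right (dist a z1 + dist b z1 + dist z1 z1' + dist c z1' + dist d z1')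
        (min (dist a z2 + dist c z2 + dist z2 z2' + dist b z2' + dist d z2')
        (dist a z3 + dist d z3 + dist z3 z3' + dist b z3' + dist c z3'))).trans (min_le_left _ _)
      rw [← hg] at this
      linarith
    · have := (min_le_right (dist a z1 + dist b z1 + dist z1 z1' + dist c z1' + dist d z1')
        (min (dist a z2 + dist c z2 + dist z2 z2' + dist b z2' + dist d z2')
        (dist a z3 + dist d z3 + dist z3 z3' + dist b z3' + dist c z3'))).trans (min_le_right _ _)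
      rw [← hg] at this
      linarith
  obtain ⟨U, s, hU, hKU, hs, hnear⟩ := exists_chainU hK hKc ⟨a, ha⟩ hfin hη
  have push : ∀ a b c d : V, Chain.QU U a b c d (s + 2 * η) → ∃ w ∈ K, ∃ w' ∈ K,
      dist a w + dist b w + dist w w' + dist c w' + dist d w' ≤ M + 9 * η := by
    rintro a b c d ⟨z, hz, z', hz', h⟩
    obtain ⟨w, hw, hzw⟩ := hnear z hz
    obtain ⟨w', hw', hzw'⟩ := hnear z' hz'
    refine ⟨w, hw, w', hw', ?_⟩
    have e1 := dist_triangle a z w
    have e2 := dist_triangle b z w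
    have e3 := dist_triangle c z' w'
    have e4 := dist_triangle d z' w'
    have e5 := dist_triangle4 w z z' w'
    rw [dist_comm w z] at e5
    linarith
  rcases hU.fourU a (hKU ha) b (hKU hb) c (hKU hc) d (hKU hd) with h | h | h
  · obtain ⟨w, hw, w', hw', h4⟩ := push _ _ _ _ h
    have := h1 w hw w' hw'
    linarith
  · obtain ⟨w, hw, w', hw', h4⟩ := push _ _ _ _ h
    have := h2 w hw w' hw'
    linarith
  · obtain ⟨w, hw, w', hw', h4⟩ := push _ _ _ _ h
    have := h3 w hw w' hw'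
    linarith

end H11ST
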