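import Pool.Agent.H11ST.Adm
open MeasureTheory Metric Set Filter Topology
open scoped ENNReal NNReal

namespace H11ST
set_option linter.unusedSectionVars false
variable {V : Type*} [NormedAddCommGroup V] [InnerProductSpace ℝ V] [MeasurableSpace V] [BorelSpace V]

/-- length of `S` in the open ball -/
noncomputable def len (S : Set V) (x : V) (ρ : ℝ) : ℝ := (μH[1] (S ∩ ball x ρ)).toReal

namespace LocAdm
variable {A S : Set V} {x : V} {r : ℝ}

/-- replacing the part of `S` in a ball by a connected set through the points on the sphere -/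
theorem comp (L : LocAdm A S x r) (hA : IsClosed A) {ρ : ℝ} (hρ : ρ < r) {C : Set V}
    (hC : IsClosed C) (hCc : IsPreconnected C) (hCb : C ⊆ closedBall x ρ)
    (hsub : S ∩ sphere x ρ ⊆ C) (hne : (S ∩ sphere x ρ).Nonempty) :
    μH[1] (S ∩ ball x ρ) ≤ μH[1] C := by
  have hX : IsClosed (S ∪ A) := L.hS.union hA
  have hXc := L.conn.isPreconnected
  have hcr : closedBall x ρ ⊆ ball x r := closedBall_subset_ball hρ
  have hbr : ball x ρ ⊆ ball x r := ball_subset_ball hρ.le
  set T := (S \ ball x ρ) ∪ C with hT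
  have hTc : IsClosed T := (L.hS.sdiff isOpen_ball).union hC
  -- the main step of connectedness
  have main : ∀ t t' : Set V, IsClosed t → IsClosed t' → T ∪ A ⊆ t ∪ t' →
      ((T ∪ A) ∩ (t ∩ t')) = ∅ → C ⊆ t → ((T ∪ A) ∩ t').Nonempty → False := by
    intro t t' ht ht' hcov hem hCt hne'
    have key := not_mem_of_split (X := S ∪ A) (Z := ((S ∪ A) \ ball x ρ) ∩ t')
      (K := (((S ∪ A) \ ball x ρ) ∩ t) ∪ ((S ∪ A) ∩ closedBall x ρ)) hXc
      ((hX.sdiff isOpen_ball).inter ht')
      (((hX.sdiff isOpen_ball).inter ht).union (hX.inter isClosed_closedBall)) ?_ ?_ ?_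
    · obtain ⟨w, hw, hwt'⟩ := hne'
      by_cases hwC : w ∈ C
      · have : w ∈ (T ∪ A) ∩ (t ∩ t') := ⟨hw, hCt hwC, hwt'⟩
        rw [hem] at this; exact this
      · have hwX : w ∈ (S ∪ A) \ ball x ρ := by
          rcases hw with (h | h) | h
          · exact ⟨Or.inl h.1, h.2⟩
          · exact absurd h hwC
          · exact ⟨Or.inr h, fun h' => L.far w h (hbr h')⟩
        exact key w hwX.1 ⟨hwX, hwt'⟩
    · intro z hz
      by_cases hb : z ∈ ball x ρ
      · exact Or.inr (Or.inr ⟨hz, ball_subset_closedBall hb⟩)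
      · have hzT : z ∈ T ∪ A := by
          rcases hz with h | h
          · exact Or.inl (Or.inl ⟨h, hb⟩)
          · exact Or.inr h
        rcases hcov hzT with h | h
        · exact Or.inr (Or.inl ⟨⟨hz, hb⟩, h⟩)
        · exact Or.inl ⟨⟨hz, hb⟩, h⟩
    · rintro z ⟨⟨hz, hb⟩, hzt'⟩ (⟨_, h⟩ | ⟨_, h⟩)
      · have hzT : z ∈ T ∪ A := by
          rcases hz with h | h
          · exact Or.inl (Or.inl ⟨h, hb⟩)
          · exact Or.inr h
        have : z ∈ (T ∪ A) ∩ (t ∩ t') := ⟨hzT, h, hzt'⟩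
        rw [hem] at this; exact this
      · have hs : z ∈ sphere x ρ := by
          rw [mem_sphere]
          refine le_antisymm (mem_closedBall.1 h) ?_
          by_contra hlt
          push Not at hlt
          exact hb (mem_ball.2 hlt)
        have hzS : z ∈ S := by
          rcases hz with h' | h'
          · exact h'
          · exact absurd (hcr h) (L.far z h')
        have hzC : z ∈ C := hsub ⟨hzS, hs⟩
        have : z ∈ (T ∪ A) ∩ (t ∩ t') := ⟨Or.inl (Or.inr hzC), hCt hzC, hzt'⟩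
        rw [hem] at this; exact this
    · obtain ⟨w, hw, hws⟩ := hne
      exact ⟨w, Or.inl hw, Or.inr ⟨Or.inl hw, sphere_subset_closedBall hws⟩⟩
  obtain ⟨w0, hw0S, hw0⟩ := hne
  have hw0C : w0 ∈ C := hsub ⟨hw0S, hw0⟩
  have hTA : IsConnected (T ∪ A) := by
    refine ⟨⟨w0, Or.inl (Or.inr hw0C)⟩, ?_⟩
    rw [isPreconnected_closed_iff]
    intro t t' ht ht' hcov h1 h2
    rw [nonempty_iff_ne_empty]
    intro hem
    have hCcov : C ⊆ t ∪ t' := fun z hz => hcov (Or.inl (Or.inr hz))
    by_cases hCt : C ⊆ t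
    · exact main t t' ht ht' hcov hem hCt h2
    · rw [not_subset] at hCt
      obtain ⟨p, hpC, hpt⟩ := hCt
      have hpt' : p ∈ t' := (hCcov hpC).resolve_left hpt
      by_cases hCt' : C ⊆ t'
      · exact main t' t ht' ht (hcov.trans (union_comm _ _).le)
          (by rw [inter_comm t' t]; exact hem) hCt' h1
      · rw [not_subset] at hCt'
        obtain ⟨q, hqC, hqt'⟩ := hCt'
        have hqt : q ∈ t := (hCcov hqC).resolve_right hqt'
        obtain ⟨v, hv⟩ := isPreconnected_closed_iff.1 hCc t t' ht ht' hCcov ⟨q, hqC, hqt⟩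
          ⟨p, hpC, hpt'⟩
        have : v ∈ (T ∪ A) ∩ (t ∩ t') := ⟨Or.inl (Or.inr hv.1), hv.2⟩
        rw [hem] at this; exact this
  have hTr : T \ ball x r = S \ ball x r := by
    ext z
    constructor
    · rintro ⟨h | h, h'⟩
      · exact ⟨h.1, h'⟩
      · exact absurd (hcr (hCb h)) h'
    · rintro ⟨h, h'⟩
      exact ⟨Or.inl ⟨h, fun hh => h' (hbr hh)⟩, h'⟩
  have h1 := L.minim T hTc hTA hTr
  have hfin : μH[1] (S ∩ (ball x r \ ball x ρ)) ≠ ∞ :=
    ne_top_of_le_ne_top L.fin (measure_mono (inter_subset_inter_right _ sdiff_subset))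
  have h2 : μH[1] (S ∩ (ball x r \ ball x ρ)) + μH[1] (S ∩ ball x ρ) ≤ μH[1] (S ∩ ball x r) := by
    rw [← measure_union (μ := μH[1]) _ (L.hS.measurableSet.inter measurableSet_ball)]
    · refine measure_mono ?_
      rintro z (h | h)
      · exact ⟨h.1, h.2.1⟩
      · exact ⟨h.1, hbr h.2⟩
    · rw [disjoint_left]
      rintro z h h'
      exact h.2.2 h'.2
  have h3 : μH[1] (T ∩ ball x r) ≤ μH[1] (S ∩ (ball x r \ ball x ρ)) + μH[1] C := by
    refine le_trans (measure_mono ?_) (measure_union_le _ _)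
    rintro z ⟨h | h, h'⟩
    · exact Or.inl ⟨h.1, h', h.2⟩
    · exact Or.inr h
  exact (ENNReal.add_le_add_iff_left hfin).1 (h2.trans (h1.trans h3))

/-- local minimality passes to smaller balls -/
theorem restrict (L : LocAdm A S x r) {x' : V} {r' : ℝ} (h0 : 0 < r') (hb : ball x' r' ⊆ ball x r) :
    LocAdm A S x' r' where
  rpos := h0
  hS := L.hS
  conn := L.conn
  far := fun z hz h => L.far z hz (hb h)
  fin := ne_top_of_le_ne_top L.fin (measure_mono (inter_subset_inter_right _ hb))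
  minim := by
    intro T hT hTA heq
    have hout : ∀ z, z ∉ ball x' r' → (z ∈ T ↔ z ∈ S) := by
      intro z hz
      constructor
      · intro h
        have : z ∈ T \ ball x' r' := ⟨h, hz⟩
        rw [heq] at this; exact this.1
      · intro h
        have : z ∈ S \ ball x' r' := ⟨h, hz⟩
        rw [← heq] at this; exact this.1
    have h1 := L.minim T hT hTA (by
      ext z
      constructor
      · rintro ⟨h, h'⟩
        exact ⟨(hout z (fun hh => h' (hb hh))).1 h, h'⟩
      · rintro ⟨h, h'⟩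
        exact ⟨(hout z (fun hh => h' (hb hh))).2 h, h'⟩)
    have hfin : μH[1] (S ∩ (ball x r \ ball x' r')) ≠ ∞ :=
      ne_top_of_le_ne_top L.fin (measure_mono (inter_subset_inter_right _ sdiff_subset))
    have h2 : μH[1] (S ∩ (ball x r \ ball x' r')) + μH[1] (S ∩ ball x' r') ≤
        μH[1] (S ∩ ball x r) := by
      rw [← measure_union (μ := μH[1]) _ (L.hS.measurableSet.inter measurableSet_ball)]
      · refine measure_mono ?_
        rintro z (h | h)
        · exact ⟨h.1, h.2.1⟩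
        · exact ⟨h.1, hb h.2⟩
      · rw [disjoint_left]
        rintro z h h'
        exact h.2.2 h'.2
    have h3 : μH[1] (T ∩ ball x r) ≤
        μH[1] (S ∩ (ball x r \ ball x' r')) + μH[1] (T ∩ ball x' r') := by
      refine le_trans (measure_mono ?_) (measure_union_le _ _)
      rintro z ⟨h, h'⟩
      by_cases hz : z ∈ ball x' r'
      · exact Or.inr ⟨h, hz⟩
      · exact Or.inl ⟨(hout z hz).1 h, h', hz⟩
    exact (ENNReal.add_le_add_iff_left hfin).1 (h2.trans (h1.trans h3))

theorem len_fin (L : LocAdm A S x r) {ρ : ℝ} (h : ρ ≤ r) : μH[1] (S ∩ ball x ρ) ≠ ∞ :=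
  ne_top_of_le_ne_top L.fin (measure_mono (inter_subset_inter_right _ (ball_subset_ball h)))

theorem len_growth (L : LocAdm A S x r) {a b : ℝ} (hab : a ≤ b) (hb : b ≤ r) (m : ℕ)
    (h : ∀ ρ ∈ Ioo a b, (m : ℕ∞) ≤ (S ∩ sphere x ρ).encard) :
    len S x a + m * (b - a) ≤ len S x b := by
  have h1 := eilenberg S x a b m h
  have h2 : μH[1] (S ∩ ball x a) + μH[1] (S ∩ (ball x b \ closedBall x a)) ≤ μH[1] (S ∩ ball x b) := by
    rw [← measure_union' (μ := μH[1]) _ (L.hS.measurableSet.inter measurableSet_ball)]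
    · refine measure_mono ?_
      rintro z (h | h)
      · exact ⟨h.1, ball_subset_ball hab h.2⟩
      · exact ⟨h.1, h.2.1⟩
    · rw [disjoint_left]
      rintro z h h'
      exact h'.2.2 (ball_subset_closedBall h.2)
  have h3 : μH[1] (S ∩ ball x a) + (m : ℝ≥0∞) * ENNReal.ofReal (b - a) ≤ μH[1] (S ∩ ball x b) :=
    (add_le_add_right h1 _).trans h2
  have hfa : μH[1] (S ∩ ball x a) ≠ ∞ := L.len_fin (hab.trans hb)
  have hfb : μH[1] (S ∩ ball x b) ≠ ∞ := L.len_fin hb
  have h4 := (ENNReal.toReal_le_toReal (ne_top_of_le_ne_top hfb h3) hfb).2 h3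
  rw [ENNReal.toReal_add hfa (ENNReal.mul_ne_top (ENNReal.natCast_ne_top _) ENNReal.ofReal_ne_top),
    ENNReal.toReal_mul, ENNReal.toReal_natCast, ENNReal.toReal_ofReal (by linarith)] at h4
  exact h4

theorem len_comp (L : LocAdm A S x r) (hA : IsClosed A) {ρ : ℝ} (hρ : ρ < r) {C : Set V}
    (hC : IsClosed C) (hCc : IsPreconnected C) (hCb : C ⊆ closedBall x ρ)
    (hsub : S ∩ sphere x ρ ⊆ C) (hne : (S ∩ sphere x ρ).Nonempty) {c : ℝ} (hc : 0 ≤ c)
    (hm : μH[1] C ≤ ENNReal.ofReal c) : len S x ρ ≤ c :=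
  ENNReal.toReal_le_of_le_ofReal hc ((L.comp hA hρ hC hCc hCb hsub hne).trans hm)

end LocAdm

theorem len_nonneg (S : Set V) (x : V) (ρ : ℝ) : 0 ≤ len S x ρ := ENNReal.toReal_nonneg

end H11ST
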