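import Pool.Agent.H11ST.Lower
open MeasureTheory Metric Set Filter Topology
open scoped ENNReal NNReal

namespace H11ST
set_option linter.unusedSectionVars false
variable {V : Type*} [NormedAddCommGroup V] [InnerProductSpace ℝ V] [MeasurableSpace V] [BorelSpace V]

/-- vertices of degree three in unions of segments -/
theorem tri_of_segments {S R : Set V} {y : V} {u : Fin 3 → V} {l : Fin 3 → ℝ} {ε : ℝ} (hε : 0 < ε)
    (hu : ∀ i, ‖u i‖ = 1) (hang : ∀ i j, i ≠ j → inner ℝ (u i) (u j) = -(1 / 2 : ℝ))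
    (hl : ∀ i, ε ≤ l i) (hS : S = (⋃ i, segment ℝ y (y + l i • u i)) ∪ R)
    (hR : ∀ z ∈ R, z ∉ ball y ε) : Tri S y u ε := by
  refine ⟨hε, hu, hang, ?_⟩
  ext z
  constructor
  · rintro ⟨hz, hb⟩
    rw [hS] at hz
    rcases hz with hz | hz
    · obtain ⟨i, hi⟩ := mem_iUnion.1 hz
      have hli : 0 < l i := hε.trans_le (hl i)
      rw [segment_eq_image] at hi
      obtain ⟨θ, ⟨h0, h1⟩, rfl⟩ := hi
      have e : (1 - θ) • y + θ • (y + l i • u i) = y + (θ * l i) • u i := by
        rw [smul_add, ← add_assoc, ← add_smul, smul_smul]; simp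
      simp only [e] at hb ⊢
      refine ⟨i, θ * l i, by positivity, ?_, rfl⟩
      rw [mem_ball, dist_eq_norm] at hb
      simpa [norm_smul, hu i, abs_of_nonneg h0, abs_of_pos hli] using hb
    · exact absurd hb (hR z hz)
  · rintro ⟨i, s, h0, h1, rfl⟩
    have hli : 0 < l i := hε.trans_le (hl i)
    refine ⟨?_, ?_⟩
    · rw [hS]
      left
      rw [mem_iUnion]
      refine ⟨i, ?_⟩
      rw [segment_eq_image]
      refine ⟨s / l i, ⟨by positivity, ?_⟩, ?_⟩
      · rw [div_le_one hli]; linarith [hl i]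
      · have e : s / l i * l i = s := by field_simp
        simp only
        rw [smul_add, ← add_assoc, ← add_smul, smul_smul, e]; simp
    · rw [mem_ball, dist_eq_norm]
      simpa [norm_smul, hu i, abs_of_nonneg h0] using h1

theorem fin_measure_zero {A : Set V} (hA : A.Finite) : μH[1] A = 0 := by
  have := Measure.nullSingletonClass_hausdorff V (d := 1) one_pos
  exact hA.measure_zero _

theorem seg_closed (p q : V) : IsClosed (segment ℝ p q) := by
  rw [segment_eq_image]
  exact (isCompact_Icc.image (by fun_prop)).isClosed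

section
variable {e f : V}

/-- plane coordinates -/
def vec (e f : V) (a b : ℝ) : V := a • e + b • f

theorem inner_vec (he : ‖e‖ = 1) (hf : ‖f‖ = 1) (hef : inner ℝ e f = 0) (a b c d : ℝ) :
    inner ℝ (vec e f a b) (vec e f c d) = a * c + b * d := by
  have hfe : inner ℝ f e = 0 := by rw [real_inner_comm]; exact hef
  rw [vec, vec]
  simp only [inner_add_left, inner_add_right, inner_smul_left, inner_smul_right,
    real_inner_self_eq_norm_sq, he, hf, hef, hfe, conj_trivial]
  ring

theorem norm_vec_sq (he : ‖e‖ = 1) (hf : ‖f‖ = 1) (hef : inner ℝ e f = 0) (a b : ℝ) :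
    ‖vec e f a b‖ ^ 2 = a ^ 2 + b ^ 2 := by
  rw [← real_inner_self_eq_norm_sq, inner_vec he hf hef]; ring

theorem norm_vec_one (he : ‖e‖ = 1) (hf : ‖f‖ = 1) (hef : inner ℝ e f = 0) {a b : ℝ}
    (h : a ^ 2 + b ^ 2 = 1) : ‖vec e f a b‖ = 1 := by
  have h1 := norm_vec_sq he hf hef a b
  rw [h] at h1
  nlinarith [norm_nonneg (vec e f a b)]

theorem norm_vec_le_one (he : ‖e‖ = 1) (hf : ‖f‖ = 1) (hef : inner ℝ e f = 0) {a b : ℝ}
    (h : a ^ 2 + b ^ 2 ≤ 1) : ‖vec e f a b‖ ≤ 1 := by
  have h1 := norm_vec_sq he hf hef a b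
  nlinarith [norm_nonneg (vec e f a b)]

theorem vec_add (a b c d : ℝ) : vec e f a b + vec e f c d = vec e f (a + c) (b + d) := by
  simp only [vec, add_smul]; abel

theorem vec_smul (a b c : ℝ) : c • vec e f a b = vec e f (c * a) (c * b) := by
  simp only [vec, smul_add, smul_smul]

theorem vec_zero : vec e f 0 0 = 0 := by simp [vec]

theorem dist_vec (he : ‖e‖ = 1) (hf : ‖f‖ = 1) (hef : inner ℝ e f = 0) {a b c d l : ℝ} (hl : 0 ≤ l)
    (h : (a - c) ^ 2 + (b - d) ^ 2 = l ^ 2) : dist (vec e f a b) (vec e f c d) = l := by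
  rw [dist_eq_norm]
  have e1 : vec e f a b - vec e f c d = vec e f (a - c) (b - d) := by
    simp only [vec, sub_smul]; abel
  rw [e1]
  have h1 := norm_vec_sq he hf hef (a - c) (b - d)
  rw [h] at h1
  exact (sq_eq_sq₀ (norm_nonneg _) hl).1 h1

end

/-- the three directions -/
noncomputable def tri (e f : V) : Fin 3 → V :=
  ![vec e f 1 0, vec e f (-(1 / 2)) (√3 / 2), vec e f (-(1 / 2)) (-(√3 / 2))]

theorem sq3 : √3 * √3 = 3 := Real.mul_self_sqrt (by norm_num)

theorem tri_norm {e f : V} (he : ‖e‖ = 1) (hf : ‖f‖ = 1) (hef : inner ℝ e f = 0) (i : Fin 3) :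
    ‖tri e f i‖ = 1 := by
  have h3 := sq3
  fin_cases i
  · exact norm_vec_one he hf hef (by norm_num)
  · exact norm_vec_one he hf hef (by nlinarith)
  · exact norm_vec_one he hf hef (by nlinarith)

theorem tri_ang {e f : V} (he : ‖e‖ = 1) (hf : ‖f‖ = 1) (hef : inner ℝ e f = 0) (i j : Fin 3)
    (hij : i ≠ j) : inner ℝ (tri e f i) (tri e f j) = -(1 / 2 : ℝ) := by
  have h3 := sq3
  fin_cases i <;> fin_cases j <;> first
    | exact absurd rfl hij
    | (simp only [tri, Fin.zero_eta, Fin.mk_one, Fin.reduceFinMk, Matrix.cons_val_zero,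
        Matrix.cons_val_one, Matrix.cons_val]
       rw [inner_vec he hf hef]; nlinarith)

/-- lower bound for all competitors of the tripod -/
theorem tripod_lower [ProperSpace V] {e f : V} (he : ‖e‖ = 1) (hf : ‖f‖ = 1) (hef : inner ℝ e f = 0)
    {A T : Set V} (hA : A = range (tri e f)) (hT : IsClosed T) (hTA : IsConnected (T ∪ A)) :
    ENNReal.ofReal 3 ≤ μH[1] T := by
  by_cases hfin : μH[1] T = ∞
  · rw [hfin]; exact le_top
  have hAf : A.Finite := by rw [hA]; exact finite_range _
  have hX : μH[1] (T ∪ A) ≤ μH[1] T := by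
    refine (measure_union_le _ _).trans ?_
    rw [fin_measure_zero hAf, add_zero]
  have hXfin : μH[1] (T ∪ A) ≠ ∞ := ne_top_of_le_ne_top hfin hX
  have hmem : ∀ i, tri e f i ∈ T ∪ A := fun i => Or.inr (by rw [hA]; exact mem_range_self i)
  have h := three_lower hTA.isPreconnected (hT.union hAf.isClosed) hXfin (hmem 0) (hmem 1) (hmem 2)
    (tri_norm he hf hef 0).le (tri_norm he hf hef 1).le (tri_norm he hf hef 2).le (by
      simp only [tri, Matrix.cons_val_zero, Matrix.cons_val_one, Matrix.cons_val]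
      rw [vec_add, vec_add]
      have e1 : (1 : ℝ) + -(1 / 2) + -(1 / 2) = 0 := by norm_num
      have e2 : (0 : ℝ) + √3 / 2 + -(√3 / 2) = 0 := by ring
      rw [e1, e2, vec_zero])
  simp only [real_inner_self_eq_norm_sq, tri_norm he hf hef] at h
  refine le_trans ?_ hX
  rw [ENNReal.ofReal_le_iff_le_toReal hXfin]
  linarith

theorem tripod_len {e f : V} (he : ‖e‖ = 1) (hf : ‖f‖ = 1) (hef : inner ℝ e f = 0) :
    μH[1] (⋃ i, segment ℝ (0 : V) (tri e f i)) ≤ ENNReal.ofReal 3 := by
  refine (measure_iUnion_fintype_le _ _).trans ?_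
  simp only [hausdorffMeasure_segment]
  have : ∀ i, edist (0 : V) (tri e f i) = 1 := by
    intro i
    rw [edist_dist, dist_zero_left, tri_norm he hf hef i]; simp
  simp only [this]
  rw [Finset.sum_const, Finset.card_univ, Fintype.card_fin]
  have : ENNReal.ofReal 3 = 3 := by norm_num
  rw [this]; norm_num

/-- corners of the square -/
noncomputable def sqa (e f : V) : V := vec e f (-1) 1
noncomputable def sqb (e f : V) : V := vec e f (-1) (-1)
noncomputable def sqc (e f : V) : V := vec e f 1 1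
noncomputable def sqd (e f : V) : V := vec e f 1 (-1)
/-- position of the Steiner points -/
noncomputable def kap : ℝ := 1 - √3 / 3
noncomputable def sql (e f : V) : V := vec e f (-kap) 0
noncomputable def sqr (e f : V) : V := vec e f kap 0

/-- the terminals and the tree -/
def sqA (e f : V) : Set V := {sqa e f, sqb e f, sqc e f, sqd e f}
noncomputable def sqS (e f : V) : Set V :=
  segment ℝ (sql e f) (sqa e f) ∪ segment ℝ (sql e f) (sqb e f) ∪ segment ℝ (sql e f) (sqr e f) ∪
    segment ℝ (sqr e f) (sqc e f) ∪ segment ℝ (sqr e f) (sqd e f)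

theorem sq_lower [ProperSpace V] {e f : V} (he : ‖e‖ = 1) (hf : ‖f‖ = 1) (hef : inner ℝ e f = 0)
    {T : Set V} (hT : IsClosed T) (hTA : IsConnected (T ∪ sqA e f)) :
    ENNReal.ofReal (2 + 2 * √3) ≤ μH[1] T := by
  by_cases hfin : μH[1] T = ∞
  · rw [hfin]; exact le_top
  have hAf : (sqA e f).Finite := by rw [sqA]; exact toFinite _
  have hX : μH[1] (T ∪ sqA e f) ≤ μH[1] T := by
    refine (measure_union_le _ _).trans ?_
    rw [fin_measure_zero hAf, add_zero]
  have hXfin : μH[1] (T ∪ sqA e f) ≠ ∞ := ne_top_of_le_ne_top hfin hX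
  have ha : sqa e f ∈ T ∪ sqA e f := Or.inr (by simp [sqA])
  have hb : sqb e f ∈ T ∪ sqA e f := Or.inr (by simp [sqA])
  have hc : sqc e f ∈ T ∪ sqA e f := Or.inr (by simp [sqA])
  have hd : sqd e f ∈ T ∪ sqA e f := Or.inr (by simp [sqA])
  have hcl : IsClosed (T ∪ sqA e f) := hT.union hAf.isClosed
  have hcomp := compact_of_conn hTA.isPreconnected hcl hTA.nonempty hXfin
  have h3 := sq3
  have h3le : √3 ≤ 1.75 := by
    rw [Real.sqrt_le_left (by norm_num)]; norm_num
  have h3pos : 0 ≤ √3 := Real.sqrt_nonneg 3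
  refine le_trans ?_ hX
  rw [ENNReal.ofReal_le_iff_le_toReal hXfin]
  refine le_of_forall_pos_le_add fun η hη => ?_
  obtain ⟨U, s, hU, hXU, hs⟩ := exists_chain hcomp hTA.isPreconnected hTA.nonempty hXfin
    (show 0 < η / 3 by linarith)
  have hJ := hU.four _ (hXU ha) _ (hXU hb) _ (hXU hc) _ (hXU hd)
  have key : 2 + 2 * √3 ≤ s + 2 * (η / 3) := by
    rcases hJ with h | h | h
    · have := Q_lower h (ea := vec e f (-(1 / 2)) (√3 / 2)) (eb := vec e f (-(1 / 2)) (-(√3 / 2)))
        (ec := vec e f (1 / 2) (√3 / 2)) (ed := vec e f (1 / 2) (-(√3 / 2)))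
        (norm_vec_le_one he hf hef (by nlinarith)) (norm_vec_le_one he hf hef (by nlinarith))
        (norm_vec_le_one he hf hef (by nlinarith)) (norm_vec_le_one he hf hef (by nlinarith))
        (by
          rw [vec_add, vec_add, vec_add, ← vec_zero (e := e) (f := f)]
          congr 1 <;> ring)
        (by rw [vec_add]; exact norm_vec_le_one he hf hef (by nlinarith))
      simp only [sqa, sqb, sqc, sqd, inner_vec he hf hef] at this
      linarith
    · have := Q_lower h (ea := vec e f (-(√3 / 2)) (1 / 2)) (eb := vec e f (√3 / 2) (1 / 2))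
        (ec := vec e f (-(√3 / 2)) (-(1 / 2))) (ed := vec e f (√3 / 2) (-(1 / 2)))
        (norm_vec_le_one he hf hef (by nlinarith)) (norm_vec_le_one he hf hef (by nlinarith))
        (norm_vec_le_one he hf hef (by nlinarith)) (norm_vec_le_one he hf hef (by nlinarith))
        (by
          rw [vec_add, vec_add, vec_add, ← vec_zero (e := e) (f := f)]
          congr 1 <;> ring)
        (by rw [vec_add]; exact norm_vec_le_one he hf hef (by nlinarith))
      simp only [sqa, sqb, sqc, sqd, inner_vec he hf hef] at this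
      linarith
    · have := Q_lower h (ea := vec e f (-(7 / 10)) (7 / 10)) (eb := vec e f (7 / 10) (-(7 / 10)))
        (ec := vec e f (-(7 / 10)) (-(7 / 10))) (ed := vec e f (7 / 10) (7 / 10))
        (norm_vec_le_one he hf hef (by norm_num)) (norm_vec_le_one he hf hef (by norm_num))
        (norm_vec_le_one he hf hef (by norm_num)) (norm_vec_le_one he hf hef (by norm_num))
        (by
          rw [vec_add, vec_add, vec_add, ← vec_zero (e := e) (f := f)]
          congr 1 <;> ring)
        (by rw [vec_add]; exact norm_vec_le_one he hf hef (by norm_num))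
      simp only [sqa, sqb, sqc, sqd, inner_vec he hf hef] at this
      linarith
  linarith

theorem kap_pos : 0 < kap := by
  have h3le : √3 ≤ 1.75 := by
    rw [Real.sqrt_le_left (by norm_num)]; norm_num
  rw [kap]; linarith

theorem sq_len {e f : V} (he : ‖e‖ = 1) (hf : ‖f‖ = 1) (hef : inner ℝ e f = 0) :
    μH[1] (sqS e f) ≤ ENNReal.ofReal (2 + 2 * √3) := by
  have h3 := sq3
  have h3pos : 0 ≤ √3 := Real.sqrt_nonneg 3
  have hk := kap_pos
  have e1 : edist (sql e f) (sqa e f) = ENNReal.ofReal (2 * √3 / 3) := by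
    rw [edist_dist, sql, sqa, dist_vec he hf hef (l := 2 * √3 / 3) (by positivity)]
    rw [kap]; nlinarith
  have e2 : edist (sql e f) (sqb e f) = ENNReal.ofReal (2 * √3 / 3) := by
    rw [edist_dist, sql, sqb, dist_vec he hf hef (l := 2 * √3 / 3) (by positivity)]
    rw [kap]; nlinarith
  have e3 : edist (sql e f) (sqr e f) = ENNReal.ofReal (2 * kap) := by
    rw [edist_dist, sql, sqr, dist_vec he hf hef (l := 2 * kap) (by positivity)]
    ring
  have e4 : edist (sqr e f) (sqc e f) = ENNReal.ofReal (2 * √3 / 3) := by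
    rw [edist_dist, sqr, sqc, dist_vec he hf hef (l := 2 * √3 / 3) (by positivity)]
    rw [kap]; nlinarith
  have e5 : edist (sqr e f) (sqd e f) = ENNReal.ofReal (2 * √3 / 3) := by
    rw [edist_dist, sqr, sqd, dist_vec he hf hef (l := 2 * √3 / 3) (by positivity)]
    rw [kap]; nlinarith
  have hsum : (2 + 2 * √3) = 2 * √3 / 3 + 2 * √3 / 3 + 2 * kap + 2 * √3 / 3 + 2 * √3 / 3 := by
    rw [kap]; ring
  rw [hsum, ENNReal.ofReal_add (by positivity) (by positivity),
    ENNReal.ofReal_add (by positivity) (by positivity),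
    ENNReal.ofReal_add (by positivity) (by positivity),
    ENNReal.ofReal_add (by positivity) (by positivity)]
  rw [sqS]
  refine (measure_union_le _ _).trans (add_le_add ?_ ?_)
  · refine (measure_union_le _ _).trans (add_le_add ?_ ?_)
    · refine (measure_union_le _ _).trans (add_le_add ?_ ?_)
      · refine (measure_union_le _ _).trans (add_le_add ?_ ?_)
        · rw [hausdorffMeasure_segment, e1]
        · rw [hausdorffMeasure_segment, e2]
      · rw [hausdorffMeasure_segment, e3]
    · rw [hausdorffMeasure_segment, e4]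
  · rw [hausdorffMeasure_segment, e5]

end H11ST
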