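import Pool.Agent.H11ST.Comp
open MeasureTheory Metric Set Filter Topology Real
open scoped ENNReal NNReal

namespace H11ST
set_option linter.unusedSectionVars false

/-- the plane -/
abbrev E2 := EuclideanSpace ℝ (Fin 2)

/-- the unit vector of angle `θ` -/
noncomputable def ev (θ : ℝ) : E2 := !₂[Real.cos θ, Real.sin θ]

theorem inner_ev (a b : ℝ) : inner ℝ (ev a) (ev b) = Real.cos (a - b) := by
  simp [ev, PiLp.inner_apply, Fin.sum_univ_two, Real.cos_sub]
  ring

theorem norm_ev (a : ℝ) : ‖ev a‖ = 1 := by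
  have h : ‖ev a‖ ^ 2 = 1 := by
    rw [← real_inner_self_eq_norm_sq, inner_ev]; simp
  nlinarith [norm_nonneg (ev a)]

theorem norm_ev_sub_sq (a b : ℝ) : ‖ev a - ev b‖ ^ 2 = 2 - 2 * Real.cos (a - b) := by
  rw [norm_sub_sq_real, norm_ev, norm_ev, inner_ev]; ring

theorem norm_ev_sub_le (a b : ℝ) : ‖ev a - ev b‖ ≤ |a - b| := by
  have h1 := norm_ev_sub_sq a b
  have h2 := Real.one_sub_sq_div_two_le_cos (x := a - b)
  have h3 : ‖ev a - ev b‖ ^ 2 ≤ |a - b| ^ 2 := by rw [h1, sq_abs]; linarith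
  exact (sq_le_sq₀ (norm_nonneg _) (abs_nonneg _)).1 h3

theorem exists_angle {x z : E2} {ρ : ℝ} (hρ : 0 < ρ) (hz : z ∈ sphere x ρ) :
    ∃ θ ∈ Ioc (-π) π, z = x + ρ • ev θ := by
  rw [mem_sphere, dist_eq_norm] at hz
  set w : ℂ := ⟨(z - x) 0 / ρ, (z - x) 1 / ρ⟩ with hw
  have hsq : ((z - x) 0) ^ 2 + ((z - x) 1) ^ 2 = ρ ^ 2 := by
    have := EuclideanSpace.norm_sq_eq (z - x)
    rw [hz, Fin.sum_univ_two] at this
    simp only [Real.norm_eq_abs, sq_abs] at this
    linarith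
  have hn : ‖w‖ = 1 := by
    have h1 : ‖w‖ ^ 2 = 1 := by
      rw [← Complex.normSq_eq_norm_sq, Complex.normSq_apply, hw]
      simp only
      field_simp
      linarith
    nlinarith [norm_nonneg w]
  have hw0 : w ≠ 0 := by intro h; rw [h] at hn; simp at hn
  refine ⟨Complex.arg w, Complex.arg_mem_Ioc w, ?_⟩
  have hc := Complex.cos_arg hw0
  have hs := Complex.sin_arg w
  rw [hn, div_one] at hc hs
  have h0 : (z - x) 0 = ρ * Real.cos (Complex.arg w) := by
    rw [hc, hw]; field_simp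
  have h1 : (z - x) 1 = ρ * Real.sin (Complex.arg w) := by
    rw [hs, hw]; field_simp
  have : z - x = ρ • ev (Complex.arg w) := by
    ext i
    fin_cases i
    · simpa [ev] using h0
    · simpa [ev] using h1
  rw [← this]; abel

/-- the circle as an image of an interval -/
theorem circle_facts (x : E2) {ρ : ℝ} (hρ : 0 < ρ) : IsClosed (sphere x ρ) ∧
    IsPreconnected (sphere x ρ) ∧ μH[1] (sphere x ρ) ≤ ENNReal.ofReal (2 * π * ρ) := by
  have himg : sphere x ρ = (fun θ : ℝ => x + ρ • ev θ) '' (Icc (-π) π) := by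
    ext z
    constructor
    · intro hz
      obtain ⟨θ, hθ, h⟩ := exists_angle hρ hz
      exact ⟨θ, ⟨hθ.1.le, hθ.2⟩, h.symm⟩
    · rintro ⟨θ, _, rfl⟩
      rw [mem_sphere, dist_eq_norm]
      simp [norm_smul, norm_ev, abs_of_pos hρ]
  have hL : LipschitzWith (Real.toNNReal ρ) (fun θ : ℝ => x + ρ • ev θ) := by
    refine LipschitzWith.of_dist_le_mul fun a b => ?_
    rw [dist_eq_norm, Real.coe_toNNReal _ hρ.le, Real.dist_eq]
    have : x + ρ • ev a - (x + ρ • ev b) = ρ • (ev a - ev b) := by rw [smul_sub]; abel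
    rw [this, norm_smul, Real.norm_eq_abs, abs_of_pos hρ]
    exact mul_le_mul_of_nonneg_left (norm_ev_sub_le a b) hρ.le
  refine ⟨isClosed_sphere, ?_, ?_⟩
  · rw [himg]; exact isPreconnected_Icc.image _ hL.continuous.continuousOn
  · rw [himg]
    have h1 := hL.hausdorffMeasure_image_le (zero_le_one) (Icc (-π) π)
    rw [hausdorffMeasure_real, Real.volume_Icc] at h1
    refine h1.trans ?_
    simp only [NNReal.coe_one, ENNReal.rpow_one]
    rw [← ENNReal.ofReal, ← ENNReal.ofReal_mul hρ.le]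
    refine ENNReal.ofReal_le_ofReal ?_
    linarith [Real.pi_pos]

variable {A S : Set E2} {x : E2} {r : ℝ}

theorem len_circle (L : LocAdm A S x r) (hA : IsClosed A) {ρ : ℝ} (h0 : 0 < ρ) (hρ : ρ < r)
    (hne : (S ∩ sphere x ρ).Nonempty) : len S x ρ ≤ 2 * π * ρ := by
  obtain ⟨h1, h2, h3⟩ := circle_facts x h0
  exact L.len_comp hA hρ h1 h2 sphere_subset_closedBall inter_subset_right hne (by positivity) h3

/-- the planar bound -/
theorem planar_bound (L : LocAdm A S x r) (hA : IsClosed A) (Y : Finset E2) (hY : Y.Nonempty) {t : ℝ}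
    (ht0 : 0 < t) (ht1 : t < 1) (hb : ∀ y ∈ Y, y ∈ ball x (t * r))
    (hT : ∀ y ∈ Y, ∃ u ε, Tri S y u ε) : ((Y.card : ℝ) + 2) * (1 - t) ≤ 2 * π := by
  have hr := L.rpos
  have htr : t * r < r := by nlinarith
  have hcount : ∀ ρ, t * r ≤ ρ → ρ < r → ((Y.card + 2 : ℕ) : ℕ∞) ≤ (S ∩ sphere x ρ).encard :=
    fun ρ h1 h2 => L.sphere_count hA Y hY hb hT h1 h2
  have key : ∀ ρ, t * r < ρ → ρ < r → ((Y.card : ℝ) + 2) * (ρ - t * r) ≤ 2 * π * ρ := by
    intro ρ h1 h2
    have h3 := L.len_growth h1.le h2.le (Y.card + 2) (fun s hs =>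
      hcount s hs.1.le (hs.2.trans h2))
    have hne : (S ∩ sphere x ρ).Nonempty := by
      rw [← Set.encard_pos]
      refine lt_of_lt_of_le ?_ (hcount ρ h1.le h2)
      exact_mod_cast Nat.succ_pos _
    have h4 := len_circle L hA (by nlinarith [mul_pos ht0 hr]) h2 hne
    have h5 := len_nonneg S x (t * r)
    push_cast at h3
    linarith
  have h6 : ((Y.card : ℝ) + 2) * (r - t * r) ≤ 2 * π * r := by
    have hc1 : Tendsto (fun ρ : ℝ => ((Y.card : ℝ) + 2) * (ρ - t * r)) (𝓝[<] r)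
        (𝓝 (((Y.card : ℝ) + 2) * (r - t * r))) :=
      (Continuous.tendsto (by fun_prop) r).mono_left nhdsWithin_le_nhds
    have hc2 : Tendsto (fun ρ : ℝ => 2 * π * ρ) (𝓝[<] r) (𝓝 (2 * π * r)) :=
      (Continuous.tendsto (by fun_prop) r).mono_left nhdsWithin_le_nhds
    refine le_of_tendsto_of_tendsto hc1 hc2 ?_
    filter_upwards [Ioo_mem_nhdsLT htr] with ρ hρ
    exact key ρ hρ.1 hρ.2
  have h7 : (((Y.card : ℝ) + 2) * (1 - t)) * r ≤ (2 * π) * r := by linarith
  exact le_of_mul_le_mul_right h7 hr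

end H11ST
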