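import Pool.Agent.H11ST.Defs
import Pool.Agent.H11ST.Examples
import Pool.Agent.H11ST.Plane
open MeasureTheory Metric Set Filter Topology
open scoped ENNReal NNReal

namespace H11ST
set_option linter.unusedSectionVars false

theorem encard_le_of_finset {α : Type*} {B : Set α} {m : ℕ}
    (h : ∀ Y : Finset α, (∀ y ∈ Y, y ∈ B) → Y.card ≤ m) : B.encard ≤ m := by
  classical
  by_contra hcon
  push Not at hcon
  have h1 : ((m + 1 : ℕ) : ℕ∞) ≤ B.encard := by
    have := Order.add_one_le_of_lt hcon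
    exact_mod_cast this
  obtain ⟨t, ht, htc⟩ := Set.exists_subset_encard_eq h1
  have hfin : t.Finite := Set.finite_of_encard_eq_coe htc
  have h2 := h hfin.toFinset (fun y hy => ht (by simpa using hy))
  have h3 := hfin.encard_eq_coe_toFinset_card
  rw [htc] at h3
  have h4 : m + 1 = hfin.toFinset.card := by exact_mod_cast h3
  omega

section
variable {d : ℕ} {A S : Set (E d)} {x : E d} {r : ℝ}

theorem Admissible.loc (h : Admissible A S x r) : LocallyAdmissible A S x r where
  compact := h.compact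
  isClosed := h.steiner.isClosed
  connected := h.steiner.connected
  tree := h.tree
  rpos := h.rpos
  far := h.far
  finite := lt_of_le_of_lt (measure_mono inter_subset_left) h.finite
  minimal := by
    intro T hT hTA heq
    have h1 := h.steiner.minimal T hT hTA
    have hout : μH[1] (S \ ball x r) ≠ ∞ :=
      ne_top_of_le_ne_top h.finite.ne (measure_mono sdiff_subset)
    have h2 := measure_inter_add_sdiff (μ := μH[1]) S (measurableSet_ball (x := x) (ε := r))
    have h3 := measure_inter_add_sdiff (μ := μH[1]) T (measurableSet_ball (x := x) (ε := r))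
    rw [← h2, ← h3, heq] at h1
    exact (ENNReal.add_le_add_iff_right hout).1 h1

theorem LocallyAdmissible.adm (h : LocallyAdmissible A S x r) : LocAdm A S x r where
  rpos := h.rpos
  hS := h.isClosed
  conn := h.connected
  far := fun z hz hb => by
    have : z ∈ A ∩ ball x r := ⟨hz, hb⟩
    rw [h.far] at this; exact this
  fin := ne_top_of_le_ne_top h.finite.ne (measure_mono (inter_subset_inter_right _
    ball_subset_closedBall))
  minim := h.minimal

theorem IsBranchingPoint.tri {y : E d} (h : IsBranchingPoint A S y) : ∃ u ε, Tri S y u ε := by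
  obtain ⟨_, u, ε, h1, h2, h3, h4⟩ := h
  exact ⟨u, ε, h1, h2, h3, h4⟩

theorem N_le_Nloc (d : ℕ) (t : ℝ) : N d t ≤ Nloc d t := by
  rw [N]
  refine iSup_le fun A => iSup_le fun S => iSup_le fun x => iSup_le fun r => iSup_le fun h => ?_
  rw [Nloc]
  exact le_iSup_of_le A (le_iSup_of_le S (le_iSup_of_le x (le_iSup_of_le r
    (le_iSup_of_le h.loc le_rfl))))

theorem Nloc_le {d : ℕ} {t : ℝ} {m : ℕ}
    (h : ∀ (A S : Set (E d)) (x : E d) (r : ℝ), LocallyAdmissible A S x r → ∀ Y : Finset (E d),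
      Y.Nonempty → (∀ y ∈ Y, y ∈ ball x (t * r)) → (∀ y ∈ Y, ∃ u ε, Tri S y u ε) → Y.card ≤ m) :
    Nloc d t ≤ m := by
  rw [Nloc]
  refine iSup_le fun A => iSup_le fun S => iSup_le fun x => iSup_le fun r => iSup_le fun hL => ?_
  refine encard_le_of_finset fun Y hY => ?_
  rcases Y.eq_empty_or_nonempty with h0 | h0
  · rw [h0]; simp
  · exact h A S x r hL Y h0 (fun y hy => (hY y hy).1) (fun y hy => (hY y hy).2.tri)

/-- the explicit bound in all dimensions -/
theorem general_bound (hd : 1 ≤ d) (hL : LocAdm A S x r) (hA : IsClosed A) {t : ℝ} (ht0 : 0 < t)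
    (ht1 : t < 1) (Y : Finset (E d)) (hY : Y.Nonempty) (hb : ∀ y ∈ Y, y ∈ ball x (t * r))
    (hT : ∀ y ∈ Y, ∃ u ε, Tri S y u ε) :
    ((Y.card : ℝ) + 2) ≤ 4 * (6 * (2 ^ (d + 2) * √d + 1)) ^ d / (1 - t) ^ (d + 1) := by
  have hr := hL.rpos
  have h1t : 0 < 1 - t := by linarith
  set ρ : ℝ := (1 + t) / 2 * r with hρ
  have hρr : ρ < r := by rw [hρ]; nlinarith
  have htρ : t * r < ρ := by rw [hρ]; nlinarith
  have hρ0 : 0 < ρ := by rw [hρ]; positivity
  have hcount : ∀ s, t * r ≤ s → s < r → ((Y.card + 2 : ℕ) : ℕ∞) ≤ (S ∩ sphere x s).encard :=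
    fun s h1 h2 => hL.sphere_count hA Y hY hb hT h1 h2
  have hne : ∀ s, t * r ≤ s → s < r → (S ∩ sphere x s).Nonempty := by
    intro s h1 h2
    rw [← Set.encard_pos]
    refine lt_of_lt_of_le ?_ (hcount s h1 h2)
    exact_mod_cast Nat.succ_pos _
  have h1 := hL.len_growth htρ.le hρr.le (Y.card + 2) (fun s hs =>
    hcount s hs.1.le (hs.2.trans hρr))
  have h2 := len_bound hd hL hA hρ0 hρr (fun s h3 h4 => hne s (htρ.le.trans h3) h4)
  have h3 := len_nonneg S x (t * r)
  push_cast at h1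
  have e1 : 1 - ρ / r = (1 - t) / 2 := by rw [hρ]; field_simp; ring
  have e2 : ρ - t * r = (1 - t) / 2 * r := by rw [hρ]; ring
  rw [e1] at h2
  rw [e2] at h1
  have h4 : ((Y.card : ℝ) + 2) * ((1 - t) / 2) * r ≤ Cd d / ((1 - t) / 2) ^ d * r := by linarith
  have h5 := le_of_mul_le_mul_right h4 hr
  have h6 : ((Y.card : ℝ) + 2) ≤ Cd d / ((1 - t) / 2) ^ d / ((1 - t) / 2) := by
    rw [le_div_iff₀ (by positivity)]; exact h5
  refine h6.trans (le_of_eq ?_)
  rw [Cd, div_pow, div_div_eq_mul_div]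
  have e3 : (6 * (2 ^ (d + 2) * √d + 1)) ^ d = 2 ^ d * (3 * (2 ^ (d + 2) * √d + 1)) ^ d := by
    rw [← mul_pow]; congr 1; ring
  rw [e3, pow_succ]
  field_simp
  ring

theorem Nloc_bound {d : ℕ} (hd : 1 ≤ d) {t : ℝ} (ht0 : 0 < t) (ht1 : t < 1) :
    Nloc d t ≤ (⌊4 * (6 * (2 ^ (d + 2) * √d + 1)) ^ d / (1 - t) ^ (d + 1)⌋₊ : ℕ) := by
  refine Nloc_le fun A S x r hL Y hY hb hT => Nat.le_floor ?_
  have := general_bound hd hL.adm hL.compact.isClosed ht0 ht1 Y hY hb hT
  linarith

theorem Nloc_plane {t : ℝ} (ht0 : 0 < t) (ht1 : t < 1) :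
    Nloc 2 t ≤ ((⌊2 * Real.pi / (1 - t)⌋₊ - 2 : ℕ) : ℕ∞) := by
  refine Nloc_le fun A S x r hL Y hY hb hT => ?_
  have h := planar_bound hL.adm hL.compact.isClosed Y hY ht0 ht1 hb hT
  have h1 : ((Y.card + 2 : ℕ) : ℝ) ≤ 2 * Real.pi / (1 - t) := by
    rw [le_div_iff₀ (by linarith)]; push_cast; exact h
  have h2 := Nat.le_floor h1
  omega

/-- the situation around one of two branching points -/
theorem two_points (hL : LocAdm A S x r) (hA : IsClosed A) {t : ℝ} (ht1 : t < 1) {y y' : E d}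
    (hne : y ≠ y') (hy : y ∈ ball x (t * r)) (hy' : y' ∈ ball x (t * r))
    (hT : ∃ u ε, Tri S y u ε) (hT' : ∃ u ε, Tri S y' u ε) :
    ∃ (_ : LocAdm A S y ((1 - t) * r)) (D : ℝ), 0 < D ∧ D < 2 * t * r ∧
      (∀ ρ ∈ Ioo 0 D, ρ < (1 - t) * r → (3 : ℕ∞) ≤ (S ∩ sphere y ρ).encard) ∧
      (∀ ρ ∈ Ioo D ((1 - t) * r), (4 : ℕ∞) ≤ (S ∩ sphere y ρ).encard) ∧
      (∀ ρ, 0 < ρ → ρ < (1 - t) * r → (S ∩ sphere y ρ).Nonempty) := by
  classical
  have hr := hL.rpos
  have hR : 0 < (1 - t) * r := mul_pos (by linarith) hr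
  have hsub : ball y ((1 - t) * r) ⊆ ball x r := by
    refine ball_subset_ball' ?_
    rw [mem_ball] at hy
    linarith
  have L := hL.restrict hR hsub
  have h3 : ∀ ρ, 0 < ρ → ρ < (1 - t) * r → ((3 : ℕ) : ℕ∞) ≤ (S ∩ sphere y ρ).encard := by
    intro ρ h1 h2
    have := L.sphere_count hA {y} (Finset.singleton_nonempty y) (ρ₀ := ρ) (by
      intro z hz; rw [Finset.mem_singleton] at hz; subst hz; exact mem_ball_self h1) (by
      intro z hz; rw [Finset.mem_singleton] at hz; subst hz; exact hT) le_rfl h2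
    simpa using this
  refine ⟨L, dist y' y, dist_pos.2 (Ne.symm hne), ?_, ?_, ?_, ?_⟩
  · rw [mem_ball] at hy hy'
    have := dist_triangle_right y' y x
    linarith
  · intro ρ hρ h2
    exact_mod_cast h3 ρ hρ.1 h2
  · intro ρ hρ
    have hcard : ({y, y'} : Finset (E d)).card = 2 := Finset.card_pair hne
    have := L.sphere_count hA {y, y'} (Finset.insert_nonempty _ _) (ρ₀ := ρ) (by
      intro z hz
      rw [Finset.mem_insert, Finset.mem_singleton] at hz
      rcases hz with rfl | rfl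
      · exact mem_ball_self (dist_nonneg.trans_lt hρ.1)
      · exact mem_ball.2 hρ.1) (by
      intro z hz
      rw [Finset.mem_insert, Finset.mem_singleton] at hz
      rcases hz with rfl | rfl
      · exact hT
      · exact hT') le_rfl hρ.2
    rw [hcard] at this
    exact_mod_cast this
  · intro ρ h1 h2
    rw [← Set.encard_pos]
    refine lt_of_lt_of_le ?_ (h3 ρ h1 h2)
    norm_num

theorem rad_const (σ : ℝ) (D : ℝ) (k : ℕ) :
    rad (fun _ => σ) D k = D / σ * ((1 + σ) / σ) ^ k := by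
  induction k with
  | zero => simp [rad]
  | succ k ih => rw [rad, ih, pow_succ]; ring

/-- for small `t` there is at most one branching point, in every dimension -/
theorem small_general {d : ℕ} (hd : 1 ≤ d) : ∃ t₀ : ℝ, 0 < t₀ ∧ ∀ t, 0 < t → t ≤ t₀ →
    Nloc d t ≤ (1 : ℕ) := by
  obtain ⟨k, hk⟩ := exists_nat_gt (2 * 2 ^ d * Cd d)
  set M : ℝ := 60 * 61 ^ k with hM
  have hMpos : 1 ≤ M := by
    rw [hM]
    have : (1 : ℝ) ≤ 61 ^ k := one_le_pow₀ (by norm_num)
    linarith
  refine ⟨1 / (8 * M), by positivity, fun t ht0 ht => ?_⟩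
  have ht8 : t * (8 * M) ≤ 1 := by rwa [le_div_iff₀ (by positivity)] at ht
  have ht1 : t < 1 := by nlinarith
  refine Nloc_le fun A S x r hL Y hY hb hT => ?_
  by_contra hcon
  push Not at hcon
  obtain ⟨y, hy, y', hy', hne⟩ := Finset.one_lt_card.1 hcon
  have hA := hL.compact.isClosed
  have hr := hL.rpos
  obtain ⟨L, D, hD, hDt, h3, h4, hne'⟩ := two_points hL.adm hA ht1 hne (hb y hy) (hb y' hy')
    (hT y hy) (hT y' hy')
  set R := (1 - t) * r with hR
  have htM : 8 * M * t ≤ 1 := by linarith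
  have hMt : t ≤ M * t := by nlinarith
  have hDM : D * M < R / 2 := by
    have h5 : D * M < 2 * t * r * M := mul_lt_mul_of_pos_right hDt (by linarith)
    have h6 : 2 * t * M ≤ 1 / 4 := by nlinarith
    have h7 : 2 * t * r * M ≤ 1 / 4 * r := by nlinarith
    have h8 : 1 / 4 * r ≤ R / 2 := by rw [hR]; nlinarith
    linarith
  have hDR : D < R := by nlinarith
  have hrad : rad (fun _ => (1 / 60 : ℝ)) D k = D * M := by
    rw [rad_const, hM]
    have : ((1 : ℝ) + 1 / 60) / (1 / 60) = 61 := by norm_num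
    rw [this]; ring
  have hphase := phases L (σ := fun _ => (1 / 60 : ℝ)) (M := 4 + k) (fun _ _ _ => by norm_num)
    (fun _ _ _ => by norm_num) (by norm_num) hD hDR (fun ρ hρ => h3 ρ hρ (hρ.2.trans hDR)) h4
    (fun m hm _ ρ h0 h1 hc => L.len_save hA h0 h1 (fun p q s t hp hq hs ht =>
      four_points h0 hp hq hs ht) hm hc) k le_rfl (by rw [hrad]; linarith)
  have h5 := hphase.1
  rw [hrad] at h5
  have hDM0 : 0 < D * M := by positivity
  -- the upper bound in the ball of twice the radius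
  have L2 := L.restrict (x' := y) (r' := 2 * (D * M)) (by positivity)
    (ball_subset_ball (by linarith))
  have h6 := len_bound hd L2 hA hDM0 (by linarith) (fun ρ h7 h8 => hne' ρ (by linarith) (by linarith))
  have e1 : 1 - D * M / (2 * (D * M)) = 1 / 2 := by field_simp; ring
  rw [e1] at h6
  have h7 : ((4 + k : ℕ) - 1 / 60 : ℝ) * (D * M) ≤ (2 * 2 ^ d * Cd d) * (D * M) := by
    refine h5.trans (h6.trans (le_of_eq ?_))
    rw [div_pow, one_pow]; field_simp
  have h8 := le_of_mul_le_mul_right h7 hDM0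
  push_cast at h8
  linarith

end

section lower
variable {d : ℕ}

/-- an orthonormal pair -/
theorem exists_pair (hd : 2 ≤ d) : ∃ e f : E d, ‖e‖ = 1 ∧ ‖f‖ = 1 ∧ inner ℝ e f = 0 := by
  refine ⟨EuclideanSpace.single ⟨0, by omega⟩ 1, EuclideanSpace.single ⟨1, by omega⟩ 1, ?_, ?_, ?_⟩
  · simp
  · simp
  · rw [EuclideanSpace.inner_single_left]
    simp

theorem le_N {d : ℕ} {A S : Set (E d)} {x : E d} {r t : ℝ} (h : Admissible A S x r) {m : ℕ∞}
    (hm : m ≤ {y ∈ ball x (t * r) | IsBranchingPoint A S y}.encard) : m ≤ N d t := by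
  rw [N]
  exact le_iSup_of_le A (le_iSup_of_le S (le_iSup_of_le x (le_iSup_of_le r
    (le_iSup_of_le h hm))))

theorem one_le_N (hd : 2 ≤ d) {t : ℝ} (ht0 : 0 < t) : 1 ≤ N d t := by
  obtain ⟨e, f, he, hf, hef⟩ := exists_pair hd
  set S : Set (E d) := ⋃ i, segment ℝ (0 : E d) (tri e f i) with hS
  set A : Set (E d) := range (tri e f) with hA
  have hAS : A ⊆ S := by
    rintro _ ⟨i, rfl⟩
    exact mem_iUnion.2 ⟨i, right_mem_segment ℝ _ _⟩
  have hSc : IsConnected S := by
    refine ⟨⟨0, mem_iUnion.2 ⟨0, left_mem_segment ℝ _ _⟩⟩, ?_⟩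
    exact isPreconnected_iUnion ⟨0, mem_iInter.2 fun i => left_mem_segment ℝ _ _⟩
      fun i => (convex_segment _ _).isPreconnected
  have hScl : IsClosed S := isClosed_iUnion_of_finite fun i => seg_closed _ _
  have hSA : S ∪ A = S := union_eq_left.2 hAS
  have hadm : Admissible A S 0 1 :=
    { compact := (finite_range _).isCompact
      steiner := ⟨hScl, by rw [hSA]; exact hSc, fun T hT hTA =>
        (tripod_len he hf hef).trans (tripod_lower he hf hef hA hT hTA)⟩
      tree := hSc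
      rpos := one_pos
      far := by
        rw [eq_empty_iff_forall_notMem]
        rintro z ⟨⟨i, rfl⟩, hz⟩
        rw [mem_ball, dist_zero_right, tri_norm he hf hef] at hz
        exact lt_irrefl _ hz
      finite := lt_of_le_of_lt (tripod_len he hf hef) ENNReal.ofReal_lt_top }
  refine le_N hadm ?_
  have h0 : (0 : E d) ∈ {y ∈ ball (0 : E d) (t * 1) | IsBranchingPoint A S y} := by
    refine ⟨mem_ball_self (by linarith), ?_, tri e f, 1, ?_⟩
    · rintro ⟨i, hi⟩
      have := tri_norm he hf hef i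
      rw [hi, norm_zero] at this
      exact zero_ne_one this
    · have T : Tri S 0 (tri e f) 1 := by
        refine tri_of_segments (R := ∅) (l := fun _ => 1) one_pos (tri_norm he hf hef)
          (tri_ang he hf hef) (fun _ => le_rfl) ?_ (fun z hz => absurd hz (notMem_empty z))
        simp [hS]
      exact ⟨T.pos, T.norm, T.ang, T.eq⟩
  exact Set.one_le_encard_iff_nonempty.2 ⟨0, h0⟩

end lower
end H11ST
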