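import Pool.Agent.H11ST.Chain2
import Pool.Agent.H11ST.Main
open MeasureTheory Metric Set Filter Topology
open scoped ENNReal NNReal

namespace H11ST
set_option linter.unusedSectionVars false

section
variable {V : Type*} [NormedAddCommGroup V] [InnerProductSpace ℝ V] [MeasurableSpace V] [BorelSpace V]

namespace LocAdm
variable {A S : Set V} {x : V} {r : ℝ}

/-- replacing a relatively clopen part of `S ∩ closedBall x ρ` by a connected set -/
theorem comp' (L : LocAdm A S x r) (hA : IsClosed A) {ρ : ℝ} (hρ : ρ < r) {Z C : Set V}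
    (hZ : IsClosed Z) (hZ' : IsClosed ((S ∩ closedBall x ρ) \ Z)) (hZs : Z ⊆ S ∩ closedBall x ρ)
    (hC : IsClosed C) (hCc : IsPreconnected C) (hCb : C ⊆ closedBall x ρ)
    (hsub : Z ∩ sphere x ρ ⊆ C) (hne : (Z ∩ sphere x ρ).Nonempty) :
    μH[1] (Z ∩ ball x ρ) ≤ μH[1] C := by
  have hXc := L.conn.isPreconnected
  have hcr : closedBall x ρ ⊆ ball x r := closedBall_subset_ball hρ
  have hbr : ball x ρ ⊆ ball x r := ball_subset_ball hρ.le
  set Z2 := (S ∩ closedBall x ρ) \ Z with hZ2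
  set T := ((S \ ball x ρ) ∪ Z2) ∪ C with hT
  have hTc : IsClosed T := ((L.hS.sdiff isOpen_ball).union hZ').union hC
  set Y := ((S \ ball x ρ) ∪ Z2) ∪ A with hY
  have hYc : IsClosed Y := ((L.hS.sdiff isOpen_ball).union hZ').union hA
  have hYT : Y ⊆ T ∪ A := by
    rintro z (h | h)
    · exact Or.inl (Or.inl h)
    · exact Or.inr h
  have hXY : ∀ z ∈ S ∪ A, z ∈ Y ∨ z ∈ Z := by
    rintro z (h | h)
    · by_cases hz : z ∈ Z
      · exact Or.inr hz
      · by_cases hb : z ∈ ball x ρ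
        · exact Or.inl (Or.inl (Or.inr ⟨⟨h, ball_subset_closedBall hb⟩, hz⟩))
        · exact Or.inl (Or.inl (Or.inl ⟨h, hb⟩))
    · exact Or.inl (Or.inr h)
  have hYZ : ∀ z ∈ Y, z ∈ Z → z ∈ C := by
    intro z hzY hz
    rcases hzY with (h | h) | h
    · refine hsub ⟨hz, ?_⟩
      rw [mem_sphere]
      refine le_antisymm (mem_closedBall.1 (hZs hz).2) ?_
      by_contra hlt
      push Not at hlt
      exact h.2 (mem_ball.2 hlt)
    · exact absurd hz h.2
    · exact absurd (hcr (hZs hz).2) (L.far z h)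
  have main : ∀ t t' : Set V, IsClosed t → IsClosed t' → T ∪ A ⊆ t ∪ t' →
      ((T ∪ A) ∩ (t ∩ t')) = ∅ → C ⊆ t → ((T ∪ A) ∩ t').Nonempty → False := by
    intro t t' ht ht' hcov hem hCt hne'
    have key := not_mem_of_split (X := S ∪ A) (Z := Y ∩ t') (K := (Y ∩ t) ∪ Z) hXc
      (hYc.inter ht') ((hYc.inter ht).union hZ) ?_ ?_ ?_
    · obtain ⟨w, hw, hwt'⟩ := hne'
      by_cases hwC : w ∈ C
      · have : w ∈ (T ∪ A) ∩ (t ∩ t') := ⟨hw, hCt hwC, hwt'⟩
        rw [hem] at this; exact this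
      · have hwY : w ∈ Y := by
          rcases hw with (h | h) | h
          · exact Or.inl h
          · exact absurd h hwC
          · exact Or.inr h
        have hwX : w ∈ S ∪ A := by
          rcases hwY with (h | h) | h
          · exact Or.inl h.1
          · exact Or.inl h.1.1
          · exact Or.inr h
        exact key w hwX ⟨hwY, hwt'⟩
    · intro z hz
      rcases hXY z hz with h | h
      · rcases hcov (hYT h) with h' | h'
        · exact Or.inr (Or.inl ⟨h, h'⟩)
        · exact Or.inl ⟨h, h'⟩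
      · exact Or.inr (Or.inr h)
    · rintro z ⟨hzY, hzt'⟩ (⟨_, h⟩ | h)
      · have : z ∈ (T ∪ A) ∩ (t ∩ t') := ⟨hYT hzY, h, hzt'⟩
        rw [hem] at this; exact this
      · have : z ∈ (T ∪ A) ∩ (t ∩ t') := ⟨hYT hzY, hCt (hYZ z hzY h), hzt'⟩
        rw [hem] at this; exact this
    · obtain ⟨w, hw, hws⟩ := hne
      exact ⟨w, Or.inl (hZs hw).1, Or.inr hw⟩
  obtain ⟨w0, hw0Z, hw0⟩ := hne
  have hw0C : w0 ∈ C := hsub ⟨hw0Z, hw0⟩
  have hTA : IsConnected (T ∪ A) := by
    refine ⟨⟨w0, Or.inl (Or.inr hw0C)⟩, ?_⟩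
    rw [isPreconnected_closed_iff]
    intro t t' ht ht' hcov h1 h2
    rw [nonempty_iff_ne_empty]
    intro hem
    have hCcov : C ⊆ t ∪ t' := fun z hz => hcov (Or.inl (Or.inr hz))
    by_cases hCt : C ⊆ t
    · exact main t t' ht ht' hcov hem hCt h2
    · rw [not_subset] at hCt
      obtain ⟨p, hpC, hpt⟩ := hCt
      have hpt' : p ∈ t' := (hCcov hpC).resolve_left hpt
      by_cases hCt' : C ⊆ t'
      · exact main t' t ht' ht (hcov.trans (union_comm _ _).le)
          (by rw [inter_comm t' t]; exact hem) hCt' h1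
      · rw [not_subset] at hCt'
        obtain ⟨q, hqC, hqt'⟩ := hCt'
        have hqt : q ∈ t := (hCcov hqC).resolve_right hqt'
        obtain ⟨v, hv⟩ := isPreconnected_closed_iff.1 hCc t t' ht ht' hCcov ⟨q, hqC, hqt⟩
          ⟨p, hpC, hpt'⟩
        have : v ∈ (T ∪ A) ∩ (t ∩ t') := ⟨Or.inl (Or.inr hv.1), hv.2⟩
        rw [hem] at this; exact this
  have hTr : T \ ball x r = S \ ball x r := by
    ext z
    constructor
    · rintro ⟨(h | h) | h, h'⟩
      · exact ⟨h.1, h'⟩
      · exact absurd (hcr h.1.2) h'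
      · exact absurd (hcr (hCb h)) h'
    · rintro ⟨h, h'⟩
      exact ⟨Or.inl (Or.inl ⟨h, fun hh => h' (hbr hh)⟩), h'⟩
  have h1 := L.minim T hTc hTA hTr
  set W := (S ∩ ball x r) \ (Z ∩ ball x ρ) with hW
  have hfin : μH[1] W ≠ ∞ := ne_top_of_le_ne_top L.fin (measure_mono sdiff_subset)
  have h2 : μH[1] W + μH[1] (Z ∩ ball x ρ) ≤ μH[1] (S ∩ ball x r) := by
    rw [← measure_union (μ := μH[1]) _ (hZ.measurableSet.inter measurableSet_ball)]
    · refine measure_mono ?_
      rintro z (h | h)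
      · exact h.1
      · exact ⟨(hZs h.1).1, hbr h.2⟩
    · rw [disjoint_left]
      rintro z h h'
      exact h.2 h'
  have h3 : μH[1] (T ∩ ball x r) ≤ μH[1] W + μH[1] C := by
    refine le_trans (measure_mono ?_) (measure_union_le _ _)
    rintro z ⟨(h | h) | h, h'⟩
    · exact Or.inl ⟨⟨h.1, h'⟩, fun hh => h.2 hh.2⟩
    · exact Or.inl ⟨⟨h.1.1, h'⟩, fun hh => h.2 hh.1⟩
    · exact Or.inr h
  exact (ENNReal.add_le_add_iff_left hfin).1 (h2.trans (h1.trans h3))

/-- spheres around a point of `X` meet `S` as long as `X` leaves the ball -/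
theorem sphere_nonempty (L : LocAdm A S x r) (hA : IsClosed A) {z w : V} (hz : z ∈ S ∪ A)
    (hw : w ∈ S ∪ A) {s : ℝ} (hs : 0 < s) (hsw : s < dist w z) (hsub : closedBall z s ⊆ ball x r) :
    (S ∩ sphere z s).Nonempty := by
  by_contra hcon
  rw [not_nonempty_iff_eq_empty] at hcon
  have hX : IsClosed (S ∪ A) := L.hS.union hA
  have key := not_mem_of_split (X := S ∪ A) (Z := (S ∪ A) ∩ closedBall z s)
    (K := (S ∪ A) \ ball z s) L.conn.isPreconnected (hX.inter isClosed_closedBall)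
    (hX.sdiff isOpen_ball) ?_ ?_ ?_
  · exact key z hz ⟨hz, mem_closedBall_self hs.le⟩
  · intro y hy
    by_cases hb : y ∈ ball z s
    · exact Or.inl ⟨hy, ball_subset_closedBall hb⟩
    · exact Or.inr ⟨hy, hb⟩
  · rintro y ⟨hy, hyc⟩ ⟨_, hyb⟩
    have hys : y ∈ sphere z s := by
      rw [mem_sphere]
      refine le_antisymm (mem_closedBall.1 hyc) ?_
      by_contra hlt
      push Not at hlt
      exact hyb (mem_ball.2 hlt)
    have hyS : y ∈ S := by
      rcases hy with h | h
      · exact h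
      · exact absurd (hsub hyc) (L.far y h)
    have : y ∈ S ∩ sphere z s := ⟨hyS, hys⟩
    rw [hcon] at this; exact this
  · exact ⟨w, hw, hw, fun h => by rw [mem_ball] at h; linarith⟩

/-- a relatively clopen part of `S ∩ closedBall` with at most one point on the sphere is trivial -/
theorem clopen_small (L : LocAdm A S x r) (hA : IsClosed A) {ρ : ℝ} (hρ : ρ < r) {Z : Set V}
    (hZ : IsClosed Z) (hZ' : IsClosed ((S ∩ closedBall x ρ) \ Z)) (hZs : Z ⊆ S ∩ closedBall x ρ)
    {p : V} (hp : p ∈ S ∩ sphere x ρ) (hZp : ∀ q ∈ Z, q ∈ sphere x ρ → q = p) {w : V}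
    (hw : w ∈ Z) (hwb : w ∈ ball x ρ) : False := by
  have hX : IsClosed (S ∪ A) := L.hS.union hA
  have hXc := L.conn.isPreconnected
  have hcr : closedBall x ρ ⊆ ball x r := closedBall_subset_ball hρ
  have hAc : ∀ z ∈ closedBall x ρ, z ∉ A := fun z hz h => L.far z h (hcr hz)
  have hwp : w ≠ p := by
    rintro rfl
    rw [mem_ball] at hwb
    have := mem_sphere.1 hp.2
    linarith
  -- the sphere case analysis
  have onS : ∀ z, z ∈ closedBall x ρ → z ∉ ball x ρ → z ∈ sphere x ρ := by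
    intro z h1 h2
    rw [mem_sphere]
    refine le_antisymm (mem_closedBall.1 h1) ?_
    by_contra hlt
    push Not at hlt
    exact h2 (mem_ball.2 hlt)
  -- every small sphere around w meets Z
  have hsph : ∀ s ∈ Ioo 0 (dist w p), ((1 : ℕ) : ℕ∞) ≤ (Z ∩ sphere w s).encard := by
    intro s hs
    rw [Nat.cast_one, Set.one_le_encard_iff_nonempty]
    by_contra hcon
    rw [not_nonempty_iff_eq_empty] at hcon
    have key := not_mem_of_split (X := S ∪ A) (Z := Z ∩ closedBall w s)
      (K := (((S ∪ A) \ ball x ρ) ∪ ((S ∩ closedBall x ρ) \ Z)) ∪ (Z \ ball w s)) hXc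
      (hZ.inter isClosed_closedBall)
      (((hX.sdiff isOpen_ball).union hZ').union (hZ.sdiff isOpen_ball)) ?_ ?_ ?_
    · exact key w (Or.inl (hZs hw).1) ⟨hw, mem_closedBall_self hs.1.le⟩
    · intro y hy
      by_cases hb : y ∈ ball x ρ
      · have hyS : y ∈ S := by
          rcases hy with h | h
          · exact h
          · exact absurd h (hAc y (ball_subset_closedBall hb))
        by_cases hyZ : y ∈ Z
        · by_cases hyb : y ∈ ball w s
          · exact Or.inl ⟨hyZ, ball_subset_closedBall hyb⟩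
          · exact Or.inr (Or.inr ⟨hyZ, hyb⟩)
        · exact Or.inr (Or.inl (Or.inr ⟨⟨hyS, ball_subset_closedBall hb⟩, hyZ⟩))
      · exact Or.inr (Or.inl (Or.inl ⟨hy, hb⟩))
    · rintro y ⟨hyZ, hyc⟩ ((⟨_, h⟩ | h) | h)
      · have := hZp y hyZ (onS y (hZs hyZ).2 h)
        subst this
        rw [mem_closedBall, dist_comm] at hyc
        linarith [hs.2]
      · exact h.2 hyZ
      · have hys : y ∈ Z ∩ sphere w s := by
          refine ⟨hyZ, ?_⟩
          rw [mem_sphere]
          refine le_antisymm (mem_closedBall.1 hyc) ?_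
          by_contra hlt
          push Not at hlt
          exact h.2 (mem_ball.2 hlt)
        rw [hcon] at hys; exact hys
    · refine ⟨p, Or.inl hp.1, Or.inl (Or.inl ⟨Or.inl hp.1, ?_⟩)⟩
      intro h
      rw [mem_ball] at h
      have := mem_sphere.1 hp.2
      linarith
  have hEil := eilenberg Z w 0 (dist w p) 1 hsph
  have hd : 0 < dist w p := dist_pos.2 hwp
  by_cases hZP : (Z ∩ sphere x ρ).Nonempty
  · -- competitor: the point p
    obtain ⟨q, hqZ, hqs⟩ := hZP
    have hqp := hZp q hqZ hqs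
    subst hqp
    have h0 : μH[1] ({q} : Set V) = 0 := by
      have h1 := hausdorffMeasure_segment q q
      rw [segment_same, edist_self] at h1
      exact h1
    have h1 := L.comp' hA hρ hZ hZ' hZs (C := {q}) isClosed_singleton isPreconnected_singleton
      (by rw [singleton_subset_iff]; exact sphere_subset_closedBall hqs)
      (fun z hz => hZp z hz.1 hz.2) ⟨q, hqZ, hqs⟩
    rw [h0] at h1
    have h2 : μH[1] Z ≤ 0 := by
      have : Z ⊆ (Z ∩ ball x ρ) ∪ {q} := by
        intro z hz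
        by_cases hb : z ∈ ball x ρ
        · exact Or.inl ⟨hz, hb⟩
        · exact Or.inr (hZp z hz (onS z (hZs hz).2 hb))
      calc μH[1] Z ≤ μH[1] ((Z ∩ ball x ρ) ∪ {q}) := measure_mono this
        _ ≤ μH[1] (Z ∩ ball x ρ) + μH[1] {q} := measure_union_le _ _
        _ ≤ 0 := by rw [h0, add_zero]; exact h1
    have h3 := hEil.trans ((measure_mono inter_subset_left).trans h2)
    rw [Nat.cast_one, one_mul, sub_zero, nonpos_iff_eq_zero, ENNReal.ofReal_eq_zero] at h3
    linarith
  · rw [not_nonempty_iff_eq_empty] at hZP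
    have key := not_mem_of_split (X := S ∪ A) (Z := Z)
      (K := ((S ∪ A) \ ball x ρ) ∪ ((S ∩ closedBall x ρ) \ Z)) hXc hZ
      ((hX.sdiff isOpen_ball).union hZ') ?_ ?_ ?_
    · exact key w (Or.inl (hZs hw).1) hw
    · intro y hy
      by_cases hb : y ∈ ball x ρ
      · have hyS : y ∈ S := by
          rcases hy with h | h
          · exact h
          · exact absurd h (hAc y (ball_subset_closedBall hb))
        by_cases hyZ : y ∈ Z
        · exact Or.inl hyZ
        · exact Or.inr (Or.inr ⟨⟨hyS, ball_subset_closedBall hb⟩, hyZ⟩)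
      · exact Or.inr (Or.inl ⟨hy, hb⟩)
    · rintro y hyZ (⟨_, h⟩ | h)
      · have : y ∈ Z ∩ sphere x ρ := ⟨hyZ, onS y (hZs hyZ).2 h⟩
        rw [hZP] at this; exact this
      · exact h.2 hyZ
    · refine ⟨p, Or.inl hp.1, Or.inl ⟨Or.inl hp.1, ?_⟩⟩
      intro h
      rw [mem_ball] at h
      have := mem_sphere.1 hp.2
      linarith

/-- separation of a point from finitely many points outside its component -/
theorem _root_.H11ST.separate [ProperSpace V] {Z : Set V} (hZ : IsCompact Z) {w : V} (hw : w ∈ Z)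
    (Q : Finset V) (hQ : ∀ q ∈ Q, q ∉ connectedComponentIn Z w) :
    ∃ Z' ⊆ Z, IsClosed Z' ∧ IsClosed (Z \ Z') ∧ w ∈ Z' ∧ ∀ q ∈ Q, q ∉ Z' := by
  classical
  haveI : CompactSpace Z := isCompact_iff_compactSpace.1 hZ
  have hcl := hZ.isClosed
  induction Q using Finset.induction_on with
  | empty => exact ⟨Z, Subset.rfl, hcl, by simp, hw, by simp⟩
  | insert a Q ha ih =>
    obtain ⟨Z', hZ'Z, h1, h2, h3, h4⟩ := ih fun q hq => hQ q (Finset.mem_insert_of_mem hq)
    by_cases haZ : a ∈ Z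
    · have haK := hQ a (Finset.mem_insert_self _ _)
      rw [connectedComponentIn_eq_image hw] at haK
      have haK' : (⟨a, haZ⟩ : Z) ∉ connectedComponent (⟨w, hw⟩ : Z) := fun h =>
        haK ⟨_, h, rfl⟩
      rw [connectedComponent_eq_iInter_isClopen, mem_iInter] at haK'
      push Not at haK'
      obtain ⟨⟨s, hs, hws⟩, has⟩ := haK'
      simp only at has
      have hemb : IsClosedEmbedding (Subtype.val : Z → V) := hcl.isClosedEmbedding_subtypeVal
      have c1 : IsClosed (Subtype.val '' s) := hemb.isClosedMap s hs.isClosed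
      have c2 : IsClosed (Subtype.val '' sᶜ) := hemb.isClosedMap _ hs.compl.isClosed
      refine ⟨Z' ∩ Subtype.val '' s, fun z hz => hZ'Z hz.1, h1.inter c1, ?_, ⟨h3, ⟨_, hws, rfl⟩⟩, ?_⟩
      · have : Z \ (Z' ∩ Subtype.val '' s) = (Z \ Z') ∪ Subtype.val '' sᶜ := by
          ext z
          constructor
          · rintro ⟨hz, hz'⟩
            by_cases hzZ' : z ∈ Z'
            · right
              refine ⟨⟨z, hz⟩, fun hzs => hz' ⟨hzZ', ⟨_, hzs, rfl⟩⟩, rfl⟩
            · exact Or.inl ⟨hz, hzZ'⟩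
          · rintro (⟨hz, hz'⟩ | ⟨⟨y, hy⟩, hys, rfl⟩)
            · exact ⟨hz, fun h => hz' h.1⟩
            · refine ⟨hy, fun h => ?_⟩
              obtain ⟨⟨y', hy'⟩, hys', h5⟩ := h.2
              simp only at h5
              subst h5
              exact hys hys'
        rw [this]; exact h2.union c2
      · intro q hq hqZ
        rcases Finset.mem_insert.1 hq with rfl | hq
        · obtain ⟨⟨y', hy'⟩, hys', h5⟩ := hqZ.2
          simp only at h5
          subst h5
          exact has hys'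
        · exact h4 q hq hqZ.1
    · refine ⟨Z', hZ'Z, h1, h2, h3, ?_⟩
      intro q hq hqZ
      rcases Finset.mem_insert.1 hq with rfl | hq
      · exact haZ (hZ'Z hqZ)
      · exact h4 q hq hqZ

/-- the component of a point inside the ball contains two points of the sphere -/
theorem two_on_sphere [ProperSpace V] (L : LocAdm A S x r) (hA : IsClosed A) {ρ : ℝ} (hρ : ρ < r)
    {P : Finset V} (hP : ∀ p, p ∈ P ↔ p ∈ S ∩ sphere x ρ) {w : V} (hw : w ∈ S)
    (hwb : w ∈ ball x ρ) {p : V} (hp : p ∈ P) :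
    ∃ q ∈ P, q ≠ p ∧ q ∈ connectedComponentIn (S ∩ closedBall x ρ) w := by
  classical
  by_contra hcon
  push Not at hcon
  have hZc : IsCompact (S ∩ closedBall x ρ) := (isCompact_closedBall x ρ).inter_left L.hS
  have hwZ : w ∈ S ∩ closedBall x ρ := ⟨hw, ball_subset_closedBall hwb⟩
  obtain ⟨Z', hZ'Z, h1, h2, h3, h4⟩ := separate hZc hwZ (P.erase p) (fun q hq =>
    hcon q (Finset.mem_of_mem_erase hq) (Finset.ne_of_mem_erase hq))
  refine L.clopen_small hA hρ h1 h2 hZ'Z ((hP p).1 hp) ?_ h3 hwb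
  intro q hq hqs
  by_contra hqp
  exact h4 q (Finset.mem_erase.2 ⟨hqp, (hP q).2 ⟨(hZ'Z hq).1, hqs⟩⟩) hq

end LocAdm
end

/-- at small scales there are spheres with at most three points -/
theorem exists_three {d : ℕ} (hd : 1 ≤ d) {A S : Set (E d)} {z : E d} {R : ℝ}
    (L : LocAdm A S z R) (hA : IsClosed A) : ∃ ρ, 0 < ρ ∧ ρ < R ∧ (S ∩ sphere z ρ).encard ≤ 3 := by
  by_contra hcon
  push Not at hcon
  have hR := L.rpos
  have h4 : ∀ ρ, 0 < ρ → ρ < R → ((4 : ℕ) : ℕ∞) ≤ (S ∩ sphere z ρ).encard := by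
    intro ρ h1 h2
    have := Order.add_one_le_of_lt (hcon ρ h1 h2)
    exact_mod_cast this
  obtain ⟨k, hk⟩ := exists_nat_gt (2 * 2 ^ d * Cd d)
  set M : ℝ := 60 * 61 ^ k with hM
  have hMpos : 1 ≤ M := by
    rw [hM]
    have : (1 : ℝ) ≤ 61 ^ k := one_le_pow₀ (by norm_num)
    linarith
  set D := R / (4 * M) with hD
  have hDpos : 0 < D := by positivity
  have hDM : D * M = R / 4 := by rw [hD]; field_simp
  have hDR : D < R := by
    rw [hD, div_lt_iff₀ (by positivity)]; nlinarith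
  have hrad : rad (fun _ => (1 / 60 : ℝ)) D k = D * M := by
    rw [rad_const, hM]
    have : ((1 : ℝ) + 1 / 60) / (1 / 60) = 61 := by norm_num
    rw [this]; ring
  have hphase := phases L (σ := fun _ => (1 / 60 : ℝ)) (M := 4 + k) (fun _ _ _ => by norm_num)
    (fun _ _ _ => by norm_num) (by norm_num) hDpos hDR
    (fun ρ hρ => le_trans (by exact_mod_cast (by norm_num : 3 ≤ 4)) (h4 ρ hρ.1 (hρ.2.trans hDR)))
    (fun ρ hρ => by exact_mod_cast h4 ρ (hDpos.trans hρ.1) hρ.2)
    (fun m hm _ ρ h0 h1 hc => L.len_save hA h0 h1 (fun p q s t hp hq hs ht =>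
      four_points h0 hp hq hs ht) hm hc) k le_rfl (by rw [hrad]; linarith)
  have h5 := hphase.1
  rw [hrad] at h5
  have hDM0 : 0 < D * M := by positivity
  have L2 := L.restrict (x' := z) (r' := 2 * (D * M)) (by positivity)
    (ball_subset_ball (by linarith))
  have h6 := len_bound hd L2 hA hDM0 (by linarith) (fun ρ h7 h8 => by
    rw [← Set.one_le_encard_iff_nonempty]
    exact le_trans (by exact_mod_cast (by norm_num : 1 ≤ 4)) (h4 ρ (by linarith) (by linarith)))
  have e1 : 1 - D * M / (2 * (D * M)) = 1 / 2 := by field_simp; ring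
  rw [e1] at h6
  have h7 : ((4 + k : ℕ) - 1 / 60 : ℝ) * (D * M) ≤ (2 * 2 ^ d * Cd d) * (D * M) := by
    refine h5.trans (h6.trans (le_of_eq ?_))
    rw [div_pow, one_pow]; field_simp
  have h8 := le_of_mul_le_mul_right h7 hDM0
  push_cast at h8
  linarith

end H11ST
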