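import Mathlib
open MeasureTheory Metric Set Filter Topology
open scoped ENNReal NNReal

namespace H11ST
set_option linter.unusedSectionVars false
variable {V : Type*} [NormedAddCommGroup V] [InnerProductSpace ℝ V]

theorem not_mem_of_split {X Z K : Set V} (hX : IsPreconnected X) (hZ : IsClosed Z)
    (hK : IsClosed K) (hcov : X ⊆ Z ∪ K) (hd : ∀ z, z ∈ Z → z ∈ K → False)
    (hx : (X ∩ K).Nonempty) : ∀ z ∈ X, z ∉ Z := by
  intro z hzX hzZ
  obtain ⟨w, hw⟩ := isPreconnected_closed_iff.1 hX Z K hZ hK hcov ⟨z, hzX, hzZ⟩ hx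
  exact hd w hw.2.1 hw.2.2

/-- Inside `ball y ε` the set `X` is the union of three segments issuing from `y`, with unit
directions `u 0, u 1, u 2` that meet pairwise at the angle `2π/3`. -/
structure Tri (X : Set V) (y : V) (u : Fin 3 → V) (ε : ℝ) : Prop where
  pos : 0 < ε
  norm : ∀ i, ‖u i‖ = 1
  ang : ∀ i j, i ≠ j → inner ℝ (u i) (u j) = -(1 / 2 : ℝ)
  eq : X ∩ ball y ε = {z | ∃ i, ∃ s : ℝ, 0 ≤ s ∧ s < ε ∧ z = y + s • u i}

/-- the removed ball -/
def rb (y : V) (u : Fin 3 → V) (ε : ℝ) (i : Fin 3) : Set V := ball (y + (ε / 2) • u i) (ε / 4)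

/-- arm -/
def arm (y : V) (v : V) (a b : ℝ) : Set V := (fun s : ℝ => y + s • v) '' Icc a b

theorem arm_closed (y v : V) (a b : ℝ) : IsClosed (arm y v a b) :=
  (isCompact_Icc.image (by fun_prop)).isClosed

theorem arm_preconn (y v : V) (a b : ℝ) : IsPreconnected (arm y v a b) :=
  isPreconnected_Icc.image _ (Continuous.continuousOn (by fun_prop))

namespace Tri
variable {X : Set V} {y : V} {u : Fin 3 → V} {ε : ℝ}

theorem mono (T : Tri X y u ε) {ε' : ℝ} (h0 : 0 < ε') (h : ε' ≤ ε) : Tri X y u ε' := by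
  refine ⟨h0, T.norm, T.ang, ?_⟩
  ext z
  constructor
  · rintro ⟨hz, hb⟩
    have : z ∈ X ∩ ball y ε := ⟨hz, ball_subset_ball h hb⟩
    rw [T.eq] at this
    obtain ⟨i, s, hs0, hs1, rfl⟩ := this
    refine ⟨i, s, hs0, ?_, rfl⟩
    rw [mem_ball, dist_eq_norm] at hb
    simpa [norm_smul, T.norm i, abs_of_nonneg hs0] using hb
  · rintro ⟨i, s, hs0, hs1, rfl⟩
    have : y + s • u i ∈ X ∩ ball y ε := by
      rw [T.eq]; exact ⟨i, s, hs0, lt_of_lt_of_le hs1 h, rfl⟩
    refine ⟨this.1, ?_⟩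
    rw [mem_ball, dist_eq_norm]
    simpa [norm_smul, T.norm i, abs_of_nonneg hs0] using hs1

theorem mem (T : Tri X y u ε) {i : Fin 3} {s : ℝ} (h0 : 0 ≤ s) (h1 : s < ε) : y + s • u i ∈ X := by
  have : y + s • u i ∈ X ∩ ball y ε := by rw [T.eq]; exact ⟨i, s, h0, h1, rfl⟩
  exact this.1

theorem y_mem (T : Tri X y u ε) : y ∈ X := by
  have := T.mem (i := 0) (s := 0) le_rfl T.pos
  simpa using this

theorem dist_arm (T : Tri X y u ε) {i : Fin 3} {s : ℝ} : dist (y + s • u i) y = |s| := by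
  rw [dist_eq_norm]; simp [norm_smul, T.norm i]

theorem dist_same (T : Tri X y u ε) {i : Fin 3} {s t : ℝ} :
    dist (y + s • u i) (y + t • u i) = |s - t| := by
  rw [dist_eq_norm]
  have : y + s • u i - (y + t • u i) = (s - t) • u i := by rw [sub_smul]; abel
  rw [this, norm_smul, T.norm i]; simp

theorem dist_other (T : Tri X y u ε) {i j : Fin 3} (h : i ≠ j) {s : ℝ} (hs : 0 ≤ s) :
    ε / 2 ≤ dist (y + s • u j) (y + (ε / 2) • u i) := by
  rw [dist_eq_norm]
  have e1 : y + s • u j - (y + (ε / 2) • u i) = s • u j - (ε / 2) • u i := by abel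
  rw [e1]
  have h2 : ‖s • u j - (ε / 2) • u i‖ ^ 2 = s ^ 2 + s * (ε / 2) + (ε / 2) ^ 2 := by
    rw [norm_sub_sq_real, norm_smul, norm_smul, T.norm i, T.norm j, inner_smul_left,
      inner_smul_right, T.ang j i (Ne.symm h)]
    simp only [Real.norm_eq_abs, mul_one, sq_abs, conj_trivial]
    ring
  have hε := T.pos
  have h3 : (ε / 2) ^ 2 ≤ ‖s • u j - (ε / 2) • u i‖ ^ 2 := by rw [h2]; nlinarith
  exact le_of_sq_le_sq h3 (norm_nonneg _) |> fun h => h

theorem rb_subset (T : Tri X y u ε) (i : Fin 3) : rb y u ε i ⊆ ball y (3 * ε / 4) := by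
  intro z hz
  rw [rb, mem_ball] at hz
  rw [mem_ball]
  have h1 : dist (y + (ε / 2) • u i) y = |ε / 2| := T.dist_arm
  rw [abs_of_pos (by linarith [T.pos])] at h1
  linarith [dist_triangle z (y + (ε / 2) • u i) y]

theorem ball_cases (T : Tri X y u ε) {i : Fin 3} {z : V} (hz : z ∈ X) (hb : z ∈ rb y u ε i) :
    ∃ s : ℝ, ε / 4 < s ∧ s < 3 * ε / 4 ∧ z = y + s • u i := by
  have hε := T.pos
  have : z ∈ X ∩ ball y ε := ⟨hz, ball_subset_ball (by linarith) (T.rb_subset i hb)⟩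
  rw [T.eq] at this
  obtain ⟨j, s, h0, h1, rfl⟩ := this
  rw [rb, mem_ball] at hb
  by_cases hij : i = j
  · subst hij
    rw [T.dist_same, abs_lt] at hb
    exact ⟨s, by linarith [hb.1], by linarith [hb.2], rfl⟩
  · exact absurd (T.dist_other hij h0) (by linarith)

theorem other_not_rb (T : Tri X y u ε) {i j : Fin 3} (h : i ≠ j) {s : ℝ} (hs : 0 ≤ s) :
    y + s • u j ∉ rb y u ε i := by
  intro hb
  rw [rb, mem_ball] at hb
  have := T.dist_other h hs
  linarith [T.pos]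

theorem low_not_rb (T : Tri X y u ε) {i : Fin 3} {s : ℝ} (hs : s ≤ ε / 4) :
    y + s • u i ∉ rb y u ε i := by
  intro hb
  rw [rb, mem_ball, T.dist_same, abs_lt] at hb
  linarith [hb.1]

theorem high_not_rb (T : Tri X y u ε) {i : Fin 3} {s : ℝ} (hs : 3 * ε / 4 ≤ s) :
    y + s • u i ∉ rb y u ε i := by
  intro hb
  rw [rb, mem_ball, T.dist_same, abs_lt] at hb
  linarith [hb.2]

theorem mid_rb (T : Tri X y u ε) {i : Fin 3} {s : ℝ} (h1 : ε / 4 < s) (h2 : s < 3 * ε / 4) :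
    y + s • u i ∈ rb y u ε i := by
  rw [rb, mem_ball, T.dist_same, abs_lt]
  constructor <;> linarith

theorem y_not_rb (T : Tri X y u ε) {i : Fin 3} : y ∉ rb y u ε i := by
  have := T.low_not_rb (i := i) (s := 0) (by linarith [T.pos])
  simpa using this

end Tri

/-- A separation of `X` minus the removed ball. -/
structure Cut (X : Set V) (y : V) (u : Fin 3 → V) (ε : ℝ) (i : Fin 3) (U W : Set V) : Prop where
  hU : IsClosed U
  hW : IsClosed W
  cov : X \ rb y u ε i = U ∪ W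
  disj : ∀ z, z ∈ U → z ∈ W → False
  a_mem : y + (ε / 4) • u i ∈ U
  e_mem : y + (3 * ε / 4) • u i ∈ W

section
variable {X : Set V} {y : V} {u : Fin 3 → V} {ε : ℝ} {i : Fin 3}

theorem no_both (hXc : IsPreconnected X) (T : Tri X y u ε) {P Q : Set V}
    (hP : IsClosed P) (hQ : IsClosed Q) (hcov : X \ rb y u ε i ⊆ P ∪ Q)
    (hQX : Q ⊆ X \ rb y u ε i)
    (hd : ∀ z, z ∈ P → z ∈ Q → False) (ha : y + (ε / 4) • u i ∈ P)
    (he : y + (3 * ε / 4) • u i ∈ P) : ∀ z ∈ X, z ∉ Q := by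
  have hε := T.pos
  refine not_mem_of_split (K := P ∪ arm y (u i) (ε / 4) (3 * ε / 4)) hXc hQ
    (hP.union (arm_closed _ _ _ _)) ?_ ?_ ?_
  · intro z hz
    by_cases hb : z ∈ rb y u ε i
    · obtain ⟨s, h1, h2, rfl⟩ := T.ball_cases hz hb
      exact Or.inr (Or.inr ⟨s, ⟨h1.le, h2.le⟩, rfl⟩)
    · rcases hcov ⟨hz, hb⟩ with h | h
      · exact Or.inr (Or.inl h)
      · exact Or.inl h
  · rintro z hz (h | ⟨s, ⟨h1, h2⟩, rfl⟩)
    · exact hd z h hz
    · rcases eq_or_lt_of_le h1 with h1 | h1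
      · subst h1; exact hd _ ha hz
      · rcases eq_or_lt_of_le h2 with h2 | h2
        · subst h2; exact hd _ he hz
        · exact (hQX hz).2 (T.mid_rb h1 h2)
  · exact ⟨_, T.mem (i := i) (s := ε / 4) (by linarith) (by linarith), Or.inl ha⟩

theorem cut_exists (hX : IsClosed X) (hXc : IsPreconnected X) (T : Tri X y u ε)
    (hn : ¬ IsPreconnected (X \ rb y u ε i)) : ∃ U W, Cut X y u ε i U W := by
  have hε := T.pos
  rw [isPreconnected_closed_iff] at hn
  push Not at hn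
  obtain ⟨t, t', ht, ht', hcov, h1, h2, h3⟩ := hn
  have hXb : IsClosed (X \ rb y u ε i) := hX.sdiff isOpen_ball
  set P := (X \ rb y u ε i) ∩ t with hPdef
  set Q := (X \ rb y u ε i) ∩ t' with hQdef
  have hP : IsClosed P := hXb.inter ht
  have hQ : IsClosed Q := hXb.inter ht'
  have hPQ : X \ rb y u ε i = P ∪ Q := by
    rw [hPdef, hQdef, ← inter_union_distrib_left]
    exact (inter_eq_left.2 hcov).symm
  have hd : ∀ z, z ∈ P → z ∈ Q → False := by
    intro z hz hz'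
    have : z ∈ (X \ rb y u ε i) ∩ (t ∩ t') := ⟨hz.1, hz.2, hz'.2⟩
    rw [h3] at this
    exact this
  have ha : y + (ε / 4) • u i ∈ X \ rb y u ε i :=
    ⟨T.mem (by linarith) (by linarith), T.low_not_rb le_rfl⟩
  have he : y + (3 * ε / 4) • u i ∈ X \ rb y u ε i :=
    ⟨T.mem (by linarith) (by linarith), T.high_not_rb le_rfl⟩
  rw [hPQ] at ha he
  rcases ha with ha | ha <;> rcases he with he | he
  · exfalso
    obtain ⟨z, hz⟩ := h2
    exact no_both hXc T hP hQ hPQ.le (by rw [hPQ]; exact subset_union_right) hd ha he z hz.1.1 hz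
  · exact ⟨P, Q, hP, hQ, hPQ, hd, ha, he⟩
  · exact ⟨Q, P, hQ, hP, by rw [hPQ, union_comm], fun z a b => hd z b a, ha, he⟩
  · exfalso
    obtain ⟨z, hz⟩ := h1
    exact no_both hXc T hQ hP (by rw [hPQ, union_comm]) (by rw [hPQ]; exact subset_union_left)
      (fun z a b => hd z b a) ha he z hz.1.1 hz

namespace Cut
variable {U W : Set V}

theorem U_sub (C : Cut X y u ε i U W) : U ⊆ X \ rb y u ε i := by rw [C.cov]; exact subset_union_left

theorem W_sub (C : Cut X y u ε i U W) : W ⊆ X \ rb y u ε i := by rw [C.cov]; exact subset_union_right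

theorem cases (C : Cut X y u ε i U W) {z : V} (hz : z ∈ X) (hb : z ∉ rb y u ε i) :
    z ∈ U ∨ z ∈ W := by
  have : z ∈ X \ rb y u ε i := ⟨hz, hb⟩
  rw [C.cov] at this
  exact this

theorem in_U (C : Cut X y u ε i U W) {I : Set V} (hI : IsPreconnected I)
    (hIX : I ⊆ X \ rb y u ε i) {p : V} (hp : p ∈ I) (hpU : p ∈ U) : I ⊆ U := by
  intro z hz
  by_contra hzU
  have hzW : z ∈ W := by
    rcases C.cases (hIX hz).1 (hIX hz).2 with h | h
    · exact absurd h hzU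
    · exact h
  obtain ⟨w, hw⟩ := isPreconnected_closed_iff.1 hI U W C.hU C.hW (by rw [← C.cov]; exact hIX)
    ⟨p, hp, hpU⟩ ⟨z, hz, hzW⟩
  exact C.disj w hw.2.1 hw.2.2

theorem in_W (C : Cut X y u ε i U W) {I : Set V} (hI : IsPreconnected I)
    (hIX : I ⊆ X \ rb y u ε i) {p : V} (hp : p ∈ I) (hpW : p ∈ W) : I ⊆ W := by
  intro z hz
  by_contra hzW
  have hzU : z ∈ U := by
    rcases C.cases (hIX hz).1 (hIX hz).2 with h | h
    · exact h
    · exact absurd h hzW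
  obtain ⟨w, hw⟩ := isPreconnected_closed_iff.1 hI U W C.hU C.hW (by rw [← C.cov]; exact hIX)
    ⟨z, hz, hzU⟩ ⟨p, hp, hpW⟩
  exact C.disj w hw.2.1 hw.2.2

/-- the segment from `y` to the near end of the removed piece lies in `U` -/
theorem y_mem (C : Cut X y u ε i U W) (T : Tri X y u ε) : y ∈ U := by
  have hε := T.pos
  have h := C.in_U (I := arm y (u i) 0 (ε / 4)) (arm_preconn _ _ _ _) (by
    rintro z ⟨s, ⟨h1, h2⟩, rfl⟩
    exact ⟨T.mem h1 (by linarith), T.low_not_rb h2⟩) (p := y + (ε / 4) • u i)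
    ⟨ε / 4, ⟨by linarith, le_rfl⟩, rfl⟩ C.a_mem
  exact h ⟨0, ⟨le_rfl, by linarith⟩, by simp⟩

theorem y_not (C : Cut X y u ε i U W) (T : Tri X y u ε) : y ∉ W :=
  fun h => C.disj y (C.y_mem T) h

/-- the other arms lie in `U` -/
theorem other_arm (C : Cut X y u ε i U W) (T : Tri X y u ε) {j : Fin 3} (hij : i ≠ j) :
    arm y (u j) 0 (3 * ε / 4) ⊆ U := by
  have hε := T.pos
  refine C.in_U (arm_preconn _ _ _ _) ?_ (p := y) ⟨0, ⟨le_rfl, by linarith⟩, by simp⟩ (C.y_mem T)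
  rintro z ⟨s, ⟨h1, h2⟩, rfl⟩
  exact ⟨T.mem h1 (by linarith), T.other_not_rb hij h1⟩

end Cut

/-- the far sides of different arms are disjoint -/
theorem disj_same (hXc : IsPreconnected X) (T : Tri X y u ε) {j : Fin 3} (hij : i ≠ j)
    {U W U' W' : Set V} (C : Cut X y u ε i U W) (C' : Cut X y u ε j U' W') :
    ∀ z, z ∈ W → z ∈ W' → False := by
  have hε := T.pos
  have key := not_mem_of_split (X := X) (Z := W ∩ W')
    (K := (U ∪ arm y (u i) (ε / 4) (3 * ε / 4)) ∪ (U' ∪ arm y (u j) (ε / 4) (3 * ε / 4))) hXc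
    (C.hW.inter C'.hW)
    ((C.hU.union (arm_closed _ _ _ _)).union (C'.hU.union (arm_closed _ _ _ _))) ?_ ?_ ?_
  · intro z hz hz'
    exact key z (C.W_sub hz).1 ⟨hz, hz'⟩
  · intro z hz
    by_cases hb : z ∈ rb y u ε i
    · obtain ⟨s, h1, h2, rfl⟩ := T.ball_cases hz hb
      exact Or.inr (Or.inl (Or.inr ⟨s, ⟨h1.le, h2.le⟩, rfl⟩))
    by_cases hb' : z ∈ rb y u ε j
    · obtain ⟨s, h1, h2, rfl⟩ := T.ball_cases hz hb'
      exact Or.inr (Or.inr (Or.inr ⟨s, ⟨h1.le, h2.le⟩, rfl⟩))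
    rcases C.cases hz hb with h | h
    · exact Or.inr (Or.inl (Or.inl h))
    rcases C'.cases hz hb' with h' | h'
    · exact Or.inr (Or.inr (Or.inl h'))
    · exact Or.inl ⟨h, h'⟩
  · rintro z ⟨hz, hz'⟩ ((h | ⟨s, ⟨h1, h2⟩, rfl⟩) | (h | ⟨s, ⟨h1, h2⟩, rfl⟩))
    · exact C.disj z h hz
    · exact C'.disj _ (C'.other_arm T (Ne.symm hij) ⟨s, ⟨by linarith, h2⟩, rfl⟩) hz'
    · exact C'.disj z h hz'
    · exact C.disj _ (C.other_arm T hij ⟨s, ⟨by linarith, h2⟩, rfl⟩) hz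
  · exact ⟨y, T.y_mem, Or.inl (Or.inl (C.y_mem T))⟩

/-- every point of `X` outside the small ball lies on the far side of some arm -/
theorem exists_side (hX : IsClosed X) (hXc : IsPreconnected X) (T : Tri X y u ε)
    {U W : Fin 3 → Set V} (C : ∀ i, Cut X y u ε i (U i) (W i)) {z : V} (hz : z ∈ X)
    (hzy : z ∉ ball y ε) : ∃ i, z ∈ W i := by
  have hε := T.pos
  by_contra hcon
  push Not at hcon
  have hzb : z ∉ ball y (3 * ε / 4) := fun h => hzy (ball_subset_ball (by linarith) h)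
  have key := not_mem_of_split (X := X)
    (Z := (X \ ball y (3 * ε / 4)) ∩ ⋂ i, U i)
    (K := ⋃ i, (arm y (u i) 0 (3 * ε / 4) ∪ W i)) hXc
    ((hX.sdiff isOpen_ball).inter (isClosed_iInter fun i => (C i).hU))
    (isClosed_iUnion_of_finite fun i => (arm_closed _ _ _ _).union (C i).hW) ?_ ?_ ?_
  · refine key z hz ⟨⟨hz, hzb⟩, ?_⟩
    rw [mem_iInter]
    intro i
    rcases (C i).cases hz (fun h => hzb (T.rb_subset i h)) with h | h
    · exact h
    · exact absurd h (hcon i)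
  · intro w hw
    by_cases hb : w ∈ ball y (3 * ε / 4)
    · have : w ∈ X ∩ ball y ε := ⟨hw, ball_subset_ball (by linarith) hb⟩
      rw [T.eq] at this
      obtain ⟨i, s, h0, h1, rfl⟩ := this
      rw [mem_ball, T.dist_arm, abs_of_nonneg h0] at hb
      exact Or.inr (mem_iUnion.2 ⟨i, Or.inl ⟨s, ⟨h0, hb.le⟩, rfl⟩⟩)
    · by_cases hW : ∃ i, w ∈ W i
      · obtain ⟨i, hi⟩ := hW
        exact Or.inr (mem_iUnion.2 ⟨i, Or.inr hi⟩)
      · push Not at hW
        refine Or.inl ⟨⟨hw, hb⟩, mem_iInter.2 fun i => ?_⟩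
        rcases (C i).cases hw (fun h => hb (T.rb_subset i h)) with h | h
        · exact h
        · exact absurd h (hW i)
  · rintro w ⟨⟨_, hwb⟩, hwU⟩ hwK
    rw [mem_iUnion] at hwK
    rw [mem_iInter] at hwU
    obtain ⟨i, ⟨s, ⟨h1, h2⟩, rfl⟩ | h⟩ := hwK
    · have : s = 3 * ε / 4 := by
        refine le_antisymm h2 ?_
        by_contra hlt
        push Not at hlt
        exact hwb (by rw [mem_ball]; show dist (y + s • u i) y < _; rw [T.dist_arm, abs_of_nonneg h1]; exact hlt)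
      subst this
      exact (C i).disj _ (hwU i) (C i).e_mem
    · exact (C i).disj _ (hwU i) h
  · exact ⟨y, T.y_mem, mem_iUnion.2 ⟨0, Or.inl ⟨0, ⟨le_rfl, by linarith⟩, by simp⟩⟩⟩

/-- nesting of far sides -/
theorem nest (hXc : IsPreconnected X) {y' : V} {u' : Fin 3 → V} (T : Tri X y u ε)
    (T' : Tri X y' u' ε) (hbb : Disjoint (ball y ε) (ball y' ε)) {i' l : Fin 3}
    {U W U' W' : Set V} (C : Cut X y u ε l U W) (C' : Cut X y' u' ε i' U' W')
    (hy : y ∉ W') (hy' : y' ∈ W) : W' ⊆ W := by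
  have hε := T.pos
  have hyX := T.y_mem
  have sub : arm y (u l) 0 (3 * ε / 4) ⊆ ball y ε := by
    rintro z ⟨s, ⟨h1, h2⟩, rfl⟩
    rw [mem_ball]; show dist (y + s • u l) y < _; rw [T.dist_arm, abs_of_nonneg h1]; linarith
  have sub' : arm y' (u' i') 0 (3 * ε / 4) ⊆ ball y' ε := by
    rintro z ⟨s, ⟨h1, h2⟩, rfl⟩
    rw [mem_ball]; show dist (y' + s • u' i') y' < _; rw [T'.dist_arm, abs_of_nonneg h1]; linarith
  have rbs : rb y u ε l ⊆ ball y ε := (T.rb_subset l).trans (ball_subset_ball (by linarith))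
  have rbs' : rb y' u' ε i' ⊆ ball y' ε := (T'.rb_subset i').trans (ball_subset_ball (by linarith))
  have hyb' : y ∉ rb y' u' ε i' := fun h =>
    disjoint_left.1 hbb (mem_ball_self hε) (rbs' h)
  have hyU' : y ∈ U' := by
    rcases C'.cases hyX hyb' with h | h
    · exact h
    · exact absurd h hy
  have armU' : arm y (u l) 0 (3 * ε / 4) ⊆ U' := by
    refine C'.in_U (arm_preconn _ _ _ _) ?_ (p := y) ⟨0, ⟨le_rfl, by linarith⟩, by simp⟩ hyU'
    rintro z hz
    refine ⟨?_, fun h => disjoint_left.1 hbb (sub hz) (rbs' h)⟩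
    obtain ⟨s, ⟨h1, h2⟩, rfl⟩ := hz
    exact T.mem h1 (by linarith)
  have armW : arm y' (u' i') 0 (3 * ε / 4) ⊆ W := by
    refine C.in_W (arm_preconn _ _ _ _) ?_ (p := y') ⟨0, ⟨le_rfl, by linarith⟩, by simp⟩ hy'
    rintro z hz
    refine ⟨?_, fun h => disjoint_left.1 hbb (rbs h) (sub' hz)⟩
    obtain ⟨s, ⟨h1, h2⟩, rfl⟩ := hz
    exact T'.mem h1 (by linarith)
  have W'side : ∀ z ∈ W', z ∈ U ∨ z ∈ W := by
    intro z hz
    refine C.cases (C'.W_sub hz).1 ?_
    intro hb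
    obtain ⟨s, h1, h2, rfl⟩ := T.ball_cases (C'.W_sub hz).1 hb
    exact C'.disj _ (armU' ⟨s, ⟨by linarith, h2.le⟩, rfl⟩) hz
  have key := not_mem_of_split (X := X) (Z := W' ∩ U)
    (K := (U' ∪ arm y' (u' i') (ε / 4) (3 * ε / 4)) ∪ W) hXc (C'.hW.inter C.hU)
    ((C'.hU.union (arm_closed _ _ _ _)).union C.hW) ?_ ?_ ?_
  · intro z hz
    rcases W'side z hz with h | h
    · exact absurd ⟨hz, h⟩ (key z (C'.W_sub hz).1)
    · exact h
  · intro z hz
    by_cases hb : z ∈ rb y' u' ε i'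
    · obtain ⟨s, h1, h2, rfl⟩ := T'.ball_cases hz hb
      exact Or.inr (Or.inl (Or.inr ⟨s, ⟨h1.le, h2.le⟩, rfl⟩))
    rcases C'.cases hz hb with h | h
    · exact Or.inr (Or.inl (Or.inl h))
    · rcases W'side z h with h' | h'
      · exact Or.inl ⟨h, h'⟩
      · exact Or.inr (Or.inr h')
  · rintro z ⟨hz, hz'⟩ ((h | ⟨s, ⟨h1, h2⟩, rfl⟩) | h)
    · exact C'.disj z h hz
    · exact C.disj _ hz' (armW ⟨s, ⟨by linarith, h2⟩, rfl⟩)
    · exact C.disj z hz' h
  · exact ⟨y, hyX, Or.inl (Or.inl hyU')⟩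

/-- if `U` is connected: removing the far side leaves a connected set -/
theorem U_preconn (hXc : IsPreconnected X) (T : Tri X y u ε) {U W : Set V}
    (C : Cut X y u ε i U W) : IsPreconnected U := by
  have hε := T.pos
  rw [isPreconnected_closed_iff]
  have main : ∀ t t' : Set V, IsClosed t → IsClosed t' → U ⊆ t ∪ t' → (U ∩ (t ∩ t')) = ∅ →
      y + (ε / 4) • u i ∈ t → (U ∩ t').Nonempty → False := by
    intro t t' ht ht' hcov hem hat hne
    obtain ⟨z, hz⟩ := hne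
    have key := not_mem_of_split (X := X) (Z := U ∩ t')
      (K := ((U ∩ t) ∪ arm y (u i) (ε / 4) (3 * ε / 4)) ∪ W) hXc (C.hU.inter ht')
      (((C.hU.inter ht).union (arm_closed _ _ _ _)).union C.hW) ?_ ?_ ?_
    · exact key z (C.U_sub hz.1).1 hz
    · intro w hw
      by_cases hb : w ∈ rb y u ε i
      · obtain ⟨s, h1, h2, rfl⟩ := T.ball_cases hw hb
        exact Or.inr (Or.inl (Or.inr ⟨s, ⟨h1.le, h2.le⟩, rfl⟩))
      rcases C.cases hw hb with h | h
      · rcases hcov h with h' | h'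
        · exact Or.inr (Or.inl (Or.inl ⟨h, h'⟩))
        · exact Or.inl ⟨h, h'⟩
      · exact Or.inr (Or.inr h)
    · rintro w ⟨hw, hw'⟩ ((h | ⟨s, ⟨h1, h2⟩, rfl⟩) | h)
      · have : w ∈ U ∩ (t ∩ t') := ⟨hw, h.2, hw'⟩
        rw [hem] at this; exact this
      · rcases eq_or_lt_of_le h1 with h1 | h1
        · subst h1
          have : y + (ε / 4) • u i ∈ U ∩ (t ∩ t') := ⟨hw, hat, hw'⟩
          rw [hem] at this; exact this
        · rcases eq_or_lt_of_le h2 with h2 | h2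
          · subst h2; exact C.disj _ hw C.e_mem
          · exact (C.U_sub hw).2 (T.mid_rb h1 h2)
      · exact C.disj w hw h
    · exact ⟨_, T.mem (i := i) (s := ε / 4) (by linarith) (by linarith),
        Or.inl (Or.inl ⟨C.a_mem, hat⟩)⟩
  intro t t' ht ht' hcov h1 h2
  rw [nonempty_iff_ne_empty]
  intro hem
  rcases hcov C.a_mem with h | h
  · exact main t t' ht ht' hcov hem h h2
  · exact main t' t ht' ht (by rw [union_comm]; exact hcov) (by rw [inter_comm t' t]; exact hem) h h1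

/-- a far side that does not meet the sphere lies in the ball -/
theorem W_in_ball (hXc : IsPreconnected X) (T : Tri X y u ε) {U W : Set V}
    (C : Cut X y u ε i U W) {x : V} {ρ : ℝ} (hyb : ball y ε ⊆ ball x ρ)
    (hW : ∀ z ∈ W, z ∉ sphere x ρ) : W ⊆ ball x ρ := by
  have hε := T.pos
  have key := not_mem_of_split (X := X) (Z := W \ ball x ρ)
    (K := (U ∪ arm y (u i) (ε / 4) (3 * ε / 4)) ∪ (W ∩ closedBall x ρ)) hXc
    (C.hW.sdiff isOpen_ball)
    ((C.hU.union (arm_closed _ _ _ _)).union (C.hW.inter isClosed_closedBall)) ?_ ?_ ?_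
  · intro z hz
    by_contra hb
    exact key z (C.W_sub hz).1 ⟨hz, hb⟩
  · intro z hz
    by_cases hb : z ∈ rb y u ε i
    · obtain ⟨s, h1, h2, rfl⟩ := T.ball_cases hz hb
      exact Or.inr (Or.inl (Or.inr ⟨s, ⟨h1.le, h2.le⟩, rfl⟩))
    rcases C.cases hz hb with h | h
    · exact Or.inr (Or.inl (Or.inl h))
    · by_cases hb2 : z ∈ ball x ρ
      · exact Or.inr (Or.inr ⟨h, ball_subset_closedBall hb2⟩)
      · exact Or.inl ⟨h, hb2⟩
  · rintro z ⟨hz, hz'⟩ ((h | ⟨s, ⟨h1, h2⟩, rfl⟩) | h)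
    · exact C.disj z h hz
    · refine hz' (hyb ?_)
      rw [mem_ball]; show dist (y + s • u i) y < _
      rw [T.dist_arm, abs_of_nonneg (by linarith)]; linarith
    · refine hW z hz ?_
      rw [mem_sphere]
      refine le_antisymm (mem_closedBall.1 h.2) ?_
      by_contra hlt
      push Not at hlt
      exact hz' (mem_ball.2 hlt)
  · exact ⟨y, T.y_mem, Or.inl (Or.inl (C.y_mem T))⟩

end
end H11ST
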