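import Pool.Agent.H11ST.St3
open MeasureTheory Metric Set Filter Topology Real
open scoped ENNReal NNReal

namespace H11ST
set_option linter.unusedSectionVars false

theorem lb (d : ℕ) (hd : 3 ≤ d) (hnet : ST_NET d) : ST_LB d := by
  obtain ⟨C, hC, hnet⟩ := hnet
  set Q : ℝ := 2 ^ (d - 2) with hQ
  have hQ1 : 1 ≤ Q := one_le_pow₀ (by norm_num)
  refine ⟨4 * C ^ 2 * (3 * C * Q + 2) ^ (2 * (d - 2)), by positivity, ?_⟩
  intro A S x r L hA G a ha har hne
  have hr : 0 < r := ha.trans har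
  have hmono : ∀ u v : ℝ, u ≤ v → v ≤ r → len S x u ≤ len S x v := by
    intro u v h1 h2
    exact ENNReal.toReal_mono (L.len_fin h2) (measure_mono (inter_subset_inter_right _
      (ball_subset_ball h1)))
  -- many strands
  have many : ∀ (K : ℕ), 1 ≤ K → ∀ ρ, a ≤ ρ → ρ < r →
      2 * C * r * (K : ℝ) ^ (d - 2) ≤ len S x ρ → ((K ^ (d - 1) : ℕ) : ℕ∞) ≤
        (S ∩ sphere x ρ).encard := by
    intro K hK ρ h1 h2 h3
    by_cases hfin : (S ∩ sphere x ρ).Finite
    · set P := hfin.toFinset with hP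
      have hPm : ∀ p, p ∈ P ↔ p ∈ S ∩ sphere x ρ := fun p => hfin.mem_toFinset
      have hρ0 : 0 < ρ := ha.trans_le h1
      obtain ⟨D, c, hS, hPD, hc⟩ := hnet x ρ hρ0 K hK P (fun p hp => ((hPm p).1 hp).2)
      have h4 := L.len_comp hA h2 hS.closed hS.conn hS.sub (fun p hp => hPD p ((hPm p).2 hp))
        (hne ρ h1 h2) hS.nonneg hS.len
      have hKpos : (0 : ℝ) < K := by exact_mod_cast hK
      have h5 : 2 * C * r * (K : ℝ) ^ (d - 2) ≤ C * r * ((K : ℝ) ^ (d - 2) + P.card / K) := by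
        refine h3.trans (h4.trans (hc.trans ?_))
        have : 0 ≤ (K : ℝ) ^ (d - 2) + P.card / K := by positivity
        have h6 : C * ρ ≤ C * r := mul_le_mul_of_nonneg_left h2.le hC.le
        exact mul_le_mul_of_nonneg_right h6 this
      have h6 : (K : ℝ) ^ (d - 2) ≤ P.card / K := by
        have h7 : C * r * (2 * (K : ℝ) ^ (d - 2)) ≤ C * r * ((K : ℝ) ^ (d - 2) + P.card / K) := by
          linarith
        have h8 := le_of_mul_le_mul_left h7 (by positivity)
        linarith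
      rw [le_div_iff₀ hKpos] at h6
      have h9 : (K : ℝ) ^ (d - 1) ≤ P.card := by
        have : d - 1 = d - 2 + 1 := by omega
        rw [this, pow_succ]; exact h6
      have h10 : K ^ (d - 1) ≤ P.card := by exact_mod_cast h9
      rw [hfin.encard_eq_coe_toFinset_card]
      exact_mod_cast h10
    · rw [Set.Infinite.encard_eq hfin]; exact le_top
  -- the key bound
  have key : ∀ K : ℕ, 1 ≤ K → (16 / 3) * (C ^ 2 * Q ^ 2 * r ^ 2 / K ^ 2) < r ^ 2 - a ^ 2 →
      len S x a < 2 * C * r * (K : ℝ) ^ (d - 2) := by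
    intro K hK hKa
    by_contra hcon
    push Not at hcon
    have hKpos : (0 : ℝ) < K := by exact_mod_cast hK
    set X := C ^ 2 * Q ^ 2 * r ^ 2 / K ^ 2 with hX
    have hX0 : 0 < X := by positivity
    set w : ℕ → ℝ := fun j => a ^ 2 + (16 / 3) * X * (1 - (1 / 4) ^ j) with hw
    have hw0 : ∀ j, a ^ 2 ≤ w j := by
      intro j
      have : ((1 : ℝ) / 4) ^ j ≤ 1 := pow_le_one₀ (by norm_num) (by norm_num)
      rw [hw]; simp only
      nlinarith
    have hwr : ∀ j, w j < r ^ 2 := by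
      intro j
      have : 0 < ((1 : ℝ) / 4) ^ j := by positivity
      rw [hw]; simp only
      nlinarith
    have hb0 : ∀ j, a ≤ √(w j) := fun j => Real.le_sqrt_of_sq_le (hw0 j)
    have hbr : ∀ j, √(w j) < r := by
      intro j
      rw [Real.sqrt_lt' hr]; exact hwr j
    have step : ∀ j : ℕ, 2 * C * r * ((2 ^ j * K : ℕ) : ℝ) ^ (d - 2) ≤ len S x (√(w j)) := by
      intro j
      induction j with
      | zero =>
        have : w 0 = a ^ 2 := by rw [hw]; simp
        rw [this, Real.sqrt_sq ha.le]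
        simpa using hcon
      | succ j ih =>
        have hmn := many (2 ^ j * K) (Nat.mul_pos (by positivity) hK)
        have hww : w (j + 1) - w j = 4 * X * (1 / 4) ^ j := by
          rw [hw]; simp only [pow_succ]; ring
        have hle : √(w j) ≤ √(w (j + 1)) := by
          refine Real.sqrt_le_sqrt ?_
          have : 0 < 4 * X * (1 / 4) ^ j := by positivity
          linarith
        have hG := G (√(w j)) (√(w (j + 1))) (Real.sqrt_nonneg _) hle (hbr _)
          ((2 ^ j * K) ^ (d - 1)) (fun ρ hρ => hmn ρ ((hb0 j).trans hρ.1.le) (hρ.2.trans (hbr _))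
            (ih.trans (hmono _ _ hρ.1.le (hρ.2.trans (hbr _)).le)))
        rw [Real.sq_sqrt ((sq_nonneg a).trans (hw0 _)), Real.sq_sqrt ((sq_nonneg a).trans (hw0 _)),
          hww] at hG
        have e1 : (((2 ^ j * K) ^ (d - 1) : ℕ) : ℝ) ^ 2 * (4 * X * (1 / 4) ^ j) =
            (2 * C * r * ((2 ^ (j + 1) * K : ℕ) : ℝ) ^ (d - 2)) ^ 2 := by
          have hd1 : d - 1 = d - 2 + 1 := by omega
          have e2 : ((1 : ℝ) / 4) ^ j = 1 / ((2 : ℝ) ^ j) ^ 2 := by
            rw [← pow_mul, mul_comm j 2, pow_mul, div_pow, one_pow]; norm_num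
          push_cast
          rw [hX, e2, hd1, pow_succ ((2 : ℝ) ^ j * K), pow_succ (2 : ℝ) j]
          have e3 : ((2 : ℝ) ^ j * 2 * K) ^ (d - 2) = Q * ((2 : ℝ) ^ j * K) ^ (d - 2) := by
            rw [hQ, ← mul_pow]; congr 1; ring
          rw [e3]
          field_simp
          norm_num
        rw [e1] at hG
        have h1 : (2 * C * r * ((2 ^ (j + 1) * K : ℕ) : ℝ) ^ (d - 2)) ^ 2 ≤
            len S x (√(w (j + 1))) ^ 2 := by
          have := sq_nonneg (len S x (√(w j)))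
          linarith
        exact le_of_sq_le_sq h1 (len_nonneg _ _ _)
    -- contradiction with finiteness
    set M := len S x r with hM
    obtain ⟨j, hj⟩ := exists_nat_gt (M / (2 * C * r))
    have h1 := (step j).trans (hmono _ _ (hbr j).le le_rfl)
    rw [div_lt_iff₀ (by positivity)] at hj
    have h2 : (j : ℝ) ≤ ((2 ^ j * K : ℕ) : ℝ) ^ (d - 2) := by
      have h3 : j ≤ 2 ^ j * K := (Nat.lt_two_pow_self).le.trans (Nat.le_mul_of_pos_right _ hK)
      have h4 : (2 ^ j * K) ≤ (2 ^ j * K) ^ (d - 2) :=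
        Nat.le_self_pow (by omega) _
      exact_mod_cast h3.trans h4
    have h5 : (j : ℝ) * (2 * C * r) ≤ 2 * C * r * ((2 ^ j * K : ℕ) : ℝ) ^ (d - 2) := by
      rw [mul_comm]; exact mul_le_mul_of_nonneg_left h2 (by positivity)
    linarith
  -- choose K
  set y := 1 - a / r with hy
  have hy0 : 0 < y := by
    rw [hy, sub_pos, div_lt_one hr]; exact har
  have hy1 : y < 1 := by
    have : 0 < a / r := by positivity
    rw [hy]; linarith
  have hra : r ^ 2 * y ≤ r ^ 2 - a ^ 2 := by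
    have : r ^ 2 * y = r ^ 2 - a * r := by rw [hy]; field_simp
    rw [this]; nlinarith
  have hsy : 0 < √y := Real.sqrt_pos.2 hy0
  have hsy1 : √y ≤ 1 := by rw [← Real.sqrt_one]; exact Real.sqrt_le_sqrt hy1.le
  set K := ⌊3 * C * Q / √y⌋₊ + 1 with hK
  have hK1 : 3 * C * Q / √y < K := by
    rw [hK]; push_cast; exact Nat.lt_floor_add_one _
  have hKpos : (0 : ℝ) < K := lt_trans (by positivity) hK1
  have hK2 : (K : ℝ) ≤ (3 * C * Q + 2) / √y := by
    have h1 : (K : ℝ) ≤ 3 * C * Q / √y + 1 := by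
      rw [hK]; push_cast
      have := Nat.floor_le (show 0 ≤ 3 * C * Q / √y by positivity)
      linarith
    have h2 : 1 ≤ 2 / √y := by rw [le_div_iff₀ hsy]; linarith
    calc (K : ℝ) ≤ 3 * C * Q / √y + 1 := h1
      _ ≤ 3 * C * Q / √y + 2 / √y := by linarith
      _ = (3 * C * Q + 2) / √y := by rw [add_div]
  have h1 := key K (by omega) (by
    refine lt_of_lt_of_le ?_ hra
    have h2 : (3 * C * Q) ^ 2 < (K * √y) ^ 2 := by
      rw [div_lt_iff₀ hsy] at hK1
      exact pow_lt_pow_left₀ hK1 (by positivity) two_ne_zero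
    rw [mul_pow (K : ℝ), Real.sq_sqrt hy0.le] at h2
    rw [← mul_div_assoc, div_lt_iff₀ (by positivity)]
    have h3 : (3 * C * Q) ^ 2 = 9 * (C ^ 2 * Q ^ 2) := by ring
    rw [h3] at h2
    have hr2 : 0 < r ^ 2 := by positivity
    have hCQ : 0 < C ^ 2 * Q ^ 2 := by positivity
    nlinarith [mul_lt_mul_of_pos_left h2 hr2])
  have h2 : len S x a ^ 2 ≤ (2 * C * r * (K : ℝ) ^ (d - 2)) ^ 2 :=
    pow_le_pow_left₀ (len_nonneg _ _ _) h1.le 2
  have h3 : ((K : ℝ) ^ (d - 2)) ^ 2 * y ^ (d - 2) ≤ (3 * C * Q + 2) ^ (2 * (d - 2)) := by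
    have e : ((K : ℝ) ^ (d - 2)) ^ 2 * y ^ (d - 2) = (K * √y) ^ (2 * (d - 2)) := by
      rw [mul_pow (K : ℝ), pow_mul (√y), Real.sq_sqrt hy0.le, ← pow_mul, mul_comm (d - 2) 2]
    rw [e]
    refine pow_le_pow_left₀ (by positivity) ?_ _
    rw [le_div_iff₀ hsy] at hK2
    exact hK2
  calc len S x a ^ 2 * y ^ (d - 2) ≤ (2 * C * r * (K : ℝ) ^ (d - 2)) ^ 2 * y ^ (d - 2) :=
        mul_le_mul_of_nonneg_right h2 (by positivity)
    _ = 4 * C ^ 2 * r ^ 2 * (((K : ℝ) ^ (d - 2)) ^ 2 * y ^ (d - 2)) := by ring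
    _ ≤ 4 * C ^ 2 * r ^ 2 * (3 * C * Q + 2) ^ (2 * (d - 2)) :=
        mul_le_mul_of_nonneg_left h3 (by positivity)
    _ = 4 * C ^ 2 * (3 * C * Q + 2) ^ (2 * (d - 2)) * r ^ 2 := by ring

end H11ST
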