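import Mathlib
open MeasureTheory Metric Set
open scoped ENNReal

namespace H11ST

/-- `St` is a *Steiner set* for `A`: it is closed, `St ∪ A` is connected, and `St` has minimal
one-dimensional Hausdorff measure among all closed sets `S` for which `S ∪ A` is connected. -/
structure IsSteinerSet {d : ℕ} (A St : Set (EuclideanSpace ℝ (Fin d))) : Prop where
  isClosed : IsClosed St
  connected : IsConnected (St ∪ A)
  minimal : ∀ S : Set (EuclideanSpace ℝ (Fin d)), IsClosed S → IsConnected (S ∪ A) →
    μH[1] St ≤ μH[1] S

/-- `y` is a *branching point* of `St`: it is not a terminal, and near `y` the set `St` is the union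
of three segments issuing from `y` which meet pairwise at the angle `2π/3`. -/
def IsBranchingPoint {d : ℕ} (A St : Set (EuclideanSpace ℝ (Fin d)))
    (y : EuclideanSpace ℝ (Fin d)) : Prop :=
  y ∉ A ∧ ∃ (u : Fin 3 → EuclideanSpace ℝ (Fin d)) (ε : ℝ), 0 < ε ∧ (∀ i, ‖u i‖ = 1) ∧
    (∀ i j, i ≠ j → inner ℝ (u i) (u j) = -(1 / 2 : ℝ)) ∧
    St ∩ ball y ε = {z | ∃ i, ∃ s : ℝ, 0 ≤ s ∧ s < ε ∧ z = y + s • u i}

/-- Admissible configurations: `A` is compact, `St` is a Steiner tree (a connected Steiner set) for
`A` of finite length, and the open ball `ball x r` contains no point of `A`. -/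
structure Admissible {d : ℕ} (A St : Set (EuclideanSpace ℝ (Fin d)))
    (x : EuclideanSpace ℝ (Fin d)) (r : ℝ) : Prop where
  compact : IsCompact A
  steiner : IsSteinerSet A St
  tree : IsConnected St
  rpos : 0 < r
  far : A ∩ ball x r = ∅
  finite : μH[1] St < ∞

/-- The same, but `St` has to have finite length only in `closedBall x r`, and it has to be minimal
only among the closed sets `S` with `S ∪ A` connected which agree with `St` outside `ball x r`. -/
structure LocallyAdmissible {d : ℕ} (A St : Set (EuclideanSpace ℝ (Fin d)))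
    (x : EuclideanSpace ℝ (Fin d)) (r : ℝ) : Prop where
  compact : IsCompact A
  isClosed : IsClosed St
  connected : IsConnected (St ∪ A)
  tree : IsConnected St
  rpos : 0 < r
  far : A ∩ ball x r = ∅
  finite : μH[1] (St ∩ closedBall x r) < ∞
  minimal : ∀ S : Set (EuclideanSpace ℝ (Fin d)), IsClosed S → IsConnected (S ∪ A) →
    S \ ball x r = St \ ball x r → μH[1] (St ∩ ball x r) ≤ μH[1] (S ∩ ball x r)

/-- `N_d(t)`: the supremum over all admissible configurations of the number of branching points of
`St` in `ball x (t * r)`. -/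
noncomputable def N (d : ℕ) (t : ℝ) : ℕ∞ :=
  ⨆ (A : Set (EuclideanSpace ℝ (Fin d))) (St : Set (EuclideanSpace ℝ (Fin d)))
    (x : EuclideanSpace ℝ (Fin d)) (r : ℝ) (_ : Admissible A St x r),
    {y ∈ ball x (t * r) | IsBranchingPoint A St y}.encard

/-- The same supremum over all locally admissible configurations. -/
noncomputable def Nloc (d : ℕ) (t : ℝ) : ℕ∞ :=
  ⨆ (A : Set (EuclideanSpace ℝ (Fin d))) (St : Set (EuclideanSpace ℝ (Fin d)))
    (x : EuclideanSpace ℝ (Fin d)) (r : ℝ) (_ : LocallyAdmissible A St x r),
    {y ∈ ball x (t * r) | IsBranchingPoint A St y}.encard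

end H11ST
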