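import Pool.Agent.H11ST.Star
open MeasureTheory Metric Set Filter Topology
open scoped ENNReal NNReal

namespace H11ST
set_option linter.unusedSectionVars false
variable {V : Type*} [NormedAddCommGroup V] [InnerProductSpace ℝ V] [MeasurableSpace V] [BorelSpace V]

/-- radii beyond which the sphere must contain `5 + k` points -/
noncomputable def rad (σ : ℕ → ℝ) (D : ℝ) : ℕ → ℝ
  | 0 => D / σ 4
  | k + 1 => rad σ D k * (1 + σ (4 + k)) / σ (5 + k)

theorem rad_pos {σ : ℕ → ℝ} {M : ℕ} (hσ : ∀ m, 4 ≤ m → m ≤ M → 0 < σ m) {D : ℝ} (hD : 0 < D) (k : ℕ)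
    (hkM : 4 + k ≤ M) : 0 < rad σ D k := by
  induction k with
  | zero => exact div_pos hD (hσ 4 le_rfl hkM)
  | succ k ih =>
    have h1 := hσ (4 + k) (by omega) (by omega)
    have h2 := hσ (5 + k) (by omega) (by omega)
    exact div_pos (mul_pos (ih (by omega)) (by linarith)) h2

theorem phases {A S : Set V} {y : V} {R : ℝ} (L : LocAdm A S y R) {σ : ℕ → ℝ} {M : ℕ}
    (hσ : ∀ m, 4 ≤ m → m ≤ M → 0 < σ m) (hσ1 : ∀ m, 4 ≤ m → m < M → σ (m + 1) < 1 + σ m)
    (hσ4 : σ 4 < 1) {D : ℝ} (hD : 0 < D) (hDR : D < R)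
    (h3 : ∀ ρ ∈ Ioo 0 D, (3 : ℕ∞) ≤ (S ∩ sphere y ρ).encard)
    (h4 : ∀ ρ ∈ Ioo D R, (4 : ℕ∞) ≤ (S ∩ sphere y ρ).encard)
    (hs : ∀ m : ℕ, 4 ≤ m → m ≤ M → ∀ ρ, 0 < ρ → ρ < R → (S ∩ sphere y ρ).encard = m →
      len S y ρ ≤ (m - σ m) * ρ) (k : ℕ) (hkM : 4 + k ≤ M) (hk : rad σ D k < R) :
    ((4 + k : ℕ) - σ (4 + k)) * rad σ D k ≤ len S y (rad σ D k) ∧
      ∀ ρ ∈ Ioo (rad σ D k) R, ((4 + k + 1 : ℕ) : ℕ∞) ≤ (S ∩ sphere y ρ).encard := by
  induction k with
  | zero =>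
    have h41 : 0 < σ 4 := hσ 4 le_rfl hkM
    have hr0 : rad σ D 0 = D / σ 4 := rfl
    have hDr : D < rad σ D 0 := by
      rw [hr0, lt_div_iff₀ h41]; nlinarith
    have hLD : 3 * D ≤ len S y D := by
      have := L.len_growth hD.le hDR.le 3 (by exact_mod_cast h3)
      have h5 := len_nonneg S y 0
      push_cast at this
      linarith
    have hL : ∀ ρ, D ≤ ρ → ρ ≤ R → 4 * ρ - D ≤ len S y ρ := by
      intro ρ h1 h2
      have := L.len_growth h1 h2 4 (fun s hs => by exact_mod_cast h4 s ⟨hs.1, hs.2.trans_le h2⟩)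
      push_cast at this
      linarith
    refine ⟨?_, ?_⟩
    · have := hL _ hDr.le hk.le
      have e : σ 4 * rad σ D 0 = D := by rw [hr0]; field_simp
      simp only [add_zero]
      push_cast
      nlinarith
    · intro ρ hρ
      have h1 := hL ρ (hDr.le.trans hρ.1.le) hρ.2.le
      have h2 : D < σ 4 * ρ := by
        have := hρ.1
        rw [hr0, div_lt_iff₀ h41] at this
        linarith
      have h5 : (4 : ℕ∞) ≤ (S ∩ sphere y ρ).encard := h4 ρ ⟨hDr.trans hρ.1, hρ.2⟩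
      have h6 : (S ∩ sphere y ρ).encard ≠ (4 : ℕ) := by
        intro h
        have := hs 4 le_rfl hkM ρ (hD.trans (hDr.trans hρ.1)) hρ.2 h
        push_cast at this
        nlinarith
      have h7 : ((4 : ℕ) : ℕ∞) < (S ∩ sphere y ρ).encard :=
        lt_of_le_of_ne (by exact_mod_cast h5) (Ne.symm h6)
      have := Order.add_one_le_of_lt h7
      exact_mod_cast this
  | succ k ih =>
    have hp := rad_pos hσ hD k (by omega)
    have hs1 := hσ (4 + k) (by omega) (by omega)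
    have hs2 : 0 < σ (5 + k) := hσ (5 + k) (by omega) (by omega)
    have hs3 : σ (5 + k) < 1 + σ (4 + k) := by
      have := hσ1 (4 + k) (by omega) (by omega)
      rwa [show 4 + k + 1 = 5 + k by ring] at this
    have hr : rad σ D (k + 1) = rad σ D k * (1 + σ (4 + k)) / σ (5 + k) := rfl
    have hlt : rad σ D k < rad σ D (k + 1) := by
      rw [hr, lt_div_iff₀ hs2]; nlinarith
    have he : σ (5 + k) * rad σ D (k + 1) = (1 + σ (4 + k)) * rad σ D k := by
      rw [hr]; field_simp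
    obtain ⟨ih1, ih2⟩ := ih (by omega) (hlt.trans hk)
    push_cast at ih1
    have hL : ∀ ρ, rad σ D k ≤ ρ → ρ ≤ R →
        (5 + k) * ρ - σ (5 + k) * rad σ D (k + 1) ≤ len S y ρ := by
      intro ρ h1 h2
      have := L.len_growth h1 h2 (4 + k + 1) (fun s hs => ih2 s ⟨hs.1, hs.2.trans_le h2⟩)
      push_cast at this
      rw [he]
      nlinarith
    refine ⟨?_, ?_⟩
    · have := hL _ hlt.le hk.le
      rw [show 4 + (k + 1) = 5 + k by ring]
      push_cast
      nlinarith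
    · intro ρ hρ
      have h1 := hL ρ (hlt.le.trans hρ.1.le) hρ.2.le
      have h5 := ih2 ρ ⟨hlt.trans hρ.1, hρ.2⟩
      have h6 : (S ∩ sphere y ρ).encard ≠ ((4 + k + 1 : ℕ) : ℕ∞) := by
        intro h
        have := hs (4 + k + 1) (by omega) (by omega) ρ (hp.trans (hlt.trans hρ.1)) hρ.2 h
        rw [show 4 + k + 1 = 5 + k by ring] at this
        push_cast at this
        have h7 : σ (5 + k) * rad σ D (k + 1) < σ (5 + k) * ρ :=
          mul_lt_mul_of_pos_left hρ.1 hs2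
        nlinarith
      have h7 := lt_of_le_of_ne h5 (Ne.symm h6)
      have := Order.add_one_le_of_lt h7
      rw [show 4 + (k + 1) + 1 = (4 + k + 1) + 1 by ring]
      exact_mod_cast this

end H11ST
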