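import Pool.Agent.H11ST.Reg
import Pool.Agent.H11ST.St2
open MeasureTheory Metric Set Filter Topology Real
open scoped ENNReal NNReal

namespace H11ST

/-- `S` is a compact connected set through the finite set `A`, of finite length, and of minimal
length among the closed connected sets through `A`. -/
structure Mini {d : ℕ} (A : Finset (E d)) (S : Set (E d)) : Prop where
  compact : IsCompact S
  conn : IsConnected S
  sub : ∀ a ∈ A, a ∈ S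
  fin : μH[1] S ≠ ∞
  minim : ∀ T : Set (E d), IsClosed T → IsConnected T → (∀ a ∈ A, a ∈ T) → μH[1] S ≤ μH[1] T

/-- G1: existence of minimal sets. -/
def ST_EX (d : ℕ) : Prop := ∀ A : Finset (E d), A.Nonempty → ∃ S : Set (E d), Mini A S

/-- G2: few tripod points make the set long. `Z` are the points near `A`. -/
def ST_GR (d : ℕ) : Prop :=
  ∀ (S : Set (E d)) (A Y Z : Finset (E d)) (s ε : ℝ), IsCompact S → IsConnected S → μH[1] S ≠ ∞ →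
    0 < s → 0 < ε → ε < 1 / 2 → A.Nonempty → (∀ a ∈ A, a ∈ S) →
    (∀ a ∈ A, ∀ b ∈ A, a ≠ b → s ≤ dist a b) →
    (∀ z ∈ S, z ∉ A → z ∉ Y → z ∉ Z → ∃ u δ, Lin S z u δ) →
    (∀ y ∈ Y, y ∉ A ∧ y ∉ Z ∧ ∃ u δ, Tri S y u δ) →
    (∀ z ∈ Z, z ∉ A ∧ z ∈ S ∧ ∃ a ∈ A, dist z a < ε * s) →
    ((A.card : ℝ) - 1 - 2 * Y.card) * ((1 - 2 * ε) * s) ≤ (μH[1] S).toReal

/-- G3: the triangular pattern on the unit sphere. -/
def ST_PAT (d : ℕ) : Prop :=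
  ∃ c : ℝ, 0 < c ∧ ∀ K : ℕ, 1 ≤ K → ∃ A : Finset (E d), (∀ a ∈ A, ‖a‖ = 1) ∧
    A.card = 3 * K ^ (d - 1) ∧ (∀ a ∈ A, ∀ b ∈ A, a ≠ b → c / K ≤ dist a b) ∧
    ∃ T : Set (E d), IsCompact T ∧ IsConnected T ∧ (∀ a ∈ A, a ∈ T) ∧
      μH[1] T ≤ ENNReal.ofReal (11 / 4 * K ^ (d - 1) * (c / K))

/-- G4: networks through points of a sphere. -/
def ST_NET (d : ℕ) : Prop :=
  ∃ C : ℝ, 0 < C ∧ ∀ (x : E d) (ρ : ℝ), 0 < ρ → ∀ K : ℕ, 1 ≤ K → ∀ P : Finset (E d),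
    (∀ p ∈ P, p ∈ sphere x ρ) → ∃ (D : Set (E d)) (c : ℝ), Star x ρ D c ∧ (∀ p ∈ P, p ∈ D) ∧
      c ≤ C * ρ * ((K : ℝ) ^ (d - 2) + P.card / K)

/-- G5: the growth bound for the length. -/
def ST_LB (d : ℕ) : Prop :=
  ∃ C : ℝ, 0 < C ∧ ∀ (A S : Set (E d)) (x : E d) (r : ℝ), LocAdm A S x r → IsClosed A →
    (∀ (a b : ℝ), 0 ≤ a → a ≤ b → b < r → ∀ m : ℕ,
      (∀ ρ ∈ Ioo a b, (m : ℕ∞) ≤ (S ∩ sphere x ρ).encard) →
      len S x a ^ 2 + (m : ℝ) ^ 2 * (b ^ 2 - a ^ 2) ≤ len S x b ^ 2) →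
    ∀ a : ℝ, 0 < a → a < r → (∀ ρ, a ≤ ρ → ρ < r → (S ∩ sphere x ρ).Nonempty) →
      len S x a ^ 2 * (1 - a / r) ^ (d - 2) ≤ C * r ^ 2

/-- HULL: minimal sets lie in the convex hull. -/
def ST_HULL (d : ℕ) : Prop :=
  ∀ (A : Finset (E d)) (S : Set (E d)), A.Nonempty → Mini A S →
    S ⊆ convexHull ℝ (A : Set (E d))

end H11ST
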