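import Pool.Agent.H11ST.Reg
import Pool.Agent.H11ST.St3
import Pool.Agent.H11ST.Main
open MeasureTheory Metric Set Filter Topology Real
open scoped ENNReal NNReal

namespace H11ST
namespace Low
set_option linter.unusedSectionVars false

section
variable {d : ℕ} {A : Finset (E d)} {S : Set (E d)}

theorem union_eq (M : Mini A S) : S ∪ (A : Set (E d)) = S :=
  union_eq_left.2 fun _ ha => M.sub _ (Finset.mem_coe.1 ha)

theorem loc (M : Mini A S) {x : E d} {r : ℝ} (hr : 0 < r) (hfar : ∀ a ∈ A, a ∉ ball x r) :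
    LocAdm (A : Set (E d)) S x r where
  rpos := hr
  hS := M.compact.isClosed
  conn := by rw [union_eq M]; exact M.conn
  far := fun z hz => hfar z (Finset.mem_coe.1 hz)
  fin := ne_top_of_le_ne_top M.fin (measure_mono inter_subset_left)
  minim := by
    intro T hT hTA heq
    have hAT : ∀ a ∈ A, a ∈ T := by
      intro a ha
      have : a ∈ S \ ball x r := ⟨M.sub a ha, hfar a ha⟩
      rw [← heq] at this
      exact this.1
    have hTA' : T ∪ (A : Set (E d)) = T := union_eq_left.2 fun a ha => hAT a (Finset.mem_coe.1 ha)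
    rw [hTA'] at hTA
    have h1 := M.minim T hT hTA hAT
    have hout : μH[1] (S \ ball x r) ≠ ∞ := ne_top_of_le_ne_top M.fin (measure_mono sdiff_subset)
    have h2 := measure_inter_add_sdiff (μ := μH[1]) S (measurableSet_ball (x := x) (ε := r))
    have h3 := measure_inter_add_sdiff (μ := μH[1]) T (measurableSet_ball (x := x) (ε := r))
    rw [← h2, ← h3, heq] at h1
    exact (ENNReal.add_le_add_iff_right hout).1 h1

theorem strict (M : Mini A S) {T b : Set (E d)} (hT : IsClosed T) (hc : IsConnected T)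
    (hA : ∀ a ∈ A, a ∈ T) (hsub : T ⊆ S) (hTb : ∀ z ∈ T, z ∉ b) (hpos : 0 < μH[1] (S ∩ b)) :
    False := by
  have h1 := M.minim T hT hc hA
  have hfin : μH[1] T ≠ ∞ := ne_top_of_le_ne_top M.fin (measure_mono hsub)
  have h2 : μH[1] T + μH[1] (S ∩ b) ≤ μH[1] S := by
    rw [← measure_union' (μ := μH[1]) _ hT.measurableSet]
    · exact measure_mono (union_subset hsub inter_subset_left)
    · rw [disjoint_left]
      rintro z h h'
      exact hTb z h h'.2
  have h3 := h2.trans h1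
  have h4 : μH[1] (S ∩ b) ≤ 0 := by
    have : μH[1] T + μH[1] (S ∩ b) ≤ μH[1] T + 0 := by simpa using h3
    exact (ENNReal.add_le_add_iff_left hfin).1 this
  exact absurd hpos (not_lt.2 h4)

/-- the number of tripod points is at most the number of terminals minus two -/
theorem tri_card (M : Mini A S) (Y : Finset (E d)) (hY : Y.Nonempty) (hYA : ∀ y ∈ Y, y ∉ A)
    (hT : ∀ y ∈ Y, ∃ u ε, Tri S y u ε) : Y.card + 2 ≤ A.card := by
  classical
  choose! u ε' hu using hT
  have hAc : IsClosed (A : Set (E d)) := A.finite_toSet.isClosed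
  have e1 : ∀ᶠ ε : ℝ in 𝓝[>] 0, ∀ y ∈ Y, Tri S y (u y) ε ∧ ∀ a ∈ A, a ∉ ball y ε := by
    rw [Filter.eventually_all_finset]
    intro y hy
    have hopen : (A : Set (E d))ᶜ ∈ 𝓝 y := hAc.isOpen_compl.mem_nhds (by
      simpa using hYA y hy)
    obtain ⟨δ, hδ, hδA⟩ := Metric.mem_nhds_iff.1 hopen
    have hm : 0 < min (ε' y) δ := lt_min (hu y hy).pos hδ
    filter_upwards [Ioo_mem_nhdsGT hm] with ε hε
    refine ⟨(hu y hy).mono hε.1 (hε.2.le.trans (min_le_left _ _)), fun a ha hab => ?_⟩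
    have := hδA (ball_subset_ball (hε.2.le.trans (min_le_right _ _)) hab)
    exact this (Finset.mem_coe.2 ha)
  have e2 : ∀ᶠ ε : ℝ in 𝓝[>] 0, ∀ y ∈ Y, ∀ y' ∈ Y, y ≠ y' → Disjoint (ball y ε) (ball y' ε) := by
    rw [Filter.eventually_all_finset]
    intro y hy
    rw [Filter.eventually_all_finset]
    intro y' hy'
    by_cases hyy : y = y'
    · exact Eventually.of_forall fun _ h => absurd hyy h
    · have hm : 0 < dist y y' / 2 := half_pos (dist_pos.2 hyy)
      filter_upwards [Ioo_mem_nhdsGT hm] with ε hε _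
      exact ball_disjoint_ball (by linarith [hε.2])
  obtain ⟨ε, hε1, hε2⟩ := (e1.and e2).exists
  have hX : IsClosed S := M.compact.isClosed
  have hXc : IsPreconnected S := M.conn.isPreconnected
  have hArb : ∀ y ∈ Y, ∀ i, ∀ a ∈ A, a ∉ rb y (u y) ε i := by
    intro y hy i a ha hab
    exact (hε1 y hy).2 a ha (ball_subset_ball (by linarith [(hε1 y hy).1.pos])
      ((hε1 y hy).1.rb_subset i hab))
  have hcut : ∀ y i, y ∈ Y → ∃ U W, Cut S y (u y) ε i U W := by
    intro y i hy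
    refine cut_exists hX hXc (hε1 y hy).1 ?_
    intro hp
    have T := (hε1 y hy).1
    have hε := T.pos
    refine strict M (T := S \ rb y (u y) ε i) (b := rb y (u y) ε i) (hX.sdiff isOpen_ball)
      ⟨⟨y + (ε / 4) • u y i, T.mem (by linarith) (by linarith), T.low_not_rb le_rfl⟩, hp⟩
      (fun a ha => ⟨M.sub a ha, hArb y hy i a ha⟩) sdiff_subset (fun z hz => hz.2) (rb_pos T i)
  choose! U W hC using hcut
  have TX : ∀ y ∈ Y, Tri S y (u y) ε := fun y hy => (hε1 y hy).1
  have hB : Branches Y W := by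
    refine ⟨?_, ?_, ?_, ?_⟩
    · intro y hy i j hij
      exact disj_same hXc (TX y hy) hij (hC y i hy) (hC y j hy)
    · intro y hy i
      exact (hC y i hy).y_not (TX y hy)
    · intro y hy y' hy' hne
      refine exists_side hX hXc (TX y hy) (fun i => hC y i hy) (TX y' hy').y_mem ?_
      intro hmem
      exact disjoint_left.1 (hε2 y hy y' hy' (Ne.symm hne)) hmem (mem_ball_self (TX y hy).pos)
    · intro y hy y' hy' hne i' hi' l hl
      exact nest hXc (TX y hy) (TX y' hy') (hε2 y hy y' hy' hne) (hC y l hy) (hC y' i' hy') hi' hl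
  have hcard : Y.card + 2 ≤ (leaves Y W).card := by
    have hpos := hY.card_pos
    have := Branches.count W (Y.card - 1) Y hB (by omega)
    omega
  have hpt : ∀ q ∈ leaves Y W, ∃ z ∈ W q.1 q.2, z ∈ A := by
    intro q hq
    rw [mem_leaves] at hq
    by_contra hcon
    push Not at hcon
    have C := hC q.1 q.2 hq.1
    have T := TX q.1 hq.1
    refine strict M (T := U q.1 q.2) (b := rb q.1 (u q.1) ε q.2) C.hU
      ⟨⟨_, C.a_mem⟩, U_preconn hXc T C⟩ (fun a ha => ?_) (C.U_sub.trans sdiff_subset)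
      (fun z hz => (C.U_sub hz).2) (rb_pos T q.2)
    rcases C.cases (M.sub a ha) (hArb q.1 hq.1 q.2 a ha) with h | h
    · exact h
    · exact absurd ha (hcon a h)
  choose! f hf1 hf2 using hpt
  have hinj : Set.InjOn f (leaves Y W : Set (E d × Fin 3)) := by
    intro q hq q' hq' hqq
    by_contra hne
    exact hB.disj q hq q' hq' hne (f q) (hf1 q hq) (by rw [hqq]; exact hf1 q' hq')
  exact hcard.trans (Finset.card_le_card_of_injOn f hf2 hinj)

theorem adm (M : Mini A S) {x : E d} {r : ℝ} (hr : 0 < r) (hfar : ∀ a ∈ A, a ∉ ball x r) :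
    Admissible (A : Set (E d)) S x r where
  compact := A.finite_toSet.isCompact
  steiner :=
    { isClosed := M.compact.isClosed
      connected := by rw [union_eq M]; exact M.conn
      minimal := by
        intro T hT hTA
        have h0 : μH[1] (A : Set (E d)) = 0 := by
          have := Measure.nullSingletonClass_hausdorff (E d) (d := 1) one_pos
          exact A.finite_toSet.countable.measure_zero _
        calc μH[1] S ≤ μH[1] (T ∪ (A : Set (E d))) :=
              M.minim _ (hT.union A.finite_toSet.isClosed) hTA (fun a ha => Or.inr (Finset.mem_coe.2 ha))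
          _ ≤ μH[1] T + μH[1] (A : Set (E d)) := measure_union_le _ _
          _ = μH[1] T := by rw [h0, add_zero] }
  tree := M.conn
  rpos := hr
  far := by
    rw [eq_empty_iff_forall_notMem]
    rintro z ⟨h1, h2⟩
    exact hfar z (Finset.mem_coe.1 h1) h2
  finite := lt_of_le_of_ne le_top M.fin

theorem cases (hd : 1 ≤ d) (M : Mini A S) (hA : A.Nonempty) {z : E d} (hz : z ∈ S) (hzA : z ∉ A) :
    (∃ u ε, Lin S z u ε) ∨ ∃ u ε, Tri S z u ε := by
  have hAc : IsClosed (A : Set (E d)) := A.finite_toSet.isClosed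
  have hopen : (A : Set (E d))ᶜ ∈ 𝓝 z := hAc.isOpen_compl.mem_nhds (by simpa using hzA)
  obtain ⟨δ, hδ, hδA⟩ := Metric.mem_nhds_iff.1 hopen
  obtain ⟨a, ha⟩ := hA
  exact reg hd (A : Set (E d)) S z δ (loc M hδ (fun a ha hab => hδA hab (Finset.mem_coe.2 ha))) hAc z
    ⟨hz, mem_ball_self hδ⟩ ⟨a, Or.inr (Finset.mem_coe.2 ha), fun h => hzA (h ▸ ha)⟩

theorem tri_fin (M : Mini A S) : {z : E d | z ∉ A ∧ ∃ u ε, Tri S z u ε}.Finite := by
  have h := encard_le_of_finset (B := {z : E d | z ∉ A ∧ ∃ u ε, Tri S z u ε}) (m := A.card) (by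
    intro Y hY
    rcases Y.eq_empty_or_nonempty with rfl | hne
    · simp
    · have := tri_card M Y hne (fun y hy => (hY y hy).1) (fun y hy => (hY y hy).2)
      omega)
  exact Set.finite_of_encard_le_coe h

/-- points of the convex hull of points of the unit sphere -/
theorem norm_hull {η : ℝ} {y : E d} (hA : ∀ a ∈ A, ‖a‖ = 1)
    (hy : y ∈ convexHull ℝ (A : Set (E d))) (hη : 0 ≤ η) (hd : ∀ a ∈ A, η ≤ dist y a) :
    ‖y‖ ^ 2 ≤ 1 - η ^ 2 := by
  set c := (1 + ‖y‖ ^ 2 - η ^ 2) / 2 with hc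
  have h1 : (A : Set (E d)) ⊆ {z | inner ℝ y z ≤ c} := by
    intro a ha
    have ha' := Finset.mem_coe.1 ha
    have h2 := hd a ha'
    have h3 : dist y a ^ 2 = ‖y‖ ^ 2 - 2 * inner ℝ y a + 1 := by
      rw [dist_eq_norm, norm_sub_sq_real, hA a ha']; ring
    have h4 : η ^ 2 ≤ dist y a ^ 2 := pow_le_pow_left₀ hη h2 2
    show inner ℝ y a ≤ c
    rw [hc]; linarith
  have h2 : Convex ℝ {z : E d | inner ℝ y z ≤ c} :=
    convex_halfSpace_le (IsLinearMap.mk (fun a b => inner_add_right _ _ _)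
      (fun a b => by simp [inner_smul_right])) c
  have h3 := convexHull_min h1 h2 hy
  have h4 : inner ℝ y y ≤ c := h3
  rw [real_inner_self_eq_norm_sq, hc] at h4
  linarith

end

/-- one pattern -/
theorem pattern {d : ℕ} (hd : 3 ≤ d) (hex : ST_EX d) (hgr : ST_GR d) (hhull : ST_HULL d) {K : ℕ}
    (hK : 1 ≤ K) {s : ℝ} (hs : 0 < s) (A : Finset (E d)) (hA1 : ∀ a ∈ A, ‖a‖ = 1)
    (hcard : A.card = 3 * K ^ (d - 1)) (hsep : ∀ a ∈ A, ∀ b ∈ A, a ≠ b → s ≤ dist a b)
    (T : Set (E d)) (hTc : IsCompact T) (hTconn : IsConnected T) (hTA : ∀ a ∈ A, a ∈ T)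
    (hT : μH[1] T ≤ ENNReal.ofReal (11 / 4 * K ^ (d - 1) * s)) {t : ℝ} (ht0 : 0 < t)
    (ht : 1 - (s / 100) ^ 2 < t ^ 2) (n : ℕ) (hn : N d t ≤ n) :
    (19 / 200) * (K : ℝ) ^ (d - 1) - 1 / 2 ≤ n := by
  classical
  have hKd : 1 ≤ K ^ (d - 1) := Nat.one_le_pow _ _ hK
  have hA : A.Nonempty := by
    rw [← Finset.card_pos, hcard]; omega
  obtain ⟨S, M⟩ := hex A hA
  have hfin := tri_fin M
  set F := hfin.toFinset with hF
  have hFm : ∀ z, z ∈ F ↔ z ∉ A ∧ ∃ u ε, Tri S z u ε := fun z => by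
    rw [hF, hfin.mem_toFinset]; rfl
  set Y := F.filter (fun z => ∀ a ∈ A, 1 / 100 * s ≤ dist z a) with hY
  set Z := F.filter (fun z => ¬ ∀ a ∈ A, 1 / 100 * s ≤ dist z a) with hZ
  have h1 := hgr S A Y Z s (1 / 100) M.compact M.conn M.fin hs (by norm_num) (by norm_num) hA M.sub
    hsep (by
      intro z hz hzA hzY hzZ
      rcases cases (by omega) M hA hz hzA with h | h
      · exact h
      · exfalso
        have hzF : z ∈ F := (hFm z).2 ⟨hzA, h⟩
        by_cases hz' : ∀ a ∈ A, 1 / 100 * s ≤ dist z a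
        · exact hzY (Finset.mem_filter.2 ⟨hzF, hz'⟩)
        · exact hzZ (Finset.mem_filter.2 ⟨hzF, hz'⟩)) (by
      intro y hy
      have hy' := Finset.mem_filter.1 hy
      have := (hFm y).1 hy'.1
      exact ⟨this.1, fun h => (Finset.mem_filter.1 h).2 hy'.2, this.2⟩) (by
      intro z hz
      have hz' := Finset.mem_filter.1 hz
      obtain ⟨h1, u, ε, hT⟩ := (hFm z).1 hz'.1
      refine ⟨h1, hT.y_mem, ?_⟩
      have := hz'.2
      push Not at this
      exact this)
  have h2 : (μH[1] S).toReal ≤ 11 / 4 * K ^ (d - 1) * s := by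
    refine ENNReal.toReal_le_of_le_ofReal (by positivity) ?_
    exact (M.minim T hTc.isClosed hTconn hTA).trans hT
  have hKr : (A.card : ℝ) = 3 * (K : ℝ) ^ (d - 1) := by rw [hcard]; push_cast; ring
  rw [hKr] at h1
  have h3 : (3 * (K : ℝ) ^ (d - 1) - 1 - 2 * Y.card) * (98 / 100) * s ≤
      11 / 4 * (K : ℝ) ^ (d - 1) * s := by
    refine le_trans (le_of_eq ?_) (h1.trans h2)
    ring
  have h4 := le_of_mul_le_mul_right h3 hs
  have hKd' : (1 : ℝ) ≤ (K : ℝ) ^ (d - 1) := by exact_mod_cast hKd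
  -- the points of `Y` lie in the ball
  have hYb : ∀ y ∈ Y, y ∈ {y ∈ ball (0 : E d) (t * 1) | IsBranchingPoint (A : Set (E d)) S y} := by
    intro y hy
    have hy' := Finset.mem_filter.1 hy
    obtain ⟨hyA, u, ε, hT⟩ := (hFm y).1 hy'.1
    have h5 := norm_hull hA1 (hhull A S hA M hT.y_mem) (η := 1 / 100 * s) (by positivity) hy'.2
    refine ⟨?_, ?_, u, ε, hT.pos, hT.norm, hT.ang, hT.eq⟩
    · rw [mem_ball, dist_zero_right, mul_one]
      refine lt_of_pow_lt_pow_left₀ 2 ht0.le ?_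
      have : (1 / 100 * s) ^ 2 = (s / 100) ^ 2 := by ring
      linarith
    · simpa using hyA
  have h6 : (Y.card : ℕ∞) ≤ N d t := by
    refine le_N (adm M one_pos (x := 0) (fun a ha hab => ?_)) ?_
    · rw [mem_ball, dist_zero_right, hA1 a ha] at hab
      exact lt_irrefl _ hab
    · calc (Y.card : ℕ∞) = (Y : Set (E d)).encard := (Set.encard_coe_eq_coe_finsetCard _).symm
        _ ≤ _ := Set.encard_le_encard (fun y hy => hYb y (Finset.mem_coe.1 hy))
  have h7 : Y.card ≤ n := by exact_mod_cast h6.trans hn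
  have h8 : (Y.card : ℝ) ≤ n := by exact_mod_cast h7
  linarith

theorem rpow_half {x : ℝ} (hx : 0 ≤ x) {d : ℕ} (hd : 1 ≤ d) :
    x ^ (((d : ℝ) - 1) / 2) = (√x) ^ (d - 1) := by
  have h1 : ((d : ℝ) - 1) / 2 = (1 / 2) * ((d - 1 : ℕ) : ℝ) := by
    rw [Nat.cast_sub hd]; push_cast; ring
  rw [h1, Real.rpow_mul hx, Real.rpow_natCast, Real.sqrt_eq_rpow]

theorem lower {d : ℕ} (hd : 3 ≤ d) (hex : ST_EX d) (hgr : ST_GR d) (hhull : ST_HULL d)
    (hpat : ST_PAT d) : ∃ c : ℝ, 0 < c ∧ ∀ t : ℝ, 0 < t → t < 1 → ∀ n : ℕ, N d t ≤ n →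
      c / (1 - t) ^ (((d : ℝ) - 1) / 2) ≤ n := by
  obtain ⟨c₀, hc₀, hpat⟩ := hpat
  set κ : ℝ := c₀ / 200 with hκ
  have hκ0 : 0 < κ := by positivity
  refine ⟨(κ / 2) ^ (d - 1) / 20, by positivity, fun t ht0 ht1 n hn => ?_⟩
  have hn1 : (1 : ℝ) ≤ n := by
    have := (one_le_N (d := d) (by omega) ht0).trans hn
    exact_mod_cast this
  rw [rpow_half (by linarith) (by omega)]
  set q := √(1 - t) with hq
  have hq0 : 0 < q := Real.sqrt_pos.2 (by linarith)
  have hq2 : q ^ 2 = 1 - t := Real.sq_sqrt (by linarith)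
  have e1 : (κ / 2) ^ (d - 1) / 20 / q ^ (d - 1) = (κ / q / 2) ^ (d - 1) / 20 := by
    rw [div_div, mul_comm (20 : ℝ), ← div_div, ← div_pow]
    congr 2
    field_simp
  rw [e1]
  by_cases h : κ / q < 1
  · have h1 : (κ / q / 2) ^ (d - 1) ≤ 1 := pow_le_one₀ (by positivity) (by linarith)
    linarith
  · push Not at h
    set K := ⌊κ / q⌋₊ with hK
    have hK1 : 1 ≤ K := Nat.le_floor (by exact_mod_cast h)
    have hKle : (K : ℝ) ≤ κ / q := Nat.floor_le (by positivity)
    have hKge : κ / q / 2 ≤ K := by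
      have h1 : κ / q < K + 1 := Nat.lt_floor_add_one _
      have h2 : (1 : ℝ) ≤ K := by exact_mod_cast hK1
      linarith
    have hKpos : (0 : ℝ) < K := by exact_mod_cast hK1
    obtain ⟨A, hA1, hcard, hsep, T, hTc, hTconn, hTA, hT⟩ := hpat K hK1
    have hs : 0 < c₀ / K := by positivity
    have ht : 1 - (c₀ / K / 100) ^ 2 < t ^ 2 := by
      have h1 : (K : ℝ) * q ≤ κ := by rwa [le_div_iff₀ hq0] at hKle
      have h2 : 2 * q ≤ c₀ / K / 100 := by
        rw [le_div_iff₀ (by norm_num), le_div_iff₀ hKpos]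
        rw [hκ] at h1
        nlinarith
      have h3 : (2 * q) ^ 2 ≤ (c₀ / K / 100) ^ 2 := pow_le_pow_left₀ (by positivity) h2 2
      nlinarith
    have h1 := pattern hd hex hgr hhull hK1 hs A hA1 hcard hsep T hTc hTconn hTA hT ht0 ht n hn
    have h2 : (κ / q / 2) ^ (d - 1) ≤ (K : ℝ) ^ (d - 1) := pow_le_pow_left₀ (by positivity) hKge _
    linarith

end Low
end H11ST
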