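import Pool.Agent.H11ST.Cells
open MeasureTheory Metric Set Filter Topology
open scoped ENNReal NNReal

namespace H11ST
set_option linter.unusedSectionVars false
variable {V : Type*} [NormedAddCommGroup V] [InnerProductSpace ℝ V] [MeasurableSpace V] [BorelSpace V]

/-- unions of sets of diameter at most `η`, each meeting the union of the previous ones; `s` is the
sum of the diameters -/
inductive Chain (η : ℝ) : Set V → ℝ → Prop
  | base (O : Set V) (c : ℝ) (hc0 : 0 ≤ c) (hc : ∀ p ∈ O, ∀ q ∈ O, dist p q ≤ c) (hη : c ≤ η) :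
      Chain η O c
  | step (U : Set V) (s : ℝ) (O : Set V) (c : ℝ) (hU : Chain η U s) (w : V) (hwU : w ∈ U)
      (hwO : w ∈ O) (hc0 : 0 ≤ c) (hc : ∀ p ∈ O, ∀ q ∈ O, dist p q ≤ c) (hη : c ≤ η) :
      Chain η (U ∪ O) (s + c)

namespace Chain
variable {η : ℝ} {U : Set V} {s : ℝ}

theorem nonneg (h : Chain η U s) : 0 ≤ s := by
  induction h with
  | base O c hc0 hc hη => exact hc0
  | step U s O c hU w hwU hwO hc0 hc hη ih => linarith

theorem two (h : Chain η U s) : ∀ a ∈ U, ∀ b ∈ U, dist a b ≤ s := by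
  induction h with
  | base O c hc0 hc hη => exact hc
  | step U s O c hU w hwU hwO hc0 hc hη ih =>
    have hs := hU.nonneg
    rintro a (ha | ha) b (hb | hb)
    · linarith [ih a ha b hb]
    · linarith [ih a ha w hwU, hc w hwO b hb, dist_triangle a w b]
    · linarith [ih w hwU b hb, hc a ha w hwO, dist_triangle a w b]
    · linarith [hc a ha b hb]

/-- three points can be joined -/
def J3 (a b c : V) (T : ℝ) : Prop := ∃ z, dist a z + dist b z + dist c z ≤ T

theorem J3.swap12 {a b c : V} {T : ℝ} (h : J3 a b c T) : J3 b a c T := by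
  obtain ⟨z, hz⟩ := h; exact ⟨z, by linarith⟩

theorem J3.swap23 {a b c : V} {T : ℝ} (h : J3 a b c T) : J3 a c b T := by
  obtain ⟨z, hz⟩ := h; exact ⟨z, by linarith⟩

theorem three (h : Chain η U s) : ∀ a ∈ U, ∀ b ∈ U, ∀ c ∈ U, J3 a b c (s + η) := by
  induction h with
  | base O c hc0 hc hη =>
    intro a ha b hb d hd
    exact ⟨a, by linarith [hc b hb a ha, hc d hd a ha, dist_self a]⟩
  | step U s O e hU w hwU hwO hc0 hc hη ih =>
    have hs := hU.nonneg
    have two := hU.two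
    -- one point in O
    have k1 : ∀ a ∈ U, ∀ b ∈ U, ∀ c ∈ O, J3 a b c (s + e + η) := by
      intro a ha b hb c hcO
      obtain ⟨z, hz⟩ := ih a ha b hb w hwU
      exact ⟨z, by linarith [hc c hcO w hwO, dist_triangle c w z]⟩
    have k2 : ∀ a ∈ U, ∀ b ∈ O, ∀ c ∈ O, J3 a b c (s + e + η) := by
      intro a ha b hb c hcO
      exact ⟨w, by linarith [hc b hb w hwO, hc c hcO w hwO, two a ha w hwU]⟩
    have k3 : ∀ a ∈ O, ∀ b ∈ O, ∀ c ∈ O, J3 a b c (s + e + η) := by
      intro a ha b hb c hcO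
      exact ⟨a, by linarith [hc b hb a ha, hc c hcO a ha, dist_self a]⟩
    have k0 : ∀ a ∈ U, ∀ b ∈ U, ∀ c ∈ U, J3 a b c (s + e + η) := by
      intro a ha b hb c hcO
      obtain ⟨z, hz⟩ := ih a ha b hb c hcO
      exact ⟨z, by linarith⟩
    rintro a (ha | ha) b (hb | hb) c (hc' | hc')
    · exact k0 a ha b hb c hc'
    · exact k1 a ha b hb c hc'
    · exact (k1 a ha c hc' b hb).swap23
    · exact k2 a ha b hb c hc'
    · exact (k1 b hb c hc' a ha).swap23.swap12
    · exact (k2 b hb a ha c hc').swap12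
    · exact (k2 c hc' a ha b hb).swap12.swap23
    · exact k3 a ha b hb c hc'

/-- the tree of type `ab | cd` -/
def Q (a b c d : V) (T : ℝ) : Prop :=
  ∃ z z', dist a z + dist b z + dist z z' + dist c z' + dist d z' ≤ T

/-- four points can be joined -/
def J4 (a b c d : V) (T : ℝ) : Prop := Q a b c d T ∨ Q a c b d T ∨ Q a d b c T

theorem Q.swap (a b c d : V) {T : ℝ} (h : Q a b c d T) : Q b a c d T := by
  obtain ⟨z, z', hz⟩ := h; exact ⟨z, z', by linarith⟩

theorem Q.swap' (a b c d : V) {T : ℝ} (h : Q a b c d T) : Q a b d c T := by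
  obtain ⟨z, z', hz⟩ := h; exact ⟨z, z', by linarith⟩

theorem Q.flip (a b c d : V) {T : ℝ} (h : Q a b c d T) : Q c d a b T := by
  obtain ⟨z, z', hz⟩ := h; exact ⟨z', z, by rw [dist_comm z' z]; linarith⟩

theorem J4.s12 {a b c d : V} {T : ℝ} (h : J4 a b c d T) : J4 b a c d T := by
  rcases h with h | h | h
  · exact Or.inl h.swap
  · exact Or.inr (Or.inr (h.flip.swap'.swap'.swap).swap)
  · exact Or.inr (Or.inl h.flip.swap'.swap')

theorem J4.s23 {a b c d : V} {T : ℝ} (h : J4 a b c d T) : J4 a c b d T := by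
  rcases h with h | h | h
  · exact Or.inr (Or.inl h)
  · exact Or.inl h
  · exact Or.inr (Or.inr h.swap')

theorem J4.s34 {a b c d : V} {T : ℝ} (h : J4 a b c d T) : J4 a b d c T := by
  rcases h with h | h | h
  · exact Or.inl h.swap'
  · exact Or.inr (Or.inr h)
  · exact Or.inr (Or.inl h)

theorem four (h : Chain η U s) : ∀ a ∈ U, ∀ b ∈ U, ∀ c ∈ U, ∀ d ∈ U, J4 a b c d (s + 2 * η) := by
  induction h with
  | base O e hc0 hc hη =>
    intro a ha b hb c hcO d hd
    exact Or.inl ⟨a, a, by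
      linarith [hc b hb a ha, hc c hcO a ha, hc d hd a ha, dist_self a]⟩
  | step U s O e hU w hwU hwO hc0 hc hη ih =>
    have hs := hU.nonneg
    have two := hU.two
    have three := hU.three
    have k0 : ∀ a ∈ U, ∀ b ∈ U, ∀ c ∈ U, ∀ d ∈ U, J4 a b c d (s + e + 2 * η) := by
      intro a ha b hb c hcU d hd
      rcases ih a ha b hb c hcU d hd with ⟨z, z', h⟩ | ⟨z, z', h⟩ | ⟨z, z', h⟩
      · exact Or.inl ⟨z, z', by linarith⟩
      · exact Or.inr (Or.inl ⟨z, z', by linarith⟩)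
      · exact Or.inr (Or.inr ⟨z, z', by linarith⟩)
    have k1 : ∀ a ∈ U, ∀ b ∈ U, ∀ c ∈ U, ∀ d ∈ O, J4 a b c d (s + e + 2 * η) := by
      intro a ha b hb c hcU d hd
      have hdw := hc d hd w hwO
      rcases ih a ha b hb c hcU w hwU with ⟨z, z', h⟩ | ⟨z, z', h⟩ | ⟨z, z', h⟩
      · exact Or.inl ⟨z, z', by linarith [dist_triangle d w z']⟩
      · exact Or.inr (Or.inl ⟨z, z', by linarith [dist_triangle d w z']⟩)
      · exact Or.inr (Or.inr ⟨z, z', by linarith [dist_triangle d w z]⟩)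
    have k2 : ∀ a ∈ U, ∀ b ∈ U, ∀ c ∈ O, ∀ d ∈ O, J4 a b c d (s + e + 2 * η) := by
      intro a ha b hb c hcO d hd
      have hcw := hc c hcO w hwO
      have hdw := hc d hd w hwO
      obtain ⟨z, hz⟩ := three a ha b hb w hwU
      exact Or.inl ⟨z, w, by rw [dist_comm z w]; linarith⟩
    have k3 : ∀ a ∈ U, ∀ b ∈ O, ∀ c ∈ O, ∀ d ∈ O, J4 a b c d (s + e + 2 * η) := by
      intro a ha b hb c hcO d hd
      have e1 := hc c hcO w hwO
      have e2 := hc d hd w hwO
      have e3 := hc b hb w hwO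
      have e4 := two a ha w hwU
      have e5 := dist_self w
      exact Or.inl ⟨w, w, by linarith⟩
    have k4 : ∀ a ∈ O, ∀ b ∈ O, ∀ c ∈ O, ∀ d ∈ O, J4 a b c d (s + e + 2 * η) := by
      intro a ha b hb c hcO d hd
      exact Or.inl ⟨a, a, by linarith [hc c hcO a ha, hc d hd a ha, hc b hb a ha, dist_self a]⟩
    rintro a (ha | ha) b (hb | hb) c (hc' | hc') d (hd | hd)
    · exact k0 a ha b hb c hc' d hd
    · exact k1 a ha b hb c hc' d hd
    · exact (k1 a ha b hb d hd c hc').s34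
    · exact k2 a ha b hb c hc' d hd
    · exact (k1 a ha c hc' d hd b hb).s34.s23
    · exact (k2 a ha c hc' b hb d hd).s23
    · exact (k2 a ha d hd b hb c hc').s23.s34
    · exact k3 a ha b hb c hc' d hd
    · exact (k1 b hb c hc' d hd a ha).s34.s23.s12
    · exact (k2 b hb c hc' a ha d hd).s23.s12
    · exact (k2 b hb d hd a ha c hc').s23.s34.s12
    · exact (k3 b hb a ha c hc' d hd).s12
    · exact (k2 c hc' d hd a ha b hb).s23.s12.s34.s23
    · exact (k3 c hc' a ha b hb d hd).s12.s23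
    · exact (k3 d hd a ha b hb c hc').s12.s23.s34
    · exact k4 a ha b hb c hc' d hd

end Chain

/-- finite open covers of connected sets can be ordered to chains -/
theorem chain_of_cover {X : Set V} (hX : IsPreconnected X) {ι : Type*} [DecidableEq ι] (F : Finset ι)
    (O : ι → Set V) (c : ι → ℝ) {η : ℝ} (hO : ∀ i ∈ F, IsOpen (O i)) (hc0 : ∀ i ∈ F, 0 ≤ c i)
    (hc : ∀ i ∈ F, ∀ p ∈ O i, ∀ q ∈ O i, dist p q ≤ c i) (hη : ∀ i ∈ F, c i ≤ η)
    (hXO : ∀ i ∈ F, (X ∩ O i).Nonempty) (hcov : X ⊆ ⋃ i ∈ F, O i) :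
    ∀ n, n + 1 ≤ F.card → ∃ G ⊆ F, G.card = n + 1 ∧ Chain η (⋃ i ∈ G, O i) (∑ i ∈ G, c i) := by
  intro n
  induction n with
  | zero =>
    intro h
    obtain ⟨i, hi⟩ := Finset.card_pos.1 (by omega : 0 < F.card)
    refine ⟨{i}, by simpa using hi, by simp, ?_⟩
    simpa using Chain.base (O i) (c i) (hc0 i hi) (hc i hi) (hη i hi)
  | succ n ih =>
    intro h
    obtain ⟨G, hGF, hGc, hG⟩ := ih (by omega)
    have hne : (F \ G).Nonempty := by
      rw [← Finset.card_pos, Finset.card_sdiff_of_subset hGF]; omega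
    obtain ⟨j, hj⟩ := hne
    have hGne : G.Nonempty := Finset.card_pos.1 (by omega)
    obtain ⟨i, hi⟩ := hGne
    have hopen1 : IsOpen (⋃ i ∈ G, O i) := isOpen_biUnion fun i hi => hO i (hGF hi)
    have hopen2 : IsOpen (⋃ i ∈ F \ G, O i) :=
      isOpen_biUnion fun i hi => hO i (Finset.mem_sdiff.1 hi).1
    obtain ⟨w, hwX, hw1, hw2⟩ := hX (⋃ i ∈ G, O i) (⋃ i ∈ F \ G, O i) hopen1 hopen2 (by
        intro z hz
        obtain ⟨k, hk⟩ := mem_iUnion.1 (hcov hz)
        obtain ⟨hkF, hzk⟩ := mem_iUnion.1 hk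
        by_cases hkG : k ∈ G
        · exact Or.inl (mem_iUnion.2 ⟨k, mem_iUnion.2 ⟨hkG, hzk⟩⟩)
        · exact Or.inr (mem_iUnion.2 ⟨k, mem_iUnion.2 ⟨Finset.mem_sdiff.2 ⟨hkF, hkG⟩, hzk⟩⟩))
      (by
        obtain ⟨z, hz, hzO⟩ := hXO i (hGF hi)
        exact ⟨z, hz, mem_iUnion.2 ⟨i, mem_iUnion.2 ⟨hi, hzO⟩⟩⟩)
      (by
        obtain ⟨z, hz, hzO⟩ := hXO j (Finset.mem_sdiff.1 hj).1
        exact ⟨z, hz, mem_iUnion.2 ⟨j, mem_iUnion.2 ⟨hj, hzO⟩⟩⟩)
    obtain ⟨k, hk⟩ := mem_iUnion.1 hw2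
    obtain ⟨hkFG, hwk⟩ := mem_iUnion.1 hk
    have hkF := (Finset.mem_sdiff.1 hkFG).1
    have hkG := (Finset.mem_sdiff.1 hkFG).2
    refine ⟨insert k G, Finset.insert_subset hkF hGF, by rw [Finset.card_insert_of_notMem hkG, hGc], ?_⟩
    have := Chain.step _ _ (O k) (c k) hG w hw1 hwk (hc0 k hkF) (hc k hkF) (hη k hkF)
    rw [Finset.sum_insert hkG, add_comm (c k)]
    have hset : (⋃ i ∈ insert k G, O i) = (⋃ i ∈ G, O i) ∪ O k := by
      rw [Finset.set_biUnion_insert, union_comm]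
    rw [hset]
    exact this

theorem exists_chain {X : Set V} (hXc : IsCompact X) (hX : IsPreconnected X) (hne : X.Nonempty)
    (hfin : μH[1] X ≠ ∞) {η : ℝ} (hη : 0 < η) :
    ∃ U s, Chain η U s ∧ X ⊆ U ∧ s ≤ (μH[1] X).toReal + η := by
  classical
  obtain ⟨t, ht1, ht2, ht3⟩ := exists_cover hfin (η := ENNReal.ofReal (η / 2))
    (ENNReal.ofReal_pos.2 (by linarith))
  set δ : ℕ → ℝ := fun n => (η / 8) * (1 / 2) ^ n with hδ
  have hδpos : ∀ n, 0 < δ n := fun n => by rw [hδ]; positivity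
  have hδle : ∀ n, δ n ≤ η / 8 := by
    intro n
    rw [hδ]
    have : ((1 : ℝ) / 2) ^ n ≤ 1 := pow_le_one₀ (by norm_num) (by norm_num)
    nlinarith
  have hδsum : ∀ F : Finset ℕ, ∑ n ∈ F, δ n ≤ η / 4 := by
    intro F
    have hs : HasSum δ ((η / 8) * 2) := hasSum_geometric_two.mul_left _
    have := sum_le_hasSum F (fun n _ => (hδpos n).le) hs
    linarith
  set O : ℕ → Set V := fun n => thickening (δ n) (t n) with hO
  have hdt : ∀ n, ediam (t n) ≠ ∞ := fun n => ne_top_of_le_ne_top ENNReal.ofReal_ne_top (ht2 n)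
  set c : ℕ → ℝ := fun n => (ediam (t n)).toReal + 2 * δ n with hc
  have hcd : ∀ n, ∀ p ∈ O n, ∀ q ∈ O n, dist p q ≤ c n := by
    intro n p hp q hq
    rw [hO, mem_thickening_iff] at hp hq
    obtain ⟨p', hp', hpd⟩ := hp
    obtain ⟨q', hq', hqd⟩ := hq
    have h1 : dist p' q' ≤ (ediam (t n)).toReal := by
      have := edist_le_ediam_of_mem hp' hq'
      rw [edist_dist] at this
      exact (ENNReal.ofReal_le_iff_le_toReal (hdt n)).1 this
    have h2 := dist_triangle4 p p' q' q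
    rw [dist_comm q' q] at h2
    rw [hc]; simp only; linarith
  have hcη : ∀ n, c n ≤ η := by
    intro n
    have h1 : (ediam (t n)).toReal ≤ η / 2 :=
      ENNReal.toReal_le_of_le_ofReal (by linarith) (ht2 n)
    have := hδle n
    rw [hc]; simp only; linarith
  have hc0 : ∀ n, 0 ≤ c n := fun n => by
    have := (hδpos n).le
    rw [hc]; simp only
    have : 0 ≤ (ediam (t n)).toReal := ENNReal.toReal_nonneg
    linarith
  obtain ⟨F0, hF0⟩ := hXc.elim_finite_subcover O (fun n => isOpen_thickening) (by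
    intro z hz
    obtain ⟨n, hn⟩ := mem_iUnion.1 (ht1 hz)
    exact mem_iUnion.2 ⟨n, self_subset_thickening (hδpos n) _ hn⟩)
  set F := F0.filter (fun n => (X ∩ O n).Nonempty) with hF
  have hcov : X ⊆ ⋃ i ∈ F, O i := by
    intro z hz
    obtain ⟨n, hn⟩ := mem_iUnion.1 (hF0 hz)
    obtain ⟨hnF, hzn⟩ := mem_iUnion.1 hn
    exact mem_iUnion.2 ⟨n, mem_iUnion.2 ⟨Finset.mem_filter.2 ⟨hnF, z, hz, hzn⟩, hzn⟩⟩
  have hFne : 0 < F.card := by
    rw [Finset.card_pos]
    obtain ⟨z, hz⟩ := hne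
    obtain ⟨n, hn⟩ := mem_iUnion.1 (hcov hz)
    obtain ⟨hnF, _⟩ := mem_iUnion.1 hn
    exact ⟨n, hnF⟩
  obtain ⟨G, hGF, hGc, hG⟩ := chain_of_cover hX F O c (fun i _ => isOpen_thickening)
    (fun i _ => hc0 i) (fun i _ => hcd i) (fun i _ => hcη i)
    (fun i hi => (Finset.mem_filter.1 hi).2) hcov (F.card - 1) (by omega)
  have hGF' : G = F := Finset.eq_of_subset_of_card_le hGF (by omega)
  rw [hGF'] at hG
  refine ⟨_, _, hG, hcov, ?_⟩
  have h1 : ∑ i ∈ F, (ediam (t i)).toReal ≤ (μH[1] X).toReal + η / 2 := by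
    rw [← ENNReal.toReal_sum (fun i _ => hdt i)]
    have h2 : ∑ i ∈ F, ediam (t i) ≤ μH[1] X + ENNReal.ofReal (η / 2) := by
      refine le_trans ?_ ht3
      refine le_trans (Finset.sum_le_sum fun i _ => ?_) (ENNReal.sum_le_tsum F)
      rcases (t i).eq_empty_or_nonempty with h | h
      · rw [h]; simp
      · exact le_iSup (fun _ : (t i).Nonempty => ediam (t i)) h
    have h3 : μH[1] X + ENNReal.ofReal (η / 2) ≠ ∞ := ENNReal.add_ne_top.2 ⟨hfin, ENNReal.ofReal_ne_top⟩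
    have h4 := (ENNReal.toReal_le_toReal (ne_top_of_le_ne_top h3 h2) h3).2 h2
    rw [ENNReal.toReal_add hfin ENNReal.ofReal_ne_top, ENNReal.toReal_ofReal (by linarith)] at h4
    exact h4
  have h2 := hδsum F
  rw [hc, Finset.sum_add_distrib, ← Finset.mul_sum]
  linarith

/-- a connected set of finite length is bounded -/
theorem dist_le_of_conn {X : Set V} (hX : IsPreconnected X) (hfin : μH[1] X ≠ ∞) {a w : V}
    (ha : a ∈ X) (hw : w ∈ X) : dist w a ≤ (μH[1] X).toReal := by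
  set f : V → ℝ := fun z => dist z a with hf
  have hL : LipschitzWith 1 f := LipschitzWith.dist_left a
  have h1 : Icc 0 (dist w a) ⊆ f '' X := by
    have hpre : IsPreconnected (f '' X) := hX.image f hL.continuous.continuousOn
    have h0 : (0 : ℝ) ∈ f '' X := ⟨a, ha, by simp [hf]⟩
    have hd : dist w a ∈ f '' X := ⟨w, hw, rfl⟩
    exact hpre.Icc_subset h0 hd
  have h2 : ENNReal.ofReal (dist w a) ≤ μH[1] X := by
    have h3 := hL.hausdorffMeasure_image_le (zero_le_one) X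
    rw [hausdorffMeasure_real] at h3
    simp only [ENNReal.coe_one, ENNReal.one_rpow, one_mul] at h3
    refine le_trans ?_ h3
    refine le_trans ?_ (measure_mono h1)
    rw [Real.volume_Icc, sub_zero]
  exact (ENNReal.ofReal_le_iff_le_toReal hfin).1 h2

theorem compact_of_conn [ProperSpace V] {X : Set V} (hX : IsPreconnected X) (hcl : IsClosed X)
    (hne : X.Nonempty) (hfin : μH[1] X ≠ ∞) : IsCompact X := by
  obtain ⟨a, ha⟩ := hne
  refine (isCompact_closedBall a ((μH[1] X).toReal)).of_isClosed_subset hcl fun w hw => ?_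
  exact mem_closedBall.2 (dist_le_of_conn hX hfin ha hw)

theorem inner_le_dist {e : V} (he : ‖e‖ ≤ 1) (a z : V) : inner ℝ e (a - z) ≤ dist a z := by
  rw [dist_eq_norm]
  have h1 := real_inner_le_norm e (a - z)
  nlinarith [norm_nonneg (a - z), norm_nonneg e]

/-- lower bound for the length of a connected set through three points -/
theorem three_lower [ProperSpace V] {X : Set V} (hX : IsPreconnected X) (hcl : IsClosed X)
    (hfin : μH[1] X ≠ ∞) {a b c : V} (ha : a ∈ X) (hb : b ∈ X) (hc : c ∈ X) {ea eb ec : V}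
    (h1 : ‖ea‖ ≤ 1) (h2 : ‖eb‖ ≤ 1) (h3 : ‖ec‖ ≤ 1) (hsum : ea + eb + ec = 0) :
    inner ℝ ea a + inner ℝ eb b + inner ℝ ec c ≤ (μH[1] X).toReal := by
  have hcomp := compact_of_conn hX hcl ⟨a, ha⟩ hfin
  refine le_of_forall_pos_le_add fun η hη => ?_
  obtain ⟨U, s, hU, hXU, hs⟩ := exists_chain hcomp hX ⟨a, ha⟩ hfin (half_pos hη)
  obtain ⟨z, hz⟩ := hU.three a (hXU ha) b (hXU hb) c (hXU hc)
  have i1 := inner_le_dist h1 a z
  have i2 := inner_le_dist h2 b z
  have i3 := inner_le_dist h3 c z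
  rw [inner_sub_right] at i1 i2 i3
  have i4 : inner ℝ ea z + inner ℝ eb z + inner ℝ ec z = 0 := by
    rw [← inner_add_left, ← inner_add_left, hsum, inner_zero_left]
  linarith

theorem Q_lower {a b c d : V} {T : ℝ} (h : Chain.Q a b c d T) {ea eb ec ed : V}
    (h1 : ‖ea‖ ≤ 1) (h2 : ‖eb‖ ≤ 1) (h3 : ‖ec‖ ≤ 1) (h4 : ‖ed‖ ≤ 1)
    (hsum : ea + eb + ec + ed = 0) (h5 : ‖ea + eb‖ ≤ 1) :
    inner ℝ ea a + inner ℝ eb b + inner ℝ ec c + inner ℝ ed d ≤ T := by
  obtain ⟨z, z', hz⟩ := h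
  have i1 := inner_le_dist h1 a z
  have i2 := inner_le_dist h2 b z
  have i3 := inner_le_dist h3 c z'
  have i4 := inner_le_dist h4 d z'
  have i5 := inner_le_dist h5 z z'
  rw [inner_sub_right] at i1 i2 i3 i4 i5
  have i6 : inner ℝ (ea + eb) z' + inner ℝ ec z' + inner ℝ ed z' = 0 := by
    rw [← inner_add_left, ← inner_add_left, hsum, inner_zero_left]
  rw [inner_add_left] at i5
  linarith

end H11ST
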