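import Pool.Agent.H11ST.St
open MeasureTheory Metric Set Filter Topology
open scoped ENNReal NNReal

namespace H11ST
set_option linter.unusedSectionVars false

section
variable {V : Type*} [NormedAddCommGroup V] [InnerProductSpace ℝ V] [MeasurableSpace V] [BorelSpace V]

theorem arm_sub_seg (y v : V) {a b : ℝ} : arm y v a b ⊆ segment ℝ (y + a • v) (y + b • v) := by
  rintro z ⟨s, ⟨h1, h2⟩, rfl⟩
  rcases eq_or_lt_of_le (h1.trans h2) with hab | hab
  · have : s = a := le_antisymm (by linarith) h1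
    subst this
    exact left_mem_segment ℝ _ _
  · rw [segment_eq_image]
    refine ⟨(s - a) / (b - a), ⟨div_nonneg (by linarith) (by linarith),
      (div_le_one (by linarith)).2 (by linarith)⟩, ?_⟩
    have hba : b - a ≠ 0 := by linarith [sub_pos.2 hab]
    simp only [smul_add, ← mul_smul]
    have e1 : (1 - (s - a) / (b - a)) • y + ((s - a) / (b - a)) • y = y := by
      rw [← add_smul]; simp
    have e2 : ((1 - (s - a) / (b - a)) * a) • v + ((s - a) / (b - a) * b) • v = s • v := by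
      rw [← add_smul]; congr 1; field_simp; ring
    calc (1 - (s - a) / (b - a)) • y + ((1 - (s - a) / (b - a)) * a) • v +
        (((s - a) / (b - a)) • y + ((s - a) / (b - a) * b) • v)
        = ((1 - (s - a) / (b - a)) • y + ((s - a) / (b - a)) • y) +
          (((1 - (s - a) / (b - a)) * a) • v + ((s - a) / (b - a) * b) • v) := by abel
      _ = y + s • v := by rw [e1, e2]

theorem dist_lineR (y v : V) (hv : ‖v‖ = 1) (s : ℝ) : dist (y + s • v) y = |s| := by
  rw [dist_eq_norm]; simp [norm_smul, hv]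

/-- a closed subset of full length contains every segment -/
theorem full {K T : Set V} (hK : IsClosed K) (hKT : K ⊆ T) (hfin : μH[1] K ≠ ∞)
    (hle : μH[1] T ≤ μH[1] K) {a b : V} (hab : segment ℝ a b ⊆ T) (hne : a ≠ b) :
    segment ℝ a b ⊆ K := by
  intro v hv
  by_contra hvK
  obtain ⟨δ, hδ, hball⟩ := Metric.isOpen_iff.1 hK.isOpen_compl v hvK
  obtain ⟨c, hc, hcv⟩ : ∃ c ∈ segment ℝ a b, v ≠ c := by
    by_cases h : a = v
    · exact ⟨b, right_mem_segment _ _ _, fun h' => hne (h.trans h')⟩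
    · exact ⟨a, left_mem_segment _ _ _, fun h' => h h'.symm⟩
  have hd : 0 < dist v c := dist_pos.2 hcv
  set s := min 1 (δ / (2 * dist v c)) with hs
  have hs0 : 0 < s := lt_min one_pos (by positivity)
  have hs1 : s ≤ 1 := min_le_left _ _
  have hsd : s * dist v c ≤ δ / 2 := by
    have h1 : s ≤ δ / (2 * dist v c) := min_le_right _ _
    calc s * dist v c ≤ δ / (2 * dist v c) * dist v c := mul_le_mul_of_nonneg_right h1 hd.le
      _ = δ / 2 := by field_simp
  set v' := AffineMap.lineMap v c s with hv'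
  have hdv' : dist v' v = s * dist v c := by
    rw [hv', dist_lineMap_left, Real.norm_of_nonneg hs0.le]
  have hv'seg : v' ∈ segment ℝ v c := by
    rw [segment_eq_image_lineMap]; exact ⟨s, ⟨hs0.le, hs1⟩, rfl⟩
  have hv'ab : v' ∈ segment ℝ a b := (convex_segment a b).segment_subset hv hc hv'seg
  have hsub1 : segment ℝ v v' ⊆ T :=
    ((convex_segment a b).segment_subset hv hv'ab).trans hab
  have hsub2 : segment ℝ v v' ⊆ Kᶜ := by
    refine ((convex_ball v δ).segment_subset (mem_ball_self hδ) ?_).trans hball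
    rw [mem_ball, hdv']; linarith
  have h1 : μH[1] K + μH[1] (segment ℝ v v') ≤ μH[1] T := by
    rw [← measure_union' (μ := μH[1]) _ hK.measurableSet]
    · exact measure_mono (union_subset hKT hsub1)
    · rw [disjoint_left]
      intro z hz hz'
      exact hsub2 hz' hz
  have h2 : μH[1] K + μH[1] (segment ℝ v v') ≤ μH[1] K + 0 := by
    rw [add_zero]; exact h1.trans hle
  have h3 := (ENNReal.add_le_add_iff_left hfin).1 h2
  rw [hausdorffMeasure_segment, nonpos_iff_eq_zero, edist_eq_zero] at h3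
  rw [← h3, dist_self] at hdv'
  have : 0 < s * dist v c := mul_pos hs0 hd
  linarith

/-- a point between `p` and `w` at distance `ρ` from `p` -/
theorem between {p z w : V} {ρ : ℝ} (hρ : 0 < ρ) (hpz : dist p z = ρ) (h : Wbtw ℝ p z w) :
    p = z + ρ • (ρ⁻¹ • (p - z)) ∧ w = z + (-dist w z) • (ρ⁻¹ • (p - z)) := by
  have e1 : p = z + ρ • (ρ⁻¹ • (p - z)) := by
    rw [smul_smul, mul_inv_cancel₀ hρ.ne', one_smul]; abel
  refine ⟨e1, ?_⟩
  have h1 := h.sameRay_vsub
  simp only [vsub_eq_sub] at h1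
  have hzp : z - p ≠ 0 := by
    intro h0
    rw [dist_eq_norm, norm_sub_rev, h0, norm_zero] at hpz
    linarith
  obtain ⟨c, hc, hcw⟩ := h1.exists_nonneg_left hzp
  have h2 : dist w z = c * ρ := by
    rw [dist_eq_norm, ← hcw, norm_smul, Real.norm_of_nonneg hc, norm_sub_rev z p, ← dist_eq_norm,
      hpz]
  rw [h2, smul_smul]
  have : -(c * ρ) * ρ⁻¹ = -c := by field_simp
  rw [this, neg_smul, ← smul_neg, neg_sub, hcw]
  abel

theorem norm_dir {p z : V} {ρ : ℝ} (hρ : 0 < ρ) (hpz : dist p z = ρ) :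
    ‖ρ⁻¹ • (p - z)‖ = 1 := by
  rw [norm_smul, ← dist_eq_norm, hpz, norm_inv, Real.norm_of_nonneg hρ.le, inv_mul_cancel₀ hρ.ne']

/-- exactly two exits -/
theorem case2 {K : Set V} {z p q : V} {ρ : ℝ} (h0 : 0 < ρ) (hK : IsCompact K)
    (hKc : IsPreconnected K) (hz : z ∈ K) (hp : p ∈ K) (hq : q ∈ K)
    (hpz : dist p z = ρ) (hqz : dist q z = ρ) (hne : p ≠ q) (hm : μH[1] K ≤ edist p q) :
    ∃ u : V, ‖u‖ = 1 ∧ K ∩ ball z ρ = {v | ∃ s : ℝ, |s| < ρ ∧ v = z + s • u} := by
  have hfin : μH[1] K ≠ ∞ := ne_top_of_le_ne_top (edist_ne_top _ _) hm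
  have hm' : (μH[1] K).toReal ≤ dist p q := by
    rw [edist_dist] at hm
    exact ENNReal.toReal_le_of_le_ofReal dist_nonneg hm
  have hseg : ∀ v ∈ K, Wbtw ℝ p v q := by
    intro v hv
    obtain ⟨y, hy, h1⟩ := three_in hK hKc hfin hp hq hv
    have h2 := dist_triangle_right p q y
    have h3 : dist v y = 0 := le_antisymm (by linarith) dist_nonneg
    rw [dist_eq_zero] at h3
    subst h3
    rw [← dist_add_dist_eq_iff, dist_comm v q]
    rw [dist_self] at h1
    linarith
  have h1 := (hseg z hz).sameRay_vsub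
  simp only [vsub_eq_sub] at h1
  have hn : ‖z - p‖ = ‖q - z‖ := by
    rw [norm_sub_rev, ← dist_eq_norm, ← dist_eq_norm, hpz, hqz]
  rw [sameRay_iff_of_norm_eq hn] at h1
  have hr : (h0.ne' : ρ ≠ 0) = h0.ne' := rfl
  set u := ρ⁻¹ • (q - z) with hu
  have hun : ‖u‖ = 1 := norm_dir h0 hqz
  have hq' : q = z + ρ • u := by
    rw [hu, smul_smul, mul_inv_cancel₀ h0.ne', one_smul]; abel
  have hp' : p = z + (-ρ) • u := by
    rw [hu, neg_smul, smul_smul, mul_inv_cancel₀ h0.ne', one_smul, ← h1]; abel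
  have hle : μH[1] (segment ℝ p q) ≤ μH[1] K := by
    rw [hausdorffMeasure_segment, edist_dist]
    refine (ENNReal.ofReal_le_iff_le_toReal hfin).2 ?_
    exact dist_le_of_conn hKc hfin hq hp
  have hKT : K ⊆ segment ℝ p q := fun v hv => mem_segment_iff_wbtw.2 (hseg v hv)
  have hfull := full hK.isClosed hKT hfin hle Subset.rfl hne
  refine ⟨u, hun, ?_⟩
  ext v
  constructor
  · rintro ⟨hv, hb⟩
    have h2 := hKT hv
    rw [hp', hq'] at h2
    obtain ⟨s, _, rfl⟩ := seg_sub_arm z u (by linarith) h2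
    rw [mem_ball, dist_lineR z u hun] at hb
    exact ⟨s, hb, rfl⟩
  · rintro ⟨s, hs, rfl⟩
    refine ⟨hfull ?_, ?_⟩
    · rw [hp', hq']
      exact arm_sub_seg z u ⟨s, ⟨by linarith [(abs_lt.1 hs).1], (abs_lt.1 hs).2.le⟩, rfl⟩
    · rw [mem_ball, dist_lineR z u hun]; exact hs

/-- a line meets a sphere in at most two points -/
theorem line_sphere {z F w : V} {ρ t₁ t₂ t₃ : ℝ} (h1 : dist (F + t₁ • w) z = ρ)
    (h2 : dist (F + t₂ • w) z = ρ) (h3 : dist (F + t₃ • w) z = ρ) (h12 : t₁ ≠ t₂) (h13 : t₁ ≠ t₃)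
    (h23 : t₂ ≠ t₃) : w = 0 := by
  have key : ∀ t : ℝ, dist (F + t • w) z = ρ →
      ‖F - z‖ ^ 2 + 2 * t * inner ℝ (F - z) w + t ^ 2 * ‖w‖ ^ 2 = ρ ^ 2 := by
    intro t ht
    rw [← ht, dist_eq_norm]
    have : F + t • w - z = (F - z) + t • w := by abel
    rw [this, norm_add_sq_real, inner_smul_right, norm_smul, mul_pow, Real.norm_eq_abs, sq_abs]
    ring
  have k1 := key _ h1
  have k2 := key _ h2
  have k3 := key _ h3
  have e1 : (t₁ - t₂) * (2 * inner ℝ (F - z) w + (t₁ + t₂) * ‖w‖ ^ 2) = 0 := by linarith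
  have e2 : (t₁ - t₃) * (2 * inner ℝ (F - z) w + (t₁ + t₃) * ‖w‖ ^ 2) = 0 := by linarith
  have e3 := (mul_eq_zero.1 e1).resolve_left (sub_ne_zero.2 h12)
  have e4 := (mul_eq_zero.1 e2).resolve_left (sub_ne_zero.2 h13)
  have e5 : (t₂ - t₃) * ‖w‖ ^ 2 = 0 := by linarith
  have e6 := (mul_eq_zero.1 e5).resolve_left (sub_ne_zero.2 h23)
  exact norm_eq_zero.1 (pow_eq_zero_iff (two_ne_zero) |>.1 e6)

/-- equality case of the convexity of the distance -/
theorem on_line {F G p : V} (hFG : F ≠ G)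
    (h : dist p (midpoint ℝ F G) = (dist p F + dist p G) / 2) : ∃ t : ℝ, p = F + t • (G - F) := by
  have h1 : ‖(F - p) + (G - p)‖ = ‖F - p‖ + ‖G - p‖ := by
    have e : (F - p) + (G - p) = (2 : ℝ) • (midpoint ℝ F G - p) := by
      rw [midpoint_eq_smul_add, smul_sub, smul_smul]
      norm_num
      rw [two_smul]; abel
    rw [e, norm_smul, ← dist_eq_norm, dist_comm, h, ← dist_eq_norm, ← dist_eq_norm, dist_comm p F,
      dist_comm p G]
    norm_num
    ring
  rw [← sameRay_iff_norm_add] at h1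
  rcases h1 with h1 | h1 | ⟨r₁, r₂, hr1, hr2, h1⟩
  · exact ⟨0, by rw [zero_smul, add_zero]; exact (sub_eq_zero.1 h1).symm⟩
  · exact ⟨1, by rw [one_smul]; have := (sub_eq_zero.1 h1).symm; rw [this]; abel⟩
  · have hr : r₁ - r₂ ≠ 0 := by
      intro h2
      have h3 : r₁ = r₂ := by linarith
      rw [h3] at h1
      have h4 := smul_right_injective V hr2.ne' h1
      exact hFG (by simpa using h4)
    refine ⟨-(r₂ / (r₁ - r₂)), ?_⟩
    have h5 : (r₁ - r₂) • p = r₁ • F - r₂ • G := by
      rw [smul_sub, smul_sub] at h1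
      rw [sub_smul]
      have : r₁ • F - r₁ • p - (r₂ • G - r₂ • p) = 0 := by rw [h1, sub_self]
      rw [← sub_eq_zero]
      have e : r₁ • p - r₂ • p - (r₁ • F - r₂ • G) = -(r₁ • F - r₁ • p - (r₂ • G - r₂ • p)) := by abel
      rw [e, this, neg_zero]
    have h6 : p = (r₁ - r₂)⁻¹ • (r₁ • F - r₂ • G) := by
      rw [← h5, smul_smul, inv_mul_cancel₀ hr, one_smul]
    rw [h6, smul_sub, smul_smul, smul_smul, smul_sub, neg_smul, neg_smul]
    have e1 : (r₁ - r₂)⁻¹ * r₁ = 1 + r₂ / (r₁ - r₂) := by field_simp; ring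
    have e2 : (r₁ - r₂)⁻¹ * r₂ = r₂ / (r₁ - r₂) := by field_simp
    rw [e1, e2, add_smul, one_smul]
    abel

/-- the sum of the distances to three points -/
noncomputable def fs (p : Fin 3 → V) (y : V) : ℝ := ∑ i, dist (p i) y

theorem fs_eq (p : Fin 3 → V) (y : V) : fs p y = dist (p 0) y + dist (p 1) y + dist (p 2) y := by
  rw [fs, Fin.sum_univ_three]

/-- uniqueness of the minimiser -/
theorem fs_unique {p : Fin 3 → V} {z : V} {ρ m : ℝ} (hinj : Function.Injective p)
    (hp : ∀ i, dist (p i) z = ρ) (hmin : ∀ y ∈ closedBall z ρ, m ≤ fs p y) {F G : V}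
    (hF : F ∈ closedBall z ρ) (hG : G ∈ closedBall z ρ) (hFm : fs p F ≤ m) (hGm : fs p G ≤ m) :
    F = G := by
  by_contra hne
  have hM : midpoint ℝ F G ∈ closedBall z ρ := by
    have := (convex_closedBall z ρ).segment_subset hF hG (midpoint_mem_segment F G)
    exact this
  have h1 := hmin _ hM
  have h2 : ∀ i, dist (p i) (midpoint ℝ F G) ≤ (dist (p i) F + dist (p i) G) / 2 := by
    intro i
    have e : p i - midpoint ℝ F G = (1 / 2 : ℝ) • ((p i - F) + (p i - G)) := by
      rw [midpoint_eq_smul_add]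
      have : p i = (1 / 2 : ℝ) • (p i + p i) := by
        rw [← two_smul ℝ (p i), smul_smul]; norm_num
      rw [show (⅟2 : ℝ) = 1 / 2 by norm_num]
      conv_lhs => rw [this]
      rw [← smul_sub]; congr 1; abel
    rw [dist_eq_norm, e, norm_smul, dist_eq_norm, dist_eq_norm]
    have := norm_add_le (p i - F) (p i - G)
    rw [Real.norm_of_nonneg (by norm_num)]
    linarith
  rw [fs_eq] at h1 hFm hGm
  have q0 := h2 0
  have q1 := h2 1
  have q2 := h2 2
  obtain ⟨t0, e0⟩ := on_line (p := p 0) hne (by linarith)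
  obtain ⟨t1, e1⟩ := on_line (p := p 1) hne (by linarith)
  obtain ⟨t2, e2⟩ := on_line (p := p 2) hne (by linarith)
  have hd : ∀ s t : ℝ, ∀ i j, i ≠ j → p i = F + s • (G - F) → p j = F + t • (G - F) → s ≠ t := by
    rintro s t i j hij hi hj rfl
    exact hij (hinj (hi.trans hj.symm))
  have h0 := hp 0
  have h1' := hp 1
  have h2' := hp 2
  rw [e0] at h0
  rw [e1] at h1'
  rw [e2] at h2'
  have := line_sphere h0 h1' h2' (hd _ _ 0 1 (by decide) e0 e1) (hd _ _ 0 2 (by decide) e0 e2)
    (hd _ _ 1 2 (by decide) e1 e2)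
  exact hne (sub_eq_zero.1 this).symm

/-- first order condition at the centre -/
theorem first_order {e : Fin 3 → V} {z : V} {ρ : ℝ} (h0 : 0 < ρ) (he : ∀ i, ‖e i‖ = 1)
    (hmin : ∀ y ∈ closedBall z ρ, 3 * ρ ≤ fs (fun i => z + ρ • e i) y) :
    ∀ i j, i ≠ j → inner ℝ (e i) (e j) = -(1 / 2 : ℝ) := by
  set w := ∑ i, e i with hw
  have hwn : ‖w‖ ≤ 3 := by
    rw [hw]
    refine (norm_sum_le _ _).trans ?_
    simp [he]
  have hw0 : w = 0 := by
    by_contra hne
    have hwp : 0 < ‖w‖ := norm_pos_iff.2 hne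
    have hb : z + (ρ / 3) • w ∈ closedBall z ρ := by
      rw [mem_closedBall, dist_eq_norm]
      have : z + (ρ / 3) • w - z = (ρ / 3) • w := by abel
      rw [this, norm_smul, Real.norm_of_nonneg (by positivity)]
      nlinarith
    have h1 := hmin _ hb
    have h2 : ∀ i, dist (z + ρ • e i) (z + (ρ / 3) • w) ≤
        ρ - (1 / 3) * ρ * inner ℝ (e i) w + (1 / 18) * ρ * ‖w‖ ^ 2 := by
      intro i
      rw [dist_eq_norm]
      have : z + ρ • e i - (z + (ρ / 3) • w) = ρ • (e i - (1 / 3 : ℝ) • w) := by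
        rw [smul_sub, smul_smul]
        have : ρ * (1 / 3) = ρ / 3 := by ring
        rw [this]; abel
      rw [this]
      refine (norm_le_of_sq h0 rfl).trans (le_of_eq ?_)
      rw [norm_smul, Real.norm_of_nonneg h0.le, mul_pow, norm_sub_sq_real, he i, inner_smul_right,
        norm_smul, mul_pow]
      norm_num
      field_simp
      ring
    have h3 : ∑ i, (ρ - (1 / 3) * ρ * inner ℝ (e i) w + (1 / 18) * ρ * ‖w‖ ^ 2) =
        3 * ρ - (1 / 6) * ρ * ‖w‖ ^ 2 := by
      rw [Finset.sum_add_distrib, Finset.sum_sub_distrib, ← Finset.mul_sum]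
      have : ∑ i, inner ℝ (e i) w = ‖w‖ ^ 2 := by
        rw [← sum_inner, ← hw, real_inner_self_eq_norm_sq]
      rw [this]
      simp only [Finset.sum_const, Finset.card_univ, Fintype.card_fin, nsmul_eq_mul]
      push_cast
      ring
    have h4 : fs (fun i => z + ρ • e i) (z + (ρ / 3) • w) ≤ 3 * ρ - (1 / 6) * ρ * ‖w‖ ^ 2 := by
      rw [← h3]; exact Finset.sum_le_sum fun i _ => h2 i
    have : 0 < (1 / 6) * ρ * ‖w‖ ^ 2 := by positivity
    linarith
  have hs : ∀ i, inner ℝ (e i) (e 0) + inner ℝ (e i) (e 1) + inner ℝ (e i) (e 2) = (0 : ℝ) := by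
    intro i
    rw [← inner_add_right, ← inner_add_right]
    have : e 0 + e 1 + e 2 = 0 := by rw [← hw0, hw, Fin.sum_univ_three]
    rw [this, inner_zero_right]
  have n : ∀ i, inner ℝ (e i) (e i) = (1 : ℝ) := fun i => by
    rw [real_inner_self_eq_norm_sq, he i]; norm_num
  have s0 := hs 0
  have s1 := hs 1
  have s2 := hs 2
  rw [n] at s0 s1 s2
  have c01 := real_inner_comm (e 0) (e 1)
  have c02 := real_inner_comm (e 0) (e 2)
  have c12 := real_inner_comm (e 1) (e 2)
  intro i j hij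
  fin_cases i <;> fin_cases j <;> first | exact absurd rfl hij | (simp only [Fin.zero_eta, Fin.mk_one, Fin.reduceFinMk]; linarith)

/-- the tripod set -/
def tr (p : Fin 3 → V) (F : V) : Set V := ⋃ i, segment ℝ F (p i)

theorem tr_measure (p : Fin 3 → V) (F : V) : μH[1] (tr p F) ≤ ENNReal.ofReal (fs p F) := by
  refine (measure_iUnion_fintype_le _ _).trans ?_
  rw [fs, ENNReal.ofReal_sum_of_nonneg (fun i _ => dist_nonneg)]
  refine Finset.sum_le_sum fun i _ => ?_
  rw [hausdorffMeasure_segment, edist_dist, dist_comm]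

theorem tr_closed (p : Fin 3 → V) (F : V) : IsClosed (tr p F) :=
  isClosed_iUnion_of_finite fun i => seg_closed F (p i)

theorem tr_preconn (p : Fin 3 → V) (F : V) : IsPreconnected (tr p F) := by
  refine isPreconnected_iUnion ⟨F, mem_iInter.2 fun i => left_mem_segment ℝ _ _⟩ fun i => ?_
  exact (convex_segment F (p i)).isPreconnected

/-- exactly three exits -/
theorem case3 [ProperSpace V] {K : Set V} {z : V} {p : Fin 3 → V} {ρ : ℝ} (h0 : 0 < ρ)
    (hK : IsCompact K)
    (hKc : IsPreconnected K) (hz : z ∈ K) (hKb : K ⊆ closedBall z ρ) (hp : ∀ i, p i ∈ K)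
    (hpz : ∀ i, dist (p i) z = ρ) (hinj : Function.Injective p)
    (hm : ∀ F ∈ closedBall z ρ, μH[1] K ≤ μH[1] (tr p F)) :
    (∃ u ε, Lin K z u ε ∧ ε ≤ ρ) ∨ ∃ u ε, Tri K z u ε ∧ ε ≤ ρ := by
  obtain ⟨F, hF, hFmin⟩ := (isCompact_closedBall z ρ).exists_isMinOn ⟨z, mem_closedBall_self h0.le⟩
    (f := fs p) (by
      have : Continuous (fs p) := by unfold fs; fun_prop
      exact this.continuousOn)
  set m := fs p F with hmdef
  have hmin : ∀ y ∈ closedBall z ρ, m ≤ fs p y := fun y hy => hFmin hy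
  have hm1 := (hm F hF).trans (tr_measure p F)
  have hfin : μH[1] K ≠ ∞ := ne_top_of_le_ne_top ENNReal.ofReal_ne_top hm1
  have hm0 : 0 ≤ m := Finset.sum_nonneg fun i _ => dist_nonneg
  have hm2 : (μH[1] K).toReal ≤ m := ENNReal.toReal_le_of_le_ofReal hm0 hm1
  have hm3 : m ≤ (μH[1] K).toReal := by
    obtain ⟨y, hy, h1⟩ := three_in hK hKc hfin (hp 0) (hp 1) (hp 2)
    have := hmin y (hKb hy)
    rw [fs_eq] at this
    linarith
  have hle : μH[1] (tr p F) ≤ μH[1] K := by
    refine (tr_measure p F).trans ?_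
    exact (ENNReal.ofReal_le_iff_le_toReal hfin).2 hm3
  have hFp : ∀ i, F ≠ p i → segment ℝ F (p i) ⊆ tr p F := fun i _ =>
    subset_iUnion (fun i => segment ℝ F (p i)) i
  -- every point of K lies on a segment
  have hseg : ∀ v ∈ K, ∃ i, Wbtw ℝ (p i) v F ∧ F ∈ K := by
    intro v hv
    have aux : ∀ a b c w w' : V, w ∈ K → w' ∈ K → fs p w = dist a w + dist b w + dist c w →
        dist a w + dist b w + dist w w' + dist c w' + dist v w' ≤ (μH[1] K).toReal →
        Wbtw ℝ c v F ∧ F ∈ K := by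
      intro a b c w w' hw hw' he h1
      have h2 := hmin w (hKb hw)
      have h3 := dist_triangle_right c w w'
      have h4 : dist v w' = 0 := le_antisymm (by linarith) dist_nonneg
      have h5 : v = w' := dist_eq_zero.1 h4
      subst h5
      have h6 : w = F := by
        refine fs_unique hinj hpz hmin (hKb hw) hF ?_ le_rfl
        linarith
      subst h6
      refine ⟨?_, hw⟩
      rw [← dist_add_dist_eq_iff, dist_comm v w]
      linarith [dist_triangle c v w, dist_comm v w]
    rcases four_in hK hKc hfin (hp 0) (hp 1) (hp 2) hv with ⟨w, hw, w', hw', h⟩ | ⟨w, hw, w', hw', h⟩ |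
      ⟨w, hw, w', hw', h⟩
    · exact ⟨2, aux _ _ _ w w' hw hw' (fs_eq p w) h⟩
    · exact ⟨1, aux (p 0) (p 2) (p 1) w w' hw hw' (by rw [fs_eq]; ring) h⟩
    · refine ⟨0, aux (p 1) (p 2) (p 0) w' w hw' hw (by rw [fs_eq]; ring) ?_⟩
      rw [dist_comm w' w]; linarith
  have hKT : K ⊆ tr p F := by
    intro v hv
    obtain ⟨i, hi, _⟩ := hseg v hv
    exact mem_iUnion.2 ⟨i, by rw [segment_symm]; exact mem_segment_iff_wbtw.2 hi⟩
  have hfull : ∀ i, F ≠ p i → segment ℝ F (p i) ⊆ K := fun i hi =>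
    full hK.isClosed hKT hfin hle (hFp i hi) hi
  by_cases hzF : z = F
  · right
    set e : Fin 3 → V := fun i => ρ⁻¹ • (p i - z) with he
    have hen : ∀ i, ‖e i‖ = 1 := fun i => norm_dir h0 (hpz i)
    have hpe : ∀ i, p i = z + ρ • e i := by
      intro i
      rw [he]; simp only
      rw [smul_smul, mul_inv_cancel₀ h0.ne', one_smul]; abel
    have hpfun : p = fun i => z + ρ • e i := funext hpe
    have hfz : m = 3 * ρ := by
      rw [hmdef, ← hzF, fs_eq, hpz, hpz, hpz]; ring
    refine ⟨e, ρ, ⟨h0, hen, first_order (z := z) h0 hen (fun y hy => ?_), ?_⟩, le_rfl⟩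
    · have := hmin y hy
      rw [hfz, hpfun] at this
      exact this
    · ext v
      constructor
      · rintro ⟨hv, hb⟩
        obtain ⟨i, hi, _⟩ := hseg v hv
        have h2 : v ∈ segment ℝ F (p i) := by
          rw [segment_symm]; exact mem_segment_iff_wbtw.2 hi
        rw [← hzF, hpe i, show z = z + (0 : ℝ) • e i by simp] at h2
        have h3 : v ∈ segment ℝ (z + (0 : ℝ) • e i) (z + ρ • e i) := by
          simpa using h2
        obtain ⟨s, ⟨hs0, hs1⟩, rfl⟩ := seg_sub_arm z (e i) h0.le h3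
        simp only at hb
        rw [mem_ball, dist_lineR z _ (hen i), abs_of_nonneg hs0] at hb
        exact ⟨i, s, hs0, hb, rfl⟩
      · rintro ⟨i, s, hs0, hs1, rfl⟩
        refine ⟨hfull i ?_ ?_, ?_⟩
        · rw [← hzF]; intro h
          have := hpz i
          rw [← h, dist_self] at this
          linarith
        · rw [← hzF, hpe i]
          have := arm_sub_seg z (e i) (mem_image_of_mem (fun s : ℝ => z + s • e i)
            (show s ∈ Icc (0 : ℝ) ρ from ⟨hs0, hs1.le⟩))
          simpa using this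
        · rw [mem_ball, dist_lineR z _ (hen i), abs_of_nonneg hs0]; exact hs1
  · left
    obtain ⟨i, hi, _⟩ := hseg z hz
    obtain ⟨e1, e2⟩ := between h0 (hpz i) hi
    set u := ρ⁻¹ • (p i - z) with hu
    have hun : ‖u‖ = 1 := norm_dir h0 (hpz i)
    set D := dist F z with hD
    have hDpos : 0 < D := dist_pos.2 (fun h => hzF h.symm)
    have hFpi : F ≠ p i := by
      intro h
      have h1 := hpz i
      rw [← h] at h1
      have h2 : (-D) • u = ρ • u := by
        have : z + (-D) • u = z + ρ • u := by rw [← e2, ← e1]; exact h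
        exact add_left_cancel this
      have h3 : (-D - ρ) • u = 0 := by rw [sub_smul, h2, sub_self]
      rcases smul_eq_zero.1 h3 with h4 | h4
      · linarith
      · rw [h4, norm_zero] at hun; exact zero_ne_one hun
    have hother : ∀ j, j ≠ i → z ∉ segment ℝ F (p j) := by
      intro j hj hzj
      rw [segment_symm] at hzj
      obtain ⟨e3, e4⟩ := between h0 (hpz j) (mem_segment_iff_wbtw.1 hzj)
      have h1 : (-D) • u = (-D) • (ρ⁻¹ • (p j - z)) := by
        have : z + (-D) • u = z + (-D) • (ρ⁻¹ • (p j - z)) := by rw [← e2]; exact e4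
        exact add_left_cancel this
      have h2 := smul_right_injective V (neg_ne_zero.2 hDpos.ne') h1
      apply hj
      apply hinj
      rw [e3, e1]
      rw [← h2]
    have hδ : ∃ δ > 0, ∀ j, j ≠ i → ∀ v ∈ ball z δ, v ∉ segment ℝ F (p j) := by
      have hopen : IsOpen (⋂ j : {j // j ≠ i}, (segment ℝ F (p j.1))ᶜ) :=
        isOpen_iInter_of_finite fun j => (seg_closed F (p j.1)).isOpen_compl
      obtain ⟨δ, hδ, hb⟩ := Metric.isOpen_iff.1 hopen z (mem_iInter.2 fun j => hother j.1 j.2)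
      exact ⟨δ, hδ, fun j hj v hv => mem_iInter.1 (hb hv) ⟨j, hj⟩⟩
    obtain ⟨δ, hδ, hδo⟩ := hδ
    set ε := min δ (min D ρ) with hε
    have hε0 : 0 < ε := lt_min hδ (lt_min hDpos h0)
    have hε1 : ε ≤ δ := min_le_left _ _
    have hε2 : ε ≤ D := (min_le_right _ _).trans (min_le_left _ _)
    have hε3 : ε ≤ ρ := (min_le_right _ _).trans (min_le_right _ _)
    refine ⟨u, ε, ⟨hε0, hun, ?_⟩, hε3⟩
    ext v
    constructor
    · rintro ⟨hv, hb⟩
      obtain ⟨j, hj⟩ := mem_iUnion.1 (hKT hv)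
      have hji : j = i := by
        by_contra hne
        exact hδo j hne v (ball_subset_ball hε1 hb) hj
      subst hji
      rw [e2, e1] at hj
      obtain ⟨s, _, rfl⟩ := seg_sub_arm z u (by linarith) hj
      simp only at hb
      rw [mem_ball, dist_lineR z u hun] at hb
      exact ⟨s, hb, rfl⟩
    · rintro ⟨s, hs, rfl⟩
      have hs' := abs_lt.1 hs
      refine ⟨hfull i hFpi ?_, ?_⟩
      · have := arm_sub_seg z u (mem_image_of_mem (fun s : ℝ => z + s • u)
          (show s ∈ Icc (-D) ρ from ⟨by linarith [hs'.1], by linarith [hs'.2]⟩))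
        rw [← e2, ← e1] at this
        exact this
      · rw [mem_ball, dist_lineR z u hun]; exact hs

/-- regularity at the centre of a ball whose sphere meets `S` in at most three points -/
theorem reg_core [ProperSpace V] {A S : Set V} {z : V} {R ρ : ℝ} (L : LocAdm A S z R)
    (hA : IsClosed A) (hzS : z ∈ S) (h0 : 0 < ρ) (hρ : ρ < R)
    (hne : (S ∩ sphere z ρ).Nonempty) (h3 : (S ∩ sphere z ρ).encard ≤ 3) :
    (∃ u ε, Lin S z u ε) ∨ ∃ u ε, Tri S z u ε := by
  classical
  have hfinP : (S ∩ sphere z ρ).Finite := finite_of_encard_le_coe (k := 3) (by exact_mod_cast h3)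
  set P := hfinP.toFinset with hPdef
  have hP : ∀ p, p ∈ P ↔ p ∈ S ∩ sphere z ρ := fun p => hfinP.mem_toFinset
  have hPc : P.card ≤ 3 := by
    have : (S ∩ sphere z ρ).encard = P.card := hfinP.encard_eq_coe_toFinset_card
    rw [this] at h3
    exact_mod_cast h3
  obtain ⟨p0, hp0⟩ := hne
  have hp0P : p0 ∈ P := (hP p0).2 hp0
  set Z := S ∩ closedBall z ρ with hZ
  have hZc : IsCompact Z := (isCompact_closedBall z ρ).inter_left L.hS
  have two : ∀ w ∈ S ∩ ball z ρ, 2 ≤ (P.filter (· ∈ connectedComponentIn Z w)).card := by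
    rintro w ⟨hwS, hwb⟩
    obtain ⟨q1, hq1, _, hq1K⟩ := L.two_on_sphere hA hρ hP hwS hwb hp0P
    obtain ⟨q2, hq2, hne2, hq2K⟩ := L.two_on_sphere hA hρ hP hwS hwb hq1
    exact Finset.one_lt_card.2 ⟨q1, Finset.mem_filter.2 ⟨hq1, hq1K⟩, q2,
      Finset.mem_filter.2 ⟨hq2, hq2K⟩, hne2.symm⟩
  set K := connectedComponentIn Z z with hK
  have hzZ : z ∈ Z := ⟨hzS, mem_closedBall_self h0.le⟩
  have hzK : z ∈ K := mem_connectedComponentIn hzZ
  have hKZ : K ⊆ Z := connectedComponentIn_subset _ _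
  have hKc : IsPreconnected K := isPreconnected_connectedComponentIn
  have hKcl : IsClosed K := by
    have h1 : closure K ⊆ K := by
      refine hKc.closure.subset_connectedComponentIn (subset_closure hzK) ?_
      exact closure_minimal hKZ hZc.isClosed
    exact isClosed_of_closure_subset h1
  have hKcomp : IsCompact K := hZc.of_isClosed_subset hKcl hKZ
  have hall : ∀ w ∈ S ∩ ball z ρ, w ∈ K := by
    intro w hw
    have h1 := two w hw
    have h2 := two z ⟨hzS, mem_ball_self h0⟩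
    have h4 := Finset.card_union_add_card_inter (P.filter (· ∈ connectedComponentIn Z w))
      (P.filter (· ∈ connectedComponentIn Z z))
    have h5 : (P.filter (· ∈ connectedComponentIn Z w) ∪
        P.filter (· ∈ connectedComponentIn Z z)).card ≤ P.card :=
      Finset.card_le_card (Finset.union_subset (Finset.filter_subset _ _) (Finset.filter_subset _ _))
    have h6 : 0 < (P.filter (· ∈ connectedComponentIn Z w) ∩
        P.filter (· ∈ connectedComponentIn Z z)).card := by omega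
    obtain ⟨q, hq⟩ := Finset.card_pos.1 h6
    rw [Finset.mem_inter, Finset.mem_filter, Finset.mem_filter] at hq
    have h7 := connectedComponentIn_eq hq.1.2
    have h8 := connectedComponentIn_eq hq.2.2
    rw [hK, h8, ← h7]
    exact mem_connectedComponentIn ⟨hw.1, ball_subset_closedBall hw.2⟩
  have hball : S ∩ ball z ρ = K ∩ ball z ρ := by
    ext w
    exact ⟨fun h => ⟨hall w h, h.2⟩, fun h => ⟨(hKZ h.1).1, h.2⟩⟩
  have onS : ∀ w, w ∈ closedBall z ρ → w ∉ ball z ρ → w ∈ sphere z ρ := by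
    intro w h1 h2
    rw [mem_sphere]
    refine le_antisymm (mem_closedBall.1 h1) ?_
    by_contra hlt
    push Not at hlt
    exact h2 (mem_ball.2 hlt)
  have hcompl : IsClosed (Z \ K) := by
    have : Z \ K ⊆ P := by
      rintro w ⟨hw, hwK⟩
      by_cases hb : w ∈ ball z ρ
      · exact absurd (hall w ⟨hw.1, hb⟩) hwK
      · exact (hP w).2 ⟨hw.1, onS w hw.2 hb⟩
    exact (P.finite_toSet.subset this).isClosed
  set F1 := P.filter (· ∈ K) with hF1
  have hF1m : ∀ q, q ∈ F1 ↔ q ∈ K ∩ sphere z ρ := by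
    intro q
    rw [hF1, Finset.mem_filter, hP]
    exact ⟨fun h => ⟨h.2, h.1.2⟩, fun h => ⟨⟨(hKZ h.1).1, h.2⟩, h.1⟩⟩
  have hF1c : 2 ≤ F1.card := two z ⟨hzS, mem_ball_self h0⟩
  have hF1c' : F1.card ≤ 3 := (Finset.card_filter_le _ _).trans hPc
  have hKne : (K ∩ sphere z ρ).Nonempty := by
    obtain ⟨q, hq⟩ := Finset.card_pos.1 (lt_of_lt_of_le (by norm_num) hF1c)
    exact ⟨q, (hF1m q).1 hq⟩
  have hcomp : ∀ C : Set V, IsClosed C → IsPreconnected C → C ⊆ closedBall z ρ →
      (∀ q ∈ F1, q ∈ C) → μH[1] K ≤ μH[1] C := by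
    intro C h1 h2 h4 h5
    have h6 := L.comp' hA hρ hKcl hcompl hKZ h1 h2 h4 (fun q hq => h5 q ((hF1m q).2 hq)) hKne
    have h7 : μH[1] (P : Set V) = 0 := fin_measure_zero P.finite_toSet
    calc μH[1] K ≤ μH[1] ((K ∩ ball z ρ) ∪ (P : Set V)) := by
          refine measure_mono fun w hw => ?_
          by_cases hb : w ∈ ball z ρ
          · exact Or.inl ⟨hw, hb⟩
          · exact Or.inr ((hP w).2 ⟨(hKZ hw).1, onS w (hKZ hw).2 hb⟩)
      _ ≤ μH[1] (K ∩ ball z ρ) + μH[1] (P : Set V) := measure_union_le _ _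
      _ = μH[1] (K ∩ ball z ρ) := by rw [h7, add_zero]
      _ ≤ μH[1] C := h6
  rcases Nat.lt_or_ge F1.card 3 with hlt | hge
  · have hc2 : F1.card = 2 := by omega
    obtain ⟨p, q, hpq, hF⟩ := Finset.card_eq_two.1 hc2
    have hp : p ∈ F1 := by rw [hF]; exact Finset.mem_insert_self _ _
    have hq : q ∈ F1 := by rw [hF]; exact Finset.mem_insert_of_mem (Finset.mem_singleton_self _)
    have hp' := (hF1m p).1 hp
    have hq' := (hF1m q).1 hq
    have hm := hcomp (segment ℝ p q) (seg_closed p q) (convex_segment p q).isPreconnected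
      ((convex_closedBall z ρ).segment_subset (sphere_subset_closedBall hp'.2)
        (sphere_subset_closedBall hq'.2)) (by
        intro s hs
        rw [hF, Finset.mem_insert, Finset.mem_singleton] at hs
        rcases hs with rfl | rfl
        · exact left_mem_segment _ _ _
        · exact right_mem_segment _ _ _)
    rw [hausdorffMeasure_segment] at hm
    obtain ⟨u, hu, heq⟩ := case2 h0 hKcomp hKc hzK hp'.1 hq'.1 (mem_sphere.1 hp'.2)
      (mem_sphere.1 hq'.2) hpq hm
    exact Or.inl ⟨u, ρ, h0, hu, by rw [hball]; exact heq⟩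
  · have hc3 : F1.card = 3 := by omega
    obtain ⟨a, b, c, hab, hac, hbc, hF⟩ := Finset.card_eq_three.1 hc3
    have ha : a ∈ F1 := by rw [hF]; simp
    have hb : b ∈ F1 := by rw [hF]; simp
    have hc : c ∈ F1 := by rw [hF]; simp
    set p : Fin 3 → V := ![a, b, c] with hp
    have hpF : ∀ i, p i ∈ F1 := by
      intro i
      fin_cases i
      · exact ha
      · exact hb
      · exact hc
    have hinj : Function.Injective p := by
      intro i j hij
      fin_cases i <;> fin_cases j <;> first | rfl | (exfalso; simp [hp] at hij; first | exact hab hij | exact hac hij | exact hbc hij | exact hab hij.symm | exact hac hij.symm | exact hbc hij.symm)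
    have hcase := case3 h0 hKcomp hKc hzK (fun w hw => (hKZ hw).2) (p := p)
      (fun i => ((hF1m _).1 (hpF i)).1) (fun i => mem_sphere.1 ((hF1m _).1 (hpF i)).2) hinj
      (fun F hF' => hcomp (tr p F) (tr_closed p F) (tr_preconn p F) (by
        refine iUnion_subset fun i => ?_
        exact (convex_closedBall z ρ).segment_subset hF'
          (sphere_subset_closedBall ((hF1m _).1 (hpF i)).2)) (by
        intro q hq
        rw [hF, Finset.mem_insert, Finset.mem_insert, Finset.mem_singleton] at hq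
        rcases hq with rfl | rfl | rfl
        · exact mem_iUnion.2 ⟨0, right_mem_segment _ _ _⟩
        · exact mem_iUnion.2 ⟨1, right_mem_segment _ _ _⟩
        · exact mem_iUnion.2 ⟨2, right_mem_segment _ _ _⟩))
    have tran : ∀ ε, ε ≤ ρ → S ∩ ball z ε = K ∩ ball z ε := by
      intro ε hε
      ext w
      constructor
      · rintro ⟨h1, h2⟩
        exact ⟨hall w ⟨h1, ball_subset_ball hε h2⟩, h2⟩
      · rintro ⟨h1, h2⟩
        exact ⟨(hKZ h1).1, h2⟩
    rcases hcase with ⟨u, ε, h, hε⟩ | ⟨u, ε, h, hε⟩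
    · exact Or.inl ⟨u, ε, h.pos, h.unit, by rw [tran ε hε]; exact h.eq⟩
    · exact Or.inr ⟨u, ε, h.pos, h.norm, h.ang, by rw [tran ε hε]; exact h.eq⟩

end

theorem reg {d : ℕ} (hd : 1 ≤ d) : ST_REG d := by
  rintro A S x r L hA z ⟨hzS, hzb⟩ ⟨w, hw, hwz⟩
  have hD : 0 < dist w z := dist_pos.2 hwz
  have hgap : 0 < r - dist z x := by rw [mem_ball] at hzb; linarith
  set R := min (dist w z) (r - dist z x) with hR
  have hR0 : 0 < R := lt_min hD hgap
  have hR1 : R ≤ dist w z := min_le_left _ _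
  have hR2 : R ≤ r - dist z x := min_le_right _ _
  have L' : LocAdm A S z R := L.restrict hR0 (by
    intro v hv
    rw [mem_ball] at hv ⊢
    have := dist_triangle v z x
    linarith)
  obtain ⟨ρ, h0, hρ, h3⟩ := exists_three hd L' hA
  have hne := L'.sphere_nonempty hA (Or.inl hzS) hw h0 (lt_of_lt_of_le hρ hR1)
    (closedBall_subset_ball hρ)
  exact reg_core L' hA hzS h0 hρ hne h3

end H11ST
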