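import Pool.Agent.H11ST.Main
open MeasureTheory Metric Set Filter Topology
open scoped ENNReal NNReal

namespace H11ST
set_option linter.unusedSectionVars false
variable {d : ℕ}

/-- the directions at the right point -/
noncomputable def triR (e f : E d) : Fin 3 → E d :=
  ![vec e f (-1) 0, vec e f (1 / 2) (√3 / 2), vec e f (1 / 2) (-(√3 / 2))]

theorem triR_norm {e f : E d} (he : ‖e‖ = 1) (hf : ‖f‖ = 1) (hef : inner ℝ e f = 0) (i : Fin 3) :
    ‖triR e f i‖ = 1 := by
  have h3 := sq3
  fin_cases i
  · exact norm_vec_one he hf hef (by norm_num)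
  · exact norm_vec_one he hf hef (by nlinarith)
  · exact norm_vec_one he hf hef (by nlinarith)

theorem triR_ang {e f : E d} (he : ‖e‖ = 1) (hf : ‖f‖ = 1) (hef : inner ℝ e f = 0) (i j : Fin 3)
    (hij : i ≠ j) : inner ℝ (triR e f i) (triR e f j) = -(1 / 2 : ℝ) := by
  have h3 := sq3
  fin_cases i <;> fin_cases j <;> first
    | exact absurd rfl hij
    | (simp only [triR, Fin.zero_eta, Fin.mk_one, Fin.reduceFinMk, Matrix.cons_val_zero,
        Matrix.cons_val_one, Matrix.cons_val]
       rw [inner_vec he hf hef]; nlinarith)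

theorem two_le_N' (hd : 2 ≤ d) {t : ℝ} (ht : kap < t * √2) : 2 ≤ N d t := by
  obtain ⟨e, f, he, hf, hef⟩ := exists_pair hd
  have hk := kap_pos
  have h3 := sq3
  have h3lo : (1.7320 : ℝ) ≤ √3 := by
    rw [Real.le_sqrt' (by norm_num)]; norm_num
  have h3le : √3 ≤ 1.7322 := by
    rw [Real.sqrt_le_left (by norm_num)]; norm_num
  have hkap : kap ≤ 0.4227 := by rw [kap]; linarith
  have hkap2 : (0.42 : ℝ) ≤ kap := by rw [kap]; linarith
  have h2lo : (1.4142 : ℝ) ≤ √2 := by
    rw [Real.le_sqrt' (by norm_num)]; norm_num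
  have h2 : √2 * √2 = 2 := Real.mul_self_sqrt (by norm_num)
  set S : Set (E d) := sqS e f with hS
  set A : Set (E d) := sqA e f with hA
  -- directions at the left and at the right point
  set uL : Fin 3 → E d := tri e f with huL
  set uR : Fin 3 → E d := triR e f with huR
  set l : Fin 3 → ℝ := ![2 * kap, 2 * √3 / 3, 2 * √3 / 3] with hl
  have hAf : A.Finite := by rw [hA, sqA]; exact toFinite _
  have hAS : A ⊆ S := by
    rw [hA, hS, sqA, sqS]
    rintro z (rfl | rfl | rfl | rfl)
    · exact Or.inl (Or.inl (Or.inl (Or.inl (right_mem_segment ℝ _ _))))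
    · exact Or.inl (Or.inl (Or.inl (Or.inr (right_mem_segment ℝ _ _))))
    · exact Or.inl (Or.inr (right_mem_segment ℝ _ _))
    · exact Or.inr (right_mem_segment ℝ _ _)
  have hSc : IsConnected S := by
    refine ⟨⟨sql e f, Or.inl (Or.inl (Or.inl (Or.inl (left_mem_segment ℝ _ _))))⟩, ?_⟩
    rw [hS, sqS]
    refine IsPreconnected.union (sqr e f) ?_ (left_mem_segment ℝ _ _) ?_
      (convex_segment _ _).isPreconnected
    · exact Or.inr (left_mem_segment ℝ _ _)
    · refine IsPreconnected.union (sqr e f) ?_ (left_mem_segment ℝ _ _) ?_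
        (convex_segment _ _).isPreconnected
      · exact Or.inr (right_mem_segment ℝ _ _)
      · refine IsPreconnected.union (sql e f) ?_ (left_mem_segment ℝ _ _) ?_
          (convex_segment _ _).isPreconnected
        · exact Or.inr (left_mem_segment ℝ _ _)
        · exact IsPreconnected.union (sql e f) (left_mem_segment ℝ _ _) (left_mem_segment ℝ _ _)
            (convex_segment _ _).isPreconnected (convex_segment _ _).isPreconnected
  have hScl : IsClosed S := by
    rw [hS, sqS]
    exact ((((seg_closed _ _).union (seg_closed _ _)).union (seg_closed _ _)).union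
      (seg_closed _ _)).union (seg_closed _ _)
  have hSA : S ∪ A = S := union_eq_left.2 hAS
  have hadm : Admissible A S 0 (√2) :=
    { compact := hAf.isCompact
      steiner := ⟨hScl, by rw [hSA]; exact hSc, fun T hT hTA =>
        (sq_len he hf hef).trans (sq_lower he hf hef hT hTA)⟩
      tree := hSc
      rpos := by positivity
      far := by
        rw [eq_empty_iff_forall_notMem]
        have key : ∀ a b : ℝ, a ^ 2 + b ^ 2 = 2 → vec e f a b ∉ ball (0 : E d) (√2) := by
          intro a b hab hz
          rw [mem_ball, dist_zero_right] at hz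
          have h4 := norm_vec_sq he hf hef a b
          rw [hab] at h4
          nlinarith [norm_nonneg (vec e f a b)]
        rintro z ⟨hz, hzb⟩
        rw [hA, sqA] at hz
        rcases hz with rfl | rfl | rfl | rfl
        · exact key _ _ (by norm_num) hzb
        · exact key _ _ (by norm_num) hzb
        · exact key _ _ (by norm_num) hzb
        · exact key _ _ (by norm_num) hzb
      finite := lt_of_le_of_lt (sq_len he hf hef) ENNReal.ofReal_lt_top }
  refine le_N hadm ?_
  -- the first coordinate
  have coord : ∀ a b : ℝ, inner ℝ e (vec e f a b) = a := by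
    intro a b
    have h4 := inner_vec he hf hef 1 0 a b
    have h5 : vec e f 1 0 = e := by simp [vec]
    rw [h5] at h4; linarith
  have coord_seg : ∀ (p q : E d) (c : ℝ), c ≤ inner ℝ e p → c ≤ inner ℝ e q → ∀ z ∈ segment ℝ p q,
      c ≤ inner ℝ e z := by
    intro p q c hp hq z hz
    rw [segment_eq_image] at hz
    obtain ⟨θ, ⟨h0, h1⟩, rfl⟩ := hz
    simp only [inner_add_right, inner_smul_right]
    nlinarith
  have coord_seg' : ∀ (p q : E d) (c : ℝ), inner ℝ e p ≤ c → inner ℝ e q ≤ c → ∀ z ∈ segment ℝ p q,
      inner ℝ e z ≤ c := by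
    intro p q c hp hq z hz
    rw [segment_eq_image] at hz
    obtain ⟨θ, ⟨h0, h1⟩, rfl⟩ := hz
    simp only [inner_add_right, inner_smul_right]
    nlinarith
  have ball_coord : ∀ (p z : E d) (ε : ℝ), z ∈ ball p ε → |inner ℝ e z - inner ℝ e p| < ε := by
    intro p z ε hz
    rw [mem_ball, dist_eq_norm] at hz
    rw [← inner_sub_right]
    have h4 := abs_real_inner_le_norm e (z - p)
    rw [he, one_mul] at h4
    linarith
  have e1 : sql e f + (2 * kap) • vec e f 1 0 = sqr e f := by
    rw [sql, sqr, vec_smul, vec_add]; congr 1 <;> ring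
  have e2 : sql e f + (2 * √3 / 3) • vec e f (-(1 / 2)) (√3 / 2) = sqa e f := by
    rw [sql, sqa, vec_smul, vec_add]; congr 1
    · rw [kap]; ring
    · nlinarith
  have e3 : sql e f + (2 * √3 / 3) • vec e f (-(1 / 2)) (-(√3 / 2)) = sqb e f := by
    rw [sql, sqb, vec_smul, vec_add]; congr 1
    · rw [kap]; ring
    · nlinarith
  have e4 : sqr e f + (2 * kap) • vec e f (-1) 0 = sql e f := by
    rw [sql, sqr, vec_smul, vec_add]; congr 1 <;> ring
  have e5 : sqr e f + (2 * √3 / 3) • vec e f (1 / 2) (√3 / 2) = sqc e f := by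
    rw [sqr, sqc, vec_smul, vec_add]; congr 1
    · rw [kap]; ring
    · nlinarith
  have e6 : sqr e f + (2 * √3 / 3) • vec e f (1 / 2) (-(√3 / 2)) = sqd e f := by
    rw [sqr, sqd, vec_smul, vec_add]; congr 1
    · rw [kap]; ring
    · nlinarith
  have hlk : ∀ i, kap ≤ l i := by
    intro i
    fin_cases i
    · simp [hl]; linarith
    · simp [hl]; linarith
    · simp [hl]; linarith
  have f0 : sql e f + l 0 • uL 0 = sqr e f := e1
  have f1 : sql e f + l 1 • uL 1 = sqa e f := e2
  have f2 : sql e f + l 2 • uL 2 = sqb e f := e3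
  have g0 : sqr e f + l 0 • uR 0 = sql e f := e4
  have g1 : sqr e f + l 1 • uR 1 = sqc e f := e5
  have g2 : sqr e f + l 2 • uR 2 = sqd e f := e6
  have TL : Tri S (sql e f) uL kap := by
    refine tri_of_segments (l := l)
      (R := segment ℝ (sqr e f) (sqc e f) ∪ segment ℝ (sqr e f) (sqd e f)) hk
      (tri_norm he hf hef) (tri_ang he hf hef) hlk ?_ ?_
    · rw [hS, sqS]
      ext z
      simp only [mem_union, mem_iUnion]
      constructor
      · rintro ((((h | h) | h) | h) | h)
        · exact Or.inl ⟨1, by rw [f1]; exact h⟩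
        · exact Or.inl ⟨2, by rw [f2]; exact h⟩
        · exact Or.inl ⟨0, by rw [f0]; exact h⟩
        · exact Or.inr (Or.inl h)
        · exact Or.inr (Or.inr h)
      · rintro (⟨i, h⟩ | h | h)
        · match i, h with
          | 0, h => exact Or.inl (Or.inl (Or.inr (by rw [f0] at h; exact h)))
          | 1, h => exact Or.inl (Or.inl (Or.inl (Or.inl (by rw [f1] at h; exact h))))
          | 2, h => exact Or.inl (Or.inl (Or.inl (Or.inr (by rw [f2] at h; exact h))))
        · exact Or.inl (Or.inr h)
        · exact Or.inr h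
    · intro z hz hb
      have h4 := ball_coord _ _ _ hb
      rw [sql, coord, abs_lt] at h4
      have h5 : kap ≤ inner ℝ e z := by
        rcases hz with hz | hz
        · exact coord_seg _ _ kap (by rw [sqr, coord]) (by rw [sqc, coord]; linarith) z hz
        · exact coord_seg _ _ kap (by rw [sqr, coord]) (by rw [sqd, coord]; linarith) z hz
      linarith [h4.2]
  have TR : Tri S (sqr e f) uR kap := by
    refine tri_of_segments (l := l)
      (R := segment ℝ (sql e f) (sqa e f) ∪ segment ℝ (sql e f) (sqb e f)) hk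
      (triR_norm he hf hef) (triR_ang he hf hef) hlk ?_ ?_
    · rw [hS, sqS]
      ext z
      simp only [mem_union, mem_iUnion]
      constructor
      · rintro ((((h | h) | h) | h) | h)
        · exact Or.inr (Or.inl h)
        · exact Or.inr (Or.inr h)
        · exact Or.inl ⟨0, by rw [g0, segment_symm]; exact h⟩
        · exact Or.inl ⟨1, by rw [g1]; exact h⟩
        · exact Or.inl ⟨2, by rw [g2]; exact h⟩
      · rintro (⟨i, h⟩ | h | h)
        · match i, h with
          | 0, h => exact Or.inl (Or.inl (Or.inr (by rw [g0, segment_symm] at h; exact h)))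
          | 1, h => exact Or.inl (Or.inr (by rw [g1] at h; exact h))
          | 2, h => exact Or.inr (by rw [g2] at h; exact h)
        · exact Or.inl (Or.inl (Or.inl (Or.inl h)))
        · exact Or.inl (Or.inl (Or.inl (Or.inr h)))
    · intro z hz hb
      have h4 := ball_coord _ _ _ hb
      rw [sqr, coord, abs_lt] at h4
      have h5 : inner ℝ e z ≤ -kap := by
        rcases hz with hz | hz
        · exact coord_seg' _ _ (-kap) (by rw [sql, coord]) (by rw [sqa, coord]; linarith) z hz
        · exact coord_seg' _ _ (-kap) (by rw [sql, coord]) (by rw [sqb, coord]; linarith) z hz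
      linarith [h4.1]
  have hball : ∀ c : ℝ, |c| = kap → vec e f c 0 ∈ ball (0 : E d) (t * √2) := by
    intro c hc
    rw [mem_ball, dist_zero_right]
    have h4 := norm_vec_sq he hf hef c 0
    have h5 : ‖vec e f c 0‖ = kap := by
      rw [← hc]
      rw [← sq_eq_sq₀ (norm_nonneg _) (abs_nonneg _), h4, sq_abs]; ring
    rw [h5]
    exact ht
  have notA : ∀ c : ℝ, |c| = kap → vec e f c 0 ∉ A := by
    intro c hc h
    have hc1 : c ≠ -1 := by rintro rfl; rw [abs_neg, abs_one] at hc; linarith
    have hc2 : c ≠ 1 := by rintro rfl; rw [abs_one] at hc; linarith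
    rw [hA, sqA] at h
    rcases h with h | h | h | h
    · have := congrArg (fun v => inner ℝ e v) h
      simp only [sqa, coord] at this; exact hc1 this
    · have := congrArg (fun v => inner ℝ e v) h
      simp only [sqb, coord] at this; exact hc1 this
    · have := congrArg (fun v => inner ℝ e v) h
      simp only [sqc, coord] at this; exact hc2 this
    · have := congrArg (fun v => inner ℝ e v) h
      simp only [sqd, coord] at this; exact hc2 this
  have hneg : |-kap| = kap := by rw [abs_neg, abs_of_pos hk]
  have hpos : |kap| = kap := abs_of_pos hk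
  have hLR : sql e f ≠ sqr e f := by
    intro h
    have := congrArg (fun v => inner ℝ e v) h
    simp only [sql, sqr, coord] at this
    linarith
  have hsub : ({sql e f, sqr e f} : Set (E d)) ⊆ {y ∈ ball (0 : E d) (t * √2) | IsBranchingPoint A S y} := by
    rintro z (rfl | rfl)
    · exact ⟨hball _ hneg, notA _ hneg, uL, kap, TL.pos, TL.norm, TL.ang, TL.eq⟩
    · exact ⟨hball _ hpos, notA _ hpos, uR, kap, TR.pos, TR.norm, TR.ang, TR.eq⟩
  calc (2 : ℕ∞) = ({sql e f, sqr e f} : Set (E d)).encard := (Set.encard_pair hLR).symm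
    _ ≤ _ := Set.encard_le_encard hsub

theorem two_le_N (hd : 2 ≤ d) {t : ℝ} (ht : 3 / 10 ≤ t) : 2 ≤ N d t := by
  refine two_le_N' hd ?_
  have h3lo : (1.7320 : ℝ) ≤ √3 := by
    rw [Real.le_sqrt' (by norm_num)]; norm_num
  have h2lo : (1.4142 : ℝ) ≤ √2 := by
    rw [Real.le_sqrt' (by norm_num)]; norm_num
  have hkap : kap ≤ 0.4227 := by rw [kap]; linarith
  nlinarith

end H11ST
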