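import Pool.Agent.H11ST.Comp2
open MeasureTheory Metric Set Filter Topology
open scoped ENNReal NNReal

namespace H11ST

/-- near `z` the set `S` is a straight open segment through `z` of direction `u` -/
structure Lin {V : Type*} [NormedAddCommGroup V] [InnerProductSpace ℝ V] (S : Set V) (z u : V)
    (ε : ℝ) : Prop where
  pos : 0 < ε
  unit : ‖u‖ = 1
  eq : S ∩ ball z ε = {v | ∃ s : ℝ, |s| < ε ∧ v = z + s • u}

/-- near `z` the set `S` is a straight segment which is not tangent to the sphere around `x` -/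
def Good {V : Type*} [NormedAddCommGroup V] [InnerProductSpace ℝ V] (S : Set V) (x z : V) : Prop :=
  ∃ u ε, Lin S z u ε ∧ 0 < inner ℝ u (z - x)

/-- REG: regularity. Every point of `S` in the ball is a line point or a tripod point. -/
def ST_REG (d : ℕ) : Prop :=
  ∀ (A S : Set (E d)) (x : E d) (r : ℝ), LocAdm A S x r → IsClosed A →
    ∀ z ∈ S ∩ ball x r, (∃ w ∈ S ∪ A, w ≠ z) →
      (∃ u ε, Lin S z u ε) ∨ ∃ u ε, Tri S z u ε

/-- CORE: flux and growth at a good radius. -/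
def ST_CORE (d : ℕ) : Prop :=
  ∀ (A S : Set (E d)) (x : E d) (r : ℝ), LocAdm A S x r → IsClosed A →
    ∀ ρ₀ : ℝ, 0 < ρ₀ → ρ₀ < r →
    ∀ P : Finset (E d), (∀ p, p ∈ P ↔ p ∈ S ∩ sphere x ρ₀) → P.Nonempty →
    ∀ u : E d → E d, (∀ p ∈ P, ∃ ε, Lin S p (u p) ε) → (∀ p ∈ P, 0 < inner ℝ (u p) (p - x)) →
      ∑ p ∈ P, inner ℝ (u p) (p - x) ≤ len S x ρ₀ ∧
      ∃ δ > 0, ∀ ρ, ρ₀ < ρ → ρ < ρ₀ + δ → ρ < r → ∃ a : E d → ℝ,
        (∀ p ∈ P, 0 < a p ∧ a p ^ 2 + 2 * a p * inner ℝ (u p) (p - x) = ρ ^ 2 - ρ₀ ^ 2) ∧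
        len S x ρ₀ + ∑ p ∈ P, a p ≤ len S x ρ

/-- FINP: a sphere all of whose `S`-points are good meets `S` in finitely many points. -/
def ST_FINP (d : ℕ) : Prop :=
  ∀ (S : Set (E d)) (x : E d) (ρ₀ : ℝ), IsClosed S → (∀ z ∈ S ∩ sphere x ρ₀, Good S x z) →
    (S ∩ sphere x ρ₀).Finite

/-- FBAD: up to any radius `b < r` there are only finitely many bad radii. -/
def ST_FBAD (d : ℕ) : Prop :=
  ∀ (A S : Set (E d)) (x : E d) (r : ℝ), LocAdm A S x r →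
    (∀ z ∈ S ∩ ball x r, (∃ u ε, Lin S z u ε) ∨ ∃ u ε, Tri S z u ε) →
    ∀ b, b < r → {ρ : ℝ | 0 < ρ ∧ ρ ≤ b ∧ ∃ z ∈ S ∩ sphere x ρ, ¬ Good S x z}.Finite

/-- GI: the inequality for the square of the length. -/
def ST_GI (d : ℕ) : Prop :=
  ∀ (A S : Set (E d)) (x : E d) (r : ℝ), LocAdm A S x r → IsClosed A →
    (∀ z ∈ S ∩ ball x r, (∃ u ε, Lin S z u ε) ∨ ∃ u ε, Tri S z u ε) →
    ∀ (a b : ℝ), 0 ≤ a → a ≤ b → b < r →
    ∀ m : ℕ, (∀ ρ ∈ Ioo a b, (m : ℕ∞) ≤ (S ∩ sphere x ρ).encard) →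
      len S x a ^ 2 + (m : ℝ) ^ 2 * (b ^ 2 - a ^ 2) ≤ len S x b ^ 2

end H11ST
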